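import Pool.Agent.Work.MP_8dbde4_lc.Om.Stmts

/-!
# Item BLW: the patterns are closed under common refinement
-/

set_option autoImplicit false
open Classical

namespace Pool.Agent.Work.MP_8dbde4_lc.Om

open Pool.Agent.Work.MP_8dbde4_lc.TS
open Pool.Agent.Work.MP_8dbde4_lc.Tree (Word Agr Cc)
open Pool.Agent.Work.MP_8dbde4_lc.Phy (PP Hom)
open Pool.Agent.Work.MP_8dbde4_lc.Bra (Same InvU CC)

namespace XBLW

variable {c : ℚ → ℕ} {σ : Sig} {X : Type}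

lemma pat_mt {𝔅 : Str σ (Word c)} (hK : KP 𝔅) [Finite X] {S : (X → Word c) → Prop} {Y : Set X}
    (hS : PP 𝔅 S) {h h' : X → ℕ} (H : Pat S Y h) (H' : Pat S Y h') : Pat S Y (mt h h') := by
  rcases H with H | ⟨v, hv, H⟩
  · refine Pat.congr H' ?_
    intro x hx y hy
    rw [mt_eq]
    exact ⟨fun h1 => ⟨H x hx y hy, h1⟩, fun h1 => h1.2⟩
  · rcases H' with H' | ⟨v', hv', H'⟩
    · refine Pat.congr (Or.inr ⟨v, hv, H⟩) ?_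
      intro x hx y hy
      rw [mt_eq]
      exact ⟨fun h1 => ⟨h1, H' x hx y hy⟩, fun h1 => h1.1⟩
    · exact Or.inr (hK X S hS Y h h' ⟨v, hv, H⟩ ⟨v', hv', H'⟩)

/-- the kernel on `Y` -/
def ker (Y : Set X) (g : X → ℕ) : Set (X × X) := {p | p.1 ∈ Y ∧ p.2 ∈ Y ∧ g p.1 = g p.2}

/-- patterns coarser than `π` -/
def Co (S : (X → Word c) → Prop) (Y : Set X) (π g : X → ℕ) : Prop :=
  Pat S Y g ∧ ∀ x ∈ Y, ∀ y ∈ Y, π x = π y → g x = g y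

lemma exists_finest {𝔅 : Str σ (Word c)} (hK : KP 𝔅) [Finite X] {S : (X → Word c) → Prop}
    {Y : Set X} (hS : PP 𝔅 S) (π : X → ℕ) : ∃ ρ : X → ℕ, Co S Y π ρ ∧
      ∀ g, Co S Y π g → ∀ x ∈ Y, ∀ y ∈ Y, ρ x = ρ y → g x = g y := by
  have hex : ∃ n : ℕ, ∃ g, Co S Y π g ∧ (ker Y g).ncard = n :=
    ⟨_, fun _ => 0, ⟨Or.inl fun _ _ _ _ => rfl, fun _ _ _ _ _ => rfl⟩, rfl⟩
  obtain ⟨ρ, hρ, hn⟩ := Nat.find_spec hex
  refine ⟨ρ, hρ, fun g hg x hx y hy hxy => ?_⟩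
  have hm : Co S Y π (mt ρ g) :=
    ⟨pat_mt hK hS hρ.1 hg.1, fun a ha b hb hab => mt_eq.2 ⟨hρ.2 a ha b hb hab, hg.2 a ha b hb hab⟩⟩
  have hle : (ker Y ρ).ncard ≤ (ker Y (mt ρ g)).ncard := by
    rw [hn]
    exact Nat.find_min' hex ⟨mt ρ g, hm, rfl⟩
  have hsub : ker Y (mt ρ g) ⊆ ker Y ρ := fun p hp => ⟨hp.1, hp.2.1, (mt_eq.1 hp.2.2).1⟩
  have heq : ker Y (mt ρ g) = ker Y ρ := Set.eq_of_subset_of_ncard_le hsub hle (Set.toFinite _)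
  have hmem : ((x, y) : X × X) ∈ ker Y ρ := ⟨hx, hy, hxy⟩
  rw [← heq] at hmem
  exact (mt_eq.1 hmem.2.2).2

end XBLW

theorem BLW_pf : S_BLW := by
  intro c σ 𝔅 hK X _ S Y hS
  refine ⟨fun h h' H H' => XBLW.pat_mt hK hS H H', fun π => ?_, fun π hπ => ?_⟩
  · obtain ⟨ρ, hρ, h1⟩ := XBLW.exists_finest hK (Y := Y) hS π
    exact ⟨ρ, hρ.1, hρ.2, fun g hg hg' => h1 g ⟨hg, hg'⟩⟩
  · obtain ⟨ρ, hρ, h1⟩ := XBLW.exists_finest hK (Y := Y) hS π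
    by_contra hcon
    push Not at hcon
    apply hπ
    refine Pat.congr hρ.1 fun x hx y hy => ⟨fun hxy => ?_, hρ.2 x hx y hy⟩
    by_contra hne
    obtain ⟨g, hg, hg', hgne⟩ := hcon x hx y hy hne
    exact hgne (h1 g ⟨hg, hg'⟩ x hx y hy hxy)

end Pool.Agent.Work.MP_8dbde4_lc.Om
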