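import Pool.Agent.Work.MP_8dbde4_lc.Om.Stmts
import Pool.Agent.Work.MP_8dbde4_lc.Phy.I_PPB

/-!
Item BNW of the block Om of MP_8dbde4_lc: binary members if threefold branching is not
primitive positive definable.
-/

set_option autoImplicit false
open Classical

namespace Pool.Agent.Work.MP_8dbde4_lc.Om

open Pool.Agent.Work.MP_8dbde4_lc.TS
open Pool.Agent.Work.MP_8dbde4_lc.Tree (Word Agr Cc)
open Pool.Agent.Work.MP_8dbde4_lc.Phy (PP Hom)
open Pool.Agent.Work.MP_8dbde4_lc.Bra (Same InvU CC)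

namespace XBNW

theorem congrP {σ : Sig} {B : Type} {𝔅 : Str σ B} {X : Type} {S S' : (X → B) → Prop}
    (h : PP 𝔅 S) (e : ∀ v, S v ↔ S' v) : PP 𝔅 S' := by
  have : S = S' := funext fun v => propext (e v)
  rw [← this]
  exact h

theorem ne_iff {c : ℚ → ℕ} (x y : Word c) : x ≠ y ↔ Cc y x x := by
  constructor
  · intro h
    obtain ⟨q, h1, h2⟩ := first_diff (Ne.symm h)
    exact ⟨q, h1, h1, rfl, h2⟩
  · intro h
    exact (cc_ne h).1.symm

theorem cc_symm {c : ℚ → ℕ} {x y z : Word c} (h : Cc z x y) : Cc z y x := by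
  obtain ⟨q, h1, h2, h3, h4⟩ := h
  exact ⟨q, h2, h1, h3.symm, fun h5 => h4 (h5.trans h3.symm)⟩

theorem star_eq {c : ℚ → ℕ} {v : Fin 3 → Word c} (h : Star (v 0) (v 1) (v 2)) (i j : Fin 3) :
    v i = v j ↔ i = j := by
  obtain ⟨h1, h2, h3, -, -, -⟩ := h
  constructor
  · intro e
    fin_cases i <;> fin_cases j <;> simp_all
  · intro e
    rw [e]

theorem star_cc {c : ℚ → ℕ} {v : Fin 3 → Word c} (h : Star (v 0) (v 1) (v 2)) (i j k : Fin 3) :
    Cc (v k) (v i) (v j) ↔ i = j ∧ k ≠ i := by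
  constructor
  · intro hc
    have h1 : k ≠ i := fun e => (cc_ne hc).1 (by rw [e])
    have h2 : k ≠ j := fun e => (cc_ne hc).2 (by rw [e])
    refine ⟨?_, h1⟩
    by_contra h3
    obtain ⟨-, -, -, h4, h5, h6⟩ := h
    have h7 := cc_symm hc
    fin_cases i <;> fin_cases j <;> fin_cases k <;> simp_all
  · rintro ⟨rfl, h1⟩
    rw [← ne_iff]
    intro h2
    exact h1 ((star_eq h i k).1 h2).symm

end XBNW

open XBNW in
theorem BNW_pf : S_BNW := by
  intro c σ 𝔅 hIV hC hN X _ S hS hne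
  obtain ⟨-, h2, h3, h4, -, -, h7⟩ := Phy.PPB_pf σ (Word c) 𝔅
  let T : (X → Word c) → Set (X × X × X) :=
    fun w => {t | Cc (w t.2.2) (w t.1) (w t.2.1)}
  obtain ⟨w₀, hw₀⟩ := hne
  obtain ⟨t₀, ⟨w, hw, rfl⟩, hmax⟩ := Set.exists_max_image (T '' {w | S w}) Set.ncard
    (Set.toFinite _) ⟨T w₀, w₀, hw₀, rfl⟩
  let S' : (X → Word c) → Prop := fun u => S u ∧ ∀ t : {t : X × X × X // t ∈ T w},
    Cc (u t.1.2.2) (u t.1.1) (u t.1.2.1)
  have hS' : PP 𝔅 S' := by
    refine h2 X S _ hS (h7 X {t : X × X × X // t ∈ T w}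
      (fun t v => Cc (v t.1.2.2) (v t.1.1) (v t.1.2.1)) (fun t => ?_))
    refine congrP (h3 (Fin 3) X (CC (c := c)) ![t.1.2.2, t.1.1, t.1.2.1] hC) ?_
    intro v
    simp [CC, Loc.CC]
  have hw' : S' w := ⟨hw, fun t => t.2⟩
  have hsame : ∀ u, S' u → Same w u := by
    intro u hu
    have hT : T w = T u := by
      refine Set.eq_of_subset_of_ncard_le (fun t ht => hu.2 ⟨t, ht⟩) ?_ (Set.toFinite _)
      exact hmax (T u) ⟨u, hu.1, rfl⟩
    have hcc : ∀ x y z, Cc (w z) (w x) (w y) ↔ Cc (u z) (u x) (u y) := by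
      intro x y z
      have h8 : (x, y, z) ∈ T w ↔ (x, y, z) ∈ T u := by rw [hT]
      exact h8
    refine ⟨fun x y => ?_, hcc⟩
    have h9 := hcc x x y
    rw [← ne_iff, ← ne_iff] at h9
    exact not_iff_not.1 h9
  refine ⟨w, hw, ?_⟩
  by_contra hb
  apply hN
  have hex : ∃ x y z, Star (w x) (w y) (w z) := by
    unfold Bra.BinOn at hb
    push Not at hb
    obtain ⟨x, -, y, -, z, -, hn⟩ := hb
    obtain ⟨n1, n2, n3, n4⟩ := hn
    refine ⟨x, y, z, ?_⟩
    rcases cc_cases (w x) (w y) (w z) with e | e | e | e | e | e | e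
    · exfalso
      have h8 := n1 e
      rw [ne_eq, ← ne_eq, ← e, ne_iff] at h8
      rw [← e] at n2
      exact n2 h8
    · exfalso
      by_cases h9 : w x = w y
      · exact n1 h9 e
      · rw [← e] at n4
        exact n4 ((ne_iff (w y) (w x)).1 (fun h => h9 h.symm))
    · exfalso
      by_cases h9 : w x = w y
      · exact n1 h9 (h9.symm.trans e)
      · rw [← e] at n3
        exact n3 ((ne_iff (w x) (w y)).1 h9)
    · exact absurd e n2
    · exact absurd e n3
    · exact absurd e n4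
    · exact e
  obtain ⟨x, y, z, hst⟩ := hex
  have hP := h4 X (Fin 3) S' ![x, y, z] hS'
  refine congrP hP ?_
  intro u
  constructor
  · rintro ⟨v, hv, huv⟩
    have h8 := ((SameOn.of_same (hsame v hv) Set.univ).star (Set.mem_univ x) (Set.mem_univ y)
      (Set.mem_univ z)).1 hst
    unfold N3
    rw [huv 0, huv 1, huv 2]
    exact h8
  · intro hu
    have h8 : Star ((fun i => w (![x, y, z] i)) 0) ((fun i => w (![x, y, z] i)) 1)
        ((fun i => w (![x, y, z] i)) 2) := hst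
    refine hIV (Fin 3) _ hP (fun i => w (![x, y, z] i)) u ⟨fun i j => ?_, fun i j k => ?_⟩
      ⟨w, hw', fun i => rfl⟩
    · rw [star_eq hu i j]
      exact star_eq (v := fun i => w (![x, y, z] i)) h8 i j
    · rw [star_cc hu i j k]
      exact star_cc (v := fun i => w (![x, y, z] i)) h8 i j k

end Pool.Agent.Work.MP_8dbde4_lc.Om
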