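import Pool.Agent.Work.MP_8dbde4_lc.Om.StmtsP
import Pool.Agent.Work.MP_8dbde4_lc.HP.Fix
import Pool.Agent.Work.MP_8dbde4_lc.HP.Base
import Pool.Agent.Work.MP_8dbde4_lc.HP.Expr

/-!
# The refinement is definable in every closed logic
-/

set_option autoImplicit false
open Classical

namespace Pool.Agent.Work.MP_8dbde4_lc.Om

open Pool.Agent.Work.MP_8dbde4_lc.TS
open Pool.Agent.Work.MP_8dbde4_lc.HP (add adds red un Query IsClosed InE St defStr expr_un)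

namespace XFMW

variable {N : ℕ} {A : Type}
variable {E : (σ : Sig) → (ι : Type) → Query σ ι → Prop}

/-- one step of the closure -/
def cloQ (N : ℕ) : Query (add (add (sR N) 1) 2) (Fin 2) := fun A 𝔄 t =>
  t 1 = t 0 ∨ 𝔄.rel none ![t 1, t 0] ∨ (∃ z : A, 𝔄.rel none ![t 0, z] ∧ 𝔄.rel none ![z, t 1]) ∨
  ∃ s : SyR N, ∃ u : Fin s.1.val → A, 𝔄.rel (some (some (Sum.inl s))) u ∧
      (∀ i, un (red 𝔄) (u i)) ∧ (∀ e : Fin s.1.val × Fin s.1.val, e ∈ s.2.1 →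
        𝔄.rel none ![u e.1, u e.2]) ∧ t 0 = u s.2.2.1 ∧ t 1 = u s.2.2.2

lemma vec2 {ι A : Type} (f : ι → A) (i j : ι) :
    (fun k : Fin 2 => f ((![i, j] : Fin 2 → ι) k)) = ![f i, f j] := by
  funext k
  fin_cases k <;> rfl

lemma expr_X (hE : IsClosed E) {σ : Sig} {ι : Type} (i j : ι) :
    E (add σ 2) ι (fun _ 𝔄 t => 𝔄.rel none ![t i, t j]) := by
  refine hE.congr (hE.rel (σ := add σ 2) (ι := ι) none
    (fun k : Fin 2 => (![i, j] : Fin 2 → ι) k)) (fun A _ _ 𝔄 t => ?_)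
  exact iff_of_eq (congrArg (fun u : Fin 2 → A => 𝔄.rel none u) (vec2 t i j).symm)

lemma expr_cloQ (hE : IsClosed E) (N : ℕ) : E _ _ (cloQ N) := by
  refine hE.or (hE.eq (σ := add (add (sR N) 1) 2) (ι := Fin 2) 1 0) (hE.or (expr_X hE 1 0)
    (hE.or ?_ (hE.exI fun s => ?_)))
  · exact hE.congr (hE.ex (P := fun _ 𝔄 v => 𝔄.rel none ![v (some (0 : Fin 2)), v none] ∧
      𝔄.rel none ![v none, v (some (1 : Fin 2))]) (hE.and (expr_X hE _ _) (expr_X hE _ _)))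
      (fun A _ _ 𝔄 t => Iff.rfl)
  · refine hE.congr (hE.exT (P := fun A 𝔄 v => 𝔄.rel (some (some (Sum.inl s)))
        (fun i => v (Sum.inr i)) ∧
      (∀ i : Fin s.1.val, 𝔄.rel (some none) (fun _ => v (Sum.inr i))) ∧
      (∀ e : Fin s.1.val × Fin s.1.val, e ∈ s.2.1 →
        𝔄.rel none ![v (Sum.inr e.1), v (Sum.inr e.2)]) ∧
      v (Sum.inl 0) = v (Sum.inr s.2.2.1) ∧ v (Sum.inl 1) = v (Sum.inr s.2.2.2)) ?_)
      (fun A _ _ 𝔄 t => ?_)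
    · refine hE.and (hE.rel (σ := add (add (sR N) 1) 2) (ι := Fin 2 ⊕ Fin s.1.val)
        (some (some (Sum.inl s))) _)
        (hE.and (hE.allI fun i => hE.rel (σ := add (add (sR N) 1) 2)
          (ι := Fin 2 ⊕ Fin s.1.val) (some none) (fun _ => Sum.inr i))
        (hE.and (hE.allI fun e => ?_) (hE.and (hE.eq _ _) (hE.eq _ _))))
      exact hE.congr (hE.or (hE.const (¬ e ∈ s.2.1)) (expr_X hE (Sum.inr e.1) (Sum.inr e.2)))
        (fun A _ _ 𝔄 t => imp_iff_not_or)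
    · exact Iff.rfl

lemma st_mono {σ : Sig} {P : Query (add σ 2) (Fin 2)} {𝔄 : Str σ A} {m n : ℕ} (h : m ≤ n)
    {x y : A} (hx : St P 𝔄 m x y) : St P 𝔄 n x y := by
  induction h with
  | refl => exact hx
  | step _ ih => exact Or.inl ih

lemma st_clo (𝔄 : Str (add (sR N) 1) A) : ∀ (n : ℕ) (x y : A),
    St (cloQ N) 𝔄 n x y → Clo (red 𝔄) {x | un 𝔄 x} x y
  | 0, _, _, h => absurd h (fun h => h)
  | n + 1, x, y, h => by
    rcases h with h | (h | h | ⟨z, h1, h2⟩ | ⟨s, u, h1, h2, h3, h4, h5⟩)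
    · exact st_clo 𝔄 n x y h
    · have : y = x := h
      rw [this]
      exact Clo.refl _
    · have h1 : St (cloQ N) 𝔄 n y x := h
      exact (st_clo 𝔄 n y x h1).symm
    · have h3 : St (cloQ N) 𝔄 n x z := h1
      have h4 : St (cloQ N) 𝔄 n z y := h2
      exact (st_clo 𝔄 n x z h3).trans (st_clo 𝔄 n z y h4)
    · have hx : x = u s.2.2.1 := h4
      have hy : y = u s.2.2.2 := h5
      rw [hx, hy]
      refine Clo.step s u h1 (fun i => h2 i) (fun e he => ?_)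
      have h7 : St (cloQ N) 𝔄 n (u e.1) (u e.2) := h3 e he
      exact st_clo 𝔄 n _ _ h7

lemma clo_st (𝔄 : Str (add (sR N) 1) A) (x y : A)
    (h : Clo (red 𝔄) {x | un 𝔄 x} x y) : ∃ n, St (cloQ N) 𝔄 n x y := by
  induction h with
  | refl x => exact ⟨1, Or.inr (Or.inl rfl)⟩
  | symm _ ih =>
    obtain ⟨n, hn⟩ := ih
    exact ⟨n + 1, Or.inr (Or.inr (Or.inl hn))⟩
  | @trans x y z _ _ ih1 ih2 =>
    obtain ⟨n, hn⟩ := ih1
    obtain ⟨m, hm⟩ := ih2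
    exact ⟨max n m + 1, Or.inr (Or.inr (Or.inr (Or.inl ⟨y, st_mono (le_max_left n m) hn,
      st_mono (le_max_right n m) hm⟩)))⟩
  | step s t h1 h2 _ ih =>
    choose! F hF using ih
    obtain ⟨M, hM⟩ : ∃ M, ∀ e ∈ s.2.1, F e ≤ M := by
      have := Fintype.ofFinite (Fin s.1.val × Fin s.1.val)
      exact ⟨Finset.univ.sup F, fun e _ => Finset.le_sup (Finset.mem_univ e)⟩
    exact ⟨M + 1, Or.inr (Or.inr (Or.inr (Or.inr ⟨s, t, h1, h2,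
      fun e he => st_mono (hM e he) (hF e he), rfl, rfl⟩)))⟩

/-- the closure, as a query -/
lemma expr_clo (hE : IsClosed E) (N : ℕ) :
    E (add (sR N) 1) (Fin 2) (fun _ 𝔄 t => Clo (red 𝔄) {x | un 𝔄 x} (t 0) (t 1)) :=
  hE.congr (hE.ifp (expr_cloQ hE N)) (fun A _ _ 𝔄 t =>
    ⟨fun h => clo_st 𝔄 _ _ h, fun ⟨n, h⟩ => st_clo 𝔄 n _ _ h⟩)

/-- the substitution: `W` is the class of the variable `0` -/
def D : (R : (add (sR N) 1).S) → Query (add (sR N) 2) (Fin 2 ⊕ Fin ((add (sR N) 1).ar R))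
  | none => fun _ 𝔄 s => ¬ 𝔄.rel none
      (fun i : Fin 2 => s ((![Sum.inl 0, Sum.inr (0 : Fin 1)] : Fin 2 → Fin 2 ⊕ Fin 1) i))
  | some R => fun _ 𝔄 s => 𝔄.rel (some R) (fun i => s (Sum.inr i))

lemma expr_D (hE : IsClosed E) (R : (add (sR N) 1).S) : E _ _ (D (N := N) R) := by
  cases R with
  | none =>
    exact hE.not (hE.rel (σ := add (sR N) 2) (ι := Fin 2 ⊕ Fin 1) none
      (fun i : Fin 2 => (![Sum.inl 0, Sum.inr (0 : Fin 1)] : Fin 2 → Fin 2 ⊕ Fin 1) i))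
  | some R =>
    exact hE.rel (σ := add (sR N) 2) (ι := Fin 2 ⊕ Fin ((sR N).ar R)) (some R)
      (fun i => Sum.inr i)

/-- one round of the refinement -/
def refQ (N : ℕ) : Query (add (sR N) 2) (Fin 2) := fun _ 𝔄 t =>
  ¬ Clo (red 𝔄) {z | ¬ 𝔄.rel none ![t 0, z]} (t 0) (t 1)

lemma expr_refQ (hE : IsClosed E) (N : ℕ) : E _ _ (refQ N) := by
  refine hE.not (hE.congr (hE.subst (expr_clo hE N) (fun R => expr_D (N := N) hE R))
    (fun A _ _ 𝔄 t => ?_))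
  have h1 : {z | ¬ 𝔄.rel none ![t 0, z]} = {x | un (defStr D 𝔄 t) x} := by
    ext z
    show (¬ 𝔄.rel none ![t 0, z]) ↔ (¬ 𝔄.rel none (fun i : Fin 2 =>
      Sum.elim t (fun _ => z) ((![Sum.inl 0, Sum.inr (0 : Fin 1)] : Fin 2 → Fin 2 ⊕ Fin 1) i)))
    rw [vec2]
    exact Iff.rfl
  rw [h1]
  exact Iff.rfl

lemma st_sep (𝔄 : Str (sR N) A) : ∀ (n : ℕ) (x y : A),
    St (refQ N) 𝔄 n x y ↔ Sep 𝔄 n x y
  | 0, _, _ => Iff.rfl
  | n + 1, x, y => by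
    show (St (refQ N) 𝔄 n x y ∨ ¬ Clo 𝔄 {z | ¬ St (refQ N) 𝔄 n x z} x y) ↔
      (Sep 𝔄 n x y ∨ ¬ Clo 𝔄 {z | ¬ Sep 𝔄 n x z} x y)
    have h1 : {z | ¬ St (refQ N) 𝔄 n x z} = {z | ¬ Sep 𝔄 n x z} := by
      ext z
      exact not_congr (st_sep 𝔄 n x z)
    rw [h1, st_sep 𝔄 n x y]

lemma expr_sep (hE : IsClosed E) (N : ℕ) :
    E (sR N) (Fin 2) (fun _ 𝔄 t => ∃ n, Sep 𝔄 n (t 0) (t 1)) :=
  hE.congr (hE.ifp (expr_refQ hE N)) (fun A _ _ 𝔄 t =>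
    exists_congr fun n => (st_sep 𝔄 n _ _).symm)

lemma expr_acc (hE : IsClosed E) (N : ℕ) :
    InE E (fun (A : Type) (𝔄 : Str (sR N) A) => Acc 𝔄) := by
  have h1 : E (sR N) Empty (fun A 𝔄 _ => ¬ ∃ t : Fin 2 → A, 𝔄.rel (Sum.inr ()) t ∧
      ¬ ∃ n, Sep 𝔄 n (t 0) (t 1)) := by
    refine hE.not (hE.congr (hE.exT (ι := Empty) (n := 2) (P := fun A 𝔄 v =>
      𝔄.rel (Sum.inr ()) (fun i : Fin 2 => v (Sum.inr i)) ∧
      ¬ ∃ n, Sep 𝔄 n (v (Sum.inr 0)) (v (Sum.inr 1))) ?_) (fun A _ _ 𝔄 t => Iff.rfl))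
    refine hE.and (hE.rel (σ := sR N) (ι := Empty ⊕ Fin 2) (Sum.inr ()) (fun i => Sum.inr i))
      (hE.not ?_)
    exact hE.congr (hE.reindex (expr_sep hE N)
      (![Sum.inr 0, Sum.inr 1] : Fin 2 → Empty ⊕ Fin 2)) (fun A _ _ 𝔄 t => Iff.rfl)
  refine hE.congr h1 (fun A _ _ 𝔄 t => ?_)
  constructor
  · rintro h3 ⟨t, h4, h5⟩
    exact h5 (h3 t h4)
  · intro h3 t h4
    by_contra h5
    exact h3 ⟨t, h4, h5⟩

end XFMW

theorem FMW_pf : S_FMW := fun N =>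
  (HP.inE_FP _).1 (XFMW.expr_acc HP.isClosed_FP N)

end Pool.Agent.Work.MP_8dbde4_lc.Om
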