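import Pool.Agent.Work.MP_8dbde4_lc.Om.Stmts

/-!
# First splits exist; gluing
-/

set_option autoImplicit false
open Classical

namespace Pool.Agent.Work.MP_8dbde4_lc.Om

open Pool.Agent.Work.MP_8dbde4_lc.TS
open Pool.Agent.Work.MP_8dbde4_lc.Tree (Word Agr Cc)
open Pool.Agent.Work.MP_8dbde4_lc.Phy (PP Hom)
open Pool.Agent.Work.MP_8dbde4_lc.Bra (Same InvU CC)

theorem FSW_pf : S_FSW := by
  intro c X _ Y v hne
  obtain ⟨x₀, hx₀, y₀, hy₀, h₀⟩ := hne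
  let D : Set ℚ := {q | ∃ x ∈ Y, ∃ y ∈ Y, (v x).1 q ≠ (v y).1 q}
  have hfin : D.Finite := by
    refine (Set.finite_iUnion fun x : X => (v x).2).subset ?_
    rintro q ⟨x, _, y, _, hxy⟩
    by_cases h1 : (v x).1 q = c q
    · refine Set.mem_iUnion.2 ⟨y, ?_⟩
      intro h2
      exact hxy (h1.trans h2.symm)
    · exact Set.mem_iUnion.2 ⟨x, h1⟩
  have hn : D.Nonempty := by
    by_contra h1
    apply h₀
    apply Subtype.ext
    funext q
    by_contra h2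
    exact h1 ⟨q, x₀, hx₀, y₀, hy₀, h2⟩
  obtain ⟨q, hq, hmin⟩ := Set.exists_min_image D id hfin hn
  refine ⟨fun x => (v x).1 q, ?_, q, ?_, ?_⟩
  · obtain ⟨x, hx, y, hy, hxy⟩ := hq
    exact ⟨x, hx, y, hy, hxy⟩
  · intro x hx y hy q' hq'
    by_contra h2
    exact absurd (hmin q' ⟨x, hx, y, hy, h2⟩) (not_le.2 hq')
  · intro x _ y _
    exact Iff.rfl

theorem GLW_pf : S_GLW := by
  intro c X Y v w h hv hw hs
  constructor
  · intro x hx y hy
    by_cases hxy : h x = h y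
    · exact (hs (h x)).1 x ⟨hx, rfl⟩ y ⟨hy, hxy.symm⟩
    · exact ⟨fun h1 => absurd h1 (hv.ne hx hy hxy), fun h1 => absurd h1 (hw.ne hx hy hxy)⟩
  · intro x hx y hy z hz
    by_cases hxy : h x = h y
    · by_cases hzx : h z = h x
      · exact (hs (h x)).2 x ⟨hx, rfl⟩ y ⟨hy, hxy.symm⟩ z ⟨hz, hzx⟩
      · exact ⟨fun _ => hw.cc hx hy hz hxy hzx, fun _ => hv.cc hx hy hz hxy hzx⟩
    · exact ⟨fun h1 => absurd (hv.eq_of_cc hx hy hz h1) hxy,
        fun h1 => absurd (hw.eq_of_cc hx hy hz h1) hxy⟩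

end Pool.Agent.Work.MP_8dbde4_lc.Om
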