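import Pool.Agent.Work.MP_8dbde4_lc.Om.StmtsE

/-!
The gadget (S_GDW).
-/

set_option autoImplicit false
open Classical

namespace Pool.Agent.Work.MP_8dbde4_lc.Om

open Pool.Agent.Work.MP_8dbde4_lc.TS
open Pool.Agent.Work.MP_8dbde4_lc.Tree (Word Agr Cc Gad Den row BFSys)
open Pool.Agent.Work.MP_8dbde4_lc.Phy (PP Hom TI)
open Pool.Agent.Work.MP_8dbde4_lc.Bra (Same InvU CC)

namespace XGDW

variable {M : Type}

theorem z2 (s : ZMod 2) : s = 0 ∨ s = 1 := by
  revert s; decide

/-- The gadget. -/
def gad (x₀ x₁ : M) : Gad M 2 (ZMod 2 × ZMod 2) where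
  io s := if s = 0 then x₀ else x₁
  u s := fun _ => if s = 0 then x₀ else x₁
  x s := fun i => if s + i.1 = 0 then x₀ else x₁
  y s := fun i => if s + i.2 = 0 then x₀ else x₁
  z s := fun i => if s + i.1 + i.2 = 0 then x₀ else x₁

end XGDW

open XGDW in
theorem GDW_pf : S_GDW := by
  intro hI n m P hm hshape
  obtain ⟨x₀, x₁, h01⟩ : ∃ x₀ x₁ : Fin m, x₀ ≠ x₁ :=
    ⟨⟨0, by omega⟩, ⟨1, by omega⟩, by simp [Fin.ext_iff]⟩
  refine ⟨gad x₀ x₁, ?_, ?_, ?_⟩
  · simpa [gad] using h01
  · intro α β
    refine ⟨fun t => t (α, β), ?_, ?_⟩
    · intro t ht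
      exact ht (α, β)
    · intro s
      simp [gad]
  · intro G _ _ g h hG H f hpol heq
    have hsh := fun v α β => hshape (ZMod 2 × ZMod 2) (f v α β) (hpol v α β)
    have hne : (1 : ZMod 2) ≠ 0 := by decide
    by_cases hH : H 1 0 = H 1 1
    · have hconst : ∀ v α β t, f v α β t = H 1 0 := by
        intro v α β t
        rcases hsh v α β with ⟨c, hc⟩ | ⟨i, k, hk, hkt⟩
        · rw [hc t, ← hc ((gad x₀ x₁).u 0)]
          exact (heq v α β 0).1
        · exfalso
          have e0 := (heq v α β 0).1
          have e1 := (heq v α β 1).1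
          rw [hkt] at e0 e1
          have : k ((gad x₀ x₁).u 0 i) = k ((gad x₀ x₁).u 1 i) := by
            rw [e0, e1, hH]
          have := hk this
          simp [gad] at this
          exact h01 this
      refine ⟨H 1 0, ?_, hconst⟩
      intro v s
      have := (heq v 0 0 s).2.1
      rw [add_zero] at this
      rw [← this]
      exact hconst v 0 0 _
    · exfalso
      have hinj : ∀ s s', H 1 s = H 1 s' → s = s' := by
        intro s s' hs
        rcases z2 s with rfl | rfl <;> rcases z2 s' with rfl | rfl
        · rfl
        · exact absurd hs hH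
        · exact absurd hs.symm hH
        · rfl
      -- for each `v` the shifts
      have hab : ∀ v, ∃ a b : ZMod 2, (∀ s, H v s = H 1 (s + a)) ∧
          (∀ s, H (v * g) s = H 1 (s + b)) ∧ ∀ s, H (v * h) (s - 1) = H 1 (s + a + b) := by
        intro v
        rcases hsh v 0 0 with ⟨c, hc⟩ | ⟨⟨a, b⟩, k, hk, hkt⟩
        · exfalso
          apply hH
          rw [← (heq v 0 0 0).1, ← (heq v 0 0 1).1, hc, hc]
        · refine ⟨a, b, ?_, ?_, ?_⟩
          · intro s
            have e1 := (heq v 0 0 s).2.1
            have e2 := (heq v 0 0 (s + a)).1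
            rw [add_zero] at e1
            rw [← e1, ← e2, hkt, hkt]
            rfl
          · intro s
            have e1 := (heq v 0 0 s).2.2.1
            have e2 := (heq v 0 0 (s + b)).1
            rw [add_zero] at e1
            rw [← e1, ← e2, hkt, hkt]
            rfl
          · intro s
            have e1 := (heq v 0 0 s).2.2.2
            have e2 := (heq v 0 0 (s + a + b)).1
            rw [add_zero, add_zero] at e1
            rw [← e1, ← e2, hkt, hkt]
            rfl
      choose a b ha hb hc using hab
      have ha1 : a 1 = 0 := by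
        have := ha 1 0
        rw [zero_add] at this
        exact (hinj _ _ this).symm
      have hg : ∀ v, a (v * g) = b v := by
        intro v
        have e1 := ha (v * g) 0
        have e2 := hb v 0
        rw [zero_add] at e1 e2
        rw [e1] at e2
        exact hinj _ _ e2
      have hh : ∀ v, a (v * h) - 1 = a v + b v := by
        intro v
        have e1 := ha (v * h) (0 - 1)
        have e2 := hc v 0
        rw [e1] at e2
        have := hinj _ _ e2
        rw [zero_add, zero_sub] at this
        rw [← this]
        ring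
      have key := hI 2 (ZMod 2) G g h (fun v => a v + 1) Nat.prime_two (by decide) hG (by
        intro v
        show a v + 1 + (a (v * g) + 1) = a (v * h) + 1
        have e := hh v
        have h11 : (1 : ZMod 2) + 1 = 0 := by decide
        rw [hg v]
        calc a v + 1 + (b v + 1) = (a v + b v) + (1 + 1) := by ring
          _ = a (v * h) - 1 + (1 + 1) := by rw [e]
          _ = a (v * h) + 1 := by ring) 1
      simp only [ha1, zero_add] at key
      exact hne key

end Pool.Agent.Work.MP_8dbde4_lc.Om
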