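import Pool.Agent.Work.MP_8dbde4_lc.Om.Stmts

/-! Item GNW: the induction step of the locality theorem. -/

set_option autoImplicit false
open Classical

namespace Pool.Agent.Work.MP_8dbde4_lc.Om

open Pool.Agent.Work.MP_8dbde4_lc.TS
open Pool.Agent.Work.MP_8dbde4_lc.Tree (Word Agr Cc)
open Pool.Agent.Work.MP_8dbde4_lc.Phy (PP Hom)
open Pool.Agent.Work.MP_8dbde4_lc.Bra (Same InvU CC)

namespace XGNW

variable {c : ℚ → ℕ} {σ : Sig}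

theorem not_Cc_self (a : Word c) : ¬ Cc a a a := fun h => (cc_ne h).1 rfl

theorem SameOn_sub {X : Type} {Y : Set X} (v w : X → Word c)
    (hY : ∀ x ∈ Y, ∀ y ∈ Y, x = y) : SameOn Y v w := by
  refine ⟨?_, ?_⟩
  · intro x hx y hy
    have h := hY x hx y hy
    subst h
    simp
  · intro x hx y hy z hz
    have h := hY x hx y hy
    have h' := hY x hx z hz
    subst h
    subst h'
    exact ⟨fun h => absurd h (not_Cc_self _), fun h => absurd h (not_Cc_self _)⟩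

theorem LocU {X : Type} {T : (X → Word c) → Prop} {Y0 Y1 : Set X} {v t : X → Word c}
    {h : X → ℕ} (h01 : Y0 ⊆ Y1) (hv : Spl Y1 v h) (ht : T t) (hst : Spl Y1 t h)
    (hF : ∀ k, Loc T {x | x ∈ Y0 ∧ h x = k} v) : Loc T Y0 v := by
  intro Y' hY' hne
  by_cases hc : ∃ x ∈ Y', ∃ y ∈ Y', h x ≠ h y
  · exact ⟨t, ht, h, hv.mono (hY'.trans h01) hc, hst.mono (hY'.trans h01) hc⟩
  · push Not at hc
    obtain ⟨x, hx, y, hy, hxy⟩ := hne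
    exact hF (h x) Y' (fun z hz => ⟨hY' hz, hc z hz x hx⟩) ⟨x, hx, y, hy, hxy⟩

/-- Members of `T` with the splits of `v` on `D` give all first splits on `B`. -/
theorem LocD {X : Type} {T : (X → Word c) → Prop} {B D : Set X} {v t : X → Word c}
    (hB : Loc T (B ∪ D) v) (ht : T t) (hs : SameOn (B ∪ D) v t) :
    Loc (fun w => T w ∧ SameOn D v w) B v := by
  intro Y' hY' hne
  obtain ⟨_, _, h, h1, _⟩ := hB Y' (fun z hz => Or.inl (hY' hz)) hne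
  exact ⟨t, ⟨ht, hs.mono (fun z hz => Or.inr hz)⟩, h, h1,
    h1.transfer (hs.mono (fun z hz => Or.inl (hY' hz)))⟩

end XGNW

open XGNW

theorem GNW_pf (h1 : S_FSW) (h2 : S_GLW) (h3 : S_PQW) (h4 : S_MHW) (h5 : S_MAW) : S_GNW := by
  intro c σ 𝔅 hL hU n hn X hfin S hS hSne Y v hYn hLoc
  by_cases hsub : ∀ x ∈ Y, ∀ y ∈ Y, x = y
  · obtain ⟨w, hw⟩ := hSne
    exact ⟨w, hw, SameOn_sub v w hsub⟩
  have hsub' : ∃ x ∈ Y, ∃ y ∈ Y, x ≠ y := by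
    push Not at hsub
    exact hsub
  obtain ⟨w0, hw0, p, hvp, hwp⟩ := hLoc Y subset_rfl hsub'
  obtain ⟨x0, hx0, x1, hx1, hp01⟩ := hvp.1
  have hlt : ∀ (Z : Set X) (x : X), x ∈ Y → Z ⊆ Y → x ∉ Z → Z.ncard < n := by
    intro Z x hx hZ hxZ
    rw [← hYn]
    exact Set.ncard_lt_ncard ⟨hZ, fun h => hxZ (h hx)⟩ (Set.toFinite _)
  have hother : ∀ k, ∃ x ∈ Y, p x ≠ k := by
    intro k
    by_cases h : p x0 = k
    · exact ⟨x1, hx1, fun h' => hp01 (h.trans h'.symm)⟩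
    · exact ⟨x0, hx0, h⟩
  have hside : ∀ k, {x | x ∈ Y ∧ p x = k}.ncard < n := by
    intro k
    obtain ⟨x, hx, hxk⟩ := hother k
    exact hlt _ x hx (fun z hz => hz.1) (fun h => hxk h.2)
  -- the first restriction
  have hSpPP : PP 𝔅 (fun w => S w ∧ Spl Y w p) :=
    (h3 c σ 𝔅 hL.ppC hL.ppN X).2.2.1 S Y p hS hvp.1
  have hH1 : ∀ k, ∀ Y' ⊆ {x | x ∈ Y ∧ p x = k}, ∀ h, (∃ w, S w ∧ Spl Y' w h) →
      ∃ w, (S w ∧ Spl Y w p) ∧ Spl Y' w h := by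
    intro k Y' hY' h hw
    exact hU _ X S {x | x ∈ Y ∧ p x = k} Y p k hS (h4 c X S Y p k) ⟨w0, hw0, hwp⟩
      (fun x hx y hy hxy => (hLoc.ne hx.1 hy.1 hxy).2) Y' hY' le_rfl h hw
  have hLocSp : ∀ k, Loc (fun w => S w ∧ Spl Y w p) {x | x ∈ Y ∧ p x = k} v := by
    intro k Y' hY' hne
    obtain ⟨w, hw, h, h6, h7⟩ := hLoc Y' (fun z hz => (hY' hz).1) hne
    obtain ⟨w', hw', h8⟩ := hH1 k Y' hY' h ⟨w, hw, h7⟩
    exact ⟨w', hw', h, h6, h8⟩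
  by_cases hJ : ∀ k, ∀ x ∈ {x | x ∈ Y ∧ p x = k}, ∀ y ∈ {x | x ∈ Y ∧ p x = k}, x = y
  · exact ⟨w0, hw0, h2 c X Y v w0 p hvp hwp (fun k => SameOn_sub v w0 (hJ k))⟩
  obtain ⟨k₁, hJ'⟩ : ∃ k, ∃ x ∈ {x | x ∈ Y ∧ p x = k}, ∃ y ∈ {x | x ∈ Y ∧ p x = k}, x ≠ y := by
    push Not at hJ
    exact hJ
  obtain ⟨w1, hw1, q, hvq, hwq1⟩ := hLocSp k₁ _ subset_rfl hJ'
  set J : Set X := {x | x ∈ Y ∧ p x = k₁} with hJdef
  obtain ⟨j₀, hj₀, j₁, hj₁, hq01⟩ := hvq.1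
  -- the second restriction
  have hTPP : PP 𝔅 (fun w => (S w ∧ Spl Y w p) ∧ Spl J w q) :=
    (h3 c σ 𝔅 hL.ppC hL.ppN X).2.2.1 _ J q hSpPP hvq.1
  have hA : ∀ k₀, k₀ ≠ k₁ → ∀ Y' ⊆ {x | x ∈ Y ∧ p x = k₀}, ∀ h,
      (∃ w, (S w ∧ Spl Y w p) ∧ Spl Y' w h) →
      ∃ w, ((S w ∧ Spl Y w p) ∧ Spl J w q) ∧ Spl Y' w h := by
    intro k₀ hk Y' hY' h hw
    exact hU _ X (fun w => S w ∧ Spl Y w p) {x | x ∈ Y ∧ p x = k₀} J q (q j₀) hSpPP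
      (h5 c X _ Y p q k₀ k₁ (q j₀) hk (fun w hw => hw.2) ⟨j₀, hj₀.1, hj₀.2, rfl⟩)
      ⟨w1, hw1, hwq1⟩ (fun x hx y hy hxy => ((hLocSp k₀).ne hx hy hxy).2) Y' hY' le_rfl h hw
  have hH2 : ∀ k, ∀ Y' ⊆ {x | x ∈ J ∧ q x = k}, ∀ h, (∃ w, (S w ∧ Spl Y w p) ∧ Spl Y' w h) →
      ∃ w, ((S w ∧ Spl Y w p) ∧ Spl J w q) ∧ Spl Y' w h := by
    intro k Y' hY' h hw
    exact hU _ X (fun w => S w ∧ Spl Y w p) {x | x ∈ J ∧ q x = k} J q k hSpPP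
      (h4 c X _ J q k) ⟨w1, hw1, hwq1⟩
      (fun x hx y hy hxy => ((hLocSp k₁).ne hx.1 hy.1 hxy).2) Y' hY' le_rfl h hw
  have hLocTI : ∀ k₀, k₀ ≠ k₁ →
      Loc (fun w => (S w ∧ Spl Y w p) ∧ Spl J w q) {x | x ∈ Y ∧ p x = k₀} v := by
    intro k₀ hk Y' hY' hne
    obtain ⟨w, hw, h, h6, h7⟩ := hLocSp k₀ Y' hY' hne
    obtain ⟨w', hw', h8⟩ := hA k₀ hk Y' hY' h ⟨w, hw, h7⟩
    exact ⟨w', hw', h, h6, h8⟩
  have hLocTD : ∀ k, Loc (fun w => (S w ∧ Spl Y w p) ∧ Spl J w q) {x | x ∈ J ∧ q x = k} v := by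
    intro k Y' hY' hne
    obtain ⟨w, hw, h, h6, h7⟩ := hLocSp k₁ Y' (fun z hz => (hY' hz).1) hne
    obtain ⟨w', hw', h8⟩ := hH2 k Y' hY' h ⟨w, hw, h7⟩
    exact ⟨w', hw', h, h6, h8⟩
  have hLocTJ : Loc (fun w => (S w ∧ Spl Y w p) ∧ Spl J w q) J v :=
    LocU subset_rfl hvq (t := w1) ⟨hw1, hwq1⟩ hwq1 hLocTD
  -- the class `D`
  obtain ⟨D, hD⟩ : ∃ D : Set X, D = {x | x ∈ J ∧ q x = q j₀} := ⟨_, rfl⟩
  have hDJ : D ⊆ J := by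
    rw [hD]
    exact fun z hz => hz.1
  have hsubJ : ∀ Z : Set X, Z ⊆ J → Z.ncard < n := by
    intro Z hZ
    exact lt_of_le_of_lt (Set.ncard_le_ncard hZ (Set.toFinite _)) (hside k₁)
  obtain ⟨w2, hw2, hsw2⟩ := hn _ (hsubJ D hDJ) X _ hTPP ⟨w1, hw1, hwq1⟩ D v rfl
    (hLocTJ.mono hDJ)
  have hT'PP : PP 𝔅 (fun w => ((S w ∧ Spl Y w p) ∧ Spl J w q) ∧ SameOn D v w) :=
    (h3 c σ 𝔅 hL.ppC hL.ppN X).2.2.2 _ D v hTPP
  -- the part in `J`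
  have hC1 : ∀ B ⊆ J, Loc (fun w => ((S w ∧ Spl Y w p) ∧ Spl J w q) ∧ SameOn D v w) B v := by
    intro B hB
    have hBD : B ∪ D ⊆ J := Set.union_subset hB hDJ
    obtain ⟨t, ht, hst⟩ := hn _ (hsubJ _ hBD) X _ hTPP ⟨w1, hw1, hwq1⟩ (B ∪ D) v rfl
      (hLocTJ.mono hBD)
    exact LocD (hLocTJ.mono hBD) ht hst
  -- the part outside `J`
  have hC2 : ∀ k₀, k₀ ≠ k₁ → Loc (fun w => ((S w ∧ Spl Y w p) ∧ Spl J w q) ∧ SameOn D v w)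
      {x | x ∈ Y ∧ p x = k₀} v := by
    intro k₀ hk
    have hLBD : Loc (fun w => (S w ∧ Spl Y w p) ∧ Spl J w q)
        ({x | x ∈ Y ∧ p x = k₀} ∪ D) v := by
      refine LocU (Y1 := Y) (h := p) (t := w1) ?_ hvp ⟨hw1, hwq1⟩ hw1.2 ?_
      · rintro z (hz | hz)
        · exact hz.1
        · exact (hDJ hz).1
      · intro k
        by_cases hkk : k = k₁
        · refine hLocTJ.mono ?_
          rintro z ⟨hz | hz, hz2⟩
          · exact ⟨hz.1, hz2.trans hkk⟩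
          · exact hDJ hz
        · refine (hLocTI k₀ hk).mono ?_
          rintro z ⟨hz | hz, hz2⟩
          · exact hz
          · exact absurd (hz2.symm.trans (hDJ hz).2) hkk
    have hcard : ({x | x ∈ Y ∧ p x = k₀} ∪ D).ncard < n := by
      refine hlt _ j₁ hj₁.1 ?_ ?_
      · rintro z (hz | hz)
        · exact hz.1
        · exact (hDJ hz).1
      · rintro (hz | hz)
        · exact hk (hz.2.symm.trans hj₁.2)
        · rw [hD] at hz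
          exact hq01 hz.2.symm
    obtain ⟨t, ht, hst⟩ := hn _ hcard X _ hTPP ⟨w1, hw1, hwq1⟩ _ v rfl hLBD
    exact LocD hLBD ht hst
  -- the claim
  have hclaim : Loc (fun w => ((S w ∧ Spl Y w p) ∧ Spl J w q) ∧ SameOn D v w) (Y \ D) v := by
    refine LocU (Y1 := Y) (h := p) (t := w2) (fun z hz => hz.1) hvp ⟨hw2, hsw2⟩ hw2.1.2 ?_
    intro k
    by_cases hk : k = k₁
    · exact hC1 _ (fun z hz => ⟨hz.1.1, hz.2.trans hk⟩)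
    · exact (hC2 k hk).mono (fun z hz => ⟨hz.1.1, hz.2⟩)
  have hcardYD : (Y \ D).ncard < n := by
    refine hlt _ j₀ hj₀.1 (fun z hz => hz.1) ?_
    rintro ⟨_, hz⟩
    apply hz
    rw [hD]
    exact ⟨hj₀, rfl⟩
  obtain ⟨w, hw, hsw⟩ := hn _ hcardYD X _ hT'PP ⟨w2, hw2, hsw2⟩ (Y \ D) v rfl hclaim
  have hsJ : SameOn J v w := by
    refine h2 c X J v w q hvq hw.1.2 ?_
    intro k
    by_cases hk : k = q j₀
    · refine hw.2.mono ?_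
      rw [hD, hk]
    · refine hsw.mono ?_
      rintro z ⟨hz, hz2⟩
      refine ⟨hz.1, fun hzD => ?_⟩
      rw [hD] at hzD
      exact hk (hz2.symm.trans hzD.2)
  refine ⟨w, hw.1.1.1, h2 c X Y v w p hvp hw.1.1.2 ?_⟩
  intro k
  by_cases hk : k = k₁
  · refine hsJ.mono ?_
    rintro z ⟨hz, hz2⟩
    exact ⟨hz, hz2.trans hk⟩
  · refine hsw.mono ?_
    rintro z ⟨hz, hz2⟩
    exact ⟨hz, fun hzD => hk (hz2.symm.trans (hDJ hzD).2)⟩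

end Pool.Agent.Work.MP_8dbde4_lc.Om
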