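import Pool.Agent.Work.MP_8dbde4_lc.Om.Stmts
import Pool.Agent.Work.MP_8dbde4_lc.Phy.I_PPB

set_option autoImplicit false
open Classical

namespace Pool.Agent.Work.MP_8dbde4_lc.Om

open Pool.Agent.Work.MP_8dbde4_lc.TS
open Pool.Agent.Work.MP_8dbde4_lc.Tree (Word Agr Cc)
open Pool.Agent.Work.MP_8dbde4_lc.Phy (PP Hom)
open Pool.Agent.Work.MP_8dbde4_lc.Bra (Same InvU CC)

theorem HRW_pf (h1 : S_FSW) (h2 : S_BLW) : S_HRW := by
  intro c σ 𝔅 hIV hK hG n R hR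
  refine ⟨{C | ∀ v, R v → C.Holds v}, fun t => ⟨fun ht C hC => hC t ht, fun ht => ?_⟩⟩
  -- the equalities of `t`
  set θ : Set (Fin n × Fin n) := {e | t e.1 = t e.2} with hθ
  have step1 : ∃ w, R w ∧ ∀ e ∈ θ, w e.1 = w e.2 := by
    by_contra hne
    push Not at hne
    have hC : (⟨θ, none⟩ : Cl n) ∈ {C : Cl n | ∀ v, R v → C.Holds v} := by
      intro v hv hprem
      obtain ⟨e, he, hne'⟩ := hne v hv
      exact hne' (hprem e he)
    exact ht _ hC (fun e he => he)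
  let S : (Fin n → Word c) → Prop := fun w => R w ∧ ∀ e ∈ θ, w e.1 = w e.2
  obtain ⟨p1, p2, p3, p4, p5, p6, p7⟩ := Phy.PPB_pf σ (Word c) 𝔅
  have hS : PP 𝔅 S := by
    have hA : PP 𝔅 (fun v : Fin n → Word c => ∀ i : {e // e ∈ θ}, v i.1.1 = v i.1.2) :=
      p7 (Fin n) {e // e ∈ θ} (fun i v => v i.1.1 = v i.1.2) (fun i => p5 (Fin n) i.1.1 i.1.2)
    have hB := p2 (Fin n) R _ hR hA
    have hEq : S = (fun v : Fin n → Word c => R v ∧ ∀ i : {e // e ∈ θ}, v i.1.1 = v i.1.2) := by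
      funext w
      apply propext
      constructor
      · rintro ⟨ha, hb⟩
        exact ⟨ha, fun i => hb i.1 i.2⟩
      · rintro ⟨ha, hb⟩
        exact ⟨ha, fun e he => hb ⟨e, he⟩⟩
    rw [hEq]
    exact hB
  -- representatives
  have hrep : ∀ i : Fin n, ∃ j : Fin n, t j = t i ∧ ∀ i' : Fin n, t i' = t i → j ≤ i' := by
    intro i
    have hne : ((Finset.univ : Finset (Fin n)).filter (fun j => t j = t i)).Nonempty :=
      ⟨i, by simp⟩
    refine ⟨_, (Finset.mem_filter.1 (Finset.min'_mem _ hne)).2, fun i' hi' => ?_⟩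
    exact Finset.min'_le _ _ (by simp [hi'])
  choose rep hrep1 hrep2 using hrep
  have hreq : ∀ i j, t i = t j → rep i = rep j := by
    intro i j hij
    apply le_antisymm
    · exact hrep2 i _ ((hrep1 j).trans hij.symm)
    · exact hrep2 j _ ((hrep1 i).trans hij)
  let Y : Set (Fin n) := Set.range rep
  have hinj : ∀ x ∈ Y, ∀ y ∈ Y, x ≠ y → t x ≠ t y := by
    rintro x ⟨i, rfl⟩ y ⟨j, rfl⟩ hxy he
    apply hxy
    have e1 : rep (rep i) = rep i := hreq _ _ (hrep1 i)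
    have e2 : rep (rep j) = rep j := hreq _ _ (hrep1 j)
    rw [← e1, ← e2]
    exact hreq _ _ he
  have hLoc : Loc S Y t := by
    rintro Y' hY' ⟨x, hx, y, hy, hxy⟩
    obtain ⟨h, hh⟩ := h1 c (Fin n) Y' t ⟨x, hx, y, hy, hinj x (hY' hx) y (hY' hy) hxy⟩
    by_contra hcon
    push Not at hcon
    have hnP : ¬ Pat S Y' h := by
      rintro (hc | ⟨v, hv, hvs⟩)
      · obtain ⟨a, ha, b, hb, hab⟩ := hh.1
        exact hab (hc a ha b hb)
      · exact hcon v hv h hh hvs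
    obtain ⟨_, _, hsep⟩ := h2 c σ 𝔅 hK (Fin n) S Y' hS
    obtain ⟨a, ha, b, hb, hab, hg⟩ := hsep h hnP
    have hins : insert a (insert b Y') = Y' := by
      rw [Set.insert_eq_of_mem hb, Set.insert_eq_of_mem ha]
    have hC : (⟨θ, some (a, b, Y', {e | e.1 ∈ Y' ∧ e.2 ∈ Y' ∧ h e.1 = h e.2})⟩ : Cl n) ∈
        {C : Cl n | ∀ v, R v → C.Holds v} := by
      intro v hv hprem h' hs' hE
      rw [hins] at hs' hE
      exact hg h' (Or.inr ⟨v, ⟨hv, hprem⟩, hs'⟩)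
        (fun x hx y hy hxy => hE (x, y) ⟨hx, hy, hxy⟩ hx hy)
    have hfin := ht _ hC (fun e he => he) h (by rw [hins]; exact hh)
      (fun e he _ _ => he.2.2)
    exact hab hfin
  obtain ⟨w, hw, hsame⟩ := hG Y.ncard (Fin n) S hS step1 Y t rfl hLoc
  have hwr : ∀ x, w x = w (rep x) := fun x => hw.2 (x, rep x) (hrep1 x).symm
  have hY : ∀ x, rep x ∈ Y := fun x => ⟨x, rfl⟩
  have hfull : SameOn Set.univ w t := by
    refine ⟨fun x _ y _ => ?_, fun x _ y _ z _ => ?_⟩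
    · rw [hwr x, hwr y, ← hrep1 x, ← hrep1 y]
      exact (hsame.1 _ (hY x) _ (hY y)).symm
    · rw [hwr x, hwr y, hwr z, ← hrep1 x, ← hrep1 y, ← hrep1 z]
      exact (hsame.2 _ (hY x) _ (hY y) _ (hY z)).symm
  exact hIV (Fin n) R hR w t hfull.same hw.1

end Pool.Agent.Work.MP_8dbde4_lc.Om
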