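import Pool.Agent.Work.MP_8dbde4_lc.Om.StmtsE

/-!
The back-and-forth system between the instances `JP` with `b = 0` and `b = 1`: see the docstring of
`S_BFW`. (Tuples which consist only of main elements do not touch the row of their tie; for a tie
of kind `z` the parameter `s` is then moved.)
-/

set_option autoImplicit false
open Classical

namespace Pool.Agent.Work.MP_8dbde4_lc.Om

open Pool.Agent.Work.MP_8dbde4_lc.TS
open Pool.Agent.Work.MP_8dbde4_lc.Tree (Gad Den row BFSys cl Closed RowEq)
open Pool.Agent.Work.MP_8dbde4_lc.Phy (TI)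

namespace XBFW

variable {σ : Sig} {M G : Type} [Group G] {p : ℕ} {I T : Type} {n : ℕ} {D DC : Type}

/-- The action of the flips on the ties. -/
def tact (g : G) (y : G → ZMod p) : TI G p T n → TI G p T n
  | .f v α β t j => .f v (α + y v) (β + y (v * g)) t j
  | .u v α β s => .u v (α + y v) (β + y (v * g)) s
  | .x v α β s => .x v (α + y v) (β + y (v * g)) s
  | .y v α β s => .y v (α + y v) (β + y (v * g)) s
  | .z v α β s => .z v (α + y v) (β + y (v * g)) s

/-- The row of a tie. -/
def tv : TI G p T n → G
  | .f v _ _ _ _ => v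
  | .u v _ _ _ => v
  | .x v _ _ _ => v
  | .y v _ _ _ => v
  | .z v _ _ _ => v

/-- The action of the flips. -/
def act (g : G) (y : G → ZMod p) : EE M G p I T n D DC → EE M G p I T n D DC
  | .main v s => .main v (s + y v)
  | .site v α β t => .site v (α + y v) (β + y (v * g)) t
  | .fr v α β t d => .fr v (α + y v) (β + y (v * g)) t d
  | .tf τ d => .tf (tact g y τ) d

/-- The base of an element. -/
def base : EE M G p I T n D DC → G ⊕ G
  | .main v _ => Sum.inl v
  | .site v _ _ _ => Sum.inr v
  | .fr v _ _ _ _ => Sum.inr v
  | .tf τ _ => Sum.inr (tv τ)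

/-- The points touched by a base. -/
noncomputable def tb (g h : G) : G ⊕ G → Finset G
  | .inl v => {v}
  | .inr v => row g h v

theorem tv_act (g : G) (y : G → ZMod p) (τ : TI G p T n) : tv (tact g y τ) = tv τ := by
  cases τ <;> rfl

theorem base_act (g : G) (y : G → ZMod p) (x : EE M G p I T n D DC) :
    base (act g y x) = base x := by
  cases x with
  | tf τ d => simp only [act, base, tv_act]
  | _ => rfl

theorem tact_congr (g : G) (y y' : G → ZMod p) (τ : TI G p T n)
    (h1 : y (tv τ) = y' (tv τ)) (h2 : y (tv τ * g) = y' (tv τ * g)) :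
    tact g y τ = tact g y' τ := by
  cases τ <;> simp only [tv] at h1 h2 <;> simp only [tact, h1, h2]

theorem act_congr (g h : G) (y y' : G → ZMod p) (x : EE M G p I T n D DC)
    (hy : ∀ u ∈ tb g h (base x), y u = y' u) : act g y x = act g y' x := by
  cases x with
  | main v s =>
    have h1 := hy v (by simp [base, tb])
    simp only [act, h1]
  | site v α β t =>
    have h1 := hy v (by simp [base, tb, row])
    have h2 := hy (v * g) (by simp [base, tb, row])
    simp only [act, h1, h2]
  | fr v α β t d =>
    have h1 := hy v (by simp [base, tb, row])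
    have h2 := hy (v * g) (by simp [base, tb, row])
    simp only [act, h1, h2]
  | tf τ d =>
    have h1 := hy (tv τ) (by simp [base, tb, row])
    have h2 := hy (tv τ * g) (by simp [base, tb, row])
    simp only [act, tact_congr g y y' τ h1 h2]

theorem tact_neg (g : G) (y : G → ZMod p) (τ : TI G p T n) :
    tact g (fun u => - y u) (tact g y τ) = τ := by
  cases τ <;> simp [tact]

theorem tact_neg' (g : G) (y : G → ZMod p) (τ : TI G p T n) :
    tact g y (tact g (fun u => - y u) τ) = τ := by
  cases τ <;> simp [tact]

theorem act_neg (g : G) (y : G → ZMod p) (x : EE M G p I T n D DC) :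
    act g (fun u => - y u) (act g y x) = x := by
  cases x with
  | tf τ d => simp only [act, tact_neg]
  | _ => simp [act]

theorem act_neg' (g : G) (y : G → ZMod p) (x : EE M G p I T n D DC) :
    act g y (act g (fun u => - y u) x) = x := by
  cases x with
  | tf τ d => simp only [act, tact_neg']
  | _ => simp [act]

theorem act_inj (g : G) (y : G → ZMod p) :
    Function.Injective (act g y : EE M G p I T n D DC → _) := by
  intro x x' h
  rw [← act_neg g y x, ← act_neg g y x', h]

theorem lo_act (g : G) (y : G → ZMod p) (Δ : Gad M p I) (m : Fin n → D) (τ : TI G p T n) :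
    (act g y (lo Δ m τ : EE M G p I T n D DC)) = lo Δ m (tact g y τ) := by
  cases τ <;> rfl

/-- The second elements are moved correctly, except possibly for the ties of kind `z`. -/
theorem hi_act {tt : T → Fin n → I → M} {g h : G} {b b' : ZMod p} {y : G → ZMod p}
    (hy : y 1 = 0) (τ : TI G p T n)
    (hrow : y (tv τ) + y (tv τ * g) - y (tv τ * h) = b' - b) :
    (act g y (hi tt g h b τ : EE M G p I T n D DC)) = hi tt g h b' (tact g y τ) := by
  cases τ with
  | f v α β t j => rfl
  | u v α β s => simp [hi, act, tact, hy]
  | x v α β s => simp only [hi, act, tact, add_assoc]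
  | y v α β s => simp only [hi, act, tact, add_assoc]
  | z v α β s =>
    simp only [tv] at hrow
    simp only [hi, act, tact]
    congr 1
    have h3 : y v + y (v * g) = y (v * h) + (b' - b) := by rw [← hrow]; ring
    calc s + α + β - b + y (v * h) = s + α + β + (y (v * h) + (b' - b)) - b' := by ring
      _ = _ := by rw [← h3]; ring

/-- For every tie there is a tie with the moved second element. -/
theorem hi_ex {tt : T → Fin n → I → M} {g h : G} {b b' : ZMod p} {y : G → ZMod p}
    (hy : y 1 = 0) (τ : TI G p T n) :
    ∃ τ' : TI G p T n,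
      (act g y (hi tt g h b τ : EE M G p I T n D DC)) = hi tt g h b' τ' := by
  cases τ with
  | f v α β t j => exact ⟨_, (rfl : _ = hi tt g h b' (tact g y (TI.f v α β t j)))⟩
  | u v α β s => exact ⟨TI.u v α β s, by simp [hi, act, hy]⟩
  | x v α β s => exact ⟨tact g y (TI.x v α β s), by simp only [hi, act, tact, add_assoc]⟩
  | y v α β s => exact ⟨tact g y (TI.y v α β s), by simp only [hi, act, tact, add_assoc]⟩
  | z v α β s =>
    refine ⟨TI.z v α β (s + y (v * h) + b' - b), ?_⟩
    simp only [hi, act]
    congr 1
    ring

theorem anc_act (g : G) {y : G → ZMod p} (hy : y 1 = 0) (w : EE M G p I T n D DC) :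
    act g y (anc w) = anc (act g y w) := by
  have h0 : act g y (EE.main 1 0 : EE M G p I T n D DC) = EE.main 1 0 := by simp [act, hy]
  have h1 : act g y (EE.main 1 1 : EE M G p I T n D DC) = EE.main 1 1 := by simp [act, hy]
  unfold anc
  by_cases hw : w = EE.main 1 0
  · rw [if_pos hw, hw, h0, if_pos rfl, h1]
  · have hw' : act g y w ≠ EE.main 1 0 := by
      intro h
      rw [← h0] at h
      exact hw (act_inj g y h)
    rw [if_neg hw, if_neg hw', h0]

/-- The copies of `DC` are moved correctly if the row equation holds. -/
theorem psi_act {Δ : Gad M p I} {m : Fin n → D} {tt : T → Fin n → I → M} {g h : G}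
    {b b' : ZMod p} {mC : Fin 3 → DC} {y : G → ZMod p} (hy : y 1 = 0) (τ : TI G p T n)
    (hrow : y (tv τ) + y (tv τ * g) - y (tv τ * h) = b' - b) (d : DC) :
    act g y (psi Δ m tt g h b mC τ d) = psi Δ m tt g h b' mC (tact g y τ) d := by
  unfold psi
  by_cases h0 : d = mC 0
  · rw [if_pos h0, if_pos h0, anc_act g hy, hi_act hy τ hrow]
  · rw [if_neg h0, if_neg h0]
    by_cases h1 : d = mC 1
    · rw [if_pos h1, if_pos h1, lo_act]
    · rw [if_neg h1, if_neg h1]
      by_cases h2 : d = mC 2
      · rw [if_pos h2, if_pos h2, hi_act hy τ hrow]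
      · rw [if_neg h2, if_neg h2]
        rfl

omit [Group G] in
theorem base_lo (Δ : Gad M p I) (m : Fin n → D) (τ : TI G p T n) :
    base (lo Δ m τ : EE M G p I T n D DC) = Sum.inr (tv τ) := by
  cases τ <;> rfl

theorem rel_act {𝔇 : Str σ D} {m : Fin n → D} {ℭ : Str σ DC} {mC : Fin 3 → DC}
    {Δ : Gad M p I} {tt : T → Fin n → I → M} {g h : G} {b b' : ZMod p}
    {y : G → ZMod p} (hy : y 1 = 0) {R : σ.S} {e : Fin (σ.ar R) → EE M G p I T n D DC}
    (he : (JP 𝔇 m ℭ mC Δ tt g h b).rel R e)
    (hrow : ∀ j v, base (e j) = Sum.inr v → y v + y (v * g) - y (v * h) = b' - b) :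
    (JP 𝔇 m ℭ mC Δ tt g h b').rel R (fun j => act g y (e j)) := by
  rcases he with ⟨v, α, β, t, d, hd, he⟩ | ⟨τ, d, hd, he⟩
  · left
    refine ⟨v, α + y v, β + y (v * g), t, d, hd, ?_⟩
    rw [he]
    rfl
  · right
    by_cases hb : ∃ j, base (e j) = Sum.inr (tv τ)
    · obtain ⟨j₀, hj₀⟩ := hb
      have hr := hrow j₀ _ hj₀
      refine ⟨tact g y τ, d, hd, ?_⟩
      funext j
      rw [he]
      exact psi_act hy τ hr (d j)
    · have hb' : ∀ j, base (e j) ≠ Sum.inr (tv τ) := fun j hj => hb ⟨j, hj⟩
      obtain ⟨τ', hτ'⟩ := hi_ex (D := D) (DC := DC) (tt := tt) (g := g) (h := h) (b := b)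
        (b' := b') hy τ
      refine ⟨τ', d, hd, ?_⟩
      funext j
      have h3 := hb' j
      rw [he] at h3 ⊢
      simp only at h3 ⊢
      unfold psi at h3 ⊢
      by_cases h0 : d j = mC 0
      · rw [if_pos h0, if_pos h0, anc_act g hy, hτ']
      · rw [if_neg h0] at h3
        rw [if_neg h0, if_neg h0]
        by_cases h1 : d j = mC 1
        · rw [if_pos h1, base_lo] at h3
          exact absurd rfl h3
        · rw [if_neg h1] at h3
          rw [if_neg h1, if_neg h1]
          by_cases h2 : d j = mC 2
          · rw [if_pos h2, if_pos h2, hτ']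
          · rw [if_neg h2] at h3
            exact absurd rfl h3

/-- The touched points of a tuple. -/
noncomputable def pts (g h : G) {k : ℕ} (v : Fin k → EE M G p I T n D DC) : Finset G :=
  insert 1 (Finset.univ.biUnion (fun i => tb g h (base (v i))))

omit [Group G] in
theorem cl_mono [Fintype G] (E : G → Finset G) {P Q : Finset G} (h : P ⊆ Q) :
    cl E P ⊆ cl E Q := by
  intro x hx
  unfold cl at hx ⊢
  rw [Finset.mem_filter] at hx ⊢
  exact ⟨hx.1, fun T hT hc => hx.2 T (h.trans hT) hc⟩

omit [Group G] in
theorem sub_cl [Fintype G] (E : G → Finset G) (P : Finset G) : P ⊆ cl E P := by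
  intro x hx
  unfold cl
  rw [Finset.mem_filter]
  exact ⟨Finset.mem_univ _, fun T hT _ => hT hx⟩

theorem tb_card (g h : G) (b : G ⊕ G) : (tb g h b).card ≤ 3 := by
  cases b with
  | inl v => simp [tb]
  | inr v => exact Finset.card_le_three

/-- The system. -/
def ZZ (I T : Type) (n : ℕ) (D DC : Type) [Fintype G] (g h : G) (p k : ℕ)
    (v w : Fin k → EE M G p I T n D DC) : Prop :=
  ∃ y : G → ZMod p, y 1 = 0 ∧ (∀ u, row g h u ⊆ cl (row g h) (pts g h v) → RowEq g h y u) ∧
    ∀ i, w i = act g y (v i)

end XBFW

open XBFW in
theorem BFW_pf (h2 : Tree.S_EXT) : S_BFW := by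
  intro σ M G _ _ g h p n I T D DC 𝔇 m ℭ mC Δ tt k hp hrow hDen
  have : Fintype G := Fintype.ofFinite G
  have hrel : ∀ (v w : Fin k → EE M G p I T n D DC), ZZ I T n D DC g h p k v w → ∀ (R : σ.S)
      (i : Fin (σ.ar R) → Fin k), (JP 𝔇 m ℭ mC Δ tt g h 0).rel R (fun j => v (i j)) ↔
        (JP 𝔇 m ℭ mC Δ tt g h 1).rel R (fun j => w (i j)) := by
    rintro v w ⟨y, hy1, hy2, hy3⟩ R i
    have hR : ∀ (j : Fin (σ.ar R)) u, base (v (i j)) = Sum.inr u →
        y u + y (u * g) - y (u * h) = 1 := by
      intro j u hu
      apply hy2
      refine Finset.Subset.trans ?_ (sub_cl _ _)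
      unfold pts
      refine Finset.Subset.trans ?_ (Finset.subset_insert _ _)
      intro z hz
      rw [Finset.mem_biUnion]
      exact ⟨i j, Finset.mem_univ _, by rw [hu]; exact hz⟩
    constructor
    · intro hT
      have h3 := rel_act (b' := 1) (y := y) hy1 hT (by
        intro j u hu
        rw [hR j u hu, sub_zero])
      simpa only [← hy3] using h3
    · intro hT
      have h3 := rel_act (b' := 0) (y := fun u => - y u) (by simp [hy1]) hT (by
        intro j u hu
        rw [hy3, base_act] at hu
        have := hR j u hu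
        rw [← this]
        ring)
      have h4 : (fun j => act g (fun u => - y u) (w (i j))) = fun j => v (i j) := by
        funext j
        rw [hy3, act_neg]
      rw [h4] at h3
      exact h3
  refine ⟨ZZ I T n D DC g h p k, ⟨hrel, ?_, ?_, ?_⟩, ?_⟩
  · rintro v w ⟨y, hy1, hy2, hy3⟩ i j
    rw [hy3, hy3]
    exact (act_inj g y).eq_iff.symm
  · rintro v w ⟨y, hy1, hy2, hy3⟩ ρ
    refine ⟨y, hy1, ?_, fun i => hy3 (ρ i)⟩
    intro u hu
    apply hy2
    refine hu.trans (cl_mono _ ?_)
    unfold pts
    apply Finset.insert_subset_insert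
    intro z hz
    rw [Finset.mem_biUnion] at hz ⊢
    obtain ⟨i, _, hi⟩ := hz
    exact ⟨ρ i, Finset.mem_univ _, hi⟩
  · rintro v w ⟨y, hy1, hy2, hy3⟩ x
    obtain ⟨P, hP⟩ : ∃ P : Finset G, P = insert 1 ((Finset.univ.erase x).biUnion
      (fun i => tb g h (base (v i)))) := ⟨_, rfl⟩
    have hPcard : P.card ≤ 3 * k + 1 := by
      rw [hP]
      refine (Finset.card_insert_le _ _).trans ?_
      have h3 : ((Finset.univ.erase x).biUnion (fun i => tb g h (base (v i)))).card ≤
          (Finset.univ.erase x).card * 3 := by
        apply Finset.card_biUnion_le_card_mul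
        intro i _
        exact tb_card g h _
      have h4 : (Finset.univ.erase x : Finset (Fin k)).card ≤ k := by
        refine (Finset.card_le_univ _).trans ?_
        simp
      omega
    have hPsub : P ⊆ pts g h v := by
      rw [hP]
      unfold pts
      apply Finset.insert_subset_insert
      apply Finset.biUnion_subset_biUnion_of_subset_left
      exact Finset.subset_univ _
    have hext : ∀ b : G ⊕ G, ∃ y' : G → ZMod p, (∀ u ∈ cl (row g h) P, y' u = y u) ∧
        ∀ u, row g h u ⊆ cl (row g h) (P ∪ tb g h b) → RowEq g h y' u := by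
      intro b
      apply h2 G g h (3 * k + 5) p P (P ∪ tb g h b) y hrow hDen Finset.subset_union_left
      · have h3 := Finset.card_union_le P (tb g h b)
        have h4 := tb_card g h b
        omega
      · intro u hu
        exact hy2 u (hu.trans (cl_mono _ hPsub))
    choose ys hys1 hys2 using hext
    refine ⟨⟨fun a => act g (ys (base a)) a, fun a => act g (fun u => - ys (base a) u) a, ?_, ?_⟩,
      ?_⟩
    · intro a
      simp only [base_act]
      exact act_neg g _ a
    · intro a
      simp only [base_act]
      exact act_neg' g _ a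
    · intro a
      refine ⟨ys (base a), ?_, ?_, ?_⟩
      · rw [hys1 (base a) 1, hy1]
        apply sub_cl
        rw [hP]
        exact Finset.mem_insert_self _ _
      · intro u hu
        apply hys2
        refine hu.trans (cl_mono _ ?_)
        intro z hz
        unfold pts at hz
        rw [Finset.mem_insert, Finset.mem_biUnion] at hz
        rw [Finset.mem_union]
        rcases hz with hz | ⟨i, _, hi⟩
        · left
          rw [hP, hz]
          exact Finset.mem_insert_self _ _
        · by_cases hix : i = x
          · right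
            rw [hix, Function.update_self] at hi
            exact hi
          · left
            rw [Function.update_of_ne hix] at hi
            rw [hP]
            apply Finset.mem_insert_of_mem
            rw [Finset.mem_biUnion]
            exact ⟨i, Finset.mem_erase.2 ⟨hix, Finset.mem_univ _⟩, hi⟩
      · intro i
        by_cases hix : i = x
        · rw [hix, Function.update_self, Function.update_self]
          rfl
        · rw [Function.update_of_ne hix, Function.update_of_ne hix, hy3]
          apply act_congr g h
          intro u hu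
          rw [hys1 (base a) u]
          apply sub_cl
          rw [hP]
          apply Finset.mem_insert_of_mem
          rw [Finset.mem_biUnion]
          exact ⟨i, Finset.mem_erase.2 ⟨hix, Finset.mem_univ _⟩, hu⟩
  · refine ⟨fun _ => EE.main 1 0, fun _ => EE.main 1 0, fun _ => 0, rfl, ?_, ?_⟩
    · intro u hu
      exfalso
      have h3 : cl (row g h) (pts g h (fun _ : Fin k => (EE.main 1 0 : EE M G p I T n D DC))) ⊆
          {1} := by
        intro z hz
        unfold cl at hz
        rw [Finset.mem_filter] at hz
        apply hz.2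
        · unfold pts
          intro z' hz'
          rw [Finset.mem_insert, Finset.mem_biUnion] at hz'
          rcases hz' with hz' | ⟨i, _, hi⟩
          · rw [hz']
            exact Finset.mem_singleton_self _
          · simpa [base, tb] using hi
        · intro u' hu'
          exfalso
          have h4 : (row g h u' ∩ {1}).card ≤ 1 := by
            refine (Finset.card_le_card Finset.inter_subset_right).trans ?_
            simp
          omega
      have h5 := Finset.card_le_card (hu.trans h3)
      rw [hrow u, Finset.card_singleton] at h5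
      omega
    · intro i
      simp [act]

end Pool.Agent.Work.MP_8dbde4_lc.Om
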