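import Pool.Agent.Work.MP_8dbde4_lc.Om.StmtsE

set_option autoImplicit false

open Classical

namespace Pool.Agent.Work.MP_8dbde4_lc.Om

open Pool.Agent.Work.MP_8dbde4_lc.TS
open Pool.Agent.Work.MP_8dbde4_lc.Tree (Word Agr Cc Gad)
open Pool.Agent.Work.MP_8dbde4_lc.Phy (PP Hom TI)
open Pool.Agent.Work.MP_8dbde4_lc.Bra (Same InvU CC)

namespace XRZW

variable {c : ℚ → ℕ}

/-- Two families of words with corresponding places have the same splits. -/
lemma sameOn_of {X : Type} (v w : X → Word c) (P : Set ℚ) (φ : ℚ → ℚ)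
    (hφ : ∀ s ∈ P, ∀ s' ∈ P, s < s' → φ s < φ s')
    (ha : ∀ s ∈ P, ∀ x y, (w x).1 (φ s) = (w y).1 (φ s) ↔ (v x).1 s = (v y).1 s)
    (hb : ∀ r, (∀ s ∈ P, φ s ≠ r) → ∀ x y, (w x).1 r = (w y).1 r)
    (hc : ∀ s, s ∉ P → ∀ x y, (v x).1 s = (v y).1 s) : SameOn Set.univ v w := by
  have hagr : ∀ s ∈ P, ∀ x y, Agr (v x) (v y) s ↔ Agr (w x) (w y) (φ s) := by
    intro s hs x y
    constructor
    · intro h r hr
      by_cases h1 : ∃ s' ∈ P, φ s' = r
      · obtain ⟨s', hs', rfl⟩ := h1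
        have h2 : s' < s := by
          rcases lt_trichotomy s' s with h3 | h3 | h3
          · exact h3
          · rw [h3] at hr
            exact absurd hr (lt_irrefl _)
          · exact absurd (hφ s hs s' hs' h3) (not_lt.2 hr.le)
        exact (ha s' hs' x y).2 (h s' h2)
      · exact hb r (fun s' hs' h2 => h1 ⟨s', hs', h2⟩) x y
    · intro h s' hs'
      by_cases h1 : s' ∈ P
      · exact (ha s' h1 x y).1 (h _ (hφ s' h1 s hs hs'))
      · exact hc s' h1 x y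
  refine ⟨fun x _ y _ => ?_, fun x _ y _ z _ => ?_⟩
  · constructor
    · intro h
      apply Subtype.ext
      funext r
      by_cases h1 : ∃ s' ∈ P, φ s' = r
      · obtain ⟨s', hs', rfl⟩ := h1
        exact (ha s' hs' x y).2 (by rw [h])
      · exact hb r (fun s' hs' h2 => h1 ⟨s', hs', h2⟩) x y
    · intro h
      apply Subtype.ext
      funext s
      by_cases h1 : s ∈ P
      · exact (ha s h1 x y).1 (by rw [h])
      · exact hc s h1 x y
  · constructor
    · rintro ⟨s, h1, h2, h3, h4⟩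
      have hs : s ∈ P := by
        by_contra h5
        exact h4 (hc s h5 z x)
      exact ⟨φ s, (hagr s hs z x).1 h1, (hagr s hs z y).1 h2, (ha s hs x y).2 h3,
        fun h5 => h4 ((ha s hs z x).1 h5)⟩
    · rintro ⟨r, h1, h2, h3, h4⟩
      have hr : ∃ s ∈ P, φ s = r := by
        by_contra h5
        exact h4 (hb r (fun s' hs' h6 => h5 ⟨s', hs', h6⟩) z x)
      obtain ⟨s, hs, rfl⟩ := hr
      exact ⟨s, (hagr s hs z x).2 h1, (hagr s hs z y).2 h2, (ha s hs x y).1 h3,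
        fun h5 => h4 ((ha s hs z x).2 h5)⟩

/-- the words in the new position, as functions -/
noncomputable def vf {n : ℕ} (v : Fin n → Word c) (p : Fin n → ℕ) (q q₀ q₁ : ℚ) (x : Fin n) :
    ℚ → ℕ := fun r =>
  if r = q₀ then p x else if r = q₁ then 0 else
    if q₁ < r ∧ ∃ y, (v y).1 (r - (q₁ - q)) ≠ c (r - (q₁ - q)) then (v x).1 (r - (q₁ - q)) else c r

lemma vf_fin {n : ℕ} (v : Fin n → Word c) (p : Fin n → ℕ) (q q₀ q₁ : ℚ) (x : Fin n) :
    {r | vf v p q q₀ q₁ x r ≠ c r}.Finite := by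
  have h1 : (⋃ y, {s | (v y).1 s ≠ c s}).Finite := Set.finite_iUnion (fun y => (v y).2)
  have h2 : ((fun s => s + (q₁ - q)) '' (⋃ y, {s | (v y).1 s ≠ c s})).Finite := h1.image _
  refine (h2.union (Set.toFinite {q₀, q₁})).subset ?_
  intro r hr
  by_cases h3 : r = q₀
  · right
    simp [h3]
  by_cases h4 : r = q₁
  · right
    simp [h4]
  by_cases h5 : q₁ < r ∧ ∃ y, (v y).1 (r - (q₁ - q)) ≠ c (r - (q₁ - q))
  · left
    obtain ⟨_, y, hy⟩ := h5
    exact ⟨r - (q₁ - q), Set.mem_iUnion.2 ⟨y, hy⟩, by simp⟩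
  · have hr' : vf v p q q₀ q₁ x r ≠ c r := hr
    unfold vf at hr'
    rw [if_neg h3, if_neg h4, if_neg h5] at hr'
    exact absurd rfl hr'

lemma exists_low {n : ℕ} (v : Fin n → Word c) : ∃ q : ℚ, ∀ i, ∀ r ≤ q, (v i).1 r = c r := by
  have hfin : (⋃ i, {r | (v i).1 r ≠ c r}).Finite := Set.finite_iUnion (fun i => (v i).2)
  obtain ⟨m, hm⟩ := hfin.bddBelow
  refine ⟨m - 1, fun i r hr => ?_⟩
  by_contra hne
  have := hm (Set.mem_iUnion.2 ⟨i, hne⟩)
  linarith

lemma core {n : ℕ} (S : (Fin n → Word c) → Prop) (hS : ∀ v w, Same v w → S v → S w) (v : Fin n → Word c) (hv : S v)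
    (p : Fin n → ℕ) (q : ℚ) (h1 : ∀ x y, Agr (v x) (v y) q)
    (h2 : ∀ x y, (v x).1 q = (v y).1 q ↔ p x = p y) (q₀ q₁ : ℚ) (hq : q₀ < q₁) :
    ∃ V, S V ∧ ∀ x, (∀ q' < q₁, q' ≠ q₀ → (V x).1 q' = c q') ∧ (V x).1 q₀ = p x ∧
      (V x).1 q₁ = 0 := by
  have e0 : ∀ x, vf v p q q₀ q₁ x q₀ = p x := fun x => by
    unfold vf
    rw [if_pos rfl]
  have e1 : ∀ x, vf v p q q₀ q₁ x q₁ = 0 := fun x => by
    unfold vf
    rw [if_neg hq.ne', if_pos rfl]
  have e2 : ∀ x, ∀ r < q₁, r ≠ q₀ → vf v p q q₀ q₁ x r = c r := fun x r hr hr0 => by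
    unfold vf
    rw [if_neg hr0, if_neg hr.ne, if_neg (fun h => absurd h.1 (not_lt.2 hr.le))]
  have e3 : ∀ x y, ∀ r, q₁ < r → (vf v p q q₀ q₁ x r = vf v p q q₀ q₁ y r ↔
      (v x).1 (r - (q₁ - q)) = (v y).1 (r - (q₁ - q))) := fun x y r hr => by
    unfold vf
    rw [if_neg (hq.trans hr).ne', if_neg hr.ne', if_neg (hq.trans hr).ne', if_neg hr.ne']
    by_cases h5 : q₁ < r ∧ ∃ y, (v y).1 (r - (q₁ - q)) ≠ c (r - (q₁ - q))
    · rw [if_pos h5, if_pos h5]
    · rw [if_neg h5, if_neg h5]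
      refine ⟨fun _ => ?_, fun _ => rfl⟩
      have h6 : ∀ z, (v z).1 (r - (q₁ - q)) = c (r - (q₁ - q)) := by
        intro z
        by_contra h7
        exact h5 ⟨hr, z, h7⟩
      rw [h6 x, h6 y]
  refine ⟨fun x => ⟨vf v p q q₀ q₁ x, vf_fin v p q q₀ q₁ x⟩, hS v _ (SameOn.same ?_) hv, fun x =>
    ⟨fun r hr hr0 => e2 x r hr hr0, e0 x, e1 x⟩⟩
  refine sameOn_of v _ {s | q ≤ s} (fun s => if s = q then q₀ else s + (q₁ - q)) ?_ ?_ ?_ ?_
  · intro s hs s' hs' hss
    have hs1 : q ≤ s := hs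
    have h3 : s' ≠ q := (hs1.trans_lt hss).ne'
    by_cases h4 : s = q
    · simp only [h4, if_true, if_neg h3]
      have : q < s' := hs1.trans_lt hss
      linarith
    · simp only [if_neg h4, if_neg h3]
      linarith
  · intro s hs x y
    have hs1 : q ≤ s := hs
    by_cases h4 : s = q
    · simp only [h4, if_true]
      rw [e0, e0]
      exact (h2 x y).symm
    · have h5 : q < s := lt_of_le_of_ne hs1 (Ne.symm h4)
      simp only [if_neg h4]
      rw [e3 x y (s + (q₁ - q)) (by linarith)]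
      simp
  · intro r hr x y
    rcases lt_trichotomy r q₁ with h4 | h4 | h4
    · have h5 : r ≠ q₀ := by
        rintro rfl
        exact hr q (le_refl q) (by simp)
      show vf v p q q₀ q₁ x r = vf v p q q₀ q₁ y r
      rw [e2 x r h4 h5, e2 y r h4 h5]
    · show vf v p q q₀ q₁ x r = vf v p q q₀ q₁ y r
      rw [h4, e1 x, e1 y]
    · exfalso
      have h6 : q < r - (q₁ - q) := by linarith
      refine hr (r - (q₁ - q)) h6.le ?_
      simp only [if_neg h6.ne']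
      ring
  · intro s hs x y
    exact h1 x y s (not_le.1 hs)

end XRZW

open XRZW in
/-- realization of patterns -/
theorem RZW_pf : S_RZW := by
  intro c n S hS hne p hp q₀ q₁ hq
  rcases hp with hp | ⟨v, hv, hs⟩
  · obtain ⟨v, hv⟩ := hne
    obtain ⟨q, hq'⟩ := exists_low v
    refine core S hS v hv p q (fun x y r hr => ?_) (fun x y => ?_) q₀ q₁ hq
    · rw [hq' x r hr.le, hq' y r hr.le]
    · rw [hq' x q le_rfl, hq' y q le_rfl]
      exact ⟨fun _ => hp x y, fun _ => rfl⟩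
  · obtain ⟨-, q, h2, h3⟩ := hs
    exact core S hS v hv p q (fun x y => h2 x trivial y trivial)
      (fun x y => h3 x trivial y trivial) q₀ q₁ hq

end Pool.Agent.Work.MP_8dbde4_lc.Om
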