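import Pool.Agent.Work.MP_8dbde4_lc.Om.StmtsE
import Pool.Agent.Work.MP_8dbde4_lc.Om.I_STW
import Pool.Agent.Work.MP_8dbde4_lc.Om.I_S0W
import Pool.Agent.Work.MP_8dbde4_lc.Om.I_U1W
import Pool.Agent.Work.MP_8dbde4_lc.Om.I_RZW
import Pool.Agent.Work.MP_8dbde4_lc.Om.I_BFW
import Pool.Agent.Work.MP_8dbde4_lc.Phy.I_PPB
import Pool.Agent.Work.MP_8dbde4_lc.Phy.I_KPF

/-!
The assembly of the engine: definability in FPC implies the closure property.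
-/

set_option autoImplicit false
open Classical

namespace Pool.Agent.Work.MP_8dbde4_lc.Om

open Pool.Agent.Work.MP_8dbde4_lc.TS
open Pool.Agent.Work.MP_8dbde4_lc.Tree (Word Agr Cc Gad Den row BFSys)
open Pool.Agent.Work.MP_8dbde4_lc.Phy (PP Hom TI)
open Pool.Agent.Work.MP_8dbde4_lc.Bra (Same InvU CC)

namespace XKFW

theorem finiteEE (M G : Type) [Finite M] [Finite G] (p : ℕ) [NeZero p] (I T : Type) [Finite I]
    [Finite T] (n : ℕ) (D DC : Type) [Finite D] [Finite DC] :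
    Finite (EE M G p I T n D DC) := by
  have := Phy.XKPF.finiteTI G p T n
  refine Finite.of_injective
    (β := (G × ZMod p) ⊕ ((G × ZMod p × ZMod p × (I → M)) ⊕
      ((G × ZMod p × ZMod p × T × D) ⊕ (TI G p T n × DC))))
    (fun x => match x with
      | .main v s => Sum.inl (v, s)
      | .site v α β t => Sum.inr (Sum.inl (v, α, β, t))
      | .fr v α β t d => Sum.inr (Sum.inr (Sum.inl (v, α, β, t, d)))
      | .tf τ d => Sum.inr (Sum.inr (Sum.inr (τ, d)))) ?_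
  intro x y hxy
  cases x <;> cases y <;> simp at hxy ⊢ <;> exact hxy

theorem ps_ok {c : ℚ → ℕ} {n : ℕ} (S : (Fin n → Word c) → Prop) : PS (PSN S) := by
  refine ⟨?_, fun a => Or.inl (fun _ _ => rfl)⟩
  rintro p p' hpp (h | ⟨v, hv, hs⟩)
  · exact Or.inl (fun i j => (hpp i j).1 (h i j))
  · exact Or.inr ⟨v, hv, hs.congr (fun x _ y _ => hpp x y)⟩

end XKFW

/-- KP for sets of the form `Fin n` and `Y = univ`. -/
def KPn {c : ℚ → ℕ} {σ : Sig} (𝔅 : Str σ (Word c)) : Prop :=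
  ∀ (n : ℕ) (S : (Fin n → Word c) → Prop), PP 𝔅 S → ∀ h h' : Fin n → ℕ,
    (∃ v, S v ∧ Spl Set.univ v h) → (∃ v, S v ∧ Spl Set.univ v h') →
    ∃ v, S v ∧ Spl Set.univ v (mt h h')

open XKFW in
theorem KFW_pf (hGame : Tree.S_GAME) (hPG : Tree.S_PGRP) (hDen : Tree.S_DEN)
    (hInj : Tree.S_INJ) (hExt : Tree.S_EXT) (hUA : S_UAW) (hGD : S_GDW) (hPD : S_PDW)
    (c : ℚ → ℕ) (σ : Sig) (𝔅 : Str σ (Word c)) (hL : NLang 𝔅) (hI : IV 𝔅)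
    (hFPC : InFPC (CSP 𝔅)) : KPn 𝔅 := by
  intro n₀ S₀ hS₀ h h' hh hh'
  by_contra hno
  obtain ⟨S, hS, hex, hN, hSC⟩ := hPD c σ 𝔅 hL.ppN hI n₀ S₀ hS₀ h h' hh hh' hno
  generalize hn : n₀ + 3 = n at S hS hex hN hSC
  obtain ⟨M, hM⟩ : ∃ M, M = n ^ 3 + 3 * n + 5 := ⟨_, rfl⟩
  have hPS := ps_ok S
  obtain ⟨Δ, hΔ⟩ := hGD hInj n M (PSN S) (by omega)
    (fun I _ f hf => hUA n M (PSN S) hPS hN hSC (by omega) I f hf)
  have hSI : ∀ v w, Same v w → S v → S w := hI (Fin n) S hS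
  obtain ⟨D, hDf, 𝔇, m, hm⟩ := hS
  obtain ⟨DC, hDCf, ℭ, mC, hmC⟩ := hL.ppC
  refine hGame σ (CSP 𝔅) ?_ hFPC
  intro k
  obtain ⟨G, _, hGf, g₁, g₂, hG, hw⟩ := hPG 2 (2 * (3 * k + 5)) Nat.prime_two
  have hDn : Den (row g₁ g₂) (3 * k + 5) := hDen G g₁ g₂ (3 * k + 5) hw
  have hrow : ∀ v : G, (row g₁ g₂ v).card = 3 := by
    intro v
    have h1 := hDn {v} (Finset.singleton_nonempty v) (by simp)
    rw [Finset.singleton_biUnion, Finset.card_singleton] at h1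
    have h2 : (row g₁ g₂ v).card ≤ 3 := Finset.card_le_three
    omega
  have hI' : Finite (ZMod 2 × ZMod 2) := inferInstance
  obtain ⟨Z, hZ1, hZ2⟩ := BFW_pf hExt σ (Fin M) G g₁ g₂ 2 n (ZMod 2 × ZMod 2)
    (CT S M (ZMod 2 × ZMod 2)) D DC 𝔇 m ℭ mC Δ (fun t => t.1) k Nat.prime_two hrow hDn
  have hT : Finite (CT S M (ZMod 2 × ZMod 2)) := by
    unfold CT
    infer_instance
  have hfin : Finite (EE (Fin M) G 2 (ZMod 2 × ZMod 2) (CT S M (ZMod 2 × ZMod 2)) n D DC) :=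
    finiteEE _ G 2 _ _ n D DC
  refine ⟨EE (Fin M) G 2 (ZMod 2 × ZMod 2) (CT S M (ZMod 2 × ZMod 2)) n D DC, _, hfin, hfin,
    JP 𝔇 m ℭ mC Δ (fun t => t.1) g₁ g₂ 0, JP 𝔇 m ℭ mC Δ (fun t => t.1) g₁ g₂ 1, Z, hZ1, hZ2,
    ?_, ?_⟩
  · exact (STW_pf c σ 𝔅 n S D 𝔇 m hm DC ℭ mC hmC (Fin M) G g₁ g₂ 2 _ _ Δ
      (fun t : CT S M (ZMod 2 × ZMod 2) => t.1) 0).2 (S0W_pf RZW_pf c n S hSI hex G g₁ g₂ M 2 _ Δ hΔ)
  · intro hc
    exact U1W_pf c n S G g₁ g₂ M 2 _ Δ Nat.prime_two hG hΔ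
      ((STW_pf c σ 𝔅 n S D 𝔇 m hm DC ℭ mC hmC (Fin M) G g₁ g₂ 2 _ _ Δ
        (fun t : CT S M (ZMod 2 × ZMod 2) => t.1) 1).1 hc)

/-- General index sets. -/
theorem KXW_pf {c : ℚ → ℕ} {σ : Sig} (𝔅 : Str σ (Word c)) (hK : KPn 𝔅) : KP 𝔅 := by
  intro X _ S hS Y h h' hv hv'
  obtain ⟨n, ⟨e⟩⟩ := Finite.exists_equiv_fin Y
  have hPP := (Phy.PPB_pf σ (Word c) 𝔅).2.2.2.1 X (Fin n) S (fun i => (e.symm i : X)) hS
  have key : ∀ (v : X → Word c) (g : X → ℕ), Spl Y v g ↔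
      Spl Set.univ (fun i => v (e.symm i : X)) (fun i => g (e.symm i : X)) := by
    intro v g
    constructor
    · intro H
      refine H.pull (fun i => (e.symm i : X)) (fun i _ => (e.symm i).2) ?_
      obtain ⟨⟨x, hx, y, hy, hxy⟩, _⟩ := H
      exact ⟨e ⟨x, hx⟩, trivial, e ⟨y, hy⟩, trivial, by simpa using hxy⟩
    · rintro ⟨⟨x, _, y, _, hxy⟩, q, h1, h2⟩
      refine ⟨⟨(e.symm x : X), (e.symm x).2, (e.symm y : X), (e.symm y).2, hxy⟩, q, ?_, ?_⟩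
      · intro x hx y hy
        have := h1 (e ⟨x, hx⟩) trivial (e ⟨y, hy⟩) trivial
        simpa using this
      · intro x hx y hy
        have := h2 (e ⟨x, hx⟩) trivial (e ⟨y, hy⟩) trivial
        simpa using this
  obtain ⟨v, hv1, hv2⟩ := hv
  obtain ⟨v', hv1', hv2'⟩ := hv'
  obtain ⟨u, ⟨w, hw, huw⟩, hu⟩ := hK n _ hPP (fun i => h (e.symm i : X))
    (fun i => h' (e.symm i : X))
    ⟨fun i => v (e.symm i : X), ⟨v, hv1, fun _ => rfl⟩, (key v h).1 hv2⟩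
    ⟨fun i => v' (e.symm i : X), ⟨v', hv1', fun _ => rfl⟩, (key v' h').1 hv2'⟩
  refine ⟨w, hw, (key w _).2 ?_⟩
  have : u = fun i => w (e.symm i : X) := funext huw
  rw [this] at hu
  exact hu

end Pool.Agent.Work.MP_8dbde4_lc.Om
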