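import Pool.Agent.Work.MP_8dbde4_lc.Om.StmtsE

/-!
Item LIW of the block Om of MP_8dbde4_lc: homomorphisms on lines, and a binary homomorphism which
depends on both coordinates.
-/

set_option autoImplicit false
open Classical

namespace Pool.Agent.Work.MP_8dbde4_lc.Om

open Pool.Agent.Work.MP_8dbde4_lc.TS
open Pool.Agent.Work.MP_8dbde4_lc.Tree (Word Agr Cc Gad Den row BFSys)
open Pool.Agent.Work.MP_8dbde4_lc.Phy (PP Hom TI)
open Pool.Agent.Work.MP_8dbde4_lc.Bra (Same InvU CC)

theorem LIW_pf : S_LIW := by
  rintro n m P hP ⟨a, b, d, hab, hbd, had, hp, hq⟩ I f hf i x
  have key : ∀ s₁ s₂ s₃ : Fin m, s₁ ≠ s₂ → s₂ ≠ s₃ → s₁ ≠ s₃ →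
      (f (Function.update x i s₁) = f (Function.update x i s₂) ∧
        f (Function.update x i s₂) = f (Function.update x i s₃)) ∨
      (f (Function.update x i s₁) ≠ f (Function.update x i s₂) ∧
        f (Function.update x i s₂) ≠ f (Function.update x i s₃) ∧
        f (Function.update x i s₁) ≠ f (Function.update x i s₃)) := by
    intro s₁ s₂ s₃ h12 h23 h13
    have h := hf (fun j => Function.update x i
      (if j = b then s₂ else if j = d then s₃ else s₁)) (by
      intro i'
      by_cases hi : i' = i
      · subst hi
        have h1 := hq s₁.val s₂.val s₃.val (fun h => h12 (Fin.ext h)) (fun h => h23 (Fin.ext h))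
          (fun h => h13 (Fin.ext h))
        have h2 : (fun j => (Function.update x i'
            (if j = b then s₂ else if j = d then s₃ else s₁) i').val) =
            fun j : Fin n => if j = b then s₂.val else if j = d then s₃.val else s₁.val := by
          funext j
          rw [Function.update_self]
          split_ifs <;> rfl
        rw [h2]
        exact h1
      · have h1 := hP.const (x i').val
        have h2 : (fun j => (Function.update x i
            (if j = b then s₂ else if j = d then s₃ else s₁) i').val) =
            fun _ : Fin n => (x i').val := by
          funext j
          rw [Function.update_of_ne hi]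
        rw [h2]
        exact h1)
    have h' := hp _ h
    simpa [hab, had, hbd, hbd.symm] using h'
  by_cases hinj : Function.Injective (fun a => f (Function.update x i a))
  · exact Or.inl hinj
  · right
    obtain ⟨s, s', he, hne⟩ : ∃ s s', f (Function.update x i s) = f (Function.update x i s') ∧
        s ≠ s' := by
      unfold Function.Injective at hinj
      push Not at hinj
      obtain ⟨s, s', h1, h2⟩ := hinj
      exact ⟨s, s', h1, h2⟩
    refine ⟨f (Function.update x i s), fun r => ?_⟩
    by_cases h1 : r = s
    · rw [h1]
    by_cases h2 : r = s'
    · rw [h2, he]
    rcases key s s' r hne (Ne.symm h2) (Ne.symm h1) with h3 | h3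
    · rw [← h3.2, he]
    · exact absurd he h3.1

namespace XLIW

/-- The binary homomorphism given by two directions, and its lines. -/
theorem bin (h : S_LIW) {n m : ℕ} {P : (Fin n → ℕ) → Prop} (hP : PS P) (hN : NCond P) {I : Type}
    {f : (I → Fin m) → ℕ} (hf : HomN P f) {i l : I} (hil : i ≠ l) (x : I → Fin m) :
    (∀ t t' : Fin n → Fin m, P (fun j => (t j).val) → P (fun j => (t' j).val) →
      P (fun j => f (Function.update (Function.update x i (t j)) l (t' j)))) ∧
    (∀ a, Function.Injective (fun b => f (Function.update (Function.update x i a) l b)) ∨
      ∃ e, ∀ b, f (Function.update (Function.update x i a) l b) = e) ∧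
    (∀ b, Function.Injective (fun a => f (Function.update (Function.update x i a) l b)) ∨
      ∃ e, ∀ a, f (Function.update (Function.update x i a) l b) = e) := by
  refine ⟨?_, ?_, ?_⟩
  · intro t t' ht ht'
    refine hf (fun j => Function.update (Function.update x i (t j)) l (t' j)) ?_
    intro k
    by_cases hk : k = l
    · subst hk
      simpa only [Function.update_self] using ht'
    · simp only [Function.update_of_ne hk]
      by_cases hk2 : k = i
      · subst hk2
        simpa only [Function.update_self] using ht
      · simp only [Function.update_of_ne hk2]
        exact hP.const _
  · intro a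
    exact h n m P hP hN I f hf l (Function.update x i a)
  · intro b
    have h1 := h n m P hP hN I f hf i (Function.update x l b)
    have h2 : ∀ a, Function.update (Function.update x i a) l b =
        Function.update (Function.update x l b) i a := fun a => (Function.update_comm hil.symm _ _ _).symm
    simpa only [h2] using h1

/-- A line which is not constant is injective. -/
theorem line (h : S_LIW) {n m : ℕ} {P : (Fin n → ℕ) → Prop} (hP : PS P) (hN : NCond P) {I : Type}
    {f : (I → Fin m) → ℕ} (hf : HomN P f) {i : I} {x : I → Fin m} {a b : Fin m}
    (hab : f (Function.update x i a) ≠ f (Function.update x i b)) :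
    Function.Injective (fun a => f (Function.update x i a)) := by
  rcases h n m P hP hN I f hf i x with h1 | ⟨e, h1⟩
  · exact h1
  · exact absurd ((h1 a).trans (h1 b).symm) hab

/-- The mixture of two points. -/
noncomputable def mix {m : ℕ} {I : Type} (x y : I → Fin m) (T : Finset I) : I → Fin m :=
  fun k => if k ∈ T then y k else x k

end XLIW

open XLIW in
theorem BDW_pf (h : S_LIW) : S_BDW := by
  intro n m P hP hN I _ f hf i j hij hi hj
  obtain ⟨x, a₁, a₂, ha⟩ := hi
  obtain ⟨y, b₁, b₂, hb⟩ := hj
  have hx := line h hP hN hf ha
  have hy := line h hP hN hf hb
  have ha12 : a₁ ≠ a₂ := fun h1 => ha (by rw [h1])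
  by_cases hQ : Function.Injective (fun a => f (Function.update y i a))
  · obtain ⟨h1, h2, h3⟩ := bin h hP hN hf hij y
    refine ⟨fun a b => f (Function.update (Function.update y i a) j b), h1, h2, h3,
      ⟨y i, ?_⟩, ⟨y j, ?_⟩⟩
    · simpa only [Function.update_eq_self] using hy
    · have h4 : ∀ a, Function.update (Function.update y i a) j (y j) = Function.update y i a := by
        intro a
        have h5 : y j = Function.update y i a j := by rw [Function.update_of_ne hij.symm]
        rw [h5]
        exact Function.update_eq_self _ _
      simpa only [h4] using hQ
  · -- a step at which the line becomes constant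
    have hstep : ∃ (T : Finset I) (l : I), l ∉ T ∧
        Function.Injective (fun a => f (Function.update (mix x y T) i a)) ∧
        ¬ Function.Injective (fun a => f (Function.update (mix x y (insert l T)) i a)) := by
      by_contra hcon
      push Not at hcon
      have hall : ∀ T : Finset I,
          Function.Injective (fun a => f (Function.update (mix x y T) i a)) := by
        intro T
        induction T using Finset.induction_on with
        | empty =>
          have h1 : mix x y ∅ = x := by
            funext k
            simp [mix]
          rw [h1]
          exact hx
        | insert l T hl ih => exact hcon T l hl ih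
      have : Fintype I := Fintype.ofFinite I
      have h1 := hall Finset.univ
      have h2 : mix x y Finset.univ = y := by
        funext k
        simp [mix]
      rw [h2] at h1
      exact hQ h1
    obtain ⟨T, l, hl, hT, hT'⟩ := hstep
    have hli : i ≠ l := by
      rintro rfl
      apply hT'
      have h1 : ∀ a, Function.update (mix x y (insert i T)) i a =
          Function.update (mix x y T) i a := by
        intro a
        funext k
        by_cases hk : k = i
        · subst hk
          rw [Function.update_self, Function.update_self]
        · rw [Function.update_of_ne hk, Function.update_of_ne hk]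
          simp [mix, hk]
      simpa only [h1] using hT
    obtain ⟨h1, h2, h3⟩ := bin h hP hN hf hli (mix x y T)
    set z := mix x y T with hz
    have hcol : ∀ a, Function.update (Function.update z i a) l (z l) = Function.update z i a := by
      intro a
      have h5 : z l = Function.update z i a l := by rw [Function.update_of_ne hli.symm]
      rw [h5]
      exact Function.update_eq_self _ _
    have hcol2 : ∀ a, Function.update (Function.update z i a) l (y l) =
        Function.update (mix x y (insert l T)) i a := by
      intro a
      funext k
      by_cases hk : k = l
      · subst hk
        rw [Function.update_self, Function.update_of_ne hli.symm]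
        simp [mix]
      · rw [Function.update_of_ne hk]
        by_cases hk2 : k = i
        · subst hk2
          rw [Function.update_self, Function.update_self]
        · rw [Function.update_of_ne hk2, Function.update_of_ne hk2, hz]
          simp [mix, hk]
    have hconst : ∃ e, ∀ a, f (Function.update (Function.update z i a) l (y l)) = e := by
      rcases h3 (y l) with h4 | h4
      · exfalso
        apply hT'
        simpa only [hcol2] using h4
      · exact h4
    obtain ⟨e, he⟩ := hconst
    have hrow : ∃ a, Function.Injective
        (fun b => f (Function.update (Function.update z i a) l b)) := by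
      by_contra hcon
      push Not at hcon
      apply ha12
      apply hT
      have h4 : ∀ a, f (Function.update z i a) = e := by
        intro a
        rcases h2 a with h5 | ⟨e', h5⟩
        · exact absurd h5 (hcon a)
        · have h6 := h5 (z l)
          rw [hcol a] at h6
          rw [h6, ← h5 (y l), he a]
      show f (Function.update z i a₁) = f (Function.update z i a₂)
      rw [h4, h4]
    refine ⟨fun a b => f (Function.update (Function.update z i a) l b), h1, h2, h3, hrow,
      ⟨z l, ?_⟩⟩
    simpa only [hcol] using hT

end Pool.Agent.Work.MP_8dbde4_lc.Om
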