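import Pool.Agent.Work.MP_8dbde4_lc.Om.Stmts

/-!
Item MAW of the block Om of MP_8dbde4_lc: the moving property across a first split.
-/

set_option autoImplicit false
open Classical

namespace Pool.Agent.Work.MP_8dbde4_lc.Om

open Pool.Agent.Work.MP_8dbde4_lc.TS
open Pool.Agent.Work.MP_8dbde4_lc.Tree (Word Agr Cc)
open Pool.Agent.Work.MP_8dbde4_lc.Phy (PP Hom)
open Pool.Agent.Work.MP_8dbde4_lc.Bra (Same InvU CC)

namespace XMAW

variable {c : ℚ → ℕ}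

theorem cc_sym {x y z : Word c} (h : Cc z x y) : Cc z y x := by
  obtain ⟨q, h1, h2, h3, h4⟩ := h
  exact ⟨q, h2, h1, h3.symm, fun h5 => h4 (h5.trans h3.symm)⟩

theorem cc_irr (z y : Word c) : ¬ Cc z z y := by
  rintro ⟨q, -, -, -, h⟩
  exact h rfl

theorem cc_irr' (z y : Word c) : ¬ Cc z y z := fun h => cc_irr z y (cc_sym h)

theorem cc_xx {z x : Word c} (h : z ≠ x) : Cc z x x := by
  obtain ⟨q, h1, h2⟩ := first_diff h
  exact ⟨q, h1, h1, rfl, h2⟩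

/-- Two different words. -/
def two (x y : Word c) (t : Bool) : Word c := if t then x else y

theorem two_eq {x y : Word c} (h : x ≠ y) (s t : Bool) : two x y s = two x y t ↔ s = t := by
  cases s <;> cases t <;> simp [two, h, h.symm]

theorem two_cc {x y : Word c} (h : x ≠ y) (t s s' : Bool) :
    Cc (two x y t) (two x y s) (two x y s') ↔ (s = s' ∧ t ≠ s) := by
  constructor
  · intro H
    have h1 : t ≠ s := fun h2 => by
      subst h2
      exact cc_irr _ _ H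
    have h2 : t ≠ s' := fun h2 => by
      subst h2
      exact cc_irr' _ _ H
    refine ⟨?_, h1⟩
    cases t <;> cases s <;> cases s' <;> simp_all
  · rintro ⟨rfl, h1⟩
    exact cc_xx (fun h2 => h1 ((two_eq h _ _).1 h2))

/-- Two words on one side, a tuple on the other side. -/
structure Sd {Z : Type} (v : Z → Word c) (x y : Word c) : Prop where
  ne : x ≠ y
  h1 : ∀ z z' t, Cc (two x y t) (v z) (v z')
  h2 : ∀ z t t', Cc (v z) (two x y t) (two x y t')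

theorem Sd.no1 {Z : Type} {v : Z → Word c} {x y : Word c} (H : Sd v x y) (z z' : Z) (t : Bool) :
    ¬ Cc (v z) (v z') (two x y t) := (cc_not (H.h1 z' z t)).1

theorem Sd.no2 {Z : Type} {v : Z → Word c} {x y : Word c} (H : Sd v x y) (z : Z) (t t' : Bool) :
    ¬ Cc (two x y t) (two x y t') (v z) := (cc_not (H.h2 z t' t)).1

theorem same_two {Z : Type} {v w : Z → Word c} {x y x' y' : Word c} (H : Same v w)
    (H1 : Sd v x y) (H2 : Sd w x' y') :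
    Same (Sum.elim v (two x y)) (Sum.elim w (two x' y')) := by
  refine ⟨?_, ?_⟩
  · rintro (s | s) (t | t)
    · exact H.1 s t
    · exact ⟨fun h => absurd h (cc_ne (H1.h2 s t t)).1, fun h => absurd h (cc_ne (H2.h2 s t t)).1⟩
    · exact ⟨fun h => absurd h.symm (cc_ne (H1.h2 t s s)).1,
        fun h => absurd h.symm (cc_ne (H2.h2 t s s)).1⟩
    · exact (two_eq H1.ne s t).trans (two_eq H2.ne s t).symm
  · rintro (s | s) (t | t) (u | u)
    · exact H.2 s t u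
    · exact ⟨fun _ => H2.h1 s t u, fun _ => H1.h1 s t u⟩
    · exact ⟨fun h => absurd h (H1.no1 u s t), fun h => absurd h (H2.no1 u s t)⟩
    · exact ⟨fun h => absurd (cc_sym h) (H1.no2 s u t), fun h => absurd (cc_sym h) (H2.no2 s u t)⟩
    · exact ⟨fun h => absurd (cc_sym h) (H1.no1 u t s), fun h => absurd (cc_sym h) (H2.no1 u t s)⟩
    · exact ⟨fun h => absurd h (H1.no2 t u s), fun h => absurd h (H2.no2 t u s)⟩
    · exact ⟨fun _ => H2.h2 u s t, fun _ => H1.h2 u s t⟩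
    · exact (two_cc H1.ne u s t).trans (two_cc H2.ne u s t).symm

/-- An auxiliary word agrees with the words of `I` up to and including `q`. -/
theorem agr_le {x y z : Word c} {q : ℚ} (hxy : x ≠ y) (h : ∀ s ≤ q, x.1 s = y.1 s)
    (hc : ¬ Cc z x y) : ∀ s ≤ q, z.1 s = x.1 s := by
  obtain ⟨d, hd1, hd2⟩ := first_diff hxy
  have hqd : q < d := by
    by_contra h1
    exact hd2 (h d (not_lt.1 h1))
  intro s hs
  by_cases hzx : z = x
  · rw [hzx]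
  · obtain ⟨d', h1, h2⟩ := first_diff hzx
    by_cases hlt : d' < d
    · exfalso
      apply hc
      exact ⟨d', h1, fun s hs => (h1 s hs).trans (hd1 s (hs.trans hlt)), hd1 d' hlt, h2⟩
    · exact h1 s (lt_of_le_of_lt hs (lt_of_lt_of_le hqd (not_lt.1 hlt)))

end XMAW

open XMAW

theorem MAW_pf (h1 : S_NEW) (h2 : S_AMW) : S_MAW := by
  intro c X _ S Y p q' k₀ k₁ k₂ hk hS hj₁ w₀ w₁ hw₀ hspl hw₁ Z _ _ e a ha he hsame
  obtain ⟨z₀⟩ : Nonempty Z := inferInstance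
  obtain ⟨j₁, hj₁Y, hj₁p, hj₁q⟩ := hj₁
  obtain ⟨j₀, ⟨hj₀Y, hj₀p⟩, hj₀q⟩ : ∃ j ∈ {x | x ∈ Y ∧ p x = k₁}, q' j ≠ k₂ := by
    obtain ⟨⟨x, hx, y, hy, hxy⟩, -⟩ := hspl
    by_cases h : q' x = k₂
    · exact ⟨y, hy, fun h3 => hxy (h.trans h3.symm)⟩
    · exact ⟨x, hx, h⟩
  have hS0 := hS w₀ hw₀
  have hS1 := hS w₁ hw₁
  obtain ⟨-, q₁, ha1, ha2⟩ := hS1
  have hag : ∀ x ∈ Y, ∀ y ∈ Y, p x = p y → ∀ s ≤ q₁, (w₁ x).1 s = (w₁ y).1 s := by
    intro x hx y hy hxy s hs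
    rcases lt_or_eq_of_le hs with h | h
    · exact ha1 x hx y hy s h
    · rw [h]
      exact (ha2 x hx y hy).2 hxy
  -- the auxiliary words
  have hez : ∀ z, ∀ i ∈ Y, p i = k₀ → ∀ s ≤ q₁, (e z).1 s = (w₁ i).1 s := by
    intro z i hi hpi s hs
    obtain ⟨i', ⟨hi'Y, hi'p⟩, j', ⟨hj'Y, hj'p⟩, hne, hcc⟩ := he z
    rw [agr_le hne (hag i' hi'Y j' hj'Y (hi'p.trans hj'p.symm)) hcc s hs]
    exact hag i' hi'Y i hi (hi'p.trans hpi.symm) s hs
  -- the new word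
  have hF : (Set.range w₁ ∪ Set.range e).Finite := (Set.finite_range w₁).union (Set.finite_range e)
  obtain ⟨e₁, r', hr, hE1, hE2, hE3⟩ := h1 c (Set.range w₁ ∪ Set.range e) hF (w₁ j₁) q₁
  have hJ : ∀ j ∈ Y, p j = k₁ → ∀ s ≤ r', (w₁ j₁).1 s = (w₁ j).1 s := by
    intro j hj hpj s hs
    by_cases hsq : s ≤ q₁
    · exact hag j₁ hj₁Y j hj (hj₁p.trans hpj.symm) s hsq
    · exact hE3 _ (Or.inl ⟨j₁, rfl⟩) _ (Or.inl ⟨j, rfl⟩) s (not_le.1 hsq) hs
  have hcc1 : ∀ j ∈ Y, p j = k₁ → ∀ j' ∈ Y, p j' = k₁ → Cc e₁ (w₁ j) (w₁ j') := by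
    intro j hj hpj j' hj' hpj'
    refine ⟨r', fun s hs => (hE1 s hs).trans (hJ j hj hpj s hs.le),
      fun s hs => (hE1 s hs).trans (hJ j' hj' hpj' s hs.le), ?_, hE2 _ (Or.inl ⟨j, rfl⟩)⟩
    rw [← hJ j hj hpj r' le_rfl, hJ j' hj' hpj' r' le_rfl]
  have hne1 : e₁ ≠ w₁ j₁ := (cc_ne (hcc1 j₁ hj₁Y hj₁p j₁ hj₁Y hj₁p)).1
  -- the two sides
  have hd1 : Sd e e₁ (w₁ j₁) := by
    have hlow : ∀ t, ∀ s ≤ q₁, (two e₁ (w₁ j₁) t).1 s = (w₁ j₁).1 s := by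
      intro t s hs
      cases t
      · rfl
      · exact hE1 s (lt_of_le_of_lt hs hr)
    have hez' : ∀ z, ∀ s ≤ q₁, (e z).1 s = (w₁ (a z₀)).1 s := fun z =>
      hez z (a z₀) (ha z₀).1 (ha z₀).2
    have hdiff : (w₁ (a z₀)).1 q₁ ≠ (w₁ j₁).1 q₁ := fun h3 =>
      hk ((ha z₀).2.symm.trans (((ha2 (a z₀) (ha z₀).1 j₁ hj₁Y).1 h3).trans hj₁p))
    have hbel : ∀ s < q₁, (w₁ (a z₀)).1 s = (w₁ j₁).1 s := ha1 (a z₀) (ha z₀).1 j₁ hj₁Y
    refine ⟨hne1, ?_, ?_⟩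
    · intro z z' t
      refine ⟨q₁, ?_, ?_, ?_, ?_⟩
      · intro s hs
        rw [hlow t s hs.le, hez' z s hs.le, hbel s hs]
      · intro s hs
        rw [hlow t s hs.le, hez' z' s hs.le, hbel s hs]
      · rw [hez' z q₁ le_rfl, hez' z' q₁ le_rfl]
      · rw [hlow t q₁ le_rfl, hez' z q₁ le_rfl]
        exact fun h3 => hdiff h3.symm
    · intro z t t'
      refine ⟨q₁, ?_, ?_, ?_, ?_⟩
      · intro s hs
        rw [hlow t s hs.le, hez' z s hs.le, hbel s hs]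
      · intro s hs
        rw [hlow t' s hs.le, hez' z s hs.le, hbel s hs]
      · rw [hlow t q₁ le_rfl, hlow t' q₁ le_rfl]
      · rw [hlow t q₁ le_rfl, hez' z q₁ le_rfl]
        exact hdiff
  have hne0 : w₀ j₀ ≠ w₀ j₁ := hspl.ne ⟨hj₀Y, hj₀p⟩ ⟨hj₁Y, hj₁p⟩
    (fun h3 => hj₀q (h3.trans hj₁q))
  have hd0 : Sd (fun z => w₀ (a z)) (w₀ j₀) (w₀ j₁) := by
    have htw : ∀ t, ∃ j ∈ Y, p j = k₁ ∧ two (w₀ j₀) (w₀ j₁) t = w₀ j := by
      intro t
      cases t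
      · exact ⟨j₁, hj₁Y, hj₁p, rfl⟩
      · exact ⟨j₀, hj₀Y, hj₀p, rfl⟩
    refine ⟨hne0, ?_, ?_⟩
    · intro z z' t
      obtain ⟨j, hjY, hjp, hj⟩ := htw t
      rw [hj]
      exact hS0.cc (ha z).1 (ha z').1 hjY ((ha z).2.trans (ha z').2.symm)
        (fun h4 => hk ((ha z).2.symm.trans (h4.symm.trans hjp)))
    · intro z t t'
      obtain ⟨j, hjY, hjp, hj⟩ := htw t
      obtain ⟨j', hjY', hjp', hj'⟩ := htw t'
      rw [hj, hj']
      exact hS0.cc hjY hjY' (ha z).1 (hjp.trans hjp'.symm)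
        (fun h4 => hk ((ha z).2.symm.trans (h4.trans hjp)))
  have hS : Same (Sum.elim (fun z => w₀ (a z)) (two (w₀ j₀) (w₀ j₁)))
      (fun k : Z ⊕ Bool => (fun o : Option (X ⊕ Z) => o.elim e₁ (Sum.elim w₁ e))
        (Sum.elim (fun z => some (Sum.inr z))
          (fun t : Bool => if t then none else some (Sum.inl j₁)) k)) := by
    have h3 := same_two hsame.symm hd0 hd1
    have h4 : (fun k : Z ⊕ Bool => (fun o : Option (X ⊕ Z) => o.elim e₁ (Sum.elim w₁ e))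
        (Sum.elim (fun z => some (Sum.inr z))
          (fun t : Bool => if t then none else some (Sum.inl j₁)) k)) =
        Sum.elim e (two e₁ (w₁ j₁)) := by
      funext o
      rcases o with z | t
      · rfl
      · cases t <;> rfl
    rw [h4]
    exact h3
  obtain ⟨g, hg1, hg2⟩ := h2 c (Option (X ⊕ Z)) (Z ⊕ Bool)
    (fun o : Option (X ⊕ Z) => o.elim e₁ (Sum.elim w₁ e))
    (Sum.elim (fun z => w₀ (a z)) (two (w₀ j₀) (w₀ j₁)))
    (Sum.elim (fun z => some (Sum.inr z))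
      (fun t : Bool => if t then none else some (Sum.inl j₁))) hS
  have hgn : g none = w₀ j₀ := hg2 (Sum.inr true)
  have hgj : g (some (Sum.inl j₁)) = w₀ j₁ := hg2 (Sum.inr false)
  have hga : ∀ z, g (some (Sum.inr z)) = w₀ (a z) := fun z => hg2 (Sum.inl z)
  refine ⟨fun x => g (some (Sum.inl x)), ?_, ?_⟩
  · have h3 := hg1.comp (fun s : X ⊕ Z => some s)
    have h4 : (fun s : X ⊕ Z => g (some s)) =
        Sum.elim (fun x => g (some (Sum.inl x))) (fun z => w₀ (a z)) := by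
      funext s
      rcases s with x | z
      · rfl
      · exact hga z
    rw [← h4]
    exact h3
  · have hcc : ∀ j ∈ Y, p j = k₁ → Cc (w₀ j₀) (w₀ j₁) (g (some (Sum.inl j))) := by
      intro j hj hpj
      rw [← hgn, ← hgj]
      exact (hg1.2 (some (Sum.inl j₁)) (some (Sum.inl j)) none).1
        (hcc1 j₁ hj₁Y hj₁p j hj hpj)
    obtain ⟨⟨x, hx, y, hy, hxy⟩, q₂, hq1, hq2⟩ := hspl
    have hne : (w₀ j₀).1 q₂ ≠ (w₀ j₁).1 q₂ := fun h3 =>
      hj₀q (((hq2 j₀ ⟨hj₀Y, hj₀p⟩ j₁ ⟨hj₁Y, hj₁p⟩).1 h3).trans hj₁q)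
    have key : ∀ j ∈ Y, p j = k₁ → Agr (w₀ j₀) (g (some (Sum.inl j))) q₂ ∧
        (w₀ j₁).1 q₂ = (g (some (Sum.inl j))).1 q₂ := fun j hj hpj =>
      cc_place (hcc j hj hpj) (hq1 j₀ ⟨hj₀Y, hj₀p⟩ j₁ ⟨hj₁Y, hj₁p⟩) hne
    have hall : ∀ t : Bool × X, t.2 ∈ {x | x ∈ Y ∧ p x = k₁} → ∃ r ∈ {x | x ∈ Y ∧ p x = k₁},
        Agr (w₀ j₀) (if t.1 then g (some (Sum.inl t.2)) else w₀ t.2) q₂ ∧
        (if t.1 then g (some (Sum.inl t.2)) else w₀ t.2).1 q₂ = (w₀ r).1 q₂ ∧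
        (if t.1 then k₂ else q' t.2) = q' r := by
      rintro ⟨t1, t2⟩ ht
      cases t1
      · refine ⟨t2, ht, ?_⟩
        simp only [Bool.false_eq_true, if_false]
        exact ⟨hq1 j₀ ⟨hj₀Y, hj₀p⟩ t2 ht, trivial, trivial⟩
      · refine ⟨j₁, ⟨hj₁Y, hj₁p⟩, ?_⟩
        simp only [if_true]
        exact ⟨(key t2 ht.1 ht.2).1, (key t2 ht.1 ht.2).2.symm, hj₁q.symm⟩
    refine ⟨⟨(false, x), hx, (false, y), hy, ?_⟩, q₂, ?_, ?_⟩
    · simpa using hxy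
    · intro s hs t ht
      obtain ⟨_, _, h3, _⟩ := hall s hs
      obtain ⟨_, _, h4, _⟩ := hall t ht
      exact fun q hq => (h3 q hq).symm.trans (h4 q hq)
    · intro s hs t ht
      obtain ⟨r, hr, _, h3, h4⟩ := hall s hs
      obtain ⟨r', hr', _, h5, h6⟩ := hall t ht
      show (if s.1 then g (some (Sum.inl s.2)) else w₀ s.2).1 q₂ =
        (if t.1 then g (some (Sum.inl t.2)) else w₀ t.2).1 q₂ ↔
        (if s.1 then k₂ else q' s.2) = (if t.1 then k₂ else q' t.2)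
      rw [h3, h4, h5, h6]
      exact hq2 r hr r' hr'

end Pool.Agent.Work.MP_8dbde4_lc.Om
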