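import Pool.Agent.Work.MP_8dbde4_lc.Om.Stmts

/-!
Far words, words near a given word, joining tuples below a new split: see the docstrings of `S_FAW`,
`S_NEW`, `S_JOW`.
-/

set_option autoImplicit false
open Classical

namespace Pool.Agent.Work.MP_8dbde4_lc.Om

open Pool.Agent.Work.MP_8dbde4_lc.TS
open Pool.Agent.Work.MP_8dbde4_lc.Tree (Word Agr Cc)

namespace XNEW

variable {c : ℚ → ℕ}

/-- A place such that the words agree with `c` there and below. -/
theorem low {X : Type} [Finite X] (v : X → Word c) : ∃ q : ℚ, ∀ i, ∀ r ≤ q, (v i).1 r = c r := by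
  have hfin : (⋃ i, {r | (v i).1 r ≠ c r}).Finite := Set.finite_iUnion (fun i => (v i).2)
  obtain ⟨m, hm⟩ := hfin.bddBelow
  refine ⟨m - 1, fun i r hr => ?_⟩
  by_contra hne
  have := hm (Set.mem_iUnion.2 ⟨i, hne⟩)
  linarith

/-- Change the letter at `q`. -/
noncomputable def upd (x : Word c) (q : ℚ) (a : ℕ) : Word c :=
  ⟨Function.update x.1 q a, by
    refine (x.2.union (Set.finite_singleton q)).subset (fun r hr => ?_)
    by_cases h : r = q
    · exact Or.inr h
    · left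
      have hr' : Function.update x.1 q a r ≠ c r := hr
      rw [Function.update_of_ne h] at hr'
      exact hr'⟩

theorem upd_self (x : Word c) (q : ℚ) (a : ℕ) : (upd x q a).1 q = a :=
  Function.update_self _ _ _

theorem upd_ne (x : Word c) {q r : ℚ} (a : ℕ) (h : r ≠ q) : (upd x q a).1 r = x.1 r :=
  Function.update_of_ne h _ _

theorem upd_agr {x y : Word c} {q : ℚ} (h : x.1 q = y.1 q) (a : ℕ) (r : ℚ) :
    Agr (upd x q a) (upd y q a) r ↔ Agr x y r := by
  refine forall_congr' fun r' => forall_congr' fun _ => ?_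
  by_cases h1 : r' = q
  · rw [h1, upd_self, upd_self]
    exact ⟨fun _ => h, fun _ => rfl⟩
  · rw [upd_ne _ _ h1, upd_ne _ _ h1]

theorem upd_eq {x y : Word c} {q : ℚ} (h : x.1 q = y.1 q) (a : ℕ) :
    x = y ↔ upd x q a = upd y q a := by
  refine ⟨fun h1 => congrArg (fun x => upd x q a) h1, fun h1 => ?_⟩
  apply Subtype.ext
  funext r
  by_cases h2 : r = q
  · rw [h2]
    exact h
  · have h3 : (upd x q a).1 r = (upd y q a).1 r := by rw [h1]
    rwa [upd_ne _ _ h2, upd_ne _ _ h2] at h3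

theorem upd_cc {x y z : Word c} {q : ℚ} (h1 : z.1 q = x.1 q) (h2 : z.1 q = y.1 q) (a : ℕ) :
    Cc z x y ↔ Cc (upd z q a) (upd x q a) (upd y q a) := by
  constructor
  · rintro ⟨r, g1, g2, g3, g4⟩
    have g5 : r ≠ q := by
      rintro rfl
      exact g4 h1
    exact ⟨r, (upd_agr h1 a r).2 g1, (upd_agr h2 a r).2 g2,
      by rw [upd_ne _ _ g5, upd_ne _ _ g5]; exact g3,
      by rw [upd_ne _ _ g5, upd_ne _ _ g5]; exact g4⟩
  · rintro ⟨r, g1, g2, g3, g4⟩
    have g5 : r ≠ q := by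
      rintro rfl
      rw [upd_self, upd_self] at g4
      exact g4 rfl
    rw [upd_ne _ _ g5, upd_ne _ _ g5] at g3 g4
    exact ⟨r, (upd_agr h1 a r).1 g1, (upd_agr h2 a r).1 g2, g3, g4⟩

end XNEW

open XNEW in
theorem JOW_pf : S_JOW := by
  intro c X _ u h
  obtain ⟨q, hq⟩ := low (fun x => u (h x) x)
  refine ⟨fun x => upd (u (h x) x) q (h x), ?_, ?_⟩
  · intro k
    have hu : ∀ x ∈ {x | h x = k}, upd (u (h x) x) q (h x) = upd (u k x) q k := by
      intro x hx
      have hx' : h x = k := hx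
      rw [hx']
    have he : ∀ x ∈ {x | h x = k}, (u k x).1 q = c q := by
      intro x hx
      have hx' : h x = k := hx
      have h1 := hq x q le_rfl
      simp only [hx'] at h1
      exact h1
    refine ⟨fun x hx y hy => ?_, fun x hx y hy z hz => ?_⟩
    · beta_reduce
      rw [hu x hx, hu y hy]
      exact upd_eq ((he x hx).trans (he y hy).symm) k
    · beta_reduce
      rw [hu x hx, hu y hy, hu z hz]
      exact upd_cc ((he z hz).trans (he x hx).symm) ((he z hz).trans (he y hy).symm) k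
  · intro Y hY
    refine ⟨hY, q, ?_, ?_⟩
    · intro x _ y _ r hr
      have h1 := hq x r hr.le
      have h2 := hq y r hr.le
      beta_reduce at h1 h2 ⊢
      rw [upd_ne _ _ hr.ne, upd_ne _ _ hr.ne, h1, h2]
    · intro x _ y _
      beta_reduce
      rw [upd_self, upd_self]

open XNEW in
theorem FAW_pf : S_FAW := by
  intro c X _ _ u
  obtain ⟨q, hq⟩ := low u
  obtain ⟨x₀⟩ := (inferInstance : Nonempty X)
  have hA : ∀ x, Agr (upd (u x₀) q (c q + 1)) (u x) q := by
    intro x r hr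
    rw [upd_ne _ _ hr.ne, hq x₀ r hr.le, hq x r hr.le]
  refine ⟨upd (u x₀) q (c q + 1), fun x y => ⟨q, hA x, hA y, ?_, ?_⟩⟩
  · rw [hq x q le_rfl, hq y q le_rfl]
  · rw [upd_self, hq x q le_rfl]
    exact Nat.succ_ne_self _

open XNEW in
theorem NEW_pf : S_NEW := by
  intro c F hF w r
  have hfin : (⋃ u ∈ F, {s | u.1 s ≠ c s} ∩ Set.Ioi r).Finite :=
    hF.biUnion (fun u _ => u.2.subset (fun s hs => hs.1))
  obtain ⟨r', hr, hr'⟩ : ∃ r' : ℚ, r < r' ∧ ∀ u ∈ F, ∀ s, r < s → s ≤ r' → u.1 s = c s := by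
    by_cases hn : (⋃ u ∈ F, {s | u.1 s ≠ c s} ∩ Set.Ioi r).Nonempty
    · obtain ⟨m, hm, hmin⟩ := Set.exists_min_image _ id hfin hn
      have hrm : r < m := by
        simp only [Set.mem_iUnion] at hm
        obtain ⟨u, _, hu⟩ := hm
        exact hu.2
      refine ⟨(r + m) / 2, by linarith, fun u hu s h1 h2 => ?_⟩
      by_contra hne
      have h3 := hmin s (Set.mem_iUnion₂.2 ⟨u, hu, hne, h1⟩)
      simp only [id] at h3
      linarith
    · refine ⟨r + 1, by linarith, fun u hu s h1 h2 => ?_⟩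
      by_contra hne
      exact hn ⟨s, Set.mem_iUnion₂.2 ⟨u, hu, hne, h1⟩⟩
  refine ⟨upd w r' (c r' + 1), r', hr, ?_, ?_, ?_⟩
  · intro s hs
    exact upd_ne _ _ hs.ne
  · intro u hu
    rw [upd_self, hr' u hu r' hr le_rfl]
    exact Nat.succ_ne_self _
  · intro u hu u' hu' s h1 h2
    rw [hr' u hu s h1 h2, hr' u' hu' s h1 h2]

end Pool.Agent.Work.MP_8dbde4_lc.Om
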