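import Pool.Agent.Work.MP_8dbde4_lc.Om.Stmts
import Pool.Agent.Work.MP_8dbde4_lc.Bra.I_OPK

/-!
One-point extension for infinitely many letters (S_OPW).
-/

set_option autoImplicit false
open Classical

namespace Pool.Agent.Work.MP_8dbde4_lc.Om

open Pool.Agent.Work.MP_8dbde4_lc.TS
open Pool.Agent.Work.MP_8dbde4_lc.Tree (Word Agr Sp Cc SameT)
open Pool.Agent.Work.MP_8dbde4_lc.Tree.XOPE
open Pool.Agent.Work.MP_8dbde4_lc.Bra (Same)
open Pool.Agent.Work.MP_8dbde4_lc.Bra.XOPK (ext_step fin_step case1 new_branch)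

namespace XOPW

variable {c : ℚ → ℕ}

/-- Two letters at the last split are different. -/
lemma case2w {X : Type} [Finite X] {w f : X → Word c} (hF : Same w f) {x : Word c}
    {d : X → ℚ} (hd : ∀ s, FS x (w s) (d s)) (s₀ : X) (hmax : ∀ s, d s ≤ d s₀) (s₁ : X)
    (h1 : d s₁ = d s₀) (hne : (w s₁).1 (d s₀) ≠ (w s₀).1 (d s₀)) :
    ∃ y : Word c, Same (fun o : Option X => o.elim x w) (fun o : Option X => o.elim y f) := by
  have ag : ∀ s, d s = d s₀ → ∀ p < d s₀, x.1 p = (w s).1 p := by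
    intro s h p hp
    exact (hd s).1 p (by rw [h]; exact hp)
  have ag2 : ∀ s t, d s = d s₀ → d t = d s₀ → ∀ p < d s₀, (w s).1 p = (w t).1 p :=
    fun s t hs ht p hp => (ag s hs p hp).symm.trans (ag t ht p hp)
  have f1 : FS (w s₀) (w s₁) (d s₀) := ⟨ag2 s₀ s₁ rfl h1, fun h => hne h.symm⟩
  obtain ⟨q', f2⟩ := exists_FS (fun h => f1.ne ((hF.1 s₀ s₁).2 h) : f s₀ ≠ f s₁)
  -- the words agree below `q'`
  have hA : ∀ s, d s = d s₀ → Agr (f s) (f s₀) q' := by
    intro s hs
    by_cases h : w s = w s₀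
    · rw [(hF.1 s s₀).1 h]
      exact fun _ _ => rfl
    · obtain ⟨p, hp⟩ := exists_FS h
      obtain ⟨r, hr⟩ := exists_FS (fun h' => h ((hF.1 s s₀).2 h') : f s ≠ f s₀)
      have hpq : ¬ p < d s₀ := fun h' => hp.2 (ag2 s s₀ hs rfl p h')
      have hc : ¬ Cc (w s) (w s₀) (w s₁) := fun h' => hpq ((cc_lt hp f1).1 h')
      have hrq : ¬ r < q' := fun h' => hc ((hF.2 s₀ s₁ s).2 ((cc_lt hr f2).2 h'))
      exact fun p' hp' => hr.1 p' (hp'.trans_le (not_lt.1 hrq))
  have hA2 : ∀ s t, d s = d s₀ → d t = d s₀ → Agr (f s) (f t) q' :=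
    fun s t hs ht p hp => (hA s hs p hp).trans (hA t ht p hp).symm
  -- the letters correspond
  have hB : ∀ s t, d s = d s₀ → d t = d s₀ →
      ((w s).1 (d s₀) = (w t).1 (d s₀) ↔ (f s).1 q' = (f t).1 q') := by
    intro s t hs ht
    by_cases h : w s = w t
    · rw [(hF.1 s t).1 h, h]
      exact iff_of_true rfl rfl
    · obtain ⟨p, hp⟩ := exists_FS h
      obtain ⟨r, hr⟩ := exists_FS (fun h' => h ((hF.1 s t).2 h') : f s ≠ f t)
      have hpq : d s₀ ≤ p := not_lt.1 fun h' => hp.2 (ag2 s t hs ht p h')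
      have hrq : q' ≤ r := not_lt.1 fun h' => hr.2 (hA2 s t hs ht r h')
      have hu : ∃ u, FS (w u) (w s) (d s₀) ∧ FS (f u) (f s) q' := by
        by_cases h5 : (w s₀).1 (d s₀) = (w s).1 (d s₀)
        · have h6 : FS (w s₁) (w s) (d s₀) :=
            ⟨ag2 s₁ s h1 hs, fun h7 => hne (h7.trans h5.symm)⟩
          exact ⟨s₁, h6, new_branch hF f1.symm f2.symm h6 (hA2 s₁ s h1 hs)⟩
        · have h6 : FS (w s₀) (w s) (d s₀) := ⟨ag2 s₀ s rfl hs, h5⟩
          exact ⟨s₀, h6, new_branch hF f1 f2 h6 (hA2 s₀ s rfl hs)⟩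
      obtain ⟨u, hu1, hu2⟩ := hu
      have k1 := cc_lt hu1 hp
      have k2 := cc_lt hu2 hr
      have k3 := hF.2 s t u
      have k4 : (w s).1 (d s₀) = (w t).1 (d s₀) ↔ d s₀ < p := by
        constructor
        · intro h6
          rcases lt_or_eq_of_le hpq with h7 | h7
          · exact h7
          · rw [h7] at h6
            exact absurd h6 hp.2
        · exact fun h6 => hp.1 _ h6
      have k5 : (f s).1 q' = (f t).1 q' ↔ q' < r := by
        constructor
        · intro h6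
          rcases lt_or_eq_of_le hrq with h7 | h7
          · exact h7
          · rw [h7] at h6
            exact absurd h6 hr.2
        · exact fun h6 => hr.1 _ h6
      rw [k4, k5, ← k1, ← k2]
      exact k3
  -- there is a new letter
  obtain ⟨a, ha⟩ : ∃ a : ℕ, ∀ s, (f s).1 q' ≠ a := by
    obtain ⟨a, ha⟩ := (Set.finite_range (fun s => (f s).1 q')).exists_notMem
    exact ⟨a, fun s hs => ha ⟨s, hs⟩⟩
  refine fin_step hF hd s₀ hmax q' a (fun s hs => ⟨hA s hs, ha s⟩) hB ?_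
  intro s hlt r hr
  have f5 : FS (w s) (w s₀) (d s) := by
    refine ⟨fun p hp => ?_, ?_⟩
    · rw [← ag s₀ rfl p (hp.trans hlt)]
      exact ((hd s).1 p hp).symm
    · rw [← ag s₀ rfl _ hlt]
      exact fun e => (hd s).2 e.symm
  have hc : Cc (w s) (w s₀) (w s₁) := (cc_lt f5 f1).2 hlt
  exact (cc_lt hr f2).1 ((hF.2 s₀ s₁ s).1 hc)

end XOPW

open XOPW

theorem OPW_pf : S_OPW := by
  intro c X _ w f hF x
  by_cases hx : ∃ s, w s = x
  · obtain ⟨s, rfl⟩ := hx
    refine ⟨f s, ?_⟩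
    have e1 : (fun o : Option X => o.elim (w s) w) = fun o => w (o.elim s id) := by
      funext o; cases o <;> rfl
    have e2 : (fun o : Option X => o.elim (f s) f) = fun o => f (o.elim s id) := by
      funext o; cases o <;> rfl
    rw [e1, e2]
    exact hF.comp _
  · push Not at hx
    rcases isEmpty_or_nonempty X with hemp | hne
    · exact ⟨x, ext_step hF (d := fun _ => 0) (e := fun _ => 0) (fun s => hemp.elim s)
        (fun s => hemp.elim s) (fun s => hemp.elim s) (fun s => hemp.elim s)⟩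
    · have hd : ∀ s, ∃ r, FS x (w s) r := fun s => exists_FS (fun e => hx s e.symm)
      choose d hd using hd
      obtain ⟨s₀, hmax⟩ := Finite.exists_max d
      by_cases hc : ∃ s₁, d s₁ = d s₀ ∧ (w s₁).1 (d s₀) ≠ (w s₀).1 (d s₀)
      · obtain ⟨s₁, h1, h2⟩ := hc
        exact case2w hF hd s₀ hmax s₁ h1 h2
      · push Not at hc
        exact case1 hF hd s₀ hmax hc

end Pool.Agent.Work.MP_8dbde4_lc.Om
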