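import Pool.Agent.Work.MP_8dbde4_lc.Om.Stmts
import Pool.Agent.Work.MP_8dbde4_lc.Phy.I_PPB

/-!
Pairs: the principle for two copies. See the docstring of `S_PAW`.
-/

set_option autoImplicit false
open Classical

namespace Pool.Agent.Work.MP_8dbde4_lc.Om

open Pool.Agent.Work.MP_8dbde4_lc.TS
open Pool.Agent.Work.MP_8dbde4_lc.Tree (Word Agr Cc)
open Pool.Agent.Work.MP_8dbde4_lc.Phy (PP Hom)
open Pool.Agent.Work.MP_8dbde4_lc.Bra (Same InvU CC)

namespace XPAW

variable {c : ℚ → ℕ}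

theorem cc_of_ne {x y : Word c} (h : x ≠ y) : Cc x y y := by
  obtain ⟨q, h1, h2⟩ := first_diff h
  exact ⟨q, h1, h1, rfl, h2⟩

theorem not_cc_self (x : Word c) : ¬ Cc x x x := fun h => (cc_ne h).1 rfl

/-- Constant tuples have the same splits. -/
theorem same_const {X : Type} (x y : Word c) :
    Same (fun _ : X => x) (fun _ : X => y) :=
  ⟨fun _ _ => ⟨fun _ => rfl, fun _ => rfl⟩,
    fun _ _ _ => ⟨fun h => absurd h (not_cc_self x), fun h => absurd h (not_cc_self y)⟩⟩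

/-- The relation for the principle. -/
def L {X : Type} (i j : X) (u w : X → Word c) : Prop := u j = w i ∧ Cc (w j) (u i) (u i)

theorem pp_L {σ : Sig} (𝔅 : Str σ (Word c)) (hC : PP 𝔅 (CC (c := c)))
    {X : Type} [Finite X] (i j : X) :
    PP 𝔅 (fun V : Bool × X → Word c => L i j (fun x => V (false, x)) (fun x => V (true, x))) := by
  obtain ⟨-, hand, hpull, -, heq, -, -⟩ := Phy.PPB_pf σ (Word c) 𝔅
  have p1 : PP 𝔅 (fun V : Bool × X → Word c => V (false, j) = V (true, i)) :=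
    heq (Bool × X) (false, j) (true, i)
  have p2 : PP 𝔅 (fun V : Bool × X → Word c => CC (fun x => V
      ((![(true, j), (false, i), (false, i)] : Fin 3 → Bool × X) x))) :=
    hpull (Fin 3) (Bool × X) CC ![(true, j), (false, i), (false, i)] hC
  exact hand _ _ _ p1 p2

end XPAW

open XPAW in
theorem PAW_pf : S_PAW := by
  intro c σ 𝔅 hC hP X _ S I Q q k hS hMV hw i hi j hj hij
  by_contra hcon
  have hall : ∀ w, S w → Spl Q w q → w i = w j := by
    intro w hw1 hw2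
    by_contra h4
    exact hcon ⟨w, hw1, hw2, h4⟩
  obtain ⟨w₀, hw₀, hsp₀⟩ := hw
  obtain ⟨w₁, hw₁, hne₁⟩ := hij
  have e₀ := hall w₀ hw₀ hsp₀
  have c1 : Conf S I Q q (L i j) := by
    refine ⟨w₀, w₁, hw₀, hsp₀, hw₁, Unit, inferInstance, inferInstance, fun _ => w₁ i,
      fun _ => j, fun _ => hj, fun _ => ⟨i, hi, j, hj, hne₁, fun h => (cc_ne h).1 rfl⟩,
      same_const _ _, ?_⟩
    intro g hg
    have h1 : g i = w₀ j := (hg.1 (Sum.inl i) (Sum.inr ())).1 rfl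
    have h2 : g i ≠ g j := fun h => hne₁ ((hg.1 (Sum.inl i) (Sum.inl j)).2 h)
    refine ⟨h1.symm, cc_of_ne ?_⟩
    intro h
    exact h2 (h1.trans (e₀.symm.trans h.symm))
  have c2 : Conf S I Q q (fun w g => L i j g w) := by
    refine ⟨w₀, w₁, hw₀, hsp₀, hw₁, Unit, inferInstance, inferInstance, fun _ => w₁ j,
      fun _ => i, fun _ => hi, fun _ => ⟨i, hi, j, hj, hne₁, fun h => (cc_ne h).2 rfl⟩,
      same_const _ _, ?_⟩
    intro g hg
    have h1 : g j = w₀ i := (hg.1 (Sum.inl j) (Sum.inr ())).1 rfl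
    have h2 : g i ≠ g j := fun h => hne₁ ((hg.1 (Sum.inl i) (Sum.inl j)).2 h)
    refine ⟨h1, cc_of_ne ?_⟩
    intro h
    exact h2 (h.symm.trans (e₀.symm.trans h1.symm))
  obtain ⟨u, w, ⟨hu1, hu2⟩, ⟨hw1, hw2⟩, hL1, hL2⟩ :=
    hP X S I Q q k hS hMV (L i j) (pp_L 𝔅 hC i j) c1 c2
  have h6 : u i = u j := hall u hu1 hu2
  have h7 : w i = w j := hall w hw1 hw2
  exact (cc_ne hL2).1 (h7.symm.trans (hL1.symm.trans h6.symm))

end Pool.Agent.Work.MP_8dbde4_lc.Om
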