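import Pool.Agent.Work.MP_8dbde4_lc.Om.StmtsE
import Pool.Agent.Work.MP_8dbde4_lc.Phy.I_PPB

set_option autoImplicit false
open Classical

namespace Pool.Agent.Work.MP_8dbde4_lc.Om

open Pool.Agent.Work.MP_8dbde4_lc.TS
open Pool.Agent.Work.MP_8dbde4_lc.Tree (Word Agr Cc)
open Pool.Agent.Work.MP_8dbde4_lc.Phy (PP Hom)
open Pool.Agent.Work.MP_8dbde4_lc.Bra (Same InvU CC)

namespace XPDW

variable {c : ℚ → ℕ}

/-- `w` with the letter `a` at the place `q` -/
noncomputable def upd (w : Word c) (q : ℚ) (a : ℕ) : Word c :=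
  ⟨Function.update w.1 q a, by
    refine (w.2.union (Set.finite_singleton q)).subset ?_
    intro s hs
    by_cases h : s = q
    · exact Or.inr h
    · left
      have hs' : Function.update w.1 q a s ≠ c s := hs
      rw [Function.update_of_ne h] at hs'
      exact hs'⟩

lemma upd_same (w : Word c) (q : ℚ) (a : ℕ) : (upd w q a).1 q = a := by
  show Function.update w.1 q a q = a
  rw [Function.update_self]

lemma upd_ne (w : Word c) {q s : ℚ} (a : ℕ) (h : s ≠ q) : (upd w q a).1 s = w.1 s := by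
  show Function.update w.1 q a s = w.1 s
  rw [Function.update_of_ne h]

lemma cc_self {x z : Word c} (h : z ≠ x) : Cc z x x := by
  obtain ⟨q, h1, h2⟩ := first_diff h
  exact ⟨q, h1, h1, rfl, h2⟩

lemma cc_bool {v : Bool → Word c} (hv : v false ≠ v true) (x y z : Bool) :
    Cc (v z) (v x) (v y) ↔ (x = y ∧ z ≠ x) := by
  constructor
  · intro h
    have h1 := cc_ne h
    have hzx : z ≠ x := fun h2 => h1.1 (by rw [h2])
    have hzy : z ≠ y := fun h2 => h1.2 (by rw [h2])
    refine ⟨?_, hzx⟩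
    cases x <;> cases y <;> cases z <;> simp_all
  · rintro ⟨rfl, h⟩
    apply cc_self
    intro h1
    cases x <;> cases z <;> simp_all

lemma same_bool {v w : Bool → Word c} (hv : v false ≠ v true) (hw : w false ≠ w true) :
    Same v w := by
  refine ⟨fun x y => ?_, fun x y z => ?_⟩
  · have hv' := hv.symm
    have hw' := hw.symm
    cases x <;> cases y <;> simp_all
  · rw [cc_bool hv, cc_bool hw]

/-- the product -/
def SP {n : ℕ} (S : (Fin n → Word c) → Prop) (V : Fin (n + 3) → Word c) : Prop :=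
  S (fun x => V (Fin.castAdd 3 x)) ∧ N3 (fun x => V (Fin.natAdd n x))

lemma sp_pp {σ : Sig} {𝔅 : Str σ (Word c)} (hN : PP 𝔅 (N3 (c := c))) {n : ℕ}
    {S : (Fin n → Word c) → Prop} (hS : PP 𝔅 S) : PP 𝔅 (SP S) := by
  obtain ⟨_, h2, h3, _⟩ := Phy.PPB_pf σ (Word c) 𝔅
  exact h2 _ _ _ (h3 _ _ S (Fin.castAdd 3) hS) (h3 _ _ N3 (Fin.natAdd n) hN)

lemma sp_append {n : ℕ} {S : (Fin n → Word c) → Prop} {v : Fin n → Word c} (hv : S v)
    {e : Fin 3 → Word c} (he : N3 e) : SP S (Fin.append v e) := by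
  constructor
  · simpa using hv
  · simpa using he

lemma spl_append {n : ℕ} {v : Fin n → Word c} {e : Fin 3 → Word c} {h : Fin n → ℕ} {x₀ : Fin n}
    (hs : ∃ x y, h x ≠ h y) {r : ℚ} (h1 : ∀ x y, Agr (v x) (v y) r)
    (h2 : ∀ x y, (v x).1 r = (v y).1 r ↔ h x = h y)
    (h3 : ∀ k, ∀ s ≤ r, (e k).1 s = (v x₀).1 s) :
    Spl Set.univ (Fin.append v e) (Fin.append h (fun _ => h x₀)) := by
  have key : ∀ x : Fin (n + 3), ∃ y : Fin n, (∀ s ≤ r, (Fin.append v e x).1 s = (v y).1 s) ∧
      Fin.append h (fun _ => h x₀) x = h y := by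
    intro x
    refine Fin.addCases (fun y => ⟨y, fun s _ => by rw [Fin.append_left], by rw [Fin.append_left]⟩)
      (fun k => ⟨x₀, fun s hs => by rw [Fin.append_right]; exact h3 k s hs,
        by rw [Fin.append_right]⟩) x
  refine ⟨?_, r, ?_, ?_⟩
  · obtain ⟨x, y, hxy⟩ := hs
    refine ⟨Fin.castAdd 3 x, trivial, Fin.castAdd 3 y, trivial, ?_⟩
    rw [Fin.append_left, Fin.append_left]
    exact hxy
  · intro x _ y _ s hs
    obtain ⟨x', hx, _⟩ := key x
    obtain ⟨y', hy, _⟩ := key y
    rw [hx s hs.le, hy s hs.le]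
    exact h1 x' y' s hs
  · intro x _ y _
    obtain ⟨x', hx, hx2⟩ := key x
    obtain ⟨y', hy, hy2⟩ := key y
    rw [hx r le_rfl, hy r le_rfl, hx2, hy2]
    exact h2 x' y'

lemma exists_new (a b : ℕ) : ∃ d : ℕ, d ≠ a ∧ d ≠ b := ⟨a + b + 1, by omega, by omega⟩

lemma psn_append (hW : S_NEW) {n : ℕ} {S : (Fin n → Word c) → Prop} {h : Fin n → ℕ}
    (H : ∃ v, S v ∧ Spl Set.univ v h) (x₀ : Fin n) :
    PSN (SP S) (Fin.append h (fun _ => h x₀)) := by
  right
  obtain ⟨v, hv, ⟨x, _, y, _, hxy⟩, r, h1, h2⟩ := H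
  obtain ⟨e₁, r₁, hr, ha, hn, _⟩ := hW c (Set.range v) (Set.finite_range v) (v x₀) r
  obtain ⟨d, hd1, hd2⟩ := exists_new ((v x₀).1 r₁) (e₁.1 r₁)
  have hstar : Star (v x₀) e₁ (upd (v x₀) r₁ d) := by
    refine Star.mk (q := r₁) (fun s hs => (ha s hs).symm)
      (fun s hs => (upd_ne _ _ hs.ne).symm) (fun h3 => hn (v x₀) ⟨x₀, rfl⟩ h3.symm) ?_ ?_
    · rw [upd_same]
      exact hd2.symm
    · rw [upd_same]
      exact hd1.symm
  refine ⟨Fin.append v ![v x₀, e₁, upd (v x₀) r₁ d], sp_append hv hstar, ?_⟩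
  refine spl_append ⟨x, y, hxy⟩ (fun x y => h1 x trivial y trivial)
    (fun x y => h2 x trivial y trivial) ?_
  intro k s hs
  have hs' := hs.trans_lt hr
  fin_cases k
  · rfl
  · exact ha s hs'
  · exact upd_ne _ _ hs'.ne

end XPDW

open XPDW in
theorem PDW_pf (h1 : S_NEW) (h2 : S_FAW) (h3 : S_AMW) : S_PDW := by
  intro c σ 𝔅 hN hI n S hS h h' H H' hn
  obtain ⟨x₁, y₁, hxy⟩ : ∃ x y, h x ≠ h y := by
    obtain ⟨v, _, ⟨x, _, y, _, hxy⟩, _⟩ := H
    exact ⟨x, y, hxy⟩
  have hp := psn_append h1 H x₁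
  have hp' := psn_append h1 H' x₁
  refine ⟨SP S, sp_pp hN hS, ?_, ?_, ?_⟩
  · rcases hp with hp | ⟨v, hv, _⟩
    · exfalso
      apply hxy
      have := hp (Fin.castAdd 3 x₁) (Fin.castAdd 3 y₁)
      rwa [Fin.append_left, Fin.append_left] at this
    · exact ⟨v, hv⟩
  · have hab : Fin.natAdd n (0 : Fin 3) ≠ Fin.natAdd n 1 := fun h4 => by
      have := Fin.natAdd_injective _ _ h4
      exact absurd this (by decide)
    have hbd : Fin.natAdd n (1 : Fin 3) ≠ Fin.natAdd n 2 := fun h4 => by
      have := Fin.natAdd_injective _ _ h4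
      exact absurd this (by decide)
    have had : Fin.natAdd n (0 : Fin 3) ≠ Fin.natAdd n 2 := fun h4 => by
      have := Fin.natAdd_injective _ _ h4
      exact absurd this (by decide)
    refine ⟨Fin.natAdd n 0, Fin.natAdd n 1, Fin.natAdd n 2, hab, hbd, had, ?_, ?_⟩
    · rintro p (hp | ⟨v, ⟨_, hv⟩, hs⟩)
      · exact Or.inl ⟨hp _ _, hp _ _⟩
      · obtain ⟨_, _, _, hc1, hc2, hc3⟩ := hv
        by_cases e1 : p (Fin.natAdd n 0) = p (Fin.natAdd n 1)
        · left
          refine ⟨e1, ?_⟩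
          by_contra e2
          exact hc1 (hs.cc trivial trivial trivial e1 (fun e3 => e2 (e1.symm.trans e3.symm)))
        · right
          refine ⟨e1, fun e2 => ?_, fun e2 => ?_⟩
          · exact hc3 (hs.cc trivial trivial trivial e2 e1)
          · exact hc2 (hs.cc trivial trivial trivial e2 (fun e3 => e1 e3.symm))
    · intro s₁ s₂ s₃ h12 h23 h13
      right
      obtain ⟨w, hw, _⟩ := H
      haveI : Nonempty (Fin n) := ⟨x₁⟩
      obtain ⟨f, hf⟩ := h2 c (Fin n) w
      set cw : Word c := ⟨c, by simp⟩ with hcw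
      have hu01 : upd cw 0 0 ≠ upd cw 0 1 := by
        intro h4
        have := congrArg (fun u : Word c => u.1 0) h4
        simp only [upd_same] at this
        exact absurd this (by decide)
      obtain ⟨g, hg1, hg2⟩ := h3 c (Option (Fin n)) Bool (fun o => o.elim f w)
        (fun k => if k then upd cw 0 1 else upd cw 0 0)
        (fun k => if k then none else some x₁)
        (same_bool (by simpa using hu01) (by
          show w x₁ ≠ f
          exact fun h4 => (cc_ne (hf x₁ x₁)).1 h4.symm))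
      have hg0 : g (some x₁) = upd cw 0 0 := hg2 false
      have hg3 : g none = upd cw 0 1 := hg2 true
      have hSg : S (fun x => g (some x)) := by
        refine hI (Fin n) S hS w _ ?_ hw
        exact ⟨fun x y => hg1.1 (some x) (some y), fun x y z => hg1.2 (some x) (some y) (some z)⟩
      have hcc : ∀ x, Cc (upd cw 0 1) (upd cw 0 0) (g (some x)) := by
        intro x
        rw [← hg0, ← hg3]
        exact (hg1.2 (some x₁) (some x) none).1 (hf x₁ x)
      have hag : ∀ a b : ℕ, Agr (upd cw 0 a) (upd cw 0 b) 0 := by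
        intro a b s hs
        rw [upd_ne _ _ hs.ne, upd_ne _ _ hs.ne]
      have hpl : ∀ x, Agr (upd cw 0 1) (g (some x)) 0 ∧ (g (some x)).1 0 = 0 := by
        intro x
        obtain ⟨h4, h5⟩ := cc_place (hcc x) (hag 1 0) (by rw [upd_same, upd_same]; decide)
        refine ⟨h4, ?_⟩
        rw [← h5, upd_same]
      have hstar : Star (upd cw 0 0) (upd cw 0 1) (upd cw 0 2) :=
        Star.mk (q := 0) (hag 0 1) (hag 0 2) (by rw [upd_same, upd_same]; decide)
          (by rw [upd_same, upd_same]; decide) (by rw [upd_same, upd_same]; decide)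
      refine ⟨Fin.append (fun x => g (some x)) ![upd cw 0 0, upd cw 0 1, upd cw 0 2],
        sp_append hSg hstar, ?_⟩
      have key : ∀ x : Fin (n + 3),
          Agr (upd cw 0 1) (Fin.append (fun x => g (some x))
            ![upd cw 0 0, upd cw 0 1, upd cw 0 2] x) 0 ∧
          (Fin.append (fun x => g (some x)) ![upd cw 0 0, upd cw 0 1, upd cw 0 2] x).1 0 =
            if x = Fin.natAdd n 1 then 1 else if x = Fin.natAdd n 2 then 2 else 0 := by
        intro x
        refine Fin.addCases (fun y => ?_) (fun k => ?_) x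
        · rw [Fin.append_left, if_neg, if_neg]
          · exact hpl y
          · intro h4
            have := congrArg Fin.val h4
            simp at this
            omega
          · intro h4
            have := congrArg Fin.val h4
            simp at this
            omega
        · rw [Fin.append_right]
          fin_cases k
          · exact ⟨hag 1 0, (upd_same cw 0 0).trans ((if_neg hab).trans (if_neg had)).symm⟩
          · exact ⟨hag 1 1, (upd_same cw 0 1).trans (if_pos rfl).symm⟩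
          · exact ⟨hag 1 2, (upd_same cw 0 2).trans ((if_neg hbd.symm).trans (if_pos rfl)).symm⟩
      refine ⟨⟨Fin.natAdd n 0, trivial, Fin.natAdd n 1, trivial, ?_⟩, 0, ?_, ?_⟩
      · show (if Fin.natAdd n (0 : Fin 3) = Fin.natAdd n 1 then s₂ else
            if Fin.natAdd n (0 : Fin 3) = Fin.natAdd n 2 then s₃ else s₁) ≠
          (if Fin.natAdd n (1 : Fin 3) = Fin.natAdd n 1 then s₂ else
            if Fin.natAdd n (1 : Fin 3) = Fin.natAdd n 2 then s₃ else s₁)
        rw [if_neg hab, if_neg had, if_pos rfl]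
        exact h12
      · intro x _ y _ s hs
        rw [← (key x).1 s hs, ← (key y).1 s hs]
      · intro x _ y _
        rw [(key x).2, (key y).2]
        have h21 := h12.symm
        have h32 := h23.symm
        have h31 := h13.symm
        by_cases e1 : x = Fin.natAdd n 1 <;> by_cases e2 : x = Fin.natAdd n 2 <;>
          by_cases e3 : y = Fin.natAdd n 1 <;> by_cases e4 : y = Fin.natAdd n 2 <;>
          simp_all
  · refine ⟨_, _, hp, hp', ?_⟩
    have hmt : ∀ x, mt (Fin.append h fun _ : Fin 3 => h x₁) (Fin.append h' fun _ : Fin 3 => h' x₁)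
        (Fin.castAdd 3 x) = mt h h' x := by
      intro x
      unfold mt
      rw [Fin.append_left, Fin.append_left]
    have hne : mt h h' x₁ ≠ mt h h' y₁ := fun h4 => hxy (mt_eq.1 h4).1
    rintro (hq | ⟨v, ⟨hv, _⟩, hs⟩)
    · have := hq (Fin.castAdd 3 x₁) (Fin.castAdd 3 y₁)
      rw [hmt, hmt] at this
      exact hne this
    · apply hn
      refine ⟨_, hv, ?_⟩
      have h4 := hs.pull (Y' := Set.univ) (Fin.castAdd 3) (fun _ _ => trivial)
        ⟨x₁, trivial, y₁, trivial, by rw [hmt, hmt]; exact hne⟩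
      simp only [hmt] at h4
      exact h4

end Pool.Agent.Work.MP_8dbde4_lc.Om
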