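import Pool.Agent.Work.MP_8dbde4_lc.Om.Stmts
import Pool.Agent.Work.MP_8dbde4_lc.Phy.I_PPB

/-! Item PQW: sets given by splits and stars are primitive positive definable. -/

set_option autoImplicit false
open Classical

namespace Pool.Agent.Work.MP_8dbde4_lc.Om

open Pool.Agent.Work.MP_8dbde4_lc.TS
open Pool.Agent.Work.MP_8dbde4_lc.Tree (Word Agr Cc)
open Pool.Agent.Work.MP_8dbde4_lc.Phy (PP Hom)
open Pool.Agent.Work.MP_8dbde4_lc.Bra (Same InvU CC)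

namespace XPQW

theorem congrP {σ : Sig} {B X : Type} {𝔅 : Str σ B} {S S' : (X → B) → Prop} (h : PP 𝔅 S)
    (e : ∀ v, S v ↔ S' v) : PP 𝔅 S' := by
  obtain ⟨D, hD, 𝔇, m, H⟩ := h
  exact ⟨D, hD, 𝔇, m, fun v => (e v).symm.trans (H v)⟩

theorem ne_iff {c : ℚ → ℕ} {x y : Word c} : x ≠ y ↔ Cc y x x := by
  constructor
  · intro h
    obtain ⟨q, h1, h2⟩ := first_diff h
    exact ⟨q, fun s hs => (h1 s hs).symm, fun s hs => (h1 s hs).symm, rfl, fun h3 => h2 h3.symm⟩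
  · intro h h1
    exact (cc_ne h).1 h1.symm

theorem sameOn_iff {c : ℚ → ℕ} {X : Type} {D : Set X} {v w : X → Word c} : SameOn D v w ↔
    (∀ x y, (x ∈ D ∧ y ∈ D ∧ v x = v y) → w x = w y) ∧
    (∀ x y z, (x ∈ D ∧ y ∈ D ∧ z ∈ D ∧ Cc (v z) (v x) (v y)) → Cc (w z) (w x) (w y)) ∧
    ∀ x y z, (x ∈ D ∧ y ∈ D ∧ z ∈ D ∧ Star (v x) (v y) (v z)) → Star (w x) (w y) (w z) := by
  constructor
  · intro H
    refine ⟨fun x y h => (H.1 x h.1 y h.2.1).1 h.2.2,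
      fun x y z h => (H.2 x h.1 y h.2.1 z h.2.2.1).1 h.2.2.2,
      fun x y z h => (H.star h.1 h.2.1 h.2.2.1).1 h.2.2.2⟩
  · rintro ⟨h1, h2, h3⟩
    have hne : ∀ x ∈ D, ∀ y ∈ D, v x ≠ v y → w x ≠ w y := by
      intro x hx y hy h
      exact ne_iff.2 (h2 x x y ⟨hx, hx, hy, ne_iff.1 h⟩)
    have heq : ∀ x ∈ D, ∀ y ∈ D, v x = v y ↔ w x = w y := by
      intro x hx y hy
      refine ⟨fun h => h1 x y ⟨hx, hy, h⟩, fun h => ?_⟩
      by_contra h4
      exact hne x hx y hy h4 h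
    refine ⟨heq, fun x hx y hy z hz => ⟨fun h => h2 x y z ⟨hx, hy, hz, h⟩, fun h => ?_⟩⟩
    by_cases hxy : v x = v y
    · rw [← hxy]
      apply ne_iff.1
      intro h4
      exact (cc_ne h).1 ((heq x hx z hz).1 h4).symm
    · rcases cc_cases (v x) (v y) (v z) with h4 | h4 | h4 | h4 | h4 | h4 | h4
      · exact absurd h4 hxy
      · exact absurd ((heq y hy z hz).1 h4).symm (cc_ne h).2
      · exact absurd ((heq x hx z hz).1 h4).symm (cc_ne h).1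
      · exact h4
      · exact absurd h (cc_not (h2 x z y ⟨hx, hz, hy, h4⟩)).1
      · exact absurd (h2 y z x ⟨hy, hz, hx, h4⟩) (cc_not h).2
      · exact absurd h (h3 x y z ⟨hx, hy, hz, h4⟩).2.2.2.1

end XPQW

theorem PQW_pf : S_PQW := by
  intro c σ 𝔅 hC hN X _
  obtain ⟨-, h2, h3, -, h5, -, h7⟩ := Phy.PPB_pf σ (Word c) 𝔅
  have key : ∀ Q : X → X → X → Prop,
      PP 𝔅 (fun v : X → Word c => ∀ x y z, Q x y z → Cc (v z) (v x) (v y)) := by
    intro Q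
    have h := h7 X {t : X × X × X // Q t.1 t.2.1 t.2.2}
      (fun t v => Cc (v t.1.2.2) (v t.1.1) (v t.1.2.1)) (fun t => by
        refine XPQW.congrP (h3 (Fin 3) X (CC (c := c)) ![t.1.2.2, t.1.1, t.1.2.1] hC) ?_
        intro v
        exact Iff.rfl)
    refine XPQW.congrP h ?_
    intro v
    constructor
    · intro H x y z hq
      exact H ⟨(x, y, z), hq⟩
    · intro H t
      exact H _ _ _ t.2
  have keyS : ∀ Q : X → X → X → Prop,
      PP 𝔅 (fun v : X → Word c => ∀ x y z, Q x y z → Star (v x) (v y) (v z)) := by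
    intro Q
    have h := h7 X {t : X × X × X // Q t.1 t.2.1 t.2.2}
      (fun t v => Star (v t.1.1) (v t.1.2.1) (v t.1.2.2)) (fun t => by
        refine XPQW.congrP (h3 (Fin 3) X (N3 (c := c)) ![t.1.1, t.1.2.1, t.1.2.2] hN) ?_
        intro v
        exact Iff.rfl)
    refine XPQW.congrP h ?_
    intro v
    constructor
    · intro H x y z hq
      exact H ⟨(x, y, z), hq⟩
    · intro H t
      exact H _ _ _ t.2
  have keyE : ∀ Q : X → X → Prop, PP 𝔅 (fun v : X → Word c => ∀ x y, Q x y → v x = v y) := by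
    intro Q
    have h := h7 X {t : X × X // Q t.1 t.2}
      (fun t v => v t.1.1 = v t.1.2) (fun t => h5 X t.1.1 t.1.2)
    refine XPQW.congrP h ?_
    intro v
    constructor
    · intro H x y hq
      exact H ⟨(x, y), hq⟩
    · intro H t
      exact H _ _ t.2
  refine ⟨key, keyS, ?_, ?_⟩
  · intro S Y h hS hn
    refine XPQW.congrP (h2 X S _ hS (h2 X _ _
      (key (fun x y z => x ∈ Y ∧ y ∈ Y ∧ z ∈ Y ∧ h x = h y ∧ h z ≠ h x))
      (keyS (fun x y z => x ∈ Y ∧ y ∈ Y ∧ z ∈ Y ∧ h x ≠ h y ∧ h y ≠ h z ∧ h x ≠ h z)))) ?_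
    intro v
    rw [Spl.iff]
    constructor
    · rintro ⟨a, b, d⟩
      exact ⟨a, hn, fun x hx y hy z hz e1 e2 => b x y z ⟨hx, hy, hz, e1, e2⟩,
        fun x hx y hy z hz e1 e2 e3 => d x y z ⟨hx, hy, hz, e1, e2, e3⟩⟩
    · rintro ⟨a, -, b, d⟩
      exact ⟨a, fun x y z ⟨hx, hy, hz, e1, e2⟩ => b x hx y hy z hz e1 e2,
        fun x y z ⟨hx, hy, hz, e1, e2, e3⟩ => d x hx y hy z hz e1 e2 e3⟩
  · intro S D v hS
    refine XPQW.congrP (h2 X S _ hS (h2 X _ _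
      (keyE (fun x y => x ∈ D ∧ y ∈ D ∧ v x = v y)) (h2 X _ _
      (key (fun x y z => x ∈ D ∧ y ∈ D ∧ z ∈ D ∧ Cc (v z) (v x) (v y)))
      (keyS (fun x y z => x ∈ D ∧ y ∈ D ∧ z ∈ D ∧ Star (v x) (v y) (v z)))))) ?_
    intro w
    rw [XPQW.sameOn_iff]

end Pool.Agent.Work.MP_8dbde4_lc.Om
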