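import Pool.Agent.Work.MP_8dbde4_lc.Om.Stmts
import Pool.Agent.Work.MP_8dbde4_lc.Phy.I_PPB

/-!
The principle: two configurations give linked members. See the docstring of `S_PRG`.
-/

set_option autoImplicit false
open Classical

namespace Pool.Agent.Work.MP_8dbde4_lc.Om

open Pool.Agent.Work.MP_8dbde4_lc.TS
open Pool.Agent.Work.MP_8dbde4_lc.Tree (Word Agr Cc)
open Pool.Agent.Work.MP_8dbde4_lc.Phy (PP Hom)
open Pool.Agent.Work.MP_8dbde4_lc.Bra (Same InvU CC)

namespace XPRG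

variable {c : ℚ → ℕ}

theorem same_left {X Z : Type} {w g : X → Word c} {e e' : Z → Word c}
    (H : Same (Sum.elim w e) (Sum.elim g e')) : Same w g :=
  ⟨fun x y => H.1 (Sum.inl x) (Sum.inl y), fun x y z => H.2 (Sum.inl x) (Sum.inl y) (Sum.inl z)⟩

/-- A configuration gives two members. -/
theorem conf {σ : Sig} {𝔅 : Str σ (Word c)} (hI : IV 𝔅) {X : Type} [Finite X]
    {S : (X → Word c) → Prop} {I Q : Set X} {q : X → ℕ} {k : ℕ} (hS : PP 𝔅 S)
    (hM : MV S I Q q k) {L : (X → Word c) → (X → Word c) → Prop} (hC : Conf S I Q q L) :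
    ∃ w g : X → Word c, S w ∧ Spl Q w q ∧ S g ∧ L w g ∧
      Spl {z : Bool × X | z.2 ∈ Q} (fun z => if z.1 then g z.2 else w z.2)
        (fun z => if z.1 then k else q z.2) := by
  obtain ⟨w, w', h1, h2, h3, Z, hZ1, hZ2, e, a, h4, h5, h6, h7⟩ := hC
  obtain ⟨g, h8, h9⟩ := hM w w' h1 h2 h3 Z e a h4 h5 h6
  exact ⟨w, g, h1, h2, hI X S hS w' g (same_left h8) h3, h7 g h8, h9⟩

end XPRG

open XPRG in
theorem PRG_pf : S_PRG := by
  intro c σ 𝔅 hI hK X _ S I Q q k hS hM L hL hC1 hC2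
  obtain ⟨w, g, h1, h2, h3, h4, h5⟩ := conf hI hS hM hC1
  obtain ⟨w', g', h1', h2', h3', h4', h5'⟩ := conf hI hS hM hC2
  obtain ⟨⟨x₀, hx₀, y₀, hy₀, hxy₀⟩, -⟩ := id h2
  obtain ⟨-, hand, hpull, -⟩ := Phy.PPB_pf σ (Word c) 𝔅
  have p1 : PP 𝔅 (fun V : Bool × X → Word c => S (fun x => V (false, x))) :=
    hpull X (Bool × X) S (fun x => (false, x)) hS
  have p2 : PP 𝔅 (fun V : Bool × X → Word c => S (fun x => V (true, x))) :=
    hpull X (Bool × X) S (fun x => (true, x)) hS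
  have p3 := hand _ _ _ hL (hand _ _ _ p1 p2)
  have s2 : Spl {z : Bool × X | z.2 ∈ Q} (fun z => if z.1 then w' z.2 else g' z.2)
      (fun z => if z.1 then q z.2 else k) := by
    have s3 := h5'.pull (Y' := {z : Bool × X | z.2 ∈ Q}) (fun z : Bool × X => (!z.1, z.2))
      (fun x hx => hx) ⟨(true, x₀), hx₀, (true, y₀), hy₀, hxy₀⟩
    have e1 : (fun z : Bool × X => if z.1 then w' z.2 else g' z.2) =
        fun x : Bool × X => (fun z : Bool × X => if z.1 then g' z.2 else w' z.2) (!x.1, x.2) := by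
      funext z
      obtain ⟨b, x⟩ := z
      cases b <;> rfl
    have e2 : (fun z : Bool × X => if z.1 then q z.2 else k) =
        fun x : Bool × X => (fun z : Bool × X => if z.1 then k else q z.2) (!x.1, x.2) := by
      funext z
      obtain ⟨b, x⟩ := z
      cases b <;> rfl
    rw [e1, e2]
    exact s3
  obtain ⟨V, ⟨hV1, hV2, hV3⟩, hV⟩ := hK (Bool × X) _ p3 {z : Bool × X | z.2 ∈ Q} _ _
    ⟨fun z => if z.1 then g z.2 else w z.2, ⟨h4, h1, h3⟩, h5⟩
    ⟨fun z => if z.1 then w' z.2 else g' z.2, ⟨h4', h3', h1'⟩, s2⟩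
  have side : ∀ b : Bool, Spl Q (fun x => V (b, x)) q := by
    intro b
    have hne : ∃ x ∈ Q, ∃ y ∈ Q,
        mt (fun z : Bool × X => if z.1 then k else q z.2)
          (fun z : Bool × X => if z.1 then q z.2 else k) (b, x) ≠
        mt (fun z : Bool × X => if z.1 then k else q z.2)
          (fun z : Bool × X => if z.1 then q z.2 else k) (b, y) := by
      refine ⟨x₀, hx₀, y₀, hy₀, ?_⟩
      intro h
      rw [mt_eq] at h
      cases b
      · exact hxy₀ h.1
      · exact hxy₀ h.2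
    have s4 := hV.pull (Y' := Q) (fun x : X => (b, x)) (fun x hx => hx) hne
    refine s4.congr ?_
    intro x hx y hy
    rw [mt_eq]
    cases b
    · exact ⟨fun h => h.1, fun h => ⟨h, rfl⟩⟩
    · exact ⟨fun h => h.2, fun h => ⟨rfl, h⟩⟩
  exact ⟨fun x => V (false, x), fun x => V (true, x), ⟨hV2, side false⟩, ⟨hV3, side true⟩, hV1⟩

end Pool.Agent.Work.MP_8dbde4_lc.Om
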