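import Pool.Agent.Work.MP_8dbde4_lc.Om.StmtsP

/-! The finest step and the correctness of the refinement. -/

set_option autoImplicit false
open Classical

namespace Pool.Agent.Work.MP_8dbde4_lc.Om

open Pool.Agent.Work.MP_8dbde4_lc.TS
open Pool.Agent.Work.MP_8dbde4_lc.Tree (Word Agr Cc Lang IsStep)
open Pool.Agent.Work.MP_8dbde4_lc.Phy (PP Hom ssum both)

namespace XRFW

/-- The closure as a setoid. -/
def std {A : Type} {N : ℕ} (𝔄 : Str (sR N) A) (W : Set A) : Setoid A where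
  r := Clo 𝔄 W
  iseqv := ⟨Clo.refl, Clo.symm, Clo.trans⟩

/-- `¬ Sep n` is an equivalence relation. -/
theorem eqv {A : Type} {N : ℕ} (𝔄 : Str (sR N) A) (n : ℕ) :
    (∀ x, ¬ Sep 𝔄 n x x) ∧ (∀ x y, ¬ Sep 𝔄 n x y → ¬ Sep 𝔄 n y x) ∧
      ∀ x y z, ¬ Sep 𝔄 n x y → ¬ Sep 𝔄 n y z → ¬ Sep 𝔄 n x z := by
  induction n with
  | zero => exact ⟨fun _ h => h, fun _ _ _ h => h, fun _ _ _ _ _ h => h⟩
  | succ n ih =>
    obtain ⟨hr, hs, ht⟩ := ih
    have hcls : ∀ x y, ¬ Sep 𝔄 n x y → {z | ¬ Sep 𝔄 n x z} = {z | ¬ Sep 𝔄 n y z} := by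
      intro x y hxy
      ext z
      exact ⟨fun hz => ht _ _ _ (hs _ _ hxy) hz, fun hz => ht _ _ _ hxy hz⟩
    refine ⟨?_, ?_, ?_⟩
    · rintro x (h | h)
      · exact hr x h
      · exact h (Clo.refl x)
    · rintro x y hxy (h | h)
      · exact hs x y (fun h' => hxy (Or.inl h')) h
      · have h0 : ¬ Sep 𝔄 n x y := fun h' => hxy (Or.inl h')
        have h1 : Clo 𝔄 {z | ¬ Sep 𝔄 n x z} x y := by
          by_contra h'
          exact hxy (Or.inr h')
        rw [hcls x y h0] at h1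
        exact h h1.symm
    · rintro x y z hxy hyz (h | h)
      · exact ht x y z (fun h' => hxy (Or.inl h')) (fun h' => hyz (Or.inl h')) h
      · have h0 : ¬ Sep 𝔄 n x y := fun h' => hxy (Or.inl h')
        have h1 : Clo 𝔄 {z | ¬ Sep 𝔄 n x z} x y := by
          by_contra h'
          exact hxy (Or.inr h')
        have h2 : Clo 𝔄 {z | ¬ Sep 𝔄 n y z} y z := by
          by_contra h'
          exact hyz (Or.inr h')
        rw [← hcls x y h0] at h2
        exact h (h1.trans h2)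

/-- The stages become stable. -/
theorem stable {A : Type} {N : ℕ} [Finite A] (𝔄 : Str (sR N) A) :
    ∃ n, ∀ x y, Sep 𝔄 (n + 1) x y → Sep 𝔄 n x y := by
  have hm : Monotone (fun n => {q : A × A | Sep 𝔄 n q.1 q.2}) :=
    monotone_nat_of_le_succ (fun n q hq => Or.inl hq)
  obtain ⟨n, hn⟩ := WellFoundedGT.monotone_chain_condition
    (⟨fun n => {q : A × A | Sep 𝔄 n q.1 q.2}, hm⟩ : ℕ →o Set (A × A))
  refine ⟨n, fun x y h => ?_⟩
  have h1 : {q : A × A | Sep 𝔄 n q.1 q.2} = {q : A × A | Sep 𝔄 (n + 1) q.1 q.2} :=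
    hn (n + 1) (by omega)
  have h2 : (x, y) ∈ {q : A × A | Sep 𝔄 (n + 1) q.1 q.2} := h
  rw [← h1] at h2
  exact h2

end XRFW

theorem CLW_pf : S_CLW := by
  intro N A _ 𝔄 W
  constructor
  · obtain ⟨f, hf⟩ := Countable.exists_injective_nat (Quotient (XRFW.std 𝔄 W))
    have key : ∀ x y, f (Quotient.mk (XRFW.std 𝔄 W) x) = f (Quotient.mk (XRFW.std 𝔄 W) y) ↔
        Clo 𝔄 W x y := by
      intro x y
      constructor
      · intro h
        exact Quotient.exact (hf h)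
      · intro h
        exact congrArg f (Quotient.sound (s := XRFW.std 𝔄 W) h)
    refine ⟨fun x => f (Quotient.mk (XRFW.std 𝔄 W) x), ?_, key⟩
    intro R t hrel hin
    rcases R with s | u
    · intro hE
      refine (key _ _).2 (Clo.step s t hrel hin ?_)
      intro e he
      exact (key _ _).1 (hE e he)
    · trivial
  · intro h hst x y hc
    induction hc with
    | refl x => rfl
    | symm _ ih => exact ih.symm
    | trans _ _ ih1 ih2 => exact ih1.trans ih2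
    | step s t hrel hin _ ih => exact hst (Sum.inl s) t hrel hin ih

namespace XRFW

theorem forw {A : Type} {N : ℕ} (hC : S_CLW) [Finite A] (𝔄 : Str (sR N) A)
    (hR : Tree.Res (LR N) 𝔄) : Acc 𝔄 := by
  intro t hrel
  by_contra hcon
  push Not at hcon
  obtain ⟨n, hn⟩ := stable 𝔄
  obtain ⟨hr, hs, ht⟩ := eqv 𝔄 n
  obtain ⟨h, hstep, a, ha, b, hb, hab⟩ := hR {z | ¬ Sep 𝔄 n (t 0) z}
    ⟨Sum.inr (), t, trivial, hrel, fun j => by
      change ¬ Sep 𝔄 n (t 0) (t j)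
      have h2 : ∀ j : Fin 2, ¬ Sep 𝔄 n (t 0) (t j) := by
        intro j
        fin_cases j
        · exact hr _
        · exact hcon n
      exact h2 j⟩
  have hnc : ¬ Clo 𝔄 {z | ¬ Sep 𝔄 n (t 0) z} a b := fun hc => hab ((hC N A 𝔄 _).2 h hstep a b hc)
  have hcls : {z | ¬ Sep 𝔄 n (t 0) z} = {z | ¬ Sep 𝔄 n a z} := by
    ext z
    exact ⟨fun hz => ht _ _ _ (hs _ _ ha) hz, fun hz => ht _ _ _ ha hz⟩
  rw [hcls] at hnc
  exact ht a (t 0) b (hs _ _ ha) hb (hn a b (Or.inr hnc))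

theorem back {A : Type} {N : ℕ} (hC : S_CLW) [Finite A] (𝔄 : Str (sR N) A) (hA : Acc 𝔄) :
    Tree.Res (LR N) 𝔄 := by
  intro W hW
  obtain ⟨R, t, hst, hrel, hin⟩ := hW
  rcases R with s | u
  · exact absurd hst id
  · obtain ⟨n0, hsep⟩ := hA t hrel
    have hex : ∃ n, ∃ x ∈ W, ∃ y ∈ W, Sep 𝔄 n x y :=
      ⟨n0, t (0 : Fin 2), hin (0 : Fin 2), t (1 : Fin 2), hin (1 : Fin 2), hsep⟩
    obtain ⟨x, hx, y, hy, hxy⟩ := Nat.find_spec hex
    have hmin : ∀ m < Nat.find hex, ∀ x ∈ W, ∀ y ∈ W, ¬ Sep 𝔄 m x y := by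
      intro m hm x hx y hy h
      exact Nat.find_min hex hm ⟨x, hx, y, hy, h⟩
    rcases hn : Nat.find hex with _ | m
    · rw [hn] at hxy
      exact absurd hxy id
    · rw [hn] at hxy hmin
      have hm := hmin m (by omega)
      rcases hxy with hxy | hxy
      · exact absurd hxy (hm x hx y hy)
      · obtain ⟨h, hstep, hh⟩ := (hC N A 𝔄 {z | ¬ Sep 𝔄 m x z}).1
        refine ⟨h, fun R' t' hrel' hin' => hstep R' t' hrel' (fun j => hm x hx _ (hin' j)),
          x, hx, y, hy, fun he => hxy ((hh x y).1 he)⟩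

end XRFW

theorem RFW_pf (h : S_CLW) : S_RFW := by
  intro N A _ 𝔄
  exact ⟨XRFW.forw h 𝔄, XRFW.back h 𝔄⟩

end Pool.Agent.Work.MP_8dbde4_lc.Om
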