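import Pool.Agent.Work.MP_8dbde4_lc.Om.StmtsE

set_option autoImplicit false
open Classical

namespace Pool.Agent.Work.MP_8dbde4_lc.Om

open Pool.Agent.Work.MP_8dbde4_lc.TS
open Pool.Agent.Work.MP_8dbde4_lc.Tree (Word Agr Cc Gad Den row BFSys)
open Pool.Agent.Work.MP_8dbde4_lc.Phy (PP Hom TI)
open Pool.Agent.Work.MP_8dbde4_lc.Bra (Same InvU CC)

namespace XSQA

/-- the images of the values of the first pattern -/
theorem ex_A {n m : ℕ} (p : Fin n → ℕ) (R : Set (Fin m)) (h : n ≤ R.ncard) :
    ∃ A : Fin n → Fin m, (∀ i, A i ∈ R) ∧ ∀ i j, A i = A j ↔ p i = p j := by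
  let V : Finset ℕ := Finset.univ.image p
  have h2 : V.card ≤ n := by
    refine Finset.card_image_le.trans ?_
    rw [Finset.card_univ, Fintype.card_fin]
  have h1 : Fintype.card {x : ℕ // x ∈ V} ≤ Fintype.card {a : Fin m // a ∈ R} := by
    rw [Fintype.card_coe]
    refine h2.trans (h.trans ?_)
    rw [Set.ncard_eq_toFinset_card', Set.toFinset_card]
  obtain ⟨e⟩ := Function.Embedding.nonempty_of_card_le h1
  have hm : ∀ i, p i ∈ V := fun i => Finset.mem_image_of_mem p (Finset.mem_univ i)
  refine ⟨fun i => (e ⟨p i, hm i⟩).1, fun i => (e ⟨p i, hm i⟩).2, fun i j => ?_⟩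
  constructor
  · intro hij
    have h3 := e.injective (Subtype.ext hij)
    exact congrArg Subtype.val h3
  · intro hij
    have h3 : (⟨p i, hm i⟩ : {x : ℕ // x ∈ V}) = ⟨p j, hm j⟩ := Subtype.ext hij
    show (e ⟨p i, hm i⟩).1 = (e ⟨p j, hm j⟩).1
    rw [h3]

/-- the images of the values of the second pattern -/
theorem ex_B {n m : ℕ} (g : Fin m → Fin m → ℕ) (A : Fin n → Fin m)
    (hA : ∀ i, Function.Injective (g (A i))) (Cf : Finset (Fin m)) (hC : n ^ 3 < Cf.card)
    (F : Finset ℕ) (hF : F.card ≤ n) :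
    ∃ β : ℕ → Fin m, (∀ y ∈ F, β y ∈ Cf) ∧
      ∀ y ∈ F, ∀ y' ∈ F, y ≠ y' → ∀ i j, g (A i) (β y) ≠ g (A j) (β y') := by
  induction F using Finset.induction_on with
  | empty =>
    have h0 : 0 < Cf.card := lt_of_le_of_lt (Nat.zero_le _) hC
    obtain ⟨b, -⟩ := Finset.card_pos.mp h0
    exact ⟨fun _ => b, by simp, by simp⟩
  | insert y F hy ih =>
    rw [Finset.card_insert_of_notMem hy] at hF
    obtain ⟨β, h1, h2⟩ := ih (by omega)
    let T : Finset (Fin n × Fin n × ℕ) := Finset.univ ×ˢ (Finset.univ ×ˢ F)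
    let B : Finset (Fin m) := T.biUnion fun q =>
      Finset.univ.filter fun b => g (A q.1) b = g (A q.2.1) (β q.2.2)
    have hB : B.card ≤ n ^ 3 := by
      have h3 : B.card ≤ T.card * 1 := by
        refine Finset.card_biUnion_le_card_mul _ _ _ fun q _ => ?_
        rw [Finset.card_le_one]
        intro b hb b' hb'
        have e1 := (Finset.mem_filter.mp hb).2
        have e2 := (Finset.mem_filter.mp hb').2
        exact hA q.1 (e1.trans e2.symm)
      have h4 : T.card = n * (n * F.card) := by
        rw [Finset.card_product, Finset.card_product, Finset.card_univ, Fintype.card_fin]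
      rw [h4, mul_one] at h3
      refine h3.trans ?_
      have h5 : n * (n * F.card) ≤ n * (n * n) :=
        Nat.mul_le_mul_left _ (Nat.mul_le_mul_left _ (by omega))
      refine h5.trans (le_of_eq ?_)
      ring
    obtain ⟨b, hb, hb2⟩ := Finset.exists_mem_notMem_of_card_lt_card (lt_of_le_of_lt hB hC)
    have hbne : ∀ y' ∈ F, ∀ i j, g (A i) b ≠ g (A j) (β y') := by
      intro y' hy' i j he
      apply hb2
      refine Finset.mem_biUnion.mpr ⟨(i, j, y'), ?_, ?_⟩
      · exact Finset.mem_product.mpr ⟨Finset.mem_univ _,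
          Finset.mem_product.mpr ⟨Finset.mem_univ _, hy'⟩⟩
      · exact Finset.mem_filter.mpr ⟨Finset.mem_univ _, he⟩
    have hu : ∀ z ∈ F, Function.update β y b z = β z := by
      intro z hz
      refine Function.update_of_ne ?_ _ _
      intro h
      exact hy (h ▸ hz)
    refine ⟨Function.update β y b, ?_, ?_⟩
    · intro z hz
      rcases Finset.mem_insert.mp hz with rfl | hz
      · rw [Function.update_self]
        exact hb
      · rw [hu z hz]
        exact h1 z hz
    · intro z hz z' hz' hne i j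
      by_cases hzy : z = y
      · by_cases hzy' : z' = y
        · exact absurd (hzy.trans hzy'.symm) hne
        · have hz1 : z' ∈ F := (Finset.mem_insert.mp hz').resolve_left hzy'
          rw [hu z' hz1, hzy, Function.update_self]
          exact hbne z' hz1 i j
      · have hz1 : z ∈ F := (Finset.mem_insert.mp hz).resolve_left hzy
        by_cases hzy' : z' = y
        · rw [hu z hz1, hzy', Function.update_self]
          exact (hbne z hz1 j i).symm
        · have hz2 : z' ∈ F := (Finset.mem_insert.mp hz').resolve_left hzy'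
          rw [hu z hz1, hu z' hz2]
          exact h2 z hz1 z' hz2 hne i j

end XSQA

open XSQA in
theorem SQA_pf : S_SQA := by
  intro n m P hP g hg hR hC p₁ p₂ h1 h2
  obtain ⟨A, hA, hA2⟩ := ex_A p₁ _ hR
  have hAi : ∀ i, Function.Injective (g (A i)) := hA
  let Cf : Finset (Fin m) := Finset.univ.filter fun b => Function.Injective (fun a => g a b)
  have hCf : n ^ 3 < Cf.card := by
    have e : {b | Function.Injective (fun a => g a b)}.ncard = Cf.card := by
      rw [← Set.ncard_coe_finset]
      congr 1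
      ext b
      simp [Cf]
    rw [e] at hC
    omega
  have hcard : (Finset.univ.image p₂).card ≤ n := by
    refine Finset.card_image_le.trans ?_
    rw [Finset.card_univ, Fintype.card_fin]
  obtain ⟨β, hβ, hβ2⟩ := ex_B g A hAi Cf hCf (Finset.univ.image p₂) hcard
  have hm : ∀ i, p₂ i ∈ Finset.univ.image p₂ :=
    fun i => Finset.mem_image_of_mem p₂ (Finset.mem_univ i)
  have hcol : ∀ i, Function.Injective (fun a => g a (β (p₂ i))) := by
    intro i
    exact (Finset.mem_filter.mp (hβ _ (hm i))).2
  have k1 : P (fun j => (A j).val) := by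
    refine hP.ker p₁ _ (fun x y => ?_) h1
    rw [← hA2 x y, Fin.val_inj]
  have k2 : P (fun j => (β (p₂ j)).val) := by
    refine hP.ker p₂ _ (fun x y => ?_) h2
    rw [Fin.val_inj]
    constructor
    · intro h
      rw [h]
    · intro h
      by_contra hne
      exact hβ2 _ (hm x) _ (hm y) hne x x (by rw [h])
  have k3 := hg A (fun j => β (p₂ j)) k1 k2
  refine hP.ker _ _ (fun x y => ?_) k3
  rw [mt_eq]
  constructor
  · intro h
    have e2 : p₂ x = p₂ y := by
      by_contra hne
      exact hβ2 _ (hm x) _ (hm y) hne x y h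
    refine ⟨?_, e2⟩
    rw [← hA2]
    apply hcol y
    show g (A x) (β (p₂ y)) = g (A y) (β (p₂ y))
    rw [← h, e2]
  · rintro ⟨e1, e2⟩
    show g (A x) (β (p₂ x)) = g (A y) (β (p₂ y))
    rw [(hA2 x y).mpr e1, e2]

end Pool.Agent.Work.MP_8dbde4_lc.Om
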