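import Pool.Agent.Work.MP_8dbde4_lc.Om.StmtsE

/-!
# Item [8dbde4 OM SQB]: many constant rows
-/

set_option autoImplicit false
open Classical

namespace Pool.Agent.Work.MP_8dbde4_lc.Om

open Pool.Agent.Work.MP_8dbde4_lc.TS
open Pool.Agent.Work.MP_8dbde4_lc.Tree (Word Agr Cc Gad Den row BFSys)
open Pool.Agent.Work.MP_8dbde4_lc.Phy (PP Hom TI)
open Pool.Agent.Work.MP_8dbde4_lc.Bra (Same InvU CC)

namespace XSQB

/-- Tuples with a given kernel and entries in a large set. -/
theorem rep (n m : ℕ) (p : Fin n → ℕ) (A : Finset (Fin m)) (hA : n ≤ A.card) :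
    ∃ t : Fin n → Fin m, (∀ i, t i ∈ A) ∧ ∀ i j, t i = t j ↔ p i = p j := by
  rcases Nat.eq_zero_or_pos n with h0 | h0
  · subst h0
    exact ⟨fun i => i.elim0, fun i => i.elim0, fun i => i.elim0⟩
  · obtain ⟨B, hBA, hBc⟩ := Finset.exists_subset_card_eq hA
    let e : Fin n ≃ B := (Finset.equivFinOfCardEq hBc).symm
    let f : ℕ → Fin n := fun v => if h : ∃ j, p j = v then h.choose else ⟨0, h0⟩
    have hf : ∀ i, p (f (p i)) = p i := by
      intro i
      have h : ∃ j, p j = p i := ⟨i, rfl⟩
      simp only [f, dif_pos h]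
      exact h.choose_spec
    refine ⟨fun i => (e (f (p i))).1, fun i => hBA (e (f (p i))).2, ?_⟩
    intro i j
    constructor
    · intro h
      have h1 : f (p i) = f (p j) := e.injective (Subtype.ext h)
      rw [← hf i, ← hf j, h1]
    · intro h
      simp only [h]

end XSQB

open XSQB in
theorem SQB_pf : S_SQB := by
  intro n m P hP g hg hC hrow hcol p₁ p₂ hp₁ hp₂
  obtain ⟨a₀, ha₀⟩ := hrow
  obtain ⟨b₁, hb₁⟩ := hcol
  let C : Finset (Fin m) := Finset.univ.filter (fun a => ∃ e, ∀ b, g a b = e)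
  have hCs : {a : Fin m | ∃ e, ∀ b, g a b = e} = (C : Set (Fin m)) := by
    ext a
    simp [C]
  rw [hCs, Set.ncard_coe_finset] at hC
  have hCm : ∀ a ∈ C, ∀ b b', g a b = g a b' := by
    intro a ha b b'
    obtain ⟨e, he⟩ := (Finset.mem_filter.1 ha).2
    rw [he b, he b']
  have hm : 2 * n + 2 ≤ m := by
    have h1 : C.card ≤ m := by
      have := Finset.card_le_univ C
      rwa [Fintype.card_fin] at this
    omega
  have ha₀C : a₀ ∉ C := by
    intro h
    have h1 := hCm a₀ h ⟨0, by omega⟩ ⟨1, by omega⟩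
    have h2 := ha₀ h1
    have h3 := congrArg Fin.val h2
    simp at h3
  -- the claim
  have claim : ∀ (p : Fin n → ℕ) (x : ℕ), P p → ∃ p' : Fin n → ℕ, P p' ∧
      ∀ i j, p' i = p' j ↔ p i = p j ∧ (p i = x → p₂ i = p₂ j) := by
    intro p x hp
    obtain ⟨β, -, hβ⟩ := rep n m p₂ Finset.univ (by rw [Finset.card_univ, Fintype.card_fin]; omega)
    let D : Finset (Fin m) := C.filter (fun a => ∃ j, g a b₁ = g a₀ (β j))
    have hD : D.card ≤ n := by
      have h1 : D.card ≤ (Finset.univ.image (fun j : Fin n => g a₀ (β j))).card := by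
        refine Finset.card_le_card_of_injOn (fun a => g a b₁) ?_ ?_
        · intro a ha
          have ha' : a ∈ D := ha
          obtain ⟨j, hj⟩ := (Finset.mem_filter.1 ha').2
          exact Finset.mem_coe.2 (Finset.mem_image.2 ⟨j, Finset.mem_univ _, hj.symm⟩)
        · intro a _ a' _ h
          exact hb₁ h
      refine h1.trans (Finset.card_image_le.trans ?_)
      rw [Finset.card_univ, Fintype.card_fin]
    have hA : n ≤ (C \ D).card := by
      have h1 := Finset.le_card_sdiff D C
      omega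
    obtain ⟨s, hsA, hs⟩ := rep n m p (C \ D) hA
    have hsC : ∀ i, s i ∈ C := fun i => (Finset.mem_sdiff.1 (hsA i)).1
    have hsD : ∀ i j, g (s i) b₁ ≠ g a₀ (β j) := by
      intro i j h
      exact (Finset.mem_sdiff.1 (hsA i)).2 (Finset.mem_filter.2 ⟨hsC i, j, h⟩)
    have hs0 : ∀ i, s i ≠ a₀ := fun i h => ha₀C (h ▸ hsC i)
    let α : Fin n → Fin m := fun j => if p j = x then a₀ else s j
    have hα : ∀ i j, α i = α j ↔ p i = p j := by
      intro i j
      by_cases hi : p i = x <;> by_cases hj : p j = x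
      · simp only [α, if_pos hi, if_pos hj, hi, hj]
      · simp only [α, if_pos hi, if_neg hj]
        exact ⟨fun h => absurd h.symm (hs0 j), fun h => absurd (h.symm.trans hi) hj⟩
      · simp only [α, if_neg hi, if_pos hj]
        exact ⟨fun h => absurd h (hs0 i), fun h => absurd (h.trans hj) hi⟩
      · simp only [α, if_neg hi, if_neg hj]
        exact hs i j
    have hPα : P (fun j => (α j).val) := by
      refine hP.ker p _ ?_ hp
      intro i j
      rw [← hα i j]
      exact ⟨fun h => congrArg Fin.val h, fun h => Fin.ext h⟩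
    have hPβ : P (fun j => (β j).val) := by
      refine hP.ker p₂ _ ?_ hp₂
      intro i j
      rw [← hβ i j]
      exact ⟨fun h => congrArg Fin.val h, fun h => Fin.ext h⟩
    refine ⟨fun j => g (α j) (β j), hg α β hPα hPβ, ?_⟩
    intro i j
    by_cases hi : p i = x <;> by_cases hj : p j = x
    · simp only [α, if_pos hi, if_pos hj]
      constructor
      · intro h
        exact ⟨hi.trans hj.symm, fun _ => (hβ i j).1 (ha₀ h)⟩
      · rintro ⟨-, h⟩
        rw [(hβ i j).2 (h hi)]
    · simp only [α, if_pos hi, if_neg hj]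
      constructor
      · intro h
        rw [hCm (s j) (hsC j) (β j) b₁] at h
        exact absurd h.symm (hsD j i)
      · rintro ⟨h, -⟩
        exact absurd (h.symm.trans hi) hj
    · simp only [α, if_neg hi, if_pos hj]
      constructor
      · intro h
        rw [hCm (s i) (hsC i) (β i) b₁] at h
        exact absurd h (hsD i j)
      · rintro ⟨h, -⟩
        exact absurd (h.trans hj) hi
    · simp only [α, if_neg hi, if_neg hj]
      rw [hCm (s i) (hsC i) (β i) b₁, hCm (s j) (hsC j) (β j) b₁]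
      constructor
      · intro h
        exact ⟨(hs i j).1 (hb₁ h), fun h1 => absurd h1 hi⟩
      · rintro ⟨h, -⟩
        rw [(hs i j).2 h]
  -- all the classes
  have all : ∀ F : Finset ℕ, ∃ p' : Fin n → ℕ, P p' ∧
      ∀ i j, p' i = p' j ↔ p₁ i = p₁ j ∧ (p₁ i ∈ F → p₂ i = p₂ j) := by
    intro F
    induction F using Finset.induction_on with
    | empty =>
      refine ⟨p₁, hp₁, ?_⟩
      intro i j
      simp
    | insert x F hx ih =>
      obtain ⟨p', hp', hk⟩ := ih
      by_cases hex : ∃ i₀, p₁ i₀ = x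
      · obtain ⟨i₀, hi₀⟩ := hex
        have hcl : ∀ i, p' i = p' i₀ ↔ p₁ i = x := by
          intro i
          rw [hk i i₀, hi₀]
          constructor
          · exact fun h => h.1
          · intro h
            exact ⟨h, fun h1 => absurd (h ▸ h1) hx⟩
        obtain ⟨p'', hp'', hk'⟩ := claim p' (p' i₀) hp'
        refine ⟨p'', hp'', ?_⟩
        intro i j
        rw [hk' i j, hk i j, hcl i, Finset.mem_insert]
        constructor
        · rintro ⟨⟨h1, h2⟩, h3⟩
          exact ⟨h1, fun h => h.elim h3 h2⟩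
        · rintro ⟨h1, h2⟩
          exact ⟨⟨h1, fun h => h2 (Or.inr h)⟩, fun h => h2 (Or.inl h)⟩
      · refine ⟨p', hp', ?_⟩
        intro i j
        rw [hk i j, Finset.mem_insert]
        have h1 : p₁ i ≠ x := fun h => hex ⟨i, h⟩
        constructor
        · rintro ⟨h2, h3⟩
          exact ⟨h2, fun h => h.elim (fun h4 => absurd h4 h1) h3⟩
        · rintro ⟨h2, h3⟩
          exact ⟨h2, fun h => h3 (Or.inr h)⟩
  obtain ⟨p', hp', hk⟩ := all (Finset.univ.image p₁)
  refine hP.ker p' _ ?_ hp'
  intro i j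
  rw [hk i j]
  have h1 : p₁ i ∈ Finset.univ.image p₁ := Finset.mem_image.2 ⟨i, Finset.mem_univ _, rfl⟩
  unfold mt
  rw [Nat.pair_eq_pair]
  constructor
  · rintro ⟨h2, h3⟩
    exact ⟨h2, h3 h1⟩
  · rintro ⟨h2, h3⟩
    exact ⟨h2, fun _ => h3⟩

end Pool.Agent.Work.MP_8dbde4_lc.Om
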