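import Pool.Agent.Work.MP_8dbde4_lc.Om.StmtsE

set_option autoImplicit false
open Classical

namespace Pool.Agent.Work.MP_8dbde4_lc.Om

open Pool.Agent.Work.MP_8dbde4_lc.TS
open Pool.Agent.Work.MP_8dbde4_lc.Tree (Word Agr Cc Gad Den row BFSys)
open Pool.Agent.Work.MP_8dbde4_lc.Phy (PP Hom TI)
open Pool.Agent.Work.MP_8dbde4_lc.Bra (Same InvU CC)

namespace XSQW

/-- Many injective columns. -/
theorem core (h2 : S_SQA) (h3 : S_SQB) {n m : ℕ} {P : (Fin n → ℕ) → Prop} (hP : PS P)
    (hm : n ^ 3 + 3 * n + 5 ≤ m) (g : Fin m → Fin m → ℕ)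
    (hg : ∀ t t' : Fin n → Fin m, P (fun j => (t j).val) → P (fun j => (t' j).val) →
      P (fun j => g (t j) (t' j)))
    (hrow : ∀ a, Function.Injective (g a) ∨ ∃ e, ∀ b, g a b = e)
    (hr : ∃ a, Function.Injective (g a)) (hc : ∃ b, Function.Injective (fun a => g a b))
    (hC : n ^ 3 + n + 1 ≤ {b | Function.Injective (fun a => g a b)}.ncard) :
    ∀ p₁ p₂, P p₁ → P p₂ → P (mt p₁ p₂) := by
  by_cases hR : n ≤ {a | Function.Injective (g a)}.ncard
  · exact h2 n m P hP g hg hR hC
  · apply h3 n m P hP g hg _ hr hc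
    have hsub : (Set.univ : Set (Fin m)) ⊆
        {a | Function.Injective (g a)} ∪ {a | ∃ e, ∀ b, g a b = e} := by
      intro a _
      exact hrow a
    have h4 := Set.ncard_le_ncard hsub (Set.toFinite _)
    have h5 := Set.ncard_union_le {a | Function.Injective (g a)} {a | ∃ e, ∀ b, g a b = e}
    rw [Set.ncard_univ, Nat.card_eq_fintype_card, Fintype.card_fin] at h4
    have h6 : 0 ≤ n ^ 3 := Nat.zero_le _
    omega

/-- Closed under common refinement. -/
theorem closed (h2 : S_SQA) (h3 : S_SQB) {n m : ℕ} {P : (Fin n → ℕ) → Prop} (hP : PS P)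
    (hm : n ^ 3 + 3 * n + 5 ≤ m) (g : Fin m → Fin m → ℕ)
    (hg : ∀ t t' : Fin n → Fin m, P (fun j => (t j).val) → P (fun j => (t' j).val) →
      P (fun j => g (t j) (t' j)))
    (hrow : ∀ a, Function.Injective (g a) ∨ ∃ e, ∀ b, g a b = e)
    (hcol : ∀ b, Function.Injective (fun a => g a b) ∨ ∃ e, ∀ a, g a b = e)
    (hr : ∃ a, Function.Injective (g a)) (hc : ∃ b, Function.Injective (fun a => g a b)) :
    ∀ p₁ p₂, P p₁ → P p₂ → P (mt p₁ p₂) := by
  by_cases hR : {a | ∃ e, ∀ b, g a b = e}.ncard ≤ 1
  · intro p₁ p₂ hp₁ hp₂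
    have hsub : (Set.univ : Set (Fin m)) ⊆
        {a | Function.Injective (g a)} ∪ {a | ∃ e, ∀ b, g a b = e} := by
      intro a _
      exact hrow a
    have h4 := Set.ncard_le_ncard hsub (Set.toFinite _)
    have h5 := Set.ncard_union_le {a | Function.Injective (g a)} {a | ∃ e, ∀ b, g a b = e}
    rw [Set.ncard_univ, Nat.card_eq_fintype_card, Fintype.card_fin] at h4
    have h7 := core h2 h3 hP hm (fun a b => g b a) (fun t t' ht ht' => hg t' t ht' ht) hcol hc hr
      (by
        show n ^ 3 + n + 1 ≤ {b | Function.Injective (g b)}.ncard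
        omega) p₂ p₁ hp₂ hp₁
    refine hP.ker _ _ ?_ h7
    intro x y
    simp only [mt, Nat.pair_eq_pair]
    tauto
  · apply core h2 h3 hP hm g hg hrow hr hc
    have hall : {b | Function.Injective (fun a => g a b)} = Set.univ := by
      rw [Set.eq_univ_iff_forall]
      intro b
      obtain ⟨a, ha, a', ha', hne⟩ := (Set.one_lt_ncard_iff (Set.toFinite _)).1 (not_le.1 hR) |>
        fun ⟨a, b, h1, h2, h3⟩ => (⟨a, h1, b, h2, h3⟩ : ∃ a ∈ {a | ∃ e, ∀ b, g a b = e},
          ∃ a' ∈ {a | ∃ e, ∀ b, g a b = e}, a ≠ a')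
      obtain ⟨b₀, hb₀⟩ := hc
      rcases hcol b with h | ⟨e, he⟩
      · exact h
      · exfalso
        obtain ⟨r, hr1⟩ := ha
        obtain ⟨r', hr1'⟩ := ha'
        apply hne
        apply hb₀
        show g a b₀ = g a' b₀
        rw [hr1 b₀, hr1' b₀, ← hr1 b, ← hr1' b, he, he]
    rw [hall, Set.ncard_univ, Nat.card_eq_fintype_card, Fintype.card_fin]
    omega

/-- Changing coordinates on which the function does not depend. -/
theorem agree {m : ℕ} {I : Type} [Finite I] (f : (I → Fin m) → ℕ) (t t' : I → Fin m)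
    (h : ∀ l, t l ≠ t' l → ¬ DepN f l) : f t = f t' := by
  haveI := Fintype.ofFinite I
  have key : ∀ F : Finset I, f (fun l => if l ∈ F then t' l else t l) = f t := by
    intro F
    induction F using Finset.induction_on with
    | empty => simp
    | insert l F hl ih =>
      rw [← ih]
      by_cases h1 : t l = t' l
      · congr 1
        funext x
        by_cases hx : x = l
        · subst hx
          simp [hl, h1]
        · simp [hx]
      · have h2 := h l h1
        unfold DepN at h2
        push Not at h2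
        have h3 := h2 (fun l => if l ∈ F then t' l else t l) (t' l) (t l)
        have e1 : Function.update (fun l => if l ∈ F then t' l else t l) l (t' l) =
            (fun x => if x ∈ insert l F then t' x else t x) := by
          funext x
          by_cases hx : x = l
          · subst hx
            simp
          · simp [hx]
        have e2 : Function.update (fun l => if l ∈ F then t' l else t l) l (t l) =
            (fun x => if x ∈ F then t' x else t x) := by
          funext x
          by_cases hx : x = l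
          · subst hx
            simp [hl]
          · simp [hx]
        rw [e1, e2] at h3
        exact h3
  have h4 := key Finset.univ
  simp only [Finset.mem_univ, if_true] at h4
  exact h4.symm

end XSQW

open XSQW in
theorem SQW_pf (h1 : S_BDW) (h2 : S_SQA) (h3 : S_SQB) : S_SQW := by
  intro n m P hP hN hS hm I _ f hf i j hi hj
  by_contra hij
  obtain ⟨g, hg, hrow, hcol, hr, hc⟩ := h1 n m P hP hN I f hf i j hij hi hj
  obtain ⟨p, p', hp, hp', hn⟩ := hS
  exact hn (closed h2 h3 hP hm g hg hrow hcol hr hc p p' hp hp')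

open XSQW in
theorem UAW_pf (h1 : S_LIW) (h2 : S_SQW) : S_UAW := by
  intro n m P hP hN hS hm I _ f hf
  by_cases hd : ∃ i, DepN f i
  · obtain ⟨i, hi⟩ := hd
    right
    have hi' := hi
    obtain ⟨x, a, b, hab⟩ := hi
    refine ⟨i, fun a => f (Function.update x i a), ?_, ?_⟩
    · rcases h1 n m P hP hN I f hf i x with h | ⟨e, he⟩
      · exact h
      · exact absurd ((he a).trans (he b).symm) hab
    · intro t
      apply agree
      intro l hl hD
      have := h2 n m P hP hN hS hm I f hf i l hi' hD
      subst this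
      apply hl
      simp
  · left
    push Not at hd
    have hm0 : 0 < m := by omega
    refine ⟨f (fun _ => ⟨0, hm0⟩), fun t => agree f _ _ (fun l _ => hd l)⟩

end Pool.Agent.Work.MP_8dbde4_lc.Om
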