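import Pool.Agent.Work.MP_8dbde4_lc.Om.Stmts
import Pool.Agent.Work.MP_8dbde4_lc.Phy.I_PPB

/-!
Item TR0 of block Om: case 0 is impossible, and the induction on the size.
-/

set_option autoImplicit false
open Classical

namespace Pool.Agent.Work.MP_8dbde4_lc.Om

open Pool.Agent.Work.MP_8dbde4_lc.TS
open Pool.Agent.Work.MP_8dbde4_lc.Tree (Word Agr Cc)
open Pool.Agent.Work.MP_8dbde4_lc.Phy (PP Hom)
open Pool.Agent.Work.MP_8dbde4_lc.Bra (Same InvU CC)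

namespace XTR0

theorem lk_pp {c : ℚ → ℕ} {σ : Sig} {𝔅 : Str σ (Word c)} (h1 : S_PQW)
    (hB : NLang 𝔅) {X : Type} [Finite X] (E E' : Set (X × X)) (p p' z : X) (xx : X × X → X) :
    PP 𝔅 (fun V : Bool × X → Word c =>
      LK E E' p p' z xx (fun x => V (false, x)) (fun x => V (true, x))) := by
  have hP := Phy.PPB_pf σ (Word c) 𝔅
  have hq := (h1 c σ 𝔅 hB.ppC hB.ppN (Bool × X)).1
  have e1 := hP.2.2.2.2.1 (Bool × X) (true, p) (false, p)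
  have e2 := hP.2.2.2.2.1 (Bool × X) (true, p') (false, z)
  have e3 := hq (fun a b d => ∃ e ∈ E, a = (false, e.1) ∧ b = (false, e.2) ∧ d = (true, z))
  have e4 := hq (fun a b d => ∃ e ∈ E', a = (true, e.1) ∧ b = (true, e.2) ∧ d = (true, xx e))
  have e5 := hP.2.1 _ _ _ e1 (hP.2.1 _ _ _ e2 (hP.2.1 _ _ _ e3 e4))
  have key : (fun V : Bool × X → Word c =>
      LK E E' p p' z xx (fun x => V (false, x)) (fun x => V (true, x))) = (fun V =>
      V (true, p) = V (false, p) ∧ V (true, p') = V (false, z) ∧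
      (∀ a b d, (∃ e ∈ E, a = (false, e.1) ∧ b = (false, e.2) ∧ d = (true, z)) →
        Cc (V d) (V a) (V b)) ∧
      ∀ a b d, (∃ e ∈ E', a = (true, e.1) ∧ b = (true, e.2) ∧ d = (true, xx e)) →
        Cc (V d) (V a) (V b)) := by
    funext V
    apply propext
    unfold LK
    constructor
    · rintro ⟨a1, a2, a3, a4⟩
      refine ⟨a1, a2, ?_, ?_⟩
      · rintro a b d ⟨e, he, rfl, rfl, rfl⟩
        exact a3 e he
      · rintro a b d ⟨e, he, rfl, rfl, rfl⟩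
        exact a4 e he
    · rintro ⟨a1, a2, a3, a4⟩
      exact ⟨a1, a2, fun e he => a3 _ _ _ ⟨e, he, rfl, rfl, rfl⟩,
        fun e he => a4 _ _ _ ⟨e, he, rfl, rfl, rfl⟩⟩
  rw [key]
  exact e5

end XTR0

theorem TR0_pf (h1 : S_PQW) (h2 : S_FSW) (h3 : S_TRE) (h4 : S_TRX) (h5 : S_TRA)
    (h6 : S_TRB) : S_TR0 := by
  intro c σ 𝔅 hB hPr hPa N hU X _ S I Q q k hS hM hne hsep Y hYI hYc π hπ hall
  have hQ : ∃ x ∈ Q, ∃ y ∈ Q, q x ≠ q y := by
    obtain ⟨w, _, hw⟩ := hne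
    exact hw.1
  have hT : PP 𝔅 (fun w => S w ∧ Spl Q w q) :=
    (h1 c σ 𝔅 hB.ppC hB.ppN X).2.2.1 S Q q hS hQ
  have hπn : ∃ x ∈ Y, ∃ y ∈ Y, π x ≠ π y := by
    obtain ⟨w, _, hw⟩ := hπ
    exact hw.1
  have hT1 : ∃ w h, (S w ∧ Spl Q w q) ∧ Spl Y w h := by
    obtain ⟨x, hx, y, hy, hxy⟩ := hπn
    have hxy' : x ≠ y := fun h => hxy (by rw [h])
    obtain ⟨w, hw1, hw2, hw3⟩ := hPa X S I Q q k hS hM hne x (hYI hx) y (hYI hy)
      (hsep x (hYI hx) y (hYI hy) hxy')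
    obtain ⟨h, hh⟩ := h2 c X Y w ⟨x, hx, y, hy, hw3⟩
    exact ⟨w, h, ⟨hw1, hw2⟩, hh⟩
  obtain ⟨E, E', p, p', z, t₀, xx, hTD⟩ :=
    h3 c X (fun w => S w ∧ Spl Q w q) Y π hT1 hπn hall
  have hA := h5 c σ 𝔅 hPa X S I Q q k hS hT hM hne hsep Y hYI π hπ E E' p p' z t₀ xx hTD
  have hBc := h6 c σ 𝔅 hPa N hU X S I Q q k hS hM hne hsep Y hYI hYc π hπ E E' p p' z t₀ xx hTD
  obtain ⟨u, w, hu, hw, hl⟩ := hPr X S I Q q k hS hM (LK E E' p p' z xx)
    (XTR0.lk_pp h1 hB E E' p p' z xx) hBc hA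
  exact h4 c X _ Y π E E' p p' z t₀ xx hTD u w hu hw hl

theorem UNW_pf : S_UNW := by
  intro c σ 𝔅 h0 h1 N
  induction N with
  | zero =>
    intro X _ S I Q q k hS hM hne hsep Y' hY hc h hh
    exfalso
    obtain ⟨w, hw, hs⟩ := hh
    obtain ⟨⟨x, hx, y, hy, hxy⟩, _⟩ := hs
    have h5 : Y' = ∅ := by
      rw [← Set.ncard_eq_zero (Set.toFinite _)]
      omega
    rw [h5] at hx
    exact hx
  | succ N ih =>
    intro X _ S I Q q k hS hM hne hsep Y' hY hc h hh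
    by_cases hcN : Y'.ncard ≤ N
    · exact ih X S I Q q k hS hM hne hsep Y' hY hcN h hh
    · by_contra hno
      have hnp : ¬ Pat (fun w => S w ∧ Spl Q w q) Y' h := by
        rintro (h2 | ⟨v, hv, h3⟩)
        · obtain ⟨w, hw, hs⟩ := hh
          obtain ⟨⟨x, hx, y, hy, hxy⟩, _⟩ := hs
          exact hxy (h2 x hx y hy)
        · exact hno ⟨v, hv, h3⟩
      refine h0 N ih X S I Q q k hS hM hne hsep Y' hY hc h hh ?_
      intro t ht htc x hx y hy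
      by_contra hxy
      exact h1 X S I Q q k hS hM hne Y' hY h hh hnp ⟨t, ht, htc, x, hx, y, hy, hxy⟩

end Pool.Agent.Work.MP_8dbde4_lc.Om
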