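import Pool.Agent.Work.MP_8dbde4_lc.Om.Stmts
import Pool.Agent.Work.MP_8dbde4_lc.Phy.I_PPB

/-!
Item TR1: case 1 is impossible.
-/

set_option autoImplicit false
open Classical

namespace Pool.Agent.Work.MP_8dbde4_lc.Om

open Pool.Agent.Work.MP_8dbde4_lc.TS
open Pool.Agent.Work.MP_8dbde4_lc.Tree (Word Agr Cc)
open Pool.Agent.Work.MP_8dbde4_lc.Phy (PP Hom)
open Pool.Agent.Work.MP_8dbde4_lc.Bra (Same InvU CC)

namespace XTR1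

variable {c : ℚ → ℕ} {σ : Sig}

theorem cc_symm {x y z : Word c} (h : Cc z x y) : Cc z y x := by
  obtain ⟨q, h1, h2, h3, h4⟩ := h
  exact ⟨q, h2, h1, h3.symm, fun h => h4 (h.trans h3.symm)⟩

theorem cc_self {x y : Word c} (h : y ≠ x) : Cc y x x := by
  obtain ⟨q, h1, h2⟩ := first_diff h
  exact ⟨q, h1, h1, rfl, h2⟩

theorem star_symm {x y z : Word c} (h : Star x y z) : Star z y x := by
  obtain ⟨h1, h2, h3, h4, h5, h6⟩ := h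
  exact ⟨h2.symm, h1.symm, h3.symm, fun h => h6 (cc_symm h), fun h => h5 (cc_symm h),
    fun h => h4 (cc_symm h)⟩

/-- The clause for both copies is primitive positive definable. -/
theorem pp_link (hPQW : S_PQW) {𝔅 : Str σ (Word c)} (hL : NLang 𝔅) {X : Type} [Finite X]
    (Y : Set X) (π ρ : X → ℕ) (f₁ f₂ g₁ : X) :
    PP 𝔅 (fun V : Bool × X → Word c =>
      LR1 Y π ρ f₁ f₂ g₁ (fun x => V (false, x)) (fun x => V (true, x))) := by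
  obtain ⟨P1, P2, -, -⟩ := hPQW c σ 𝔅 hL.ppC hL.ppN (Bool × X)
  obtain ⟨-, B2, -, -, B5, -, -⟩ := Phy.PPB_pf σ (Word c) 𝔅
  have e1 := B5 (Bool × X) (true, f₁) (false, f₁)
  have e2 := B5 (Bool × X) (true, g₁) (false, g₁)
  have c1 := P1 (fun a b d => a.1 = b.1 ∧ b.1 = d.1 ∧ a.2 ∈ Y ∧ b.2 ∈ Y ∧ d.2 ∈ Y ∧
    π a.2 = π b.2 ∧ ρ d.2 ≠ ρ a.2)
  have s1 := P2 (fun a b d => (a = (false, f₂) ∧ b = (false, g₁) ∧ d = (true, f₂)) ∨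
    (a.1 = b.1 ∧ b.1 = d.1 ∧ a.2 ∈ Y ∧ b.2 ∈ Y ∧ d.2 ∈ Y ∧
      ρ a.2 ≠ ρ b.2 ∧ ρ b.2 ≠ ρ d.2 ∧ ρ a.2 ≠ ρ d.2))
  refine Phy.XPPB.congr ?_ (B2 _ _ _ (B2 _ _ _ e1 e2) (B2 _ _ _ c1 s1))
  intro V
  constructor
  · rintro ⟨⟨h1, h2⟩, h3, h4⟩
    refine ⟨h1, h2, h4 _ _ _ (Or.inl ⟨rfl, rfl, rfl⟩), ?_⟩
    rintro v (rfl | rfl)
    · exact ⟨fun x hx y hy z hz h5 h6 => h3 (false, x) (false, y) (false, z)
          ⟨rfl, rfl, hx, hy, hz, h5, h6⟩,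
        fun x hx y hy z hz h5 h6 h7 => h4 (false, x) (false, y) (false, z)
          (Or.inr ⟨rfl, rfl, hx, hy, hz, h5, h6, h7⟩)⟩
    · exact ⟨fun x hx y hy z hz h5 h6 => h3 (true, x) (true, y) (true, z)
          ⟨rfl, rfl, hx, hy, hz, h5, h6⟩,
        fun x hx y hy z hz h5 h6 h7 => h4 (true, x) (true, y) (true, z)
          (Or.inr ⟨rfl, rfl, hx, hy, hz, h5, h6, h7⟩)⟩
  · rintro ⟨h1, h2, h3, h4⟩
    have hf := h4 _ (Or.inl rfl)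
    have ht := h4 _ (Or.inr rfl)
    refine ⟨⟨h1, h2⟩, ?_, ?_⟩
    · rintro ⟨a, x⟩ ⟨b, y⟩ ⟨d, z⟩ ⟨h5, h6, hx, hy, hz, h7, h8⟩
      simp only at h5 h6 hx hy hz h7 h8
      subst h5 h6
      cases a
      · exact hf.1 x hx y hy z hz h7 h8
      · exact ht.1 x hx y hy z hz h7 h8
    · rintro ⟨a, x⟩ ⟨b, y⟩ ⟨d, z⟩ h5
      rcases h5 with ⟨h5, h6, h7⟩ | ⟨h5, h6, hx, hy, hz, h7, h8, h9⟩
      · rw [h5, h6, h7]
        exact h3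
      · simp only at h5 h6 hx hy hz h7 h8 h9
        subst h5 h6
        cases a
        · exact hf.2 x hx y hy z hz h7 h8 h9
        · exact ht.2 x hx y hy z hz h7 h8 h9

/-- Two tuples with two different entries. -/
theorem same_bool {u w : Bool → Word c} (hu : u false ≠ u true) (hw : w false ≠ w true) :
    Same u w := by
  have he : ∀ x y, u x = u y ↔ w x = w y := by
    intro x y
    cases x <;> cases y
    · exact ⟨fun _ => rfl, fun _ => rfl⟩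
    · exact ⟨fun h => absurd h hu, fun h => absurd h hw⟩
    · exact ⟨fun h => absurd h.symm hu, fun h => absurd h.symm hw⟩
    · exact ⟨fun _ => rfl, fun _ => rfl⟩
  refine ⟨he, ?_⟩
  have key : ∀ (v : Bool → Word c), v false ≠ v true → ∀ x y z,
      Cc (v z) (v x) (v y) ↔ (x = y ∧ z ≠ x) := by
    intro v hv x y z
    constructor
    · intro h
      have h1 := cc_ne h
      constructor
      · cases x <;> cases y <;> cases z <;> simp_all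
      · intro h2
        exact h1.1 (by rw [h2])
    · rintro ⟨rfl, h⟩
      apply cc_self
      cases x <;> cases z
      · exact absurd rfl h
      · exact fun h => hv h.symm
      · exact hv
      · exact absurd rfl h
  intro x y z
  rw [key u hu, key w hw]

/-- The clauses for the first split. -/
def Cla {X : Type} (Y : Set X) (π ρ : X → ℕ) (v : X → Word c) : Prop :=
  (∀ x ∈ Y, ∀ y ∈ Y, ∀ z ∈ Y, π x = π y → ρ z ≠ ρ x → Cc (v z) (v x) (v y)) ∧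
    ∀ x ∈ Y, ∀ y ∈ Y, ∀ z ∈ Y, ρ x ≠ ρ y → ρ y ≠ ρ z → ρ x ≠ ρ z → Star (v x) (v y) (v z)

theorem cla_rho {X : Type} {Y : Set X} {π ρ : X → ℕ} {v : X → Word c}
    (hc : ∀ x ∈ Y, ∀ y ∈ Y, π x = π y → ρ x = ρ y) (H : Spl Y v ρ) : Cla Y π ρ v :=
  ⟨fun x hx y hy _ hz h1 h2 => H.cc hx hy hz (hc x hx y hy h1) h2,
    fun _ hx _ hy _ hz h1 h2 h3 => H.star hx hy hz h1 h2 h3⟩

theorem cla_pi {X : Type} {Y : Set X} {π ρ : X → ℕ} {v : X → Word c}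
    (hc : ∀ x ∈ Y, ∀ y ∈ Y, π x = π y → ρ x = ρ y) (H : Spl Y v π) : Cla Y π ρ v :=
  ⟨fun x hx _ hy z hz h1 h2 => H.cc hx hy hz h1 (fun h => h2 (hc z hz x hx h)),
    fun x hx y hy z hz h1 h2 h3 => H.star hx hy hz (fun h => h1 (hc x hx y hy h))
      (fun h => h2 (hc y hy z hz h)) (fun h => h3 (hc x hx z hz h))⟩

end XTR1

theorem TR1_pf (h1 : S_PQW) (h2 : S_FSW) (h3 : S_BLW) : S_TR1 := by
  intro c σ 𝔅 hL hKP hPr X hX S I Q q k hS hMV hT Y hY π hπ hnp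
  rintro ⟨t, htP, htc, a₀, ha₀, b₀, hb₀, hab⟩
  obtain ⟨P1, P2, P3, P4⟩ := h1 c σ 𝔅 hL.ppC hL.ppN X
  have hQ : ∃ x ∈ Q, ∃ y ∈ Q, q x ≠ q y := by
    obtain ⟨w, _, hw⟩ := hT
    exact hw.1
  have hPT : PP 𝔅 (fun w => S w ∧ Spl Q w q) := P3 S Q q hS hQ
  obtain ⟨-, hfin, -⟩ := h3 c σ 𝔅 hKP X (fun w => S w ∧ Spl Q w q) Y hPT
  obtain ⟨ρ, hρP, hρc, hρm⟩ := hfin π
  -- `ρ` is not constant
  have hρab : ρ a₀ ≠ ρ b₀ := fun h => hab (hρm t htP htc a₀ ha₀ b₀ hb₀ h)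
  obtain ⟨w₀, hw₀T, hw₀⟩ : ∃ v, (S v ∧ Spl Q v q) ∧ Spl Y v ρ := by
    rcases hρP with h | ⟨v, hv, h⟩
    · exact absurd (h a₀ ha₀ b₀ hb₀) hρab
    · exact ⟨v, hv, h⟩
  have hfar : ∀ x, ∃ z ∈ Y, ρ z ≠ ρ x := by
    intro x
    by_cases h : ρ a₀ = ρ x
    · exact ⟨b₀, hb₀, fun h' => hρab (h.trans h'.symm)⟩
    · exact ⟨a₀, ha₀, h⟩
  obtain ⟨f₁, hf₁, f₂, hf₂, hρf, hπf⟩ : ∃ f₁ ∈ Y, ∃ f₂ ∈ Y, ρ f₁ = ρ f₂ ∧ π f₁ ≠ π f₂ := by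
    by_contra hc
    push Not at hc
    exact hnp (hρP.congr (fun x hx y hy => ⟨hc x hx y hy, hρc x hx y hy⟩))
  obtain ⟨g₁, hg₁, hρg⟩ := hfar f₁
  have hπg1 : π f₁ ≠ π g₁ := fun h => hρg (hρc f₁ hf₁ g₁ hg₁ h).symm
  have hπg2 : π g₁ ≠ π f₂ := fun h => hρg ((hρc g₁ hg₁ f₂ hf₂ h).trans hρf.symm)
  obtain ⟨ν₁, hν₁S, hν₁⟩ := hπ
  -- the auxiliary tuple
  have hne1 : ν₁ f₁ ≠ ν₁ g₁ := hν₁.ne hf₁ hg₁ hπg1
  have hne0 : w₀ f₁ ≠ w₀ g₁ := hw₀.ne hf₁ hg₁ (fun h => hρg h.symm)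
  set e : Bool → Word c := fun b => if b then ν₁ g₁ else ν₁ f₁ with he
  set a : Bool → X := fun b => if b then g₁ else f₁ with ha
  have haI : ∀ z, a z ∈ I := by
    intro z
    cases z
    · exact hY hf₁
    · exact hY hg₁
  have hsame : Same e (fun z => w₀ (a z)) := XTR1.same_bool (by simpa [he] using hne1)
    (by simpa [ha] using hne0)
  have haux : ∀ z, ∃ i ∈ I, ∃ j ∈ I, ν₁ i ≠ ν₁ j ∧ ¬ Cc (e z) (ν₁ i) (ν₁ j) := by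
    intro z
    refine ⟨f₁, hY hf₁, g₁, hY hg₁, hne1, ?_⟩
    intro h
    have h4 := cc_ne h
    cases z
    · exact h4.1 rfl
    · exact h4.2 rfl
  -- facts on moved members
  have hmov : ∀ g : X → Word c, Same (Sum.elim ν₁ e) (Sum.elim g (fun z => w₀ (a z))) →
      g f₁ = w₀ f₁ ∧ g g₁ = w₀ g₁ ∧ Spl Y g π := by
    intro g hg
    refine ⟨?_, ?_, ?_⟩
    · exact (hg.1 (Sum.inl f₁) (Sum.inr false)).1 rfl
    · exact (hg.1 (Sum.inl g₁) (Sum.inr true)).1 rfl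
    · refine hν₁.transfer ⟨fun x _ y _ => hg.1 (Sum.inl x) (Sum.inl y),
        fun x _ y _ z _ => hg.2 (Sum.inl x) (Sum.inl y) (Sum.inl z)⟩
  have hstar : ∀ g : X → Word c, g f₁ = w₀ f₁ → g g₁ = w₀ g₁ → Spl Y g π →
      Star (w₀ f₂) (w₀ g₁) (g f₂) := by
    intro g h4 h5 h6
    have h7 : Star (g f₁) (g g₁) (g f₂) := h6.star hf₁ hg₁ hf₂ hπg1 hπg2 hπf
    rw [h4, h5] at h7
    exact h7.move (hw₀.cc hf₁ hf₂ hg₁ hρf hρg)
  -- the configurations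
  have hC1 : Conf S I Q q (LR1 Y π ρ f₁ f₂ g₁) := by
    refine ⟨w₀, ν₁, hw₀T.1, hw₀T.2, hν₁S, Bool, inferInstance, inferInstance, e, a, haI, haux,
      hsame, ?_⟩
    intro g hg
    obtain ⟨h4, h5, h6⟩ := hmov g hg
    refine ⟨h4, h5, hstar g h4 h5 h6, ?_⟩
    rintro v (rfl | rfl)
    · exact XTR1.cla_rho hρc hw₀
    · exact XTR1.cla_pi hρc h6
  have hC2 : Conf S I Q q (fun w g => LR1 Y π ρ f₁ f₂ g₁ g w) := by
    refine ⟨w₀, ν₁, hw₀T.1, hw₀T.2, hν₁S, Bool, inferInstance, inferInstance, e, a, haI, haux,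
      hsame, ?_⟩
    intro g hg
    obtain ⟨h4, h5, h6⟩ := hmov g hg
    refine ⟨h4.symm, h5.symm, ?_, ?_⟩
    · rw [h5]
      exact XTR1.star_symm (hstar g h4 h5 h6)
    · rintro v (rfl | rfl)
      · exact XTR1.cla_pi hρc h6
      · exact XTR1.cla_rho hρc hw₀
  obtain ⟨u, w, huT, hwT, hLf, hLg, hLs, hLc⟩ := hPr X S I Q q k hS hMV
    (LR1 Y π ρ f₁ f₂ g₁) (XTR1.pp_link h1 hL Y π ρ f₁ f₂ g₁) hC1 hC2
  -- the first splits of the two members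
  have hclaim : ∀ v : X → Word c, (S v ∧ Spl Q v q) → XTR1.Cla Y π ρ v → Spl Y v ρ := by
    intro v hv hcl
    have h4 : Cc (v g₁) (v f₁) (v f₁) := hcl.1 f₁ hf₁ f₁ hf₁ g₁ hg₁ rfl hρg
    obtain ⟨h, hh⟩ := h2 c X Y v ⟨g₁, hg₁, f₁, hf₁, (cc_ne h4).1⟩
    have h5 : Pat (fun w => S w ∧ Spl Q w q) Y h := Or.inr ⟨v, hv, hh⟩
    have h6 : ∀ x ∈ Y, ∀ y ∈ Y, π x = π y → h x = h y := by
      intro x hx y hy hxy
      obtain ⟨z, hz, hzx⟩ := hfar x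
      exact hh.eq_of_cc hx hy hz (hcl.1 x hx y hy z hz hxy hzx)
    have h7 := hρm h h5 h6
    have h8 : ∀ x ∈ Y, ∀ y ∈ Y, h x = h y → ρ x = ρ y := by
      intro x hx y hy hxy
      by_contra hne
      obtain ⟨a₁, ha₁, b₁, hb₁, hab₁⟩ := hh.1
      obtain ⟨z, hz, hzx⟩ : ∃ z ∈ Y, h z ≠ h x := by
        by_cases h9 : h a₁ = h x
        · exact ⟨b₁, hb₁, fun h' => hab₁ (h9.trans h'.symm)⟩
        · exact ⟨a₁, ha₁, h9⟩
      have h10 : ρ y ≠ ρ z := fun h' => hzx ((h7 y hy z hz h').symm.trans hxy.symm)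
      have h11 : ρ x ≠ ρ z := fun h' => hzx (h7 x hx z hz h').symm
      exact (hcl.2 x hx y hy z hz hne h10 h11).2.2.2.1
        (hh.cc hx hy hz hxy hzx)
    exact hh.congr (fun x hx y hy => ⟨h8 x hx y hy, h7 x hx y hy⟩)
  have hu := hclaim u huT (hLc u (Or.inl rfl))
  have hw := hclaim w hwT (hLc w (Or.inr rfl))
  obtain ⟨r, hr1, hr2, hr3, hr4⟩ := hu.cc hf₁ hf₂ hg₁ hρf hρg
  have hwc := hw.cc hf₁ hf₂ hg₁ hρf hρg
  rw [hLf, hLg] at hwc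
  obtain ⟨hs1, hs2⟩ := cc_place hwc hr1 hr4
  exact hLs.2.2.2.2.1 ⟨r, hr2, hs1, hr3.symm.trans hs2, fun h => hr4 (h.trans hr3.symm)⟩

end Pool.Agent.Work.MP_8dbde4_lc.Om
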