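import Pool.Agent.Work.MP_8dbde4_lc.Om.Stmts

/-!
# [TRA] the first configuration
-/

set_option autoImplicit false
open Classical

namespace Pool.Agent.Work.MP_8dbde4_lc.Om

open Pool.Agent.Work.MP_8dbde4_lc.TS
open Pool.Agent.Work.MP_8dbde4_lc.Tree (Word Agr Cc)
open Pool.Agent.Work.MP_8dbde4_lc.Phy (PP Hom)
open Pool.Agent.Work.MP_8dbde4_lc.Bra (Same InvU CC)

namespace XTRA

variable {c : ℚ → ℕ}

theorem cc_symm {x y z : Word c} (h : Cc z x y) : Cc z y x := by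
  obtain ⟨q, h1, h2, h3, h4⟩ := h
  exact ⟨q, h2, h1, h3.symm, fun h => h4 (h.trans h3.symm)⟩

theorem cc_comm {x y z : Word c} : Cc z x y ↔ Cc z y x := ⟨cc_symm, cc_symm⟩

theorem cc_self {x z : Word c} : Cc z x x ↔ z ≠ x := by
  constructor
  · intro h
    exact (cc_ne h).1
  · intro h
    obtain ⟨q, h1, h2⟩ := first_diff h
    exact ⟨q, h1, h1, rfl, h2⟩

theorem not_left {x y : Word c} : ¬ Cc x x y := fun h => (cc_ne h).1 rfl

theorem not_right {x y : Word c} : ¬ Cc x y x := fun h => (cc_ne h).2 rfl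

/-- The splits of three different words. -/
theorem same3 {u v : Fin 3 → Word c} (hu01 : u 0 ≠ u 1) (hu12 : u 1 ≠ u 2) (hu02 : u 0 ≠ u 2)
    (hv01 : v 0 ≠ v 1) (hv12 : v 1 ≠ v 2) (hv02 : v 0 ≠ v 2)
    (h2 : Cc (u 2) (u 0) (u 1) ↔ Cc (v 2) (v 0) (v 1))
    (h1 : Cc (u 1) (u 0) (u 2) ↔ Cc (v 1) (v 0) (v 2))
    (h0 : Cc (u 0) (u 1) (u 2) ↔ Cc (v 0) (v 1) (v 2)) : Same u v := by
  have h2' : Cc (u 2) (u 1) (u 0) ↔ Cc (v 2) (v 1) (v 0) := by rw [cc_comm, h2, cc_comm]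
  have h1' : Cc (u 1) (u 2) (u 0) ↔ Cc (v 1) (v 2) (v 0) := by rw [cc_comm, h1, cc_comm]
  have h0' : Cc (u 0) (u 2) (u 1) ↔ Cc (v 0) (v 2) (v 1) := by rw [cc_comm, h0, cc_comm]
  constructor
  · intro i j
    fin_cases i <;> fin_cases j <;>
      simp [hu01, hu01.symm, hu12, hu12.symm, hu02, hu02.symm, hv01, hv01.symm, hv12, hv12.symm,
        hv02, hv02.symm]
  · intro i j k
    fin_cases i <;> fin_cases j <;> fin_cases k <;>
      simp [hu01, hu01.symm, hu12, hu12.symm, hu02, hu02.symm, hv01, hv01.symm, hv12, hv12.symm,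
        hv02, hv02.symm, cc_self, not_left, not_right, h0, h1, h2, h0', h1', h2']

/-- A word with a new letter at the place `r`. -/
theorem new_letter {X : Type} [Finite X] (v : X → Word c) (w : Word c) (r : ℚ) :
    ∃ e : Word c, Agr e w r ∧ ∀ x, e.1 r ≠ (v x).1 r := by
  have hfin : (Set.range fun x => (v x).1 r).Finite := Set.finite_range _
  obtain ⟨a, ha⟩ := hfin.exists_notMem
  refine ⟨⟨Function.update w.1 r a, ?_⟩, ?_, ?_⟩
  · refine (w.2.union (Set.finite_singleton r)).subset ?_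
    intro s hs
    by_cases h : s = r
    · right
      exact h
    · left
      have hs' : Function.update w.1 r a s ≠ c s := hs
      rw [Function.update_of_ne h] at hs'
      exact hs'
  · intro s hs
    show Function.update w.1 r a s = w.1 s
    rw [Function.update_of_ne (ne_of_lt hs)]
  · intro x
    show Function.update w.1 r a r ≠ (v x).1 r
    rw [Function.update_self]
    intro h
    exact ha ⟨x, h.symm⟩

/-- The member of `T` in the first configuration. -/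
theorem part_a (hM : S_MHW) {σ : Sig} (𝔅 : Str σ (Word c)) (hPair : PairsP 𝔅) (X : Type)
    [Finite X] (T : (X → Word c) → Prop) (hT : PP 𝔅 T) (Y : Set X) (t₀ : X → ℕ) (p p' z : X)
    (hp : p ∈ Y) (hp' : p' ∈ Y) (hz : z ∈ Y) (hne : t₀ p ≠ t₀ p') (hv : ∃ v, T v ∧ Spl Y v t₀)
    (hs : ∃ w, T w ∧ w z ≠ w p) (hs' : ∃ w, T w ∧ w z ≠ w p') :
    ∃ w, T w ∧ Spl Y w t₀ ∧ w z ≠ w p ∧ w z ≠ w p' := by
  by_cases h1 : t₀ z = t₀ p
  · obtain ⟨w, hw, hwt, hzp⟩ := hPair X T {x | x ∈ Y ∧ t₀ x = t₀ p} Y t₀ (t₀ p) hT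
      (hM c X T Y t₀ (t₀ p)) hv z ⟨hz, h1⟩ p ⟨hp, rfl⟩ hs
    exact ⟨w, hw, hwt, hzp, hwt.ne hz hp' (fun h => hne (h1.symm.trans h))⟩
  · by_cases h2 : t₀ z = t₀ p'
    · obtain ⟨w, hw, hwt, hzp⟩ := hPair X T {x | x ∈ Y ∧ t₀ x = t₀ p'} Y t₀ (t₀ p') hT
        (hM c X T Y t₀ (t₀ p')) hv z ⟨hz, h2⟩ p' ⟨hp', rfl⟩ hs'
      exact ⟨w, hw, hwt, hwt.ne hz hp h1, hzp⟩
    · obtain ⟨v, hv, hvt⟩ := hv
      exact ⟨v, hv, hvt, hvt.ne hz hp h1, hvt.ne hz hp' h2⟩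

/-- A near word. -/
theorem near (hN : S_NEW) {X : Type} [Finite X] {Y : Set X} {ν : X → Word c} {π : X → ℕ} {r : ℚ}
    (hr1 : ∀ x ∈ Y, ∀ y ∈ Y, Agr (ν x) (ν y) r)
    (hr2 : ∀ x ∈ Y, ∀ y ∈ Y, ((ν x).1 r = (ν y).1 r ↔ π x = π y)) {p : X} (hp : p ∈ Y) :
    ∃ e : Word c, (∀ y ∈ Y, Agr e (ν y) r) ∧
      (∀ y ∈ Y, ∀ y' ∈ Y, π y = π y' → Cc e (ν y) (ν y')) ∧ e.1 r = (ν p).1 r ∧ e ≠ ν p := by
  obtain ⟨e, r', h1, h2, h3, h4⟩ := hN c (Set.range ν) (Set.finite_range ν) (ν p) r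
  have he1 : ∀ y ∈ Y, Agr e (ν y) r := by
    intro y hy s hs
    rw [h2 s (hs.trans h1)]
    exact hr1 p hp y hy s hs
  have her : e.1 r = (ν p).1 r := h2 r h1
  refine ⟨e, he1, ?_, her, ?_⟩
  · intro y hy y' hy' hyy
    by_cases h5 : (ν y).1 r = (ν p).1 r
    · refine ⟨r', ?_, ?_, ?_, ?_⟩
      · intro s hs
        rcases lt_trichotomy s r with h6 | h6 | h6
        · exact he1 y hy s h6
        · rw [h6, her, h5]
        · rw [h2 s hs]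
          exact h4 _ ⟨p, rfl⟩ _ ⟨y, rfl⟩ s h6 hs.le
      · intro s hs
        rcases lt_trichotomy s r with h6 | h6 | h6
        · exact he1 y' hy' s h6
        · rw [h6, her, ← h5]
          exact (hr2 y hy y' hy').2 hyy
        · rw [h2 s hs]
          exact h4 _ ⟨p, rfl⟩ _ ⟨y', rfl⟩ s h6 hs.le
      · exact h4 _ ⟨y, rfl⟩ _ ⟨y', rfl⟩ r' h1 le_rfl
      · exact h3 _ ⟨y, rfl⟩
    · refine ⟨r, he1 y hy, he1 y' hy', (hr2 y hy y' hy').2 hyy, ?_⟩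
      rw [her]
      exact fun h => h5 h.symm
  · intro h
    exact h3 (ν p) ⟨p, rfl⟩ (by rw [h])

/-- The third auxiliary word. -/
theorem part_b (hN : S_NEW) {X : Type} [Finite X] {Y : Set X} {ν w : X → Word c} {π t₀ : X → ℕ}
    {r : ℚ} (hr1 : ∀ x ∈ Y, ∀ y ∈ Y, Agr (ν x) (ν y) r)
    (hr2 : ∀ x ∈ Y, ∀ y ∈ Y, ((ν x).1 r = (ν y).1 r ↔ π x = π y)) {p p' z : X} (hp : p ∈ Y)
    (hp' : p' ∈ Y) (hz : z ∈ Y) (hzp : π z ≠ π p) (hw : Spl Y w t₀) (hne : t₀ p ≠ t₀ p')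
    (h1 : w z ≠ w p) (h2 : w z ≠ w p') :
    ∃ e : Word c, (∀ y ∈ Y, Agr e (ν y) r) ∧
      (∀ y ∈ Y, ∀ y' ∈ Y, π y = π y' → Cc e (ν y) (ν y')) ∧
      Same ![ν p, ν z, e] ![w p, w p', w z] := by
  have hpp : w p ≠ w p' := hw.ne hp hp' hne
  have hnc : ¬ Cc (w z) (w p) (w p') := fun h => hne (hw.eq_of_cc hp hp' hz h)
  have hl : (ν z).1 r ≠ (ν p).1 r := fun h => hzp ((hr2 z hz p hp).1 h)
  have hνpz : ν p ≠ ν z := fun h => hl (by rw [h])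
  rcases cc_cases (w p) (w p') (w z) with h | h | h | h | h | h | h
  · exact absurd h hpp
  · exact absurd h.symm h2
  · exact absurd h.symm h1
  · exact absurd h hnc
  · -- `Cc (w p') (w p) (w z)`
    obtain ⟨e, he1, he2, he3, he4⟩ := near hN hr1 hr2 hp
    refine ⟨e, he1, he2, ?_⟩
    have hc : Cc (ν z) (ν p) e := by
      refine ⟨r, hr1 z hz p hp, fun s hs => (he1 z hz s hs).symm, he3.symm, hl⟩
    obtain ⟨a1, a2⟩ := cc_not hc
    obtain ⟨b1, b2⟩ := cc_not h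
    refine same3 hνpz (cc_ne hc).2 he4.symm hpp h2.symm h1.symm ?_ ?_ ?_
    · exact iff_of_false a1 hnc
    · exact iff_of_true hc h
    · exact iff_of_false (fun h' => a2 (cc_symm h')) (fun h' => b2 (cc_symm h'))
  · -- `Cc (w p) (w p') (w z)`
    obtain ⟨e, he1, he2, he3, he4⟩ := near hN hr1 hr2 hz
    refine ⟨e, he1, he2, ?_⟩
    have hc : Cc (ν p) (ν z) e := by
      refine ⟨r, hr1 p hp z hz, fun s hs => (he1 p hp s hs).symm, he3.symm, fun h => hl h.symm⟩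
    obtain ⟨a1, a2⟩ := cc_not hc
    obtain ⟨b1, b2⟩ := cc_not h
    refine same3 hνpz he4.symm (cc_ne hc).2 hpp h2.symm h1.symm ?_ ?_ ?_
    · exact iff_of_false (fun h' => a1 (cc_symm h')) hnc
    · exact iff_of_false (fun h' => a2 (cc_symm h')) (fun h' => b2 (cc_symm h'))
    · exact iff_of_true hc h
  · -- star
    obtain ⟨e, he1, he2⟩ := new_letter ν (ν p) r
    have he3 : ∀ y ∈ Y, Agr e (ν y) r := fun y hy s hs => by
      rw [he1 s hs]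
      exact hr1 p hp y hy s hs
    refine ⟨e, he3, ?_, ?_⟩
    · intro y hy y' hy' hyy
      exact ⟨r, he3 y hy, he3 y' hy', (hr2 y hy y' hy').2 hyy, he2 y⟩
    · obtain ⟨a1, a2, a3, a4, a5, a6⟩ := Star.mk (x := ν p) (y := ν z) (z := e) (q := r)
        (hr1 p hp z hz) (fun s hs => (he3 p hp s hs).symm) (fun h => hl h.symm)
        (fun h => he2 z h.symm) (fun h => he2 p h.symm)
      obtain ⟨b1, b2, b3, b4, b5, b6⟩ := h
      exact same3 a1 a2 a3 b1 b2 b3 (iff_of_false a4 b4) (iff_of_false a5 b5)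
        (iff_of_false a6 b6)

end XTRA

open XTRA in
theorem TRA_pf (h1 : S_MHW) (h2 : S_NEW) : S_TRA := by
  intro c σ 𝔅 hPair X _ S I Q q k hS hTP hMV hT hsep Y hYI π hπ E E' p p' z t₀ xx hTD
  obtain ⟨hpY, hp'Y, hpp⟩ := hTD.sub _ hTD.mem
  simp only at hpY hp'Y hpp
  have hzY := hTD.hz.1
  have hzp : π z ≠ π p := hTD.hz.2
  have hzp1 : z ≠ p := fun h => hzp (by rw [h])
  have hzp2 : z ≠ p' := fun h => hzp (by rw [h, hpp])
  -- (a)
  have hs1 : ∃ w, (S w ∧ Spl Q w q) ∧ w z ≠ w p := by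
    obtain ⟨w, hw1, hw2, hw3⟩ := hPair X S I Q q k hS hMV hT z (hYI hzY) p (hYI hpY)
      (hsep z (hYI hzY) p (hYI hpY) hzp1)
    exact ⟨w, ⟨hw1, hw2⟩, hw3⟩
  have hs2 : ∃ w, (S w ∧ Spl Q w q) ∧ w z ≠ w p' := by
    obtain ⟨w, hw1, hw2, hw3⟩ := hPair X S I Q q k hS hMV hT z (hYI hzY) p' (hYI hp'Y)
      (hsep z (hYI hzY) p' (hYI hp'Y) hzp2)
    exact ⟨w, ⟨hw1, hw2⟩, hw3⟩
  obtain ⟨w, ⟨hwS, hwQ⟩, hwt, hwzp, hwzp'⟩ := part_a h1 𝔅 hPair X _ hTP Y t₀ p p' z hpY hp'Y hzY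
    hTD.ne hTD.pat hs1 hs2
  -- (b)
  obtain ⟨ν, hνS, hνπ⟩ := hπ
  obtain ⟨r, hr1, hr2⟩ := hνπ.2
  obtain ⟨e, he1, he2, he3⟩ := part_b h2 hr1 hr2 hpY hp'Y hzY hzp hwt hTD.ne hwzp hwzp'
  have hl : (ν p).1 r ≠ (ν z).1 r := fun h => hzp ((hr2 p hpY z hzY).1 h).symm
  have hνpz : ν p ≠ ν z := fun h => hl (by rw [h])
  have hnc : ¬ Cc e (ν p) (ν z) := by
    rintro ⟨s, h4, h5, h6, h7⟩
    rcases lt_trichotomy s r with h8 | h8 | h8
    · exact h7 (he1 p hpY s h8)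
    · subst h8
      exact hl h6
    · exact hl ((h4 r h8).symm.trans (h5 r h8))
  -- (c)
  refine ⟨w, ν, hwS, hwQ, hνS, Fin 3, inferInstance, inferInstance, ![ν p, ν z, e], ![p, p', z],
    ?_, ?_, ?_, ?_⟩
  · intro i
    fin_cases i
    · exact hYI hpY
    · exact hYI hp'Y
    · exact hYI hzY
  · intro i
    refine ⟨p, hYI hpY, z, hYI hzY, hνpz, ?_⟩
    fin_cases i
    · exact not_left
    · exact not_right
    · exact hnc
  · have h4 : (fun i => w (![p, p', z] i)) = ![w p, w p', w z] := by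
      funext i
      fin_cases i <;> rfl
    rw [h4]
    exact he3
  · intro g hg
    have e1 : g p = w p := (hg.1 (Sum.inl p) (Sum.inr 0)).1 rfl
    have e2 : g z = w p' := (hg.1 (Sum.inl z) (Sum.inr 1)).1 rfl
    refine ⟨e1.symm, e2.symm, fun f hf => ?_, fun f hf => ?_⟩
    · obtain ⟨h5, h6, h7⟩ := hTD.sub f hf
      exact (hg.2 (Sum.inl f.1) (Sum.inl f.2) (Sum.inr 2)).1 (he2 _ h5 _ h6 h7)
    · obtain ⟨h5, h6, _⟩ := hTD.sub f (hTD.sub' hf)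
      obtain ⟨h8, h9⟩ := hTD.hxx f hf
      have hx : xx f ∈ Y := by
        rcases h8 with h8 | h8
        · rw [h8]
          exact hpY
        · rw [h8]
          exact hp'Y
      exact hwt.cc h5 h6 hx (hTD.eq' f hf) h9

end Pool.Agent.Work.MP_8dbde4_lc.Om
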