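import Pool.Agent.Work.MP_8dbde4_lc.Om.Stmts

/-!
# [TRB] the second configuration
-/

set_option autoImplicit false
open Classical

namespace Pool.Agent.Work.MP_8dbde4_lc.Om

open Pool.Agent.Work.MP_8dbde4_lc.TS
open Pool.Agent.Work.MP_8dbde4_lc.Tree (Word Agr Cc)
open Pool.Agent.Work.MP_8dbde4_lc.Phy (PP Hom)
open Pool.Agent.Work.MP_8dbde4_lc.Bra (Same InvU CC)

namespace XTRB

variable {c : ℚ → ℕ}

theorem cc_symm {x y z : Word c} (h : Cc z x y) : Cc z y x := by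
  obtain ⟨q, h1, h2, h3, h4⟩ := h
  exact ⟨q, h2, h1, h3.symm, fun h => h4 (h.trans h3.symm)⟩

theorem cc_self {x z : Word c} : Cc z x x ↔ z ≠ x := by
  constructor
  · intro h
    exact (cc_ne h).1
  · intro h
    obtain ⟨q, h1, h2⟩ := first_diff h
    exact ⟨q, h1, h1, rfl, h2⟩

theorem not_left {x y : Word c} : ¬ Cc x x y := fun h => (cc_ne h).1 rfl

theorem not_right {x y : Word c} : ¬ Cc x y x := fun h => (cc_ne h).2 rfl

theorem key (v : Fin 3 → Word c) (h0 : v 0 ≠ v 1) (hc : Cc (v 2) (v 0) (v 1)) :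
    (∀ i j, v i = v j ↔ i = j) ∧
      ∀ i j k, Cc (v k) (v i) (v j) ↔ (i = j ∧ k ≠ i) ∨ (k = 2 ∧ i ≠ 2 ∧ j ≠ 2) := by
  obtain ⟨n20, n21⟩ := cc_ne hc
  obtain ⟨m1, m2⟩ := cc_not hc
  have m1' : ¬ Cc (v 1) (v 2) (v 0) := fun h => m1 (cc_symm h)
  have m2' : ¬ Cc (v 0) (v 2) (v 1) := fun h => m2 (cc_symm h)
  have hc' := cc_symm hc
  constructor
  · intro i j
    fin_cases i <;> fin_cases j <;> simp [h0, h0.symm, n20, n20.symm, n21, n21.symm]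
  · intro i j k
    fin_cases i <;> fin_cases j <;> fin_cases k <;>
      simp [h0, h0.symm, n20, n20.symm, n21, n21.symm, hc, hc', m1, m1', m2, m2', cc_self,
        not_left, not_right]

theorem same3 {u v : Fin 3 → Word c} (h0 : u 0 ≠ u 1) (hc : Cc (u 2) (u 0) (u 1))
    (h0' : v 0 ≠ v 1) (hc' : Cc (v 2) (v 0) (v 1)) : Same u v := by
  obtain ⟨a1, a2⟩ := key u h0 hc
  obtain ⟨b1, b2⟩ := key v h0' hc'
  exact ⟨fun i j => (a1 i j).trans (b1 i j).symm, fun i j k => (a2 i j k).trans (b2 i j k).symm⟩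

end XTRB

open XTRB in
theorem TRB_pf (h1 : S_MHW) (h2 : S_FAW) (h3 : S_AMW) : S_TRB := by
  intro c σ 𝔅 hPair N hUni X _ S I Q q k hS hMV hT hsep Y hYI hYN π hπ E E' p p' z t₀ xx hTD
  obtain ⟨hpY, hp'Y, hpp⟩ := hTD.sub _ hTD.mem
  simp only at hpY hp'Y hpp
  have hzY := hTD.hz.1
  have hzp : π z ≠ π p := hTD.hz.2
  have hpz : p ≠ z := fun h => hzp (by rw [h])
  -- (a)
  obtain ⟨w, hwS, hwQ, hwpz⟩ := hPair X S I Q q k hS hMV hT p (hYI hpY) z (hYI hzY)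
    (hsep p (hYI hpY) z (hYI hzY) hpz)
  -- (b)
  set P : Set X := {x | x ∈ Y ∧ π x = π p} with hP
  have hpP : p ∈ P := ⟨hpY, rfl⟩
  have hp'P : p' ∈ P := ⟨hp'Y, hpp.symm⟩
  have hPY : P ⊆ Y := fun x hx => hx.1
  have hPN : P.ncard ≤ N := by
    have h4 : P ⊂ Y := by
      refine ⟨hPY, fun h => ?_⟩
      exact hzp (h hzY).2
    have h5 := Set.ncard_lt_ncard h4 (Set.toFinite Y)
    omega
  obtain ⟨v, hvT, hvt⟩ := hTD.pat
  have hocc : ∃ w, S w ∧ Spl P w t₀ :=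
    ⟨v, hvT.1, hvt.mono hPY ⟨p, hpP, p', hp'P, hTD.ne⟩⟩
  obtain ⟨ν, ⟨hνS, hνπ⟩, hνt⟩ := hUni X S P Y π (π p) hS (h1 c X S Y π (π p)) hπ
    (fun x hx y hy hxy => hsep x (hYI hx.1) y (hYI hy.1) hxy) P (subset_refl P) hPN t₀ hocc
  have hνpp : ν p ≠ ν p' := hνt.ne hpP hp'P hTD.ne
  have hνz : Cc (ν z) (ν p) (ν p') := hνπ.cc hpY hp'Y hzY hpp hzp
  have hνpz : ν p ≠ ν z := hνπ.ne hpY hzY (fun h => hzp h.symm)
  -- (c)
  have : Nonempty X := ⟨p⟩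
  obtain ⟨f, hf⟩ := h2 c X w
  obtain ⟨g, hg1, hg2⟩ := h3 c (Option Y) (Fin 3) (fun o => o.elim f (fun y => w y.1))
    ![ν p, ν p', ν z] ![some ⟨p, hpY⟩, some ⟨z, hzY⟩, none] (same3 hνpp hνz hwpz (hf p z))
  have g0 : g (some ⟨p, hpY⟩) = ν p := hg2 0
  have g1 : g (some ⟨z, hzY⟩) = ν p' := hg2 1
  have g2 : g none = ν z := hg2 2
  have gcc : ∀ y y' : Y, Cc (ν z) (g (some y)) (g (some y')) := by
    intro y y'
    have h4 := (hg1.2 (some y) (some y') none).1 (hf y.1 y'.1)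
    rw [g2] at h4
    exact h4
  -- (d)
  refine ⟨w, ν, hwS, hwQ, hνS, Y, inferInstance, ⟨⟨p, hpY⟩⟩, fun y => g (some y), fun y => y.1,
    fun y => hYI y.2, fun y => ⟨p, hYI hpY, z, hYI hzY, hνpz, ?_⟩, ?_, ?_⟩
  · have h4 := gcc y ⟨p, hpY⟩
    rw [g0] at h4
    exact (cc_not h4).2
  · exact ⟨fun y y' => (hg1.1 (some y) (some y')).symm,
      fun y y' y'' => (hg1.2 (some y) (some y') (some y'')).symm⟩
  · intro g' hg'
    have e1 : g' p = w p := (hg'.1 (Sum.inl p) (Sum.inr ⟨p, hpY⟩)).1 g0.symm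
    have e2 : g' p' = w z := (hg'.1 (Sum.inl p') (Sum.inr ⟨z, hzY⟩)).1 g1.symm
    refine ⟨e1, e2, fun e he => ?_, fun e he => ?_⟩
    · obtain ⟨h5, h6, _⟩ := hTD.sub e he
      exact (hg'.2 (Sum.inr ⟨e.1, h5⟩) (Sum.inr ⟨e.2, h6⟩) (Sum.inl z)).1 (gcc _ _)
    · obtain ⟨h5, h6, h7⟩ := hTD.sub e (hTD.sub' he)
      obtain ⟨h8, h9⟩ := hTD.hxx e he
      have hx : xx e ∈ P := by
        rcases h8 with h8 | h8
        · rw [h8]
          exact hpP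
        · rw [h8]
          exact hp'P
      refine (hg'.2 (Sum.inl e.1) (Sum.inl e.2) (Sum.inl (xx e))).1 ?_
      by_cases h10 : π e.1 = π p
      · exact hνt.cc ⟨h5, h10⟩ ⟨h6, h7.symm.trans h10⟩ hx (hTD.eq' e he) h9
      · exact hνπ.cc h5 h6 hx.1 h7 (fun h11 => h10 (h11.symm.trans hx.2))

end Pool.Agent.Work.MP_8dbde4_lc.Om
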