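import Pool.Agent.Work.MP_8dbde4_lc.Om.StmtsP
import Pool.Agent.Work.MP_8dbde4_lc.Phy.I_TRA

/-!
Renaming and forgetting symbols, and the assembly of the positive part.
-/

set_option autoImplicit false
open Classical

namespace Pool.Agent.Work.MP_8dbde4_lc.Om

open Pool.Agent.Work.MP_8dbde4_lc.TS
open Pool.Agent.Work.MP_8dbde4_lc.Tree (Word Agr Cc Lang)
open Pool.Agent.Work.MP_8dbde4_lc.Phy (PP Hom ssum both trA)
open Pool.Agent.Work.MP_8dbde4_lc.Phy.XTRA (eval_trA ffF eval_ffF)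

theorem TRW_pf : S_TRW := by
  intro c σ 𝔅 N
  constructor
  · rintro ⟨Φ, hΦ⟩
    have hin : ∀ R : (sR N).S,
        (Sum.inr R : (ssum σ (sR N)).S) ∈ insert (nes σ N) (Pgc σ N) := by
      rintro (k | u)
      · exact Or.inr ⟨k, rfl⟩
      · exact Or.inl rfl
    refine ⟨trA (fun R xs => FP.rel (σ := (ssum σ (sR N)).sub (insert (nes σ N) (Pgc σ N)))
      ⟨Sum.inr R, hin R⟩ xs) Φ, ?_⟩
    intro A _ _ 𝔄 v
    let 𝔄' : Str (sR N) A := ⟨fun R t => 𝔄.rel ⟨Sum.inr R, hin R⟩ t⟩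
    rw [eval_trA _ 𝔄' 𝔄 (fun R xs v β => Iff.rfl), hΦ A 𝔄' v]
    constructor
    · rintro ⟨h, hh⟩
      refine ⟨h, ?_⟩
      rintro ⟨R, hR⟩ t ht
      rcases R with R | R
      · exfalso
        rcases hR with hR | ⟨k, hR⟩
        · exact absurd hR (by simp [nes])
        · exact absurd hR (by simp)
      · exact hh R t ht
    · rintro ⟨h, hh⟩
      exact ⟨h, fun R t ht => hh ⟨Sum.inr R, hin R⟩ t ht⟩
  · rintro ⟨Φ, hΦ⟩
    let a : (R : (ssum σ (sR N)).S) → (Fin ((ssum σ (sR N)).ar R) → ℕ) → FP σ := fun R =>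
      match R with
      | .inl R => fun xs => .rel R xs
      | .inr _ => fun _ => ffF
    refine ⟨trA a Φ, ?_⟩
    intro A _ _ 𝔄 v
    let 𝔄' : Str (ssum σ (sR N)) A := ⟨fun R =>
      match R with
      | .inl R => fun t => 𝔄.rel R t
      | .inr _ => fun _ => False⟩
    have ha : ∀ R xs (v : ℕ → A) (β : ℕ → List A → Prop), (a R xs).eval 𝔄 v β ↔
        𝔄'.rel R (fun i => v (xs i)) := by
      rintro (R | R) xs v β
      · exact Iff.rfl
      · exact eval_ffF 𝔄 v β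
    rw [eval_trA a 𝔄' 𝔄 ha, hΦ A 𝔄' v]
    constructor
    · rintro ⟨h, hh⟩
      exact ⟨h, fun R t ht => hh (Sum.inl R) t ht⟩
    · rintro ⟨h, hh⟩
      refine ⟨h, ?_⟩
      rintro (R | R) t ht
      · exact hh R t ht
      · exact False.elim ht

theorem PPW_pf (hRES : Tree.S_RES) (hRF : S_RFW) (hFM : S_FMW) (hLX : S_LXW) (hHD : S_HDW) :
    S_PPW := by
  intro c σ 𝔅 hB
  obtain ⟨N, hN⟩ := hHD c σ 𝔅 hB
  have hPOS : InFP (CSP ((LR N).tree c)) := by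
    obtain ⟨φ, hφ⟩ := hFM N
    refine ⟨φ, ?_⟩
    intro A _ _ 𝔄 v
    rw [hφ A 𝔄 v]
    exact (hRF N A 𝔄).symm.trans (hRES _ _ (LR N) c A 𝔄).symm
  apply (TRW_pf c σ 𝔅 N).2
  refine inFP_closure (Bp 𝔅 N) (m := 1) (fun _ => Pgc σ N) ?_ glues_one (nes σ N) ?_ ?_ ?_
  · intro _
    obtain ⟨g, hg, hpres⟩ := hLX c
    refine ⟨g, hg, ?_⟩
    rintro R ⟨k, rfl⟩ t ht
    refine hpres (sR N) (LR N) ?_ (Sum.inl k) t ht
    rintro (R | R) p p' hpp hp
    · intro h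
      exact (hpp _ _).1 (hp (fun e he => (hpp _ _).2 (h e he)))
    · trivial
  · refine ⟨rfl, fun t => ?_⟩
    constructor
    · rintro ⟨-, h⟩ h2
      obtain ⟨i, j, hij⟩ := h trivial
      exact hij (h2 i j)
    · intro h
      refine ⟨fun _ _ => trivial, fun _ => ?_⟩
      push Not at h
      exact h
  · have h : (⋃ _ : Fin 1, Pgc σ N) = Pgc σ N := Set.iUnion_const _
    rw [h]
    exact hN
  · intro _
    exact (TRW_pf c σ 𝔅 N).1 hPOS

end Pool.Agent.Work.MP_8dbde4_lc.Om
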