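import Pool.Agent.Work.MP_8dbde4_lc.Om.Stmts

/-!
Item TRX of the block Om: existence of the data of case 0 (`S_TRE`), and no two members of `T` are
linked for these data (`S_TRX`).
-/

set_option autoImplicit false
open Classical

namespace Pool.Agent.Work.MP_8dbde4_lc.Om

open Pool.Agent.Work.MP_8dbde4_lc.TS
open Pool.Agent.Work.MP_8dbde4_lc.Tree (Word Agr Cc)
open Pool.Agent.Work.MP_8dbde4_lc.Phy (PP Hom)
open Pool.Agent.Work.MP_8dbde4_lc.Bra (Same InvU CC)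

namespace XTRX

/-- The property of the sets of pairs among which a minimal one is chosen. -/
def Good {c : ℚ → ℕ} {X : Type} (T : (X → Word c) → Prop) (Y : Set X) (π : X → ℕ)
    (E : Set (X × X)) : Prop :=
  (∀ e ∈ E, e.1 ∈ Y ∧ e.2 ∈ Y ∧ π e.1 = π e.2) ∧
    ∀ t, Pat T Y t → (∀ e ∈ E, t e.1 = t e.2) → ∀ x ∈ Y, ∀ y ∈ Y, t x = t y

/-- A pattern read off on one of the two copies. -/
theorem pat_of {c : ℚ → ℕ} {X : Type} {T : (X → Word c) → Prop} {Y : Set X}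
    {v : Bool × X → Word c} {h : Bool × X → ℕ} (H : Spl {b | b.2 ∈ Y} v h) (i : Bool)
    (hT : T (fun x => v (i, x))) : Pat T Y (fun x => h (i, x)) := by
  by_cases hc : ∀ x ∈ Y, ∀ y ∈ Y, h (i, x) = h (i, y)
  · exact Or.inl hc
  · push Not at hc
    obtain ⟨x, hx, y, hy, hxy⟩ := hc
    exact Or.inr ⟨_, hT, H.pull (fun x => (i, x)) (fun x hx => hx) ⟨x, hx, y, hy, hxy⟩⟩

end XTRX

open XTRX

theorem TRE_pf : S_TRE := by
  intro c X _ T Y π hw hπ hall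
  have hE0 : Good T Y π {e | e.1 ∈ Y ∧ e.2 ∈ Y ∧ π e.1 = π e.2} := by
    refine ⟨fun e he => he, fun t ht h1 => hall t ht ?_⟩
    intro x hx y hy hxy
    exact h1 (x, y) ⟨hx, hy, hxy⟩
  obtain ⟨E, hE, hmin⟩ := (wellFounded_lt : WellFounded
    ((· < ·) : Set (X × X) → Set (X × X) → Prop)).has_min {E | Good T Y π E} ⟨_, hE0⟩
  have hne : ∃ e, e ∈ E := by
    by_contra hn
    push Not at hn
    obtain ⟨w, h, hw, hs⟩ := hw
    obtain ⟨x, hx, y, hy, hxy⟩ := hs.1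
    exact hxy (hE.2 h (Or.inr ⟨w, hw, hs⟩) (fun e he => absurd he (hn e)) x hx y hy)
  obtain ⟨⟨p, p'⟩, hp⟩ := hne
  have hlt : E \ {(p, p')} < E := by
    refine Set.ssubset_iff_subset_ne.2 ⟨Set.sdiff_subset, ?_⟩
    intro h0
    have h1 : (p, p') ∈ E \ {(p, p')} := by rw [h0]; exact hp
    exact h1.2 rfl
  have hnot : ¬ Good T Y π (E \ {(p, p')}) := fun h0 => hmin _ h0 hlt
  have ht0 : ∃ t₀, Pat T Y t₀ ∧ (∀ e ∈ E \ {(p, p')}, t₀ e.1 = t₀ e.2) ∧
      ∃ x ∈ Y, ∃ y ∈ Y, t₀ x ≠ t₀ y := by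
    by_contra h0
    push Not at h0
    exact hnot ⟨fun e he => hE.1 e he.1, fun t ht h1 => h0 t ht h1⟩
  obtain ⟨t₀, hpat, heq, x₀, hx₀, y₀, hy₀, hxy₀⟩ := ht0
  have hnc : t₀ p ≠ t₀ p' := by
    intro h0
    refine hxy₀ (hE.2 t₀ hpat (fun e he => ?_) x₀ hx₀ y₀ hy₀)
    by_cases h1 : e = (p, p')
    · rw [h1]
      exact h0
    · exact heq e ⟨he, h1⟩
  have hz : ∃ z, z ∈ Y ∧ π z ≠ π p := by
    obtain ⟨x, hx, y, hy, hxy⟩ := hπ
    by_cases h0 : π x = π p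
    · exact ⟨y, hy, fun h1 => hxy (h0.trans h1.symm)⟩
    · exact ⟨x, hx, h0⟩
  obtain ⟨z, hz⟩ := hz
  refine ⟨E, E \ {(p, p')}, p, p', z, t₀, fun e => if t₀ p = t₀ e.1 then p' else p, ?_⟩
  refine ⟨hE.1, hp, fun e he => ?_, Set.sdiff_subset, hz, hE.2, ?_, heq, hnc, fun e _ => ?_⟩
  · by_cases h1 : e = (p, p')
    · exact Or.inl h1
    · exact Or.inr ⟨he, h1⟩
  · rcases hpat with h1 | h1
    · exact absurd (h1 x₀ hx₀ y₀ hy₀) hxy₀
    · exact h1
  · by_cases h1 : t₀ p = t₀ e.1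
    · simp only [h1, if_true]
      exact ⟨Or.inr trivial, fun h2 => hnc (h1.trans h2.symm)⟩
    · simp only [h1, if_false]
      exact ⟨Or.inl trivial, h1⟩

theorem TRX_pf (h : S_FSW) : S_TRX := by
  intro c X _ T Y π E E' p p' z t₀ xx hD u w hu hw hL
  obtain ⟨hL1, hL2, hL3, hL4⟩ := hL
  have hpY : p ∈ Y := (hD.sub _ hD.mem).1
  have hpY' : p' ∈ Y := (hD.sub _ hD.mem).2.1
  have hzY : z ∈ Y := hD.hz.1
  have hne : w z ≠ u p := (cc_ne (hL3 _ hD.mem)).1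
  let v : Bool × X → Word c := fun b => if b.1 then w b.2 else u b.2
  obtain ⟨h, hs⟩ := h c (Bool × X) {b | b.2 ∈ Y} v
    ⟨(true, z), hzY, (false, p), hpY, hne⟩
  have hf : ∀ x, v (false, x) = u x := fun x => rfl
  have ht : ∀ x, v (true, x) = w x := fun x => rfl
  have ha : Pat T Y (fun x => h (false, x)) := pat_of hs false hu
  have hb : Pat T Y (fun x => h (true, x)) := pat_of hs true hw
  have heqv : ∀ b b' : Bool × X, b.2 ∈ Y → b'.2 ∈ Y → v b = v b' → h b = h b' := by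
    intro b b' hb hb' h1
    by_contra h2
    exact hs.ne hb hb' h2 h1
  have hac : ∀ x ∈ Y, ∀ y ∈ Y, h (false, x) = h (false, y) := by
    refine hD.all _ ha (fun e he => ?_)
    obtain ⟨h1, h2, _⟩ := hD.sub e he
    exact hs.eq_of_cc (x := (false, e.1)) (y := (false, e.2)) (z := (true, z)) h1 h2 hzY
      (hL3 e he)
  have hbp : h (true, p) = h (false, p) := heqv _ _ hpY hpY (by rw [ht, hf, hL1])
  have hbp' : h (true, p') = h (false, z) := heqv _ _ hpY' hzY (by rw [ht, hf, hL2])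
  have hbb : h (true, p) = h (true, p') := by
    rw [hbp, hbp', hac p hpY z hzY]
  have hbc : ∀ x ∈ Y, ∀ y ∈ Y, h (true, x) = h (true, y) := by
    refine hD.all _ hb (fun e he => ?_)
    obtain ⟨h1, h2, _⟩ := hD.sub e he
    rcases hD.spl e he with h3 | h3
    · rw [h3]
      exact hbb
    · have h4 : xx e ∈ Y := by
        rcases (hD.hxx e h3).1 with h5 | h5
        · rw [h5]; exact hpY
        · rw [h5]; exact hpY'
      exact hs.eq_of_cc (x := (true, e.1)) (y := (true, e.2)) (z := (true, xx e)) h1 h2 h4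
        (hL4 e h3)
  obtain ⟨⟨i, x⟩, hx, ⟨j, y⟩, hy, hxy⟩ := hs.1
  apply hxy
  have key : ∀ (i : Bool) (x : X), x ∈ Y → h (i, x) = h (false, p) := by
    intro i x hx
    cases i
    · exact hac x hx p hpY
    · rw [hbc x hx p hpY, hbp]
  rw [key i x hx, key j y hy]

end Pool.Agent.Work.MP_8dbde4_lc.Om
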