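import Pool.Agent.Work.MP_8dbde4_lc.Bra.Example
import Pool.Agent.Work.MP_8dbde4_lc.Om.I_OPW
import Pool.Agent.Work.MP_8dbde4_lc.Om.I_AMW
import Pool.Agent.Work.MP_8dbde4_lc.Om.I_NEW
import Pool.Agent.Work.MP_8dbde4_lc.Om.I_FSW
import Pool.Agent.Work.MP_8dbde4_lc.Om.I_PQW
import Pool.Agent.Work.MP_8dbde4_lc.Om.I_BLW
import Pool.Agent.Work.MP_8dbde4_lc.Om.I_PRG
import Pool.Agent.Work.MP_8dbde4_lc.Om.I_PAW
import Pool.Agent.Work.MP_8dbde4_lc.Om.I_MHW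
import Pool.Agent.Work.MP_8dbde4_lc.Om.I_MAW
import Pool.Agent.Work.MP_8dbde4_lc.Om.I_TRX
import Pool.Agent.Work.MP_8dbde4_lc.Om.I_TRA
import Pool.Agent.Work.MP_8dbde4_lc.Om.I_TRB
import Pool.Agent.Work.MP_8dbde4_lc.Om.I_TR0
import Pool.Agent.Work.MP_8dbde4_lc.Om.I_TR1
import Pool.Agent.Work.MP_8dbde4_lc.Om.I_GNW
import Pool.Agent.Work.MP_8dbde4_lc.Om.I_HRW
import Pool.Agent.Work.MP_8dbde4_lc.Om.I_BNW
import Pool.Agent.Work.MP_8dbde4_lc.Om.I_HMW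
import Pool.Agent.Work.MP_8dbde4_lc.Om.I_FBW
import Pool.Agent.Work.MP_8dbde4_lc.Om.I_LIW
import Pool.Agent.Work.MP_8dbde4_lc.Om.I_SQA
import Pool.Agent.Work.MP_8dbde4_lc.Om.I_SQB
import Pool.Agent.Work.MP_8dbde4_lc.Om.I_SQW
import Pool.Agent.Work.MP_8dbde4_lc.Om.I_GDW
import Pool.Agent.Work.MP_8dbde4_lc.Om.I_PDW
import Pool.Agent.Work.MP_8dbde4_lc.Om.I_RFW
import Pool.Agent.Work.MP_8dbde4_lc.Om.I_LXW
import Pool.Agent.Work.MP_8dbde4_lc.Om.I_HDW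
import Pool.Agent.Work.MP_8dbde4_lc.Om.I_TRW
import Pool.Agent.Work.MP_8dbde4_lc.Om.I_FMW
import Pool.Agent.Work.MP_8dbde4_lc.Om.I_KFW

/-!
# Languages over the tree with infinitely many branches: the main theorem
-/

set_option autoImplicit false
open Classical

namespace Pool.Agent.Work.MP_8dbde4_lc.Om

open Pool.Agent.Work.MP_8dbde4_lc.TS
open Pool.Agent.Work.MP_8dbde4_lc.Tree (Word Agr Cc RFBH)
open Pool.Agent.Work.MP_8dbde4_lc.Phy (PP Hom)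
open Pool.Agent.Work.MP_8dbde4_lc.Bra (Same InvU CC c₂ pull BinOn)

variable {σ : Sig} {c : ℚ → ℕ}

theorem AMW_ok : S_AMW := AMW_pf OPW_pf
theorem IVW_ok : S_IVW := IVW_pf AMW_ok
theorem MHW_ok : S_MHW := MHW_pf FAW_pf AMW_ok
theorem MAW_ok : S_MAW := MAW_pf NEW_pf AMW_ok
theorem TRX_ok : S_TRX := TRX_pf FSW_pf
theorem TRA_ok : S_TRA := TRA_pf MHW_ok NEW_pf
theorem TRB_ok : S_TRB := TRB_pf MHW_ok FAW_pf AMW_ok
theorem TR0_ok : S_TR0 := TR0_pf PQW_pf FSW_pf TRE_pf TRX_ok TRA_ok TRB_ok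
theorem TR1_ok : S_TR1 := TR1_pf PQW_pf FSW_pf BLW_pf
theorem GNW_ok : S_GNW := GNW_pf FSW_pf GLW_pf PQW_pf MHW_ok MAW_ok
theorem HRW_ok : S_HRW := HRW_pf FSW_pf BLW_pf
theorem BDW_ok : S_BDW := BDW_pf LIW_pf
theorem SQW_ok : S_SQW := SQW_pf BDW_ok SQA_pf SQB_pf
theorem UAW_ok : S_UAW := UAW_pf LIW_pf SQW_ok
theorem PDW_ok : S_PDW := PDW_pf NEW_pf FAW_pf AMW_ok
theorem RFW_ok : S_RFW := RFW_pf CLW_pf
theorem PPW_ok : S_PPW := PPW_pf Tree.RES_ok RFW_ok FMW_pf LXW_pf HDW_pf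
theorem HMW_ok : S_HMW := HMW_pf OPW_pf CTW_pf
theorem AUW_ok : S_AUW := AUW_pf OPW_pf CTW_pf
theorem FBW_ok : S_FBW := FBW_pf JOW_pf

theorem IV_ok {𝔅 : Str σ (Word c)} (h : InvU 𝔅) : IV 𝔅 := IVW_ok c σ 𝔅 h

/-- The engine: definability in FPC implies closure properties. -/
theorem KP_ok {𝔅 : Str σ (Word c)} (hL : NLang 𝔅) (h : InFPC (CSP 𝔅)) : KP 𝔅 :=
  KXW_pf 𝔅 (KFW_pf Tree.GAME_pf Tree.PGRP_ok Tree.DEN_ok Tree.INJ_pf Tree.EXT_ok UAW_ok GDW_pf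
    PDW_ok c σ 𝔅 hL (IV_ok hL.inv) h)

theorem GG_ok {𝔅 : Str σ (Word c)} (hL : NLang 𝔅) (hK : KP 𝔅) : ∀ n, GG 𝔅 n := by
  have hP : Princ 𝔅 := PRG_pf c σ 𝔅 (IV_ok hL.inv) hK
  have hQ : PairsP 𝔅 := PAW_pf c σ 𝔅 hL.ppC hP
  have hU := UNW_pf c σ 𝔅 (TR0_ok c σ 𝔅 hL hP hQ) (TR1_ok c σ 𝔅 hL hK hP)
  intro n
  induction n using Nat.strong_induction_on with
  | _ n ih => exact GNW_ok c σ 𝔅 hL hU n ih

theorem hornR_of_inFPC {𝔅 : Str σ (Word c)} (hL : NLang 𝔅) (h : InFPC (CSP 𝔅)) :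
    ∀ R, HornR (𝔅.rel R) := fun R =>
  HRW_ok c σ 𝔅 (IV_ok hL.inv) (KP_ok hL h) (GG_ok hL (KP_ok hL h)) _ (𝔅.rel R)
    ((Phy.PPB_pf σ (Word c) 𝔅).1 R)

theorem inFP_of_hornR (𝔅 : Str σ (Word c)) (h : ∀ R, HornR (𝔅.rel R)) : InFP (CSP 𝔅) :=
  PPW_ok c σ 𝔅 h

theorem rfbh_w {𝔅 : Str σ (Word c)} (h : InvU 𝔅) : RFBH 𝔅 :=
  ⟨CTW_pf c, Phy.ssum σ (Phy.sg 3), Bc 𝔅, HMW_ok c σ 𝔅 h, FBW_ok c σ 𝔅 h,
    fun R => ⟨Sum.inl R, rfl, fun _ => Iff.rfl⟩⟩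

/-- The constraint satisfaction problem is that of the restriction to the binary subtree, if there are
binary members. -/
theorem csp_pull_of {K : Type} {c : ℚ → K} {𝔅 : Str σ (Word c)} (hI : InvU 𝔅)
    (hb : ∀ (X : Type) [Finite X] (S : (X → Word c) → Prop), PP 𝔅 S → (∃ w, S w) →
      ∃ w, S w ∧ BinOn Set.univ w) {ι : Word c₂ → Word c} (hi : Function.Injective ι)
    (hι : ∀ x y z, Cc x y z ↔ Cc (ι x) (ι y) (ι z)) (A : Type) [Finite A] (𝔄 : Str σ A) :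
    CSP 𝔅 A 𝔄 ↔ CSP (pull 𝔅 ι) A 𝔄 := by
  constructor
  · intro h1
    obtain ⟨w, hw, hb⟩ := hb A _ (Bra.pp_sol 𝔅 A 𝔄) h1
    obtain ⟨u, hu⟩ := Bra.EMB_pf K c A w hb
    refine ⟨u, fun R t ht => ?_⟩
    have h2 : Same w (fun x => ι (u x)) := hu.trans (Bra.same_iota hi hι u)
    exact hI R _ _ (h2.comp t) (hw R t ht)
  · rintro ⟨u, hu⟩
    exact ⟨fun a => ι (u a), fun R t ht => hu R t ht⟩

theorem plang_pull_of {K : Type} {c : ℚ → K} {𝔅 : Str σ (Word c)} (hL : Bra.BLang 𝔅)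
    (hb : ∀ (X : Type) [Finite X] (S : (X → Word c) → Prop), PP 𝔅 S → (∃ w, S w) →
      ∃ w, S w ∧ BinOn Set.univ w) {ι : Word c₂ → Word c} (hi : Function.Injective ι)
    (hι : ∀ x y z, Cc x y z ↔ Cc (ι x) (ι y) (ι z)) : Phy.PLang (pull 𝔅 ι) := by
  refine ⟨fun R v w hvw hv => ?_, ?_⟩
  · have h1 : Same v w := ⟨fun x y => hvw.1 x trivial y trivial,
      fun x y z => hvw.2 x trivial y trivial z trivial⟩
    have h2 : Same (fun j => ι (v j)) (fun j => ι (w j)) :=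
      (Bra.same_iota hi hι v).symm.trans (h1.trans (Bra.same_iota hi hι w))
    exact hL.inv R _ _ h2 hv
  · exact Bra.PC2_pf Phy.PPB_pf Phy.AMA_ok Bra.EMB_pf σ K c 𝔅 ι hi hι hL hb

/-- The classification, if threefold branching is not primitive positive definable. -/
theorem class_bin {𝔅 : Str σ (Word c)} (hL : Bra.BLang 𝔅) (hN : ¬ PP 𝔅 (N3 (c := c)))
    {ι : Word c₂ → Word c} (hi : Function.Injective ι)
    (hι : ∀ x y z, Cc x y z ↔ Cc (ι x) (ι y) (ι z)) (h : InFPC (CSP 𝔅)) :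
    (∀ R, Phy.HornC ((pull 𝔅 ι).rel R)) ∧
      ∀ (A : Type) [Finite A] (𝔄 : Str σ A), CSP 𝔅 A 𝔄 ↔ CSP (pull 𝔅 ι) A 𝔄 := by
  have hb : ∀ (X : Type) [Finite X] (S : (X → Word c) → Prop), PP 𝔅 S → (∃ w, S w) →
      ∃ w, S w ∧ BinOn Set.univ w :=
    fun X _ S hS hne => BNW_pf c σ 𝔅 (IV_ok hL.inv) hL.ppC hN X S hS hne
  have h1 : ∀ (A : Type) [Finite A] (𝔄 : Str σ A), CSP 𝔅 A 𝔄 ↔ CSP (pull 𝔅 ι) A 𝔄 :=
    fun A _ 𝔄 => csp_pull_of hL.inv hb hi hι A 𝔄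
  exact ⟨Phy.hornC_of_inFPC _ (plang_pull_of hL hb hi hι) (Bra.inFPC_congr h1 h), h1⟩

/-- The classification. -/
theorem class_w {𝔅 : Str σ (Word c)} (hL : Bra.BLang 𝔅) {ι : Word c₂ → Word c}
    (hi : Function.Injective ι) (hι : ∀ x y z, Cc x y z ↔ Cc (ι x) (ι y) (ι z)) :
    InFPC (CSP 𝔅) ↔ (∀ R, HornR (𝔅.rel R)) ∨ ((∀ R, Phy.HornC ((pull 𝔅 ι).rel R)) ∧
      ∀ (A : Type) [Finite A] (𝔄 : Str σ A), CSP 𝔅 A 𝔄 ↔ CSP (pull 𝔅 ι) A 𝔄) := by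
  constructor
  · intro h
    by_cases hN : PP 𝔅 (N3 (c := c))
    · exact Or.inl (hornR_of_inFPC ⟨hL.inv, hL.ppC, hN⟩ h)
    · exact Or.inr (class_bin hL hN hi hι h)
  · rintro (h | h)
    · exact Phy.F2C_pf σ _ (inFP_of_hornR 𝔅 h)
    · exact Phy.F2C_pf σ _ (Bra.inFP_of_class h)

theorem main_w {𝔅 : Str σ (Word c)} (hL : Bra.BLang 𝔅) (h : InFPC (CSP 𝔅)) : InFP (CSP 𝔅) := by
  obtain ⟨ι, hi, hι⟩ := Bra.IOT_pf ℕ c ⟨0, 1, by norm_num⟩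
  rcases (class_w hL hi hι).1 h with h | h
  · exact inFP_of_hornR 𝔅 h
  · exact Bra.inFP_of_class h

/-! ### All countable alphabets -/

section
variable {K : Type}

/-- Renaming of the letters. -/
def rl {K K' : Type} (e : K ≃ K') (c : ℚ → K) : Word c ≃ Word (fun q => e (c q)) where
  toFun x := ⟨fun q => e (x.1 q), x.2.subset (fun _ hq h => hq (congrArg e h))⟩
  invFun x := ⟨fun q => e.symm (x.1 q), x.2.subset (fun q hq h => hq (by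
    show e.symm (x.1 q) = c q
    rw [h, Equiv.symm_apply_apply]))⟩
  left_inv x := Subtype.ext (funext fun q => e.symm_apply_apply _)
  right_inv x := Subtype.ext (funext fun q => e.apply_symm_apply _)

theorem rl_cc {K K' : Type} (e : K ≃ K') (c : ℚ → K) (x y z : Word c) :
    Cc x y z ↔ Cc (rl e c x) (rl e c y) (rl e c z) := by
  have h : ∀ (x y : Word c) (q : ℚ), (rl e c x).1 q = (rl e c y).1 q ↔ x.1 q = y.1 q :=
    fun x y q => e.injective.eq_iff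
  have hA : ∀ (x y : Word c) (q : ℚ), Agr (rl e c x) (rl e c y) q ↔ Agr x y q :=
    fun x y q => forall_congr' fun q' => forall_congr' fun _ => h x y q'
  unfold Cc
  refine exists_congr fun q => ?_
  rw [hA, hA, h, ne_eq, ne_eq, h]

theorem same_equivK {K K' : Type} {c : ℚ → K} {c' : ℚ → K'} {e : Word c' ≃ Word c}
    (he : ∀ x y z, Cc x y z ↔ Cc (e x) (e y) (e z)) {X : Type} (u : X → Word c') :
    Same u (fun x => e (u x)) :=
  ⟨fun _ _ => e.injective.eq_iff.symm, fun _ _ _ => he _ _ _⟩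

theorem bLang_pullK {K K' : Type} {c : ℚ → K} {c' : ℚ → K'} {𝔅 : Str σ (Word c)}
    (hL : Bra.BLang 𝔅) {e : Word c' ≃ Word c} (he : ∀ x y z, Cc x y z ↔ Cc (e x) (e y) (e z)) :
    Bra.BLang (pull 𝔅 e) := by
  refine ⟨fun R v w hvw hv => ?_, ?_⟩
  · exact hL.inv R _ _ ((same_equivK he v).symm.trans (hvw.trans (same_equivK he w))) hv
  · have h := Bra.pp_pull_equiv e hL.ppC
    have h1 : (fun v : Fin 3 → Word c' => CC (c := c) (fun x => e (v x))) = CC (c := c') :=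
      funext fun v => propext (he _ _ _).symm
    rwa [h1] at h

theorem symm_cc {K K' : Type} {c : ℚ → K} {c' : ℚ → K'} {e : Word c ≃ Word c'}
    (he : ∀ x y z, Cc x y z ↔ Cc (e x) (e y) (e z)) (x y z : Word c') :
    Cc x y z ↔ Cc (e.symm x) (e.symm y) (e.symm z) := by
  rw [he (e.symm x), e.apply_symm_apply, e.apply_symm_apply, e.apply_symm_apply]

/-- Homogeneity of the split relation, for `K = ℕ`. -/
theorem homog_w {X : Type} [Finite X] {v w : X → Word c} (h : Same v w) :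
    ∃ g : Word c ≃ Word c, (∀ x y z, Cc x y z ↔ Cc (g x) (g y) (g z)) ∧ ∀ x, g (v x) = w x := by
  refine (AUW_ok c X (fun u => ∃ g : Word c ≃ Word c,
    (∀ x y z, Cc x y z ↔ Cc (g x) (g y) (g z)) ∧ ∀ x, g (v x) = u x)).2 ?_ v w h
    ⟨Equiv.refl _, fun _ _ _ => Iff.rfl, fun _ => rfl⟩
  rintro g hg u ⟨g', hg', hu⟩
  exact ⟨g'.trans g, fun x y z => (hg' x y z).trans (hg _ _ _), fun x => congrArg g (hu x)⟩

/-- Homogeneity of the split relation. -/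
theorem homog_K [Countable K] {c : ℚ → K} {X : Type} [Finite X] {v w : X → Word c}
    (h : Same v w) :
    ∃ g : Word c ≃ Word c, (∀ x y z, Cc x y z ↔ Cc (g x) (g y) (g z)) ∧ ∀ x, g (v x) = w x := by
  rcases finite_or_infinite K with hK | hK
  · exact Bra.homog_C h
  · obtain ⟨_⟩ := nonempty_denumerable K
    let e : K ≃ ℕ := Denumerable.eqv K
    have h1 : Same (fun x => rl e c (v x)) (fun x => rl e c (w x)) :=
      (same_equivK (rl_cc e c) v).symm.trans (h.trans (same_equivK (rl_cc e c) w))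
    obtain ⟨g, hg, hg'⟩ := homog_w h1
    refine ⟨((rl e c).trans g).trans (rl e c).symm, fun x y z => ?_, fun x => ?_⟩
    · rw [rl_cc e c, hg, symm_cc (rl_cc e c)]
      exact Iff.rfl
    · show (rl e c).symm (g (rl e c (v x))) = w x
      rw [hg', Equiv.symm_apply_apply]

theorem invU_of_autInvK [Countable K] {c : ℚ → K} {𝔅 : Str σ (Word c)}
    (h : ∀ R, Bra.AutInv (𝔅.rel R)) : InvU 𝔅 := by
  intro R v w hvw hv
  obtain ⟨g, hg, hg'⟩ := homog_K hvw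
  have h1 := h R g hg v hv
  have h2 : (fun x => g (v x)) = w := funext hg'
  rwa [h2] at h1

/-- Question Q1 for all languages over homogeneous trees. -/
theorem main_K [Countable K] {c : ℚ → K} {𝔅 : Str σ (Word c)} (hL : Bra.BLang 𝔅)
    (h : InFPC (CSP 𝔅)) : InFP (CSP 𝔅) := by
  rcases finite_or_infinite K with hK | hK
  · exact Bra.main hL h
  · obtain ⟨_⟩ := nonempty_denumerable K
    let e : K ≃ ℕ := Denumerable.eqv K
    let E : Word (fun q => e (c q)) ≃ Word c := (rl e c).symm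
    have h1 : ∀ (A : Type) [Finite A] (𝔄 : Str σ A), CSP (pull 𝔅 E) A 𝔄 ↔ CSP 𝔅 A 𝔄 :=
      fun A _ 𝔄 => Bra.csp_pull_equiv 𝔅 E A 𝔄
    exact Bra.inFP_congr h1 (main_w (bLang_pullK hL (symm_cc (rl_cc e c)))
      (Bra.inFPC_congr (fun A _ 𝔄 => (h1 A 𝔄).symm) h))

theorem rfbh_K [Countable K] {c : ℚ → K} {𝔅 : Str σ (Word c)} (hB : InvU 𝔅) : RFBH 𝔅 := by
  rcases finite_or_infinite K with hK | hK
  · have : Nonempty K := ⟨c 0⟩
    exact Bra.rfbh_main hB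
  · obtain ⟨_⟩ := nonempty_denumerable K
    let e : K ≃ ℕ := Denumerable.eqv K
    have hB' : InvU (pull 𝔅 (rl e c).symm) := fun R v w hvw hv =>
      hB R _ _ ((same_equivK (symm_cc (rl_cc e c)) v).symm.trans
        (hvw.trans (same_equivK (symm_cc (rl_cc e c)) w))) hv
    have h1 := Bra.rfbh_pull (rl e c) (rfbh_w hB')
    have h2 : pull (pull 𝔅 (rl e c).symm) (rl e c) = 𝔅 := by
      refine Loc.str_eq (fun R w => ?_)
      show 𝔅.rel R (fun j => (rl e c).symm (rl e c (w j))) ↔ 𝔅.rel R w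
      have : (fun j => (rl e c).symm (rl e c (w j))) = w :=
        funext fun j => Equiv.symm_apply_apply _ _
      rw [this]
    rwa [h2] at h1

end

end Pool.Agent.Work.MP_8dbde4_lc.Om
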