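import Pool.Agent.Work.MP_8dbde4_lc.Om.Main

/-!
# Example: with infinitely many branches the split relation and threefold branching are in FP
-/

set_option autoImplicit false
open Classical

namespace Pool.Agent.Work.MP_8dbde4_lc.Om

open Pool.Agent.Work.MP_8dbde4_lc.TS
open Pool.Agent.Work.MP_8dbde4_lc.Tree (Word Agr Cc)
open Pool.Agent.Work.MP_8dbde4_lc.Phy (PP Hom)
open Pool.Agent.Work.MP_8dbde4_lc.Bra (Same InvU CC CN)

variable {c : ℚ → ℕ}

/-- The three coordinates. -/
theorem ins3 (i j k : Fin 3) (h : i ≠ j ∧ j ≠ k ∧ i ≠ k) :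
    (insert i (insert j {k}) : Set (Fin 3)) = Set.univ := by
  ext x
  simp only [Set.mem_insert_iff, Set.mem_singleton_iff, Set.mem_univ, iff_true]
  revert i j k x
  decide

/-- A first split of a triple is not constant. -/
theorem spl_const {v : Fin 3 → Word c} {h : Fin 3 → ℕ} (H : Spl Set.univ v h)
    (h1 : h 0 = h 1) (h2 : h 1 = h 2) : False := by
  obtain ⟨⟨x, _, y, _, hxy⟩, _⟩ := H
  apply hxy
  have : ∀ x : Fin 3, h x = h 0 := by
    intro x
    fin_cases x
    · rfl
    · exact h1.symm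
    · exact (h1.trans h2).symm
  rw [this x, this y]

theorem hornR_CC : HornR (c := c) (n := 3) (fun v => Cc (v 0) (v 1) (v 2)) := by
  refine ⟨{⟨{(0, 1)}, none⟩, ⟨{(0, 2)}, none⟩, ⟨∅, some (1, 2, {0}, ∅)⟩}, fun v => ?_⟩
  constructor
  · rintro h C hC
    obtain ⟨h1, h2⟩ := cc_ne h
    rcases hC with rfl | rfl | rfl
    · intro h3
      exact h1 (h3 (0, 1) rfl)
    · intro h3
      exact h2 (h3 (0, 2) rfl)
    · intro _ g hg _
      rw [ins3 1 2 0 (by decide)] at hg
      exact hg.eq_of_cc trivial trivial trivial h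
  · intro h
    have h1 : v 0 ≠ v 1 := fun h3 => h _ (Or.inl rfl) (by
      rintro e rfl
      exact h3)
    have h3 : ∀ g, Spl Set.univ v g → g 1 = g 2 := by
      intro g hg
      have := h _ (Or.inr (Or.inr rfl)) (fun e he => absurd he (by simp)) g (by
        rw [ins3 1 2 0 (by decide)]
        exact hg) (fun e he => absurd he (by simp))
      exact this
    obtain ⟨g, hg⟩ := FSW_pf c (Fin 3) Set.univ v ⟨0, trivial, 1, trivial, h1⟩
    have h4 := h3 g hg
    exact hg.cc trivial trivial trivial h4 (fun h5 => spl_const hg h5 h4)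

theorem hornR_N3 : HornR (c := c) (n := 3) (fun v => Star (v 0) (v 1) (v 2)) := by
  refine ⟨{⟨{(0, 1)}, none⟩, ⟨{(1, 2)}, none⟩, ⟨{(0, 2)}, none⟩, ⟨∅, some (1, 2, {0}, {(0, 1)})⟩,
    ⟨∅, some (0, 1, {2}, {(0, 2)})⟩, ⟨∅, some (0, 1, {2}, {(1, 2)})⟩}, fun v => ?_⟩
  constructor
  · rintro ⟨h1, h2, h3, h4, h5, h6⟩ C hC
    rcases hC with rfl | rfl | rfl | rfl | rfl | rfl
    · intro h
      exact h1 (h (0, 1) rfl)
    · intro h
      exact h2 (h (1, 2) rfl)
    · intro h
      exact h3 (h (0, 2) rfl)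
    · intro _ g hg hE
      rw [ins3 1 2 0 (by decide)] at hg hE
      have h7 : g 0 = g 1 := hE (0, 1) rfl trivial trivial
      by_contra h8
      exact h4 (hg.cc trivial trivial trivial h7 (fun h9 => h8 (h7.symm.trans h9.symm)))
    · intro _ g hg hE
      rw [ins3 0 1 2 (by decide)] at hg hE
      have h7 : g 0 = g 2 := hE (0, 2) rfl trivial trivial
      by_contra h8
      exact h5 (hg.cc trivial trivial trivial h7 (fun h9 => h8 h9.symm))
    · intro _ g hg hE
      rw [ins3 0 1 2 (by decide)] at hg hE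
      have h7 : g 1 = g 2 := hE (1, 2) rfl trivial trivial
      by_contra h8
      exact h6 (hg.cc trivial trivial trivial h7 h8)
  · intro h
    have hne : ∀ i j : Fin 3, ({⟨{(i, j)}, none⟩} : Set (Cl 3)) ⊆
        {⟨{(0, 1)}, none⟩, ⟨{(1, 2)}, none⟩, ⟨{(0, 2)}, none⟩,
          ⟨∅, some (1, 2, {0}, {(0, 1)})⟩, ⟨∅, some (0, 1, {2}, {(0, 2)})⟩,
          ⟨∅, some (0, 1, {2}, {(1, 2)})⟩} → v i ≠ v j := fun i j hs h3 =>
      h _ (hs rfl) (by
        rintro e rfl
        exact h3)
    have h01 : v 0 ≠ v 1 := hne 0 1 (by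
      rintro _ rfl
      simp)
    obtain ⟨g, hg⟩ := FSW_pf c (Fin 3) Set.univ v ⟨0, trivial, 1, trivial, h01⟩
    have c1 : g 0 = g 1 → g 1 = g 2 := by
      intro h7
      refine h _ (Or.inr (Or.inr (Or.inr (Or.inl rfl)))) (fun e he => absurd he (by simp)) g (by
        rw [ins3 1 2 0 (by decide)]
        exact hg) ?_
      rintro e rfl _ _
      exact h7
    have c2 : g 0 = g 2 → g 0 = g 1 := by
      intro h7
      refine h _ (Or.inr (Or.inr (Or.inr (Or.inr (Or.inl rfl)))))
        (fun e he => absurd he (by simp)) g (by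
        rw [ins3 0 1 2 (by decide)]
        exact hg) ?_
      rintro e rfl _ _
      exact h7
    have c3 : g 1 = g 2 → g 0 = g 1 := by
      intro h7
      refine h _ (Or.inr (Or.inr (Or.inr (Or.inr (Or.inr rfl)))))
        (fun e he => absurd he (by simp)) g (by
        rw [ins3 0 1 2 (by decide)]
        exact hg) ?_
      rintro e rfl _ _
      exact h7
    exact hg.star trivial trivial trivial (fun h7 => spl_const hg h7 (c1 h7))
      (fun h7 => spl_const hg (c3 h7) h7) (fun h7 => spl_const hg (c2 h7) (c1 (c2 h7)))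

/-- With infinitely many branches the split relation together with threefold branching is in FP. -/
theorem inFP_CN (c : ℚ → ℕ) : InFP (CSP (CN c)) := by
  refine inFP_of_hornR _ ?_
  rintro (_ | _)
  · exact hornR_N3
  · exact hornR_CC

end Pool.Agent.Work.MP_8dbde4_lc.Om
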