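import Pool.Agent.Work.MP_8dbde4_lc.Bra.Defs

/-!
# Languages over the tree with infinitely many branches: definitions

The domain is `Word c` for a word `c : ℚ → ℕ`: the tree in which every branch point has infinitely
many branches. Partitions are given by functions with values in `ℕ` (only their kernels matter).
-/

set_option autoImplicit false
open Classical

namespace Pool.Agent.Work.MP_8dbde4_lc.Om

open Pool.Agent.Work.MP_8dbde4_lc.TS
open Pool.Agent.Work.MP_8dbde4_lc.Tree (Word Agr Cc)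
open Pool.Agent.Work.MP_8dbde4_lc.Phy (PP Hom)
open Pool.Agent.Work.MP_8dbde4_lc.Bra (Same InvU CC)

variable {c : ℚ → ℕ} {σ : Sig}

/-- On `Y` the tuples `v` and `w` have the same equalities and the same splits. -/
def SameOn {X : Type} (Y : Set X) (v w : X → Word c) : Prop :=
  (∀ x ∈ Y, ∀ y ∈ Y, v x = v y ↔ w x = w y) ∧
    ∀ x ∈ Y, ∀ y ∈ Y, ∀ z ∈ Y, Cc (v z) (v x) (v y) ↔ Cc (w z) (w x) (w y)

/-- The first split of `v` on `Y` is the partition given by `h` (at least two classes). -/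
def Spl {X : Type} (Y : Set X) (v : X → Word c) (h : X → ℕ) : Prop :=
  (∃ x ∈ Y, ∃ y ∈ Y, h x ≠ h y) ∧ ∃ q : ℚ, (∀ x ∈ Y, ∀ y ∈ Y, Agr (v x) (v y) q) ∧
    ∀ x ∈ Y, ∀ y ∈ Y, ((v x).1 q = (v y).1 q ↔ h x = h y)

/-- Three different words which split at the same place. -/
def Star (x y z : Word c) : Prop :=
  x ≠ y ∧ y ≠ z ∧ x ≠ z ∧ ¬ Cc z x y ∧ ¬ Cc y x z ∧ ¬ Cc x y z

/-- Threefold branching as a set of triples. -/
def N3 (v : Fin 3 → Word c) : Prop := Star (v 0) (v 1) (v 2)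

/-- Invariant languages in which the split relation and threefold branching are primitive positive
definable. -/
structure NLang (𝔅 : Str σ (Word c)) : Prop where
  inv : InvU 𝔅
  ppC : PP 𝔅 (CC (c := c))
  ppN : PP 𝔅 (N3 (c := c))

/-- The common refinement of two partitions. -/
def mt {X : Type} (h h' : X → ℕ) : X → ℕ := fun x => Nat.pair (h x) (h' x)

/-- The first splits of the tuples of a primitive positive definable set are closed under common
refinement. -/
def KP (𝔅 : Str σ (Word c)) : Prop :=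
  ∀ (X : Type) [Finite X] (S : (X → Word c) → Prop), PP 𝔅 S → ∀ (Y : Set X) (h h' : X → ℕ),
    (∃ v, S v ∧ Spl Y v h) → (∃ v, S v ∧ Spl Y v h') → ∃ v, S v ∧ Spl Y v (mt h h')

/-- The first split of `v` on every subset of `Y` with at least two elements is a first split of some
member of `S` (so `v` is injective on `Y`). -/
def Loc {X : Type} (S : (X → Word c) → Prop) (Y : Set X) (v : X → Word c) : Prop :=
  ∀ Y' ⊆ Y, (∃ x ∈ Y', ∃ y ∈ Y', x ≠ y) → ∃ w, S w ∧ ∃ h, Spl Y' v h ∧ Spl Y' w h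

/-- Tuples on sets of `n` coordinates whose first splits all occur in `S` occur in `S`. -/
def GG (𝔅 : Str σ (Word c)) (n : ℕ) : Prop :=
  ∀ (X : Type) [Finite X] (S : (X → Word c) → Prop), PP 𝔅 S → (∃ w, S w) →
    ∀ (Y : Set X) (v : X → Word c), Y.ncard = n → Loc S Y v → ∃ w, S w ∧ SameOn Y v w

/-- Constant patterns and first splits of the members of `S` on `Y`. -/
def Pat {X : Type} (S : (X → Word c) → Prop) (Y : Set X) (h : X → ℕ) : Prop :=
  (∀ x ∈ Y, ∀ y ∈ Y, h x = h y) ∨ ∃ v, S v ∧ Spl Y v h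

/-- The moving property. `w₀ ∈ S` has the first split `q` on `Q`. Let `w₁ ∈ S`, and let `e z` be
auxiliary words, none of which splits off before `w₁` splits on `I`, with the same splits as the
words `w₀ (a z)`, `a z ∈ I`. Then `w₁` can be moved, together with the auxiliary words, such that `e z`
becomes `w₀ (a z)`, and such that on the two copies of `Q` together the partition given by `q` on the
copy of `w₀`, and by the constant `k` on the moved copy of `w₁`, is the first split. -/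
def MV {X : Type} (S : (X → Word c) → Prop) (I Q : Set X) (q : X → ℕ) (k : ℕ) : Prop :=
  ∀ w₀ w₁ : X → Word c, S w₀ → Spl Q w₀ q → S w₁ →
    ∀ (Z : Type) [Finite Z] [Nonempty Z] (e : Z → Word c) (a : Z → X), (∀ z, a z ∈ I) →
    (∀ z, ∃ i ∈ I, ∃ j ∈ I, w₁ i ≠ w₁ j ∧ ¬ Cc (e z) (w₁ i) (w₁ j)) →
    Same e (fun z => w₀ (a z)) →
    ∃ g : X → Word c, Same (Sum.elim w₁ e) (Sum.elim g (fun z => w₀ (a z))) ∧
      Spl {z : Bool × X | z.2 ∈ Q} (fun z => if z.1 then g z.2 else w₀ z.2)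
        (fun z => if z.1 then k else q z.2)

/-- A configuration for the relation `L`: a member `w` of `S` with first split `q` on `Q` and a moved
member of `S`. -/
def Conf {X : Type} (S : (X → Word c) → Prop) (I Q : Set X) (q : X → ℕ)
    (L : (X → Word c) → (X → Word c) → Prop) : Prop :=
  ∃ w w' : X → Word c, S w ∧ Spl Q w q ∧ S w' ∧
    ∃ (Z : Type) (_ : Finite Z) (_ : Nonempty Z) (e : Z → Word c) (a : Z → X),
      (∀ z, a z ∈ I) ∧ (∀ z, ∃ i ∈ I, ∃ j ∈ I, w' i ≠ w' j ∧ ¬ Cc (e z) (w' i) (w' j)) ∧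
      Same e (fun z => w (a z)) ∧
      ∀ g : X → Word c, Same (Sum.elim w' e) (Sum.elim g (fun z => w (a z))) → L w g

/-- For sets `Y'` with at most `N` elements the first splits of the members of `S` occur together with
the first split `q` on `Q`. -/
def Uni (𝔅 : Str σ (Word c)) (N : ℕ) : Prop :=
  ∀ (X : Type) [Finite X] (S : (X → Word c) → Prop) (I Q : Set X) (q : X → ℕ) (k : ℕ), PP 𝔅 S →
    MV S I Q q k → (∃ w, S w ∧ Spl Q w q) →
    (∀ x ∈ I, ∀ y ∈ I, x ≠ y → ∃ w, S w ∧ w x ≠ w y) →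
    ∀ Y' ⊆ I, Y'.ncard ≤ N → ∀ h, (∃ w, S w ∧ Spl Y' w h) →
      ∃ w, (S w ∧ Spl Q w q) ∧ Spl Y' w h

/-- A Horn clause over first splits: if the equalities in the premise hold, then: false, or: if the
first split on `Y` (together with `i`, `j`) does not separate the pairs in `E` then it does not
separate `i` and `j`. -/
structure Cl (n : ℕ) where
  prem : Set (Fin n × Fin n)
  concl : Option (Fin n × Fin n × Set (Fin n) × Set (Fin n × Fin n))

/-- Truth of a conclusion. -/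
def CHolds {n : ℕ} (v : Fin n → Word c) :
    Option (Fin n × Fin n × Set (Fin n) × Set (Fin n × Fin n)) → Prop
  | none => False
  | some (i, j, Y, E) => ∀ h : Fin n → ℕ, Spl (insert i (insert j Y)) v h →
      (∀ e ∈ E, e.1 ∈ insert i (insert j Y) → e.2 ∈ insert i (insert j Y) → h e.1 = h e.2) →
      h i = h j

/-- Truth of a clause. -/
def Cl.Holds {n : ℕ} (C : Cl n) (v : Fin n → Word c) : Prop :=
  (∀ e ∈ C.prem, v e.1 = v e.2) → CHolds v C.concl

/-- The relation is defined by a conjunction of Horn clauses over first splits. -/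
def HornR {n : ℕ} (R : (Fin n → Word c) → Prop) : Prop :=
  ∃ cs : Set (Cl n), ∀ v, R v ↔ ∀ C ∈ cs, C.Holds v

/-! ### Easy facts -/

theorem Spl.mono {X : Type} {Y Y' : Set X} {v : X → Word c} {h : X → ℕ} (H : Spl Y v h)
    (hY : Y' ⊆ Y) (hn : ∃ x ∈ Y', ∃ y ∈ Y', h x ≠ h y) : Spl Y' v h := by
  obtain ⟨_, q, h1, h2⟩ := H
  exact ⟨hn, q, fun x hx y hy => h1 x (hY hx) y (hY hy), fun x hx y hy => h2 x (hY hx) y (hY hy)⟩

theorem Spl.congr {X : Type} {Y : Set X} {v : X → Word c} {h h' : X → ℕ} (H : Spl Y v h)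
    (he : ∀ x ∈ Y, ∀ y ∈ Y, h x = h y ↔ h' x = h' y) : Spl Y v h' := by
  obtain ⟨⟨x, hx, y, hy, hxy⟩, q, h1, h2⟩ := H
  exact ⟨⟨x, hx, y, hy, fun h3 => hxy ((he x hx y hy).2 h3)⟩, q, h1,
    fun x hx y hy => (h2 x hx y hy).trans (he x hx y hy)⟩

/-- The first split is unique. -/
theorem Spl.unique {X : Type} {Y : Set X} {v : X → Word c} {h h' : X → ℕ} (H : Spl Y v h)
    (H' : Spl Y v h') : ∀ x ∈ Y, ∀ y ∈ Y, h x = h y ↔ h' x = h' y := by
  obtain ⟨⟨a, ha, b, hb, hab⟩, q, h1, h2⟩ := H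
  obtain ⟨⟨a', ha', b', hb', hab'⟩, q', h3, h4⟩ := H'
  have hq : q = q' := by
    rcases lt_trichotomy q q' with h5 | h5 | h5
    · exact absurd ((h2 a ha b hb).1 (h3 a ha b hb q h5)) hab
    · exact h5
    · exact absurd ((h4 a' ha' b' hb').1 (h1 a' ha' b' hb' q' h5)) hab'
  subst hq
  exact fun x hx y hy => (h2 x hx y hy).symm.trans (h4 x hx y hy)

/-- The classes of the first split are clusters. -/
theorem Spl.cc {X : Type} {Y : Set X} {v : X → Word c} {h : X → ℕ} (H : Spl Y v h) {x y z : X}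
    (hx : x ∈ Y) (hy : y ∈ Y) (hz : z ∈ Y) (hxy : h x = h y) (hzx : h z ≠ h x) :
    Cc (v z) (v x) (v y) := by
  obtain ⟨_, q, h1, h2⟩ := H
  exact ⟨q, h1 z hz x hx, h1 z hz y hy, (h2 x hx y hy).2 hxy, fun h3 => hzx ((h2 z hz x hx).1 h3)⟩

/-- Close elements are not separated by the first split. -/
theorem Spl.eq_of_cc {X : Type} {Y : Set X} {v : X → Word c} {h : X → ℕ} (H : Spl Y v h)
    {x y z : X} (hx : x ∈ Y) (hy : y ∈ Y) (hz : z ∈ Y) (hc : Cc (v z) (v x) (v y)) :
    h x = h y := by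
  obtain ⟨_, q, h1, h2⟩ := H
  obtain ⟨q', h3, h4, h5, h6⟩ := hc
  rw [← h2 x hx y hy]
  rcases lt_trichotomy q q' with h7 | h7 | h7
  · rw [← h3 q h7, ← h4 q h7]
  · rw [h7]
    exact h5
  · exact absurd (h1 z hz x hx q' h7) h6

theorem Spl.ne {X : Type} {Y : Set X} {v : X → Word c} {h : X → ℕ} (H : Spl Y v h) {x y : X}
    (hx : x ∈ Y) (hy : y ∈ Y) (hxy : h x ≠ h y) : v x ≠ v y := by
  obtain ⟨_, q, _, h2⟩ := H
  exact fun h3 => hxy ((h2 x hx y hy).1 (by rw [h3]))

theorem cc_ne {x y z : Word c} (h : Cc z x y) : z ≠ x ∧ z ≠ y := by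
  obtain ⟨q, _, _, h1, h2⟩ := h
  exact ⟨fun h3 => h2 (by rw [h3]), fun h3 => h2 (by rw [h3, h1])⟩

/-- Points in three different classes of the first split form a star. -/
theorem Spl.star {X : Type} {Y : Set X} {v : X → Word c} {h : X → ℕ} (H : Spl Y v h) {x y z : X}
    (hx : x ∈ Y) (hy : y ∈ Y) (hz : z ∈ Y) (hxy : h x ≠ h y) (hyz : h y ≠ h z)
    (hxz : h x ≠ h z) : Star (v x) (v y) (v z) :=
  ⟨H.ne hx hy hxy, H.ne hy hz hyz, H.ne hx hz hxz, fun h1 => hxy (H.eq_of_cc hx hy hz h1),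
    fun h1 => hxz (H.eq_of_cc hx hz hy h1), fun h1 => hyz (H.eq_of_cc hy hz hx h1)⟩

/-- The first split of a composition. -/
theorem Spl.pull {X X' : Type} {Y : Set X} {Y' : Set X'} {v : X → Word c} {h : X → ℕ}
    (H : Spl Y v h) (f : X' → X) (hf : ∀ x ∈ Y', f x ∈ Y)
    (hn : ∃ x ∈ Y', ∃ y ∈ Y', h (f x) ≠ h (f y)) :
    Spl Y' (fun x => v (f x)) (fun x => h (f x)) := by
  obtain ⟨_, q, h1, h2⟩ := H
  exact ⟨hn, q, fun x hx y hy => h1 _ (hf x hx) _ (hf y hy),
    fun x hx y hy => h2 _ (hf x hx) _ (hf y hy)⟩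

/-- Different words have a first place where they differ. -/
theorem first_diff {x y : Word c} (h : x ≠ y) : ∃ q, Agr x y q ∧ x.1 q ≠ y.1 q := by
  have hf : {q | x.1 q ≠ y.1 q}.Finite := by
    refine (x.2.union y.2).subset ?_
    intro q hq
    by_cases h1 : x.1 q = c q
    · right
      intro h2
      exact hq (h1.trans h2.symm)
    · left
      exact h1
  have hn : {q | x.1 q ≠ y.1 q}.Nonempty := by
    by_contra h1
    apply h
    apply Subtype.ext
    funext q
    by_contra h2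
    exact h1 ⟨q, h2⟩
  obtain ⟨q, hq, hmin⟩ := Set.exists_min_image _ id hf hn
  refine ⟨q, ?_, hq⟩
  intro q' hq'
  by_contra h2
  exact absurd (hmin q' h2) (not_le.2 hq')

/-- The place of a split is the first place where the first two words differ. -/
theorem cc_place {x y z : Word c} {q : ℚ} (h : Cc z x y) (ha : Agr z x q) (hn : z.1 q ≠ x.1 q) :
    Agr z y q ∧ x.1 q = y.1 q := by
  obtain ⟨r, h1, h2, h3, h4⟩ := h
  rcases lt_trichotomy r q with h5 | h5 | h5
  · exact absurd (ha r h5) h4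
  · subst h5
    exact ⟨h2, h3⟩
  · exact absurd (h1 q h5) hn

/-- The place of a star is the first place where the first two words differ. -/
theorem Star.place {x y z : Word c} {q : ℚ} (h : Star x y z) (ha : Agr x y q)
    (hn : x.1 q ≠ y.1 q) : Agr x z q ∧ x.1 q ≠ z.1 q ∧ y.1 q ≠ z.1 q := by
  obtain ⟨h1, h2, h3, h4, h5, h6⟩ := h
  obtain ⟨r, hr1, hr2⟩ := first_diff h3
  rcases lt_trichotomy r q with h7 | h7 | h7
  · exfalso
    refine h4 ⟨r, fun s hs => (hr1 s hs).symm, fun s hs => ?_, ha r h7, fun h8 => hr2 h8.symm⟩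
    rw [← hr1 s hs, ha s (hs.trans h7)]
  · subst h7
    refine ⟨hr1, hr2, fun h8 => h6 ⟨r, ha, hr1, h8, hn⟩⟩
  · exfalso
    refine h5 ⟨q, fun s hs => (ha s hs).symm, fun s hs => ?_, hr1 q h7, fun h8 => hn h8.symm⟩
    rw [← ha s hs, hr1 s (hs.trans h7)]

/-- Three words whose letters at a place are different and which agree before it. -/
theorem Star.mk {x y z : Word c} {q : ℚ} (h1 : Agr x y q) (h2 : Agr x z q) (h3 : x.1 q ≠ y.1 q)
    (h4 : y.1 q ≠ z.1 q) (h5 : x.1 q ≠ z.1 q) : Star x y z := by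
  have h2' : Agr y z q := fun s hs => by rw [← h1 s hs, h2 s hs]
  refine ⟨fun h => h3 (by rw [h]), fun h => h4 (by rw [h]), fun h => h5 (by rw [h]), ?_, ?_, ?_⟩
  · intro h
    exact h3 (cc_place h (fun s hs => (h2 s hs).symm) (fun h => h5 h.symm)).2
  · intro h
    exact h5 (cc_place h (fun s hs => (h1 s hs).symm) (fun h => h3 h.symm)).2
  · intro h
    exact h4 (cc_place h h1 h3).2

/-- First splits are determined by splits and stars. -/
theorem Spl.iff {X : Type} {Y : Set X} {v : X → Word c} {h : X → ℕ} : Spl Y v h ↔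
    (∃ x ∈ Y, ∃ y ∈ Y, h x ≠ h y) ∧
    (∀ x ∈ Y, ∀ y ∈ Y, ∀ z ∈ Y, h x = h y → h z ≠ h x → Cc (v z) (v x) (v y)) ∧
    ∀ x ∈ Y, ∀ y ∈ Y, ∀ z ∈ Y, h x ≠ h y → h y ≠ h z → h x ≠ h z →
      Star (v x) (v y) (v z) := by
  constructor
  · intro H
    exact ⟨H.1, fun x hx y hy z hz h1 h2 => H.cc hx hy hz h1 h2,
      fun x hx y hy z hz h1 h2 h3 => H.star hx hy hz h1 h2 h3⟩
  · rintro ⟨⟨x₀, hx, y₀, hy, hxy⟩, hC, hS⟩
    refine ⟨⟨x₀, hx, y₀, hy, hxy⟩, ?_⟩
    obtain ⟨q, h1, _, _, h2⟩ := hC x₀ hx x₀ hx y₀ hy rfl (fun h => hxy h.symm)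
    have h1' : Agr (v x₀) (v y₀) q := fun s hs => (h1 s hs).symm
    have key : ∀ z ∈ Y, Agr (v x₀) (v z) q ∧ ((v x₀).1 q = (v z).1 q ↔ h x₀ = h z) := by
      intro z hz
      by_cases h3 : h x₀ = h z
      · obtain ⟨h4, h5⟩ := cc_place (hC x₀ hx z hz y₀ hy h3 (fun h => hxy h.symm)) h1 h2
        exact ⟨fun s hs => by rw [← h4 s hs, h1 s hs], fun _ => h3, fun _ => h5⟩
      · by_cases h4 : h y₀ = h z
        · obtain ⟨h5, h6⟩ := cc_place (hC y₀ hy z hz x₀ hx h4 hxy) h1' (fun h => h2 h.symm)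
          refine ⟨h5, fun h7 => absurd (h6.trans h7.symm) h2, fun h7 => absurd h7 h3⟩
        · obtain ⟨h5, h6, _⟩ := (hS x₀ hx y₀ hy z hz hxy h4 h3).place h1' (fun h => h2 h.symm)
          exact ⟨h5, fun h7 => absurd h7 h6, fun h7 => absurd h7 h3⟩
    refine ⟨q, fun x hx' y hy' s hs => ?_, fun x hx' y hy' => ?_⟩
    · rw [← (key x hx').1 s hs, ← (key y hy').1 s hs]
    · have hag : ∀ x ∈ Y, ∀ y ∈ Y, Agr (v x) (v y) q := fun x hx' y hy' s hs => by
        rw [← (key x hx').1 s hs, ← (key y hy').1 s hs]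
      by_cases h3 : h x₀ = h x
      · have h4 := (key x hx').2.2 h3
        rw [← h4, (key y hy').2, h3]
      · by_cases h4 : h x₀ = h y
        · have h5 := (key y hy').2.2 h4
          rw [← h5, ← h4]
          constructor
          · intro h6
            exact ((key x hx').2.1 h6.symm).symm
          · intro h6
            exact absurd h6.symm h3
        · have h5 : (v x₀).1 q ≠ (v x).1 q := fun h6 => h3 ((key x hx').2.1 h6)
          by_cases h6 : h x = h y
          · refine ⟨fun _ => h6, fun _ => ?_⟩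
            exact (cc_place (hC x hx' y hy' x₀ hx h6 h3) (hag _ hx _ hx') h5).2
          · refine ⟨fun h7 => ?_, fun h7 => absurd h7 h6⟩
            exact absurd h7 ((hS x₀ hx x hx' y hy' h3 h6 h4).place (hag _ hx _ hx') h5).2.2

theorem SameOn.star {X : Type} {Y : Set X} {v w : X → Word c} (H : SameOn Y v w) {x y z : X}
    (hx : x ∈ Y) (hy : y ∈ Y) (hz : z ∈ Y) : Star (v x) (v y) (v z) ↔
      Star (w x) (w y) (w z) := by
  unfold Star
  rw [← H.2 x hx y hy z hz, ← H.2 x hx z hz y hy, ← H.2 y hy z hz x hx, Ne, Ne, Ne,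
    H.1 x hx y hy, H.1 y hy z hz, H.1 x hx z hz]

/-- Tuples with the same splits have the same first split. -/
theorem Spl.transfer {X : Type} {Y : Set X} {v w : X → Word c} {h : X → ℕ} (H : Spl Y v h)
    (hs : SameOn Y v w) : Spl Y w h := by
  rw [Spl.iff] at H ⊢
  refine ⟨H.1, fun x hx y hy z hz h1 h2 => (hs.2 x hx y hy z hz).1 (H.2.1 x hx y hy z hz h1 h2),
    fun x hx y hy z hz h1 h2 h3 => (hs.star hx hy hz).1 (H.2.2 x hx y hy z hz h1 h2 h3)⟩

/-- A star can be moved: `x'` is in the direction of `x`. -/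
theorem Star.move {x x' y z : Word c} (H : Star x y z) (hc : Cc y x x') : Star x' y z := by
  obtain ⟨q, h1, h2, h3, h4⟩ := hc
  obtain ⟨h5, h6, h7⟩ := H.place (fun s hs => (h1 s hs).symm) (fun h => h4 h.symm)
  exact Star.mk (fun s hs => (h2 s hs).symm) (fun s hs => by rw [← h2 s hs, h1 s hs, h5 s hs])
    (fun h => h4 (h.symm.trans h3.symm)) h7 (fun h => h6 (h3.trans h))

/-- At most one of three words splits off first. -/
theorem cc_not {x y z : Word c} (h : Cc z x y) : ¬ Cc y x z ∧ ¬ Cc x y z := by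
  obtain ⟨q, h1, h2, h3, h4⟩ := h
  constructor
  · rintro ⟨r, h5, h6, h7, h8⟩
    rcases lt_trichotomy r q with h9 | h9 | h9
    · exact h8 (by rw [← h2 r h9, h1 r h9])
    · subst h9
      exact h8 h3.symm
    · exact h4 (by rw [← h6 q h9, ← h3])
  · rintro ⟨r, h5, h6, h7, h8⟩
    rcases lt_trichotomy r q with h9 | h9 | h9
    · exact h8 (by rw [← h1 r h9, h2 r h9])
    · subst h9
      exact h8 h3
    · exact h4 (by rw [← h6 q h9])

/-- Three words which do not split like this are equal or a star. -/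
theorem cc_cases (x y z : Word c) : x = y ∨ y = z ∨ x = z ∨ Cc z x y ∨ Cc y x z ∨ Cc x y z ∨
    Star x y z := by
  unfold Star
  tauto

theorem SameOn.symm {X : Type} {Y : Set X} {v w : X → Word c} (H : SameOn Y v w) :
    SameOn Y w v :=
  ⟨fun x hx y hy => (H.1 x hx y hy).symm, fun x hx y hy z hz => (H.2 x hx y hy z hz).symm⟩

theorem SameOn.trans {X : Type} {Y : Set X} {u v w : X → Word c} (H : SameOn Y u v)
    (H' : SameOn Y v w) : SameOn Y u w :=
  ⟨fun x hx y hy => (H.1 x hx y hy).trans (H'.1 x hx y hy),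
    fun x hx y hy z hz => (H.2 x hx y hy z hz).trans (H'.2 x hx y hy z hz)⟩

theorem SameOn.mono {X : Type} {Y Y' : Set X} {v w : X → Word c} (H : SameOn Y v w)
    (hY : Y' ⊆ Y) : SameOn Y' v w :=
  ⟨fun x hx y hy => H.1 x (hY hx) y (hY hy),
    fun x hx y hy z hz => H.2 x (hY hx) y (hY hy) z (hY hz)⟩

theorem SameOn.of_same {X : Type} {v w : X → Word c} (H : Same v w) (Y : Set X) :
    SameOn Y v w :=
  ⟨fun x _ y _ => H.1 x y, fun x _ y _ z _ => H.2 x y z⟩

theorem SameOn.same {X : Type} {v w : X → Word c} (H : SameOn Set.univ v w) : Same v w :=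
  ⟨fun x y => H.1 x trivial y trivial, fun x y z => H.2 x trivial y trivial z trivial⟩

theorem Loc.mono {X : Type} {S : (X → Word c) → Prop} {Y Y' : Set X} {v : X → Word c}
    (H : Loc S Y v) (hY : Y' ⊆ Y) : Loc S Y' v := fun Y'' h => H Y'' (h.trans hY)

theorem Loc.weak {X : Type} {S S' : (X → Word c) → Prop} {Y : Set X} {v : X → Word c}
    (H : Loc S Y v) (hS : ∀ w, S w → S' w) : Loc S' Y v := by
  intro Y' h1 h2
  obtain ⟨w, hw, h⟩ := H Y' h1 h2
  exact ⟨w, hS w hw, h⟩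

theorem Loc.ne {X : Type} {S : (X → Word c) → Prop} {Y : Set X} {v : X → Word c}
    (H : Loc S Y v) {x y : X} (hx : x ∈ Y) (hy : y ∈ Y) (hxy : x ≠ y) :
    v x ≠ v y ∧ ∃ w, S w ∧ w x ≠ w y := by
  have key : ∀ (u : X → Word c) (h : X → ℕ), Spl {x, y} u h → u x ≠ u y := by
    intro u h hs
    refine hs.ne (by simp) (by simp) ?_
    obtain ⟨⟨a, ha, b, hb, hab⟩, _⟩ := hs
    intro h3
    apply hab
    have : ∀ c ∈ ({x, y} : Set X), h c = h x := by
      rintro c (rfl | rfl)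
      · rfl
      · exact h3.symm
    rw [this a ha, this b hb]
  obtain ⟨w, hw, h, h1, h2⟩ := H {x, y} (by
    rintro c (rfl | rfl)
    · exact hx
    · exact hy) ⟨x, by simp, y, by simp, hxy⟩
  exact ⟨key v h h1, w, hw, key w h h2⟩

theorem Pat.congr {X : Type} {S : (X → Word c) → Prop} {Y : Set X} {h h' : X → ℕ}
    (H : Pat S Y h) (he : ∀ x ∈ Y, ∀ y ∈ Y, h x = h y ↔ h' x = h' y) : Pat S Y h' := by
  rcases H with H | ⟨v, hv, H⟩
  · exact Or.inl (fun x hx y hy => (he x hx y hy).1 (H x hx y hy))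
  · exact Or.inr ⟨v, hv, H.congr he⟩

theorem mt_eq {X : Type} {h h' : X → ℕ} {x y : X} :
    mt h h' x = mt h h' y ↔ h x = h y ∧ h' x = h' y := by
  unfold mt
  rw [Nat.pair_eq_pair]

end Pool.Agent.Work.MP_8dbde4_lc.Om
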