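import Pool.Agent.Work.MP_8dbde4_lc.Om.StmtsP

/-!
# Item HDW: Horn clauses over first splits are Horn clauses over `LR N`
-/

set_option autoImplicit false
open Classical

namespace Pool.Agent.Work.MP_8dbde4_lc.Om

open Pool.Agent.Work.MP_8dbde4_lc.TS
open Pool.Agent.Work.MP_8dbde4_lc.Tree (Word Agr Cc Lang IsStep)
open Pool.Agent.Work.MP_8dbde4_lc.Phy (PP Hom ssum both)

namespace XHDW

variable {c : ℚ → ℕ} {σ : Sig}

/-- The tuple of variables `l` for `l ∈ B`, and `i` otherwise. -/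
noncomputable def ff {n : ℕ} (i : Fin n) (B : Set (Fin n)) : Fin n → Fin n :=
  fun l => if l ∈ B then l else i

theorem ff_of {n : ℕ} (i : Fin n) (B : Set (Fin n)) {l : Fin n} (h : l ∈ B) : ff i B l = l :=
  if_pos h

theorem ff_mem {n : ℕ} {i : Fin n} {B : Set (Fin n)} (hi : i ∈ B) (a : Fin n) : ff i B a ∈ B := by
  unfold ff
  split_ifs with h
  · exact h
  · exact hi

/-- The pairs of `E` inside `B`. -/
def res {n : ℕ} (B : Set (Fin n)) (E : Set (Fin n × Fin n)) : Set (Fin n × Fin n) :=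
  {e | e ∈ E ∧ e.1 ∈ B ∧ e.2 ∈ B}

/-- The symbol. -/
def sy {n N : ℕ} (hn : n < N + 1) (i j : Fin n) (B : Set (Fin n)) (E : Set (Fin n × Fin n)) :
    SyR N := ⟨⟨n, hn⟩, res B E, i, j⟩

theorem key {n N : ℕ} (hn : n < N + 1) (v : Fin n → Word c) (i j : Fin n)
    (Y : Set (Fin n)) (E : Set (Fin n × Fin n)) :
    CHolds v (some (i, j, Y, E)) ↔
      ((LR N).tree c).rel (Sum.inl (sy hn i j (insert i (insert j Y)) E))
        (fun a : Fin n => v (ff i (insert i (insert j Y)) a)) := by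
  have hiB : i ∈ insert i (insert j Y) := Set.mem_insert _ _
  have hjB : j ∈ insert i (insert j Y) := Set.mem_insert_of_mem _ (Set.mem_insert _ _)
  show (∀ h : Fin n → ℕ, Spl (insert i (insert j Y)) v h →
    (∀ e ∈ E, e.1 ∈ insert i (insert j Y) → e.2 ∈ insert i (insert j Y) → h e.1 = h e.2) →
      h i = h j) ↔ _
  generalize insert i (insert j Y) = B at hiB hjB
  constructor
  · intro H
    refine ⟨?_, fun h => h.elim⟩
    rintro q ⟨hq1, a, b, hab⟩ hE
    have hE' : ∀ e ∈ res B E, (v (ff i B e.1)).1 q = (v (ff i B e.2)).1 q := hE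
    show (v (ff i B i)).1 q = (v (ff i B j)).1 q
    rw [ff_of i B hiB, ff_of i B hjB]
    refine H (fun x => (v x).1 q) ⟨⟨ff i B a, ff_mem hiB a, ff i B b, ff_mem hiB b, hab⟩, q, ?_,
      fun _ _ _ _ => Iff.rfl⟩ ?_
    · intro x hx y hy q' hq'
      have h1 : (v (ff i B x)).1 q' = (v (ff i B y)).1 q' := hq1 q' hq' x y
      rwa [ff_of i B hx, ff_of i B hy] at h1
    · intro e he h1 h2
      have h3 := hE' e ⟨he, h1, h2⟩
      rwa [ff_of i B h1, ff_of i B h2] at h3
  · rintro ⟨H, _⟩ h ⟨⟨x, hx, y, hy, hxy⟩, q, hq1, hq2⟩ hE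
    have h3 : (v (ff i B i)).1 q = (v (ff i B j)).1 q := by
      refine H q ⟨?_, x, y, ?_⟩ ?_
      · intro q' hq' a b
        exact hq1 _ (ff_mem hiB a) _ (ff_mem hiB b) q' hq'
      · show (v (ff i B x)).1 q ≠ (v (ff i B y)).1 q
        rw [ff_of i B hx, ff_of i B hy]
        exact fun h4 => hxy ((hq2 x hx y hy).1 h4)
      · rintro e ⟨he, h1, h2⟩
        show (v (ff i B e.1)).1 q = (v (ff i B e.2)).1 q
        rw [ff_of i B h1, ff_of i B h2, hq2 _ h1 _ h2]
        exact hE e he h1 h2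
    rw [ff_of i B hiB, ff_of i B hjB] at h3
    exact (hq2 i hiB j hjB).1 h3

/-- Translation of the conclusions. -/
noncomputable def conc (σ : Sig) {N n : ℕ} (hn : n < N + 1) :
    Option (Fin n × Fin n × Set (Fin n) × Set (Fin n × Fin n)) → Concl (ssum σ (sR N)) (Pgc σ N) n
  | none => .bot
  | some (i, j, Y, E) => .rel (Sum.inr (Sum.inl (sy hn i j (insert i (insert j Y)) E)))
      ⟨sy hn i j (insert i (insert j Y)) E, rfl⟩ (ff i (insert i (insert j Y)))

/-- Translation of the clauses. -/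
noncomputable def conv (σ : Sig) {N n : ℕ} (hn : n < N + 1) (C : Cl n) :
    Clause (ssum σ (sR N)) (Pgc σ N) n where
  prem := (Set.toFinite C.prem).toFinset.toList
  concl := conc σ hn C.concl

theorem conv_holds {N n : ℕ} (hn : n < N + 1) (𝔅 : Str σ (Word c)) (C : Cl n)
    (v : Fin n → Word c) : (conv σ hn C).Holds (Bp 𝔅 N) v ↔ C.Holds v := by
  obtain ⟨prem, concl⟩ := C
  unfold Clause.Holds Cl.Holds conv
  have e1 : (∀ p ∈ (Set.toFinite prem).toFinset.toList, v p.1 = v p.2) ↔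
      ∀ e ∈ prem, v e.1 = v e.2 := by
    constructor
    · intro h e he
      exact h e (by rw [Finset.mem_toList, Set.Finite.mem_toFinset]; exact he)
    · intro h e he
      rw [Finset.mem_toList, Set.Finite.mem_toFinset] at he
      exact h e he
  have e2 : (conc σ hn concl).Holds (Bp 𝔅 N) v ↔ CHolds v concl := by
    rcases concl with _ | ⟨i, j, Y, E⟩
    · exact Iff.rfl
    · exact (key hn v i j Y E).symm
  exact imp_congr e1 e2

instance finCl (n : ℕ) : Finite (Cl n) := by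
  refine Finite.of_injective
    (fun C : Cl n => ((C.prem, C.concl) :
      Set (Fin n × Fin n) × Option (Fin n × Fin n × Set (Fin n) × Set (Fin n × Fin n)))) ?_
  rintro ⟨p, q⟩ ⟨p', q'⟩ h
  obtain ⟨h1, h2⟩ := Prod.mk.inj h
  cases h1
  cases h2
  rfl

theorem exists_list {N n : ℕ} (hn : n < N + 1) (𝔅 : Str σ (Word c))
    (R : (Fin n → Word c) → Prop) (hR : HornR R) :
    ∃ cs : List (Clause (ssum σ (sR N)) (Pgc σ N) n), ∀ t : Fin n → Word c,
      R t ↔ ∀ C ∈ cs, C.Holds (Bp 𝔅 N) t := by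
  obtain ⟨cs, hcs⟩ := hR
  refine ⟨((Set.toFinite cs).toFinset.toList).map (conv σ hn), ?_⟩
  intro t
  rw [hcs]
  constructor
  · intro h C' hC'
    rw [List.mem_map] at hC'
    obtain ⟨C, hC, rfl⟩ := hC'
    rw [Finset.mem_toList, Set.Finite.mem_toFinset] at hC
    exact (conv_holds hn 𝔅 C t).2 (h C hC)
  · intro h C hC
    refine (conv_holds hn 𝔅 C t).1 (h _ ?_)
    rw [List.mem_map]
    exact ⟨C, by rw [Finset.mem_toList, Set.Finite.mem_toFinset]; exact hC, rfl⟩

end XHDW

/-- Horn clauses over first splits are Horn clauses over `LR N`. -/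
theorem HDW_pf : S_HDW := by
  intro c σ 𝔅 hB
  have hN : ∀ R : σ.S, σ.ar R < ∑ R : σ.S, σ.ar R + 1 := by
    intro R
    have := Finset.single_le_sum (f := fun R : σ.S => σ.ar R) (fun _ _ => Nat.zero_le _)
      (Finset.mem_univ R)
    exact Nat.lt_succ_of_le this
  refine ⟨∑ R : σ.S, σ.ar R, ?_⟩
  generalize ∑ R : σ.S, σ.ar R = N at hN
  rintro (R | s | u)
  · exact XHDW.exists_list (hN R) 𝔅 (𝔅.rel R) (hB R)
  · refine ⟨[⟨[], .rel (Sum.inr (Sum.inl s)) ⟨s, rfl⟩ id⟩], ?_⟩
    intro t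
    constructor
    · intro h C' hC'
      rw [List.mem_singleton] at hC'
      subst hC'
      intro _
      exact h
    · intro h
      exact h _ (List.mem_singleton.2 rfl) (fun p hp => absurd hp List.not_mem_nil)
  · refine ⟨[⟨[((0 : Fin 2), (1 : Fin 2))], .bot⟩], ?_⟩
    intro t
    constructor
    · intro h C' hC'
      rw [List.mem_singleton] at hC'
      subst hC'
      intro h3
      have h4 : t (0 : Fin 2) = t (1 : Fin 2) := h3 _ (List.mem_singleton.2 rfl)
      obtain ⟨i, j, hij⟩ := h.2 trivial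
      apply hij
      have h5 : ∀ i : Fin 2, t i = t (0 : Fin 2) := by
        intro i
        fin_cases i
        · rfl
        · exact h4.symm
      exact (h5 i).trans (h5 j).symm
    · intro h
      refine ⟨fun _ _ => trivial, fun _ => ⟨(0 : Fin 2), (1 : Fin 2), ?_⟩⟩
      intro h4
      refine h _ (List.mem_singleton.2 rfl) ?_
      intro p hp
      rw [List.mem_singleton] at hp
      subst hp
      exact h4

end Pool.Agent.Work.MP_8dbde4_lc.Om
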