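import Pool.Agent.Work.MP_8dbde4_lc.Om.Stmts

/-!
Item MHW of the block Om of MP_8dbde4_lc: the moving property, first version.
-/

set_option autoImplicit false
open Classical

namespace Pool.Agent.Work.MP_8dbde4_lc.Om

open Pool.Agent.Work.MP_8dbde4_lc.TS
open Pool.Agent.Work.MP_8dbde4_lc.Tree (Word Agr Cc)
open Pool.Agent.Work.MP_8dbde4_lc.Phy (PP Hom)
open Pool.Agent.Work.MP_8dbde4_lc.Bra (Same InvU CC)

namespace XMHW

variable {c : ℚ → ℕ}

theorem cc_sym {x y z : Word c} (h : Cc z x y) : Cc z y x := by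
  obtain ⟨q, h1, h2, h3, h4⟩ := h
  exact ⟨q, h2, h1, h3.symm, fun h5 => h4 (h5.trans h3.symm)⟩

theorem cc_self {x y z : Word c} (h : Cc z x y) : Cc x z z := by
  obtain ⟨q, h1, h2, h3, h4⟩ := h
  exact ⟨q, fun s hs => (h1 s hs).symm, fun s hs => (h1 s hs).symm, rfl, fun h5 => h4 h5.symm⟩

theorem cc_irr (z y : Word c) : ¬ Cc z z y := by
  rintro ⟨q, -, -, -, h⟩
  exact h rfl

/-- Adding a far word on both sides. -/
theorem same_opt {Z : Type} {v w : Z → Word c} {x y : Word c} (H : Same v w)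
    (hx : ∀ z z', Cc x (v z) (v z')) (hy : ∀ z z', Cc y (w z) (w z')) :
    Same (fun o : Option Z => o.elim x v) (fun o : Option Z => o.elim y w) := by
  refine ⟨?_, ?_⟩
  · rintro (_ | s) (_ | t)
    · exact ⟨fun _ => rfl, fun _ => rfl⟩
    · exact ⟨fun h => absurd h (cc_ne (hx t t)).1, fun h => absurd h (cc_ne (hy t t)).1⟩
    · exact ⟨fun h => absurd h.symm (cc_ne (hx s s)).1, fun h => absurd h.symm (cc_ne (hy s s)).1⟩
    · exact H.1 s t
  · rintro (_ | s) (_ | t) (_ | u)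
    · exact ⟨fun h => absurd h (cc_irr _ _), fun h => absurd h (cc_irr _ _)⟩
    · exact ⟨fun _ => cc_self (hy u u), fun _ => cc_self (hx u u)⟩
    · exact ⟨fun h => absurd h (cc_irr _ _), fun h => absurd h (cc_irr _ _)⟩
    · exact ⟨fun h => absurd (cc_sym h) (cc_not (hx t u)).1,
        fun h => absurd (cc_sym h) (cc_not (hy t u)).1⟩
    · exact ⟨fun h => absurd (cc_sym h) (cc_irr _ _), fun h => absurd (cc_sym h) (cc_irr _ _)⟩
    · exact ⟨fun h => absurd h (cc_not (hx s u)).1, fun h => absurd h (cc_not (hy s u)).1⟩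
    · exact ⟨fun _ => hy s t, fun _ => hx s t⟩
    · exact H.2 s t u

end XMHW

open XMHW

theorem MHW_pf (h1 : S_FAW) (h2 : S_AMW) : S_MHW := by
  intro c X _ S Y p k w₀ w₁ _ hspl _ Z _ _ e a ha _ hsame
  obtain ⟨z₀⟩ : Nonempty Z := inferInstance
  obtain ⟨j₀, hj₀, hpj₀⟩ : ∃ j ∈ Y, p j ≠ k := by
    obtain ⟨⟨x, hx, y, hy, hxy⟩, -⟩ := hspl
    by_cases h : p x = k
    · exact ⟨y, hy, fun h3 => hxy (h.trans h3.symm)⟩
    · exact ⟨x, hx, h⟩
  obtain ⟨f, hf⟩ := @h1 c (X ⊕ Z) inferInstance ⟨Sum.inr z₀⟩ (Sum.elim w₁ e)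
  have hS : Same (fun o : Option Z => o.elim (w₀ j₀) (fun z => w₀ (a z)))
      (fun o : Option Z => (fun o' : Option (X ⊕ Z) => o'.elim f (Sum.elim w₁ e))
        (Option.map Sum.inr o)) := by
    have h3 : Same (fun o : Option Z => o.elim (w₀ j₀) (fun z => w₀ (a z)))
        (fun o : Option Z => o.elim f e) := by
      refine same_opt hsame.symm ?_ ?_
      · intro z z'
        exact hspl.cc (ha z).1 (ha z').1 hj₀ ((ha z).2.trans (ha z').2.symm)
          (fun h4 => hpj₀ (h4.trans (ha z).2))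
      · intro z z'
        exact hf (Sum.inr z) (Sum.inr z')
    have h4 : (fun o : Option Z => (fun o' : Option (X ⊕ Z) => o'.elim f (Sum.elim w₁ e))
        (Option.map Sum.inr o)) = (fun o : Option Z => o.elim f e) := by
      funext o
      rcases o with _ | z
      · rfl
      · rfl
    rw [h4]
    exact h3
  obtain ⟨g, hg1, hg2⟩ := h2 c (Option (X ⊕ Z)) (Option Z)
    (fun o' : Option (X ⊕ Z) => o'.elim f (Sum.elim w₁ e))
    (fun o : Option Z => o.elim (w₀ j₀) (fun z => w₀ (a z))) (Option.map Sum.inr) hS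
  have hgn : g none = w₀ j₀ := hg2 none
  have hga : ∀ z, g (some (Sum.inr z)) = w₀ (a z) := fun z => hg2 (some z)
  refine ⟨fun x => g (some (Sum.inl x)), ?_, ?_⟩
  · have h3 := hg1.comp (fun s : X ⊕ Z => some s)
    have h4 : (fun s : X ⊕ Z => g (some s)) =
        Sum.elim (fun x => g (some (Sum.inl x))) (fun z => w₀ (a z)) := by
      funext s
      rcases s with x | z
      · rfl
      · exact hga z
    rw [← h4]
    exact h3
  · have hcc : ∀ y, Cc (w₀ j₀) (w₀ (a z₀)) (g (some (Sum.inl y))) := by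
      intro y
      rw [← hgn, ← hga z₀]
      exact (hg1.2 (some (Sum.inr z₀)) (some (Sum.inl y)) none).1
        (hf (Sum.inr z₀) (Sum.inl y))
    obtain ⟨⟨x, hx, y, hy, hxy⟩, q₀, hq1, hq2⟩ := hspl
    have hne : (w₀ j₀).1 q₀ ≠ (w₀ (a z₀)).1 q₀ := fun h3 =>
      hpj₀ (((hq2 j₀ hj₀ (a z₀) (ha z₀).1).1 h3).trans (ha z₀).2)
    have key : ∀ y, Agr (w₀ j₀) (g (some (Sum.inl y))) q₀ ∧
        (w₀ (a z₀)).1 q₀ = (g (some (Sum.inl y))).1 q₀ := fun y =>
      cc_place (hcc y) (hq1 j₀ hj₀ (a z₀) (ha z₀).1) hne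
    have hall : ∀ t : Bool × X, t.2 ∈ Y → ∃ r ∈ Y,
        Agr (w₀ j₀) (if t.1 then g (some (Sum.inl t.2)) else w₀ t.2) q₀ ∧
        (if t.1 then g (some (Sum.inl t.2)) else w₀ t.2).1 q₀ = (w₀ r).1 q₀ ∧
        (if t.1 then k else p t.2) = p r := by
      rintro ⟨t1, t2⟩ ht
      cases t1
      · refine ⟨t2, ht, ?_⟩
        simp only [Bool.false_eq_true, if_false]
        exact ⟨hq1 j₀ hj₀ t2 ht, trivial, trivial⟩
      · refine ⟨a z₀, (ha z₀).1, ?_⟩
        simp only [if_true]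
        exact ⟨(key t2).1, (key t2).2.symm, (ha z₀).2.symm⟩
    refine ⟨⟨(false, x), hx, (false, y), hy, ?_⟩, q₀, ?_, ?_⟩
    · simpa using hxy
    · intro s hs t ht
      obtain ⟨_, _, h3, _⟩ := hall s hs
      obtain ⟨_, _, h4, _⟩ := hall t ht
      exact fun q hq => (h3 q hq).symm.trans (h4 q hq)
    · intro s hs t ht
      obtain ⟨r, hr, _, h3, h4⟩ := hall s hs
      obtain ⟨r', hr', _, h5, h6⟩ := hall t ht
      show (if s.1 then g (some (Sum.inl s.2)) else w₀ s.2).1 q₀ =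
        (if t.1 then g (some (Sum.inl t.2)) else w₀ t.2).1 q₀ ↔
        (if s.1 then k else p s.2) = (if t.1 then k else p t.2)
      rw [h3, h4, h5, h6]
      exact hq2 r hr r' hr'

end Pool.Agent.Work.MP_8dbde4_lc.Om
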