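import Pool.Agent.Work.MP_8dbde4_lc.Om.Defs

/-!
Statements of the block Om of MP_8dbde4_lc, first part. Every docstring contains the proof.

Theorem OM: let `c : ℚ → ℕ` (the tree in which every branch point has infinitely many branches), and
let `𝔅` be a structure on `Word c` whose relations depend only on the splits and in which the split
relation is primitive positive definable. Then: CSP(𝔅) in FPC, CSP(𝔅) in FP, and an explicit
condition are equivalent. The main case is that threefold branching `N3` is primitive positive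
definable, too (`NLang`); then the condition is: all the relations are `HornR`.

`Spl Y v h`: the first split of `v` on `Y` is the partition into the classes of `h : X → ℕ`; only the
kernel of `h` matters. Useful facts in `Om/Defs.lean`: `Spl.iff`, `Spl.cc`, `Spl.eq_of_cc`, `Spl.star`,
`Spl.mono`, `Spl.congr`, `Spl.unique`, `Spl.transfer`, `Spl.pull`, `cc_place`, `cc_not`, `cc_cases`,
`Star.place`, `Star.mk`, `Star.move`, `first_diff`.
-/

set_option autoImplicit false
open Classical

namespace Pool.Agent.Work.MP_8dbde4_lc.Om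

open Pool.Agent.Work.MP_8dbde4_lc.TS
open Pool.Agent.Work.MP_8dbde4_lc.Tree (Word Agr Cc)
open Pool.Agent.Work.MP_8dbde4_lc.Phy (PP Hom)
open Pool.Agent.Work.MP_8dbde4_lc.Bra (Same InvU CC)

/-! ### Part W: words and splits -/

/-- First splits exist. The set of the places where two of the words `v x`, `x ∈ Y`, differ is finite
and not empty; take its least element `q` and `h x = (v x).1 q`. -/
def S_FSW : Prop := ∀ (c : ℚ → ℕ) (X : Type) [Finite X] (Y : Set X) (v : X → Word c),
  (∃ x ∈ Y, ∃ y ∈ Y, v x ≠ v y) → ∃ h, Spl Y v h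

/-- Gluing: the splits on `Y` are determined by the first split and the splits on its classes.
If `h x ≠ h y` then `v x ≠ v y` and `w x ≠ w y` (`Spl.ne`). For `Cc (v z) (v x) (v y)`: if all three are in
one class use the hypothesis; if `h x = h y ≠ h z` it is true for both (`Spl.cc`); if `h x ≠ h y` it is
false for both (`Spl.eq_of_cc`). -/
def S_GLW : Prop := ∀ (c : ℚ → ℕ) (X : Type) (Y : Set X) (v w : X → Word c) (h : X → ℕ),
  Spl Y v h → Spl Y w h → (∀ k, SameOn {x | x ∈ Y ∧ h x = k} v w) → SameOn Y v w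

/-- Joining tuples below a new split. Let `q` be a place below all the places where one of the
words `u (h x) x` differs from `c` (finitely many places: `X` is finite); `v x` is `u (h x) x` with the
letter `h x` at the place `q` (`Function.update`). Inside a class the splits are those of `u k` (the
places of the splits are above `q`). -/
def S_JOW : Prop := ∀ (c : ℚ → ℕ) (X : Type) [Finite X] (u : ℕ → X → Word c) (h : X → ℕ),
  ∃ v : X → Word c, (∀ k, SameOn {x | h x = k} (u k) v) ∧
    ∀ Y : Set X, (∃ x ∈ Y, ∃ y ∈ Y, h x ≠ h y) → Spl Y v h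

/-- A far word. Let `q` be a place below all the places where some `u x` differs from `c`; `e` is one
of the words `u x` with the letter `c q + 1` at the place `q`. -/
def S_FAW : Prop := ∀ (c : ℚ → ℕ) (X : Type) [Finite X] [Nonempty X] (u : X → Word c),
  ∃ e : Word c, ∀ x y, Cc e (u x) (u y)

/-- Words near a given word. `r` is a place, `F` a finite set of words. There are a place `r' > r`, such that
no word in `F` differs from another one or from `c` at a place in the open interval `(r, r')` or at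
`r'`, and `e`, which is `w` with a new letter at `r'`: `e` agrees with `w` below `r'`, and at `r'` it has a
letter which no member of `F` has (`F` is finite, the letters are natural numbers). -/
def S_NEW : Prop := ∀ (c : ℚ → ℕ) (F : Set (Word c)), F.Finite → ∀ (w : Word c) (r : ℚ),
  ∃ (e : Word c) (r' : ℚ), r < r' ∧ Agr e w r' ∧ (∀ u ∈ F, e.1 r' ≠ u.1 r') ∧
    ∀ u ∈ F, ∀ u' ∈ F, ∀ s, r < s → s ≤ r' → u.1 s = u'.1 s

/-- One-point extension. If `x = w s` take `y = f s`; if `X` is empty take `y = x`. Otherwise let `q` be the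
largest of the places `δ(x, w s)` (`δ`: the first place where two different words differ), `S'` the set
of the `s` with `δ(x, w s) = q`: the words `w s`, `s ∈ S'`, agree with `x` below `q` and have letters
different from `x q` at `q`. Case 1: they have the same letter at `q`. Let `s₀ ∈ S'`, `lo` the largest
`δ(f s, f s₀)` for `s ∉ S'` (if any), `hi` the smallest `δ(f s, f s')` for `s, s' ∈ S'`, `f s ≠ f s'` (if any).
`lo < hi`: for `s ∉ S'` and `s₁, s₂ ∈ S'` we have `Cc (w s) (w s₁) (w s₂)`, so `Cc (f s) (f s₁) (f s₂)`. Take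
`q'` with `lo < q' < hi` and `y = f s₀` below `q'`, `y q' ≠ f s₀ q'`, `y = c` above `q'`. Case 2:
`w s₁ q ≠ w s₂ q` for some `s₁, s₂ ∈ S'`. Let `q' = δ(f s₁, f s₂)`. For all `s ∈ S'` the words `f s` agree
with `f s₁` below `q'`, and for `s, s' ∈ S'`: `f s q' = f s' q'` iff `w s q = w s' q` (one of `s₁`, `s₂` has a
letter at `q` different from that of `s`; use `Cc (w s_i) (w s) (w s')`). Let `a` be a letter which is
different from all the `f s q'`. `y = f s₁` below `q'`, `y q' = a`, `y = c` above `q'`. In both cases `y`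
splits from `f s`, `s ∉ S'`, where `f s₁` does, and this corresponds to `δ(x, w s) = δ(w s₁, w s)`.
(Compare `Bra/I_OPK.lean`, proved, for a finite set `K` of letters: only the choice of the free letter
`a` is easier here, copy the rest.) -/
def S_OPW : Prop := ∀ (c : ℚ → ℕ) (X : Type) [Finite X] (w f : X → Word c),
  Same w f → ∀ x : Word c, ∃ y : Word c,
    Same (fun o : Option X => o.elim x w) (fun o : Option X => o.elim y f)

/-- Amalgamation: `w` can be moved, without changing its splits, such that `g (b k) = a k`. Start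
with the finite partial isomorphism `w (b k) ↦ a k` and add the points `w x` one by one (S_OPW;
induction on a finite subset of `X`). See `Phy/I_AMA.lean` (proved, for two letters). -/
def S_AMW : Prop := ∀ (c : ℚ → ℕ) (X W : Type) [Finite X] [Finite W] (w : X → Word c)
  (a : W → Word c) (b : W → X), Same a (fun k => w (b k)) →
  ∃ g : X → Word c, Same w g ∧ ∀ k, g (b k) = a k

/-! ### Part D: primitive positive definable sets -/

/-- Sets of tuples defined by splits and stars, and intersections with them. (1), (2): finite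
intersections (S_PPB (7), (6)) of pullbacks (S_PPB (3)) of `CC` along `![z, x, y]` and of `N3` along
`![x, y, z]`. (3) by `Spl.iff` (for `h` not constant on `Y`) it is an intersection of `S` with sets as in
(1) and (2). (4) `SameOn D v w` is equivalent to: for all `x, y, z ∈ D`: if `v x = v y` then `w x = w y`; if
`Cc (v z) (v x) (v y)` then `Cc (w z) (w x) (w y)` (so, if `v x ≠ v y` then `w x ≠ w y`, as `Cc (v y) (v x) (v x)`
holds iff `v x ≠ v y`: `first_diff`); if `Star (v x) (v y) (v z)` then `Star (w x) (w y) (w z)`: use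
`cc_cases` and `cc_not`. (`S_PPB` and its proof are in `Phy/Stmts.lean` and `Phy/I_PPB.lean`.) -/
def S_PQW : Prop := ∀ (c : ℚ → ℕ) (σ : Sig) (𝔅 : Str σ (Word c)),
  PP 𝔅 (CC (c := c)) → PP 𝔅 (N3 (c := c)) → ∀ (X : Type) [Finite X],
  (∀ Q : X → X → X → Prop, PP 𝔅 (fun v : X → Word c => ∀ x y z, Q x y z → Cc (v z) (v x) (v y))) ∧
  (∀ Q : X → X → X → Prop,
    PP 𝔅 (fun v : X → Word c => ∀ x y z, Q x y z → Star (v x) (v y) (v z))) ∧
  (∀ (S : (X → Word c) → Prop) (Y : Set X) (h : X → ℕ), PP 𝔅 S →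
    (∃ x ∈ Y, ∃ y ∈ Y, h x ≠ h y) → PP 𝔅 (fun v => S v ∧ Spl Y v h)) ∧
  (∀ (S : (X → Word c) → Prop) (D : Set X) (v : X → Word c), PP 𝔅 S →
    PP 𝔅 (fun w => S w ∧ SameOn D v w))

/-- Primitive positive definable sets depend only on the splits. -/
def IV {c : ℚ → ℕ} {σ : Sig} (𝔅 : Str σ (Word c)) : Prop :=
  ∀ (X : Type) [Finite X] (S : (X → Word c) → Prop), PP 𝔅 S → ∀ v w, Same v w → S v → S w

/-- Primitive positive definable sets are invariant. Let `v = f ∘ m`, `w` with the same splits. By
S_AMW (for `w := f`, `a := w`, `b := m`) there is `g : D → Word c` with the splits of `f` and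
`g ∘ m = w`; it is a homomorphism because the relations of `𝔅` are invariant. -/
def S_IVW : Prop := ∀ (c : ℚ → ℕ) (σ : Sig) (𝔅 : Str σ (Word c)), InvU 𝔅 → IV 𝔅

/-- The patterns are closed under common refinement, so there is a finest one among those which
are coarser than `π`. (1) If one of them is constant on `Y` the refinement has the kernel of the
other one (`Pat.congr`), otherwise KP. (2) Among the patterns `g` which are coarser than `π` (there is
one: constant) take `ρ` with the least number of pairs `(x, y) ∈ Y × Y` with `ρ x = ρ y`; `mt ρ g` is such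
a pattern for every such `g`, and its kernel is the intersection of the kernels (`mt_eq`). (3) Otherwise
`π` and the `ρ` of (2) have the same kernel on `Y`. -/
def S_BLW : Prop := ∀ (c : ℚ → ℕ) (σ : Sig) (𝔅 : Str σ (Word c)), KP 𝔅 →
  ∀ (X : Type) [Finite X] (S : (X → Word c) → Prop) (Y : Set X), PP 𝔅 S →
  (∀ h h', Pat S Y h → Pat S Y h' → Pat S Y (mt h h')) ∧
  (∀ π : X → ℕ, ∃ ρ : X → ℕ, Pat S Y ρ ∧ (∀ x ∈ Y, ∀ y ∈ Y, π x = π y → ρ x = ρ y) ∧
    ∀ g, Pat S Y g → (∀ x ∈ Y, ∀ y ∈ Y, π x = π y → g x = g y) →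
      ∀ x ∈ Y, ∀ y ∈ Y, ρ x = ρ y → g x = g y) ∧
  ∀ π, ¬ Pat S Y π → ∃ i ∈ Y, ∃ j ∈ Y, π i ≠ π j ∧ ∀ g, Pat S Y g →
    (∀ x ∈ Y, ∀ y ∈ Y, π x = π y → g x = g y) → g i = g j

/-! ### Part G: from KP to locality -/

/-- The principle: two configurations, one for each of the two copies, give two members of `S` with
first split `q` on `Q` in the relation `L`. -/
def Princ {c : ℚ → ℕ} {σ : Sig} (𝔅 : Str σ (Word c)) : Prop :=
  ∀ (X : Type) [Finite X] (S : (X → Word c) → Prop) (I Q : Set X) (q : X → ℕ) (k : ℕ), PP 𝔅 S →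
  MV S I Q q k → ∀ L : (X → Word c) → (X → Word c) → Prop,
  PP 𝔅 (fun V : Bool × X → Word c => L (fun x => V (false, x)) (fun x => V (true, x))) →
  Conf S I Q q L → Conf S I Q q (fun w g => L g w) →
  ∃ u w : X → Word c, (S u ∧ Spl Q u q) ∧ (S w ∧ Spl Q w q) ∧ L u w

/-- Proof of the principle. The set `L'` of the `V : Bool × X → Word c` with
`L (V (false, ·)) (V (true, ·))` and both copies in `S` is PP (S_PPB (2), (3)). The first configuration
and MV (for `w₀ := w`, `w₁ := w'`) give `g` and so the member `V (b, x) = if b then g x else w x` of `L'`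
(`S g` by IV and `Same w' g`), with the first split `if b then k else q x` on the two copies of `Q`; the
second configuration and MV give the member `V (b, x) = if b then w x else g x` with the first split
`if b then q x else k` (`Spl.pull` with the exchange of the copies). KP gives a member whose first
split on the two copies of `Q` is the common refinement; on each of the copies it is `q`
(`Spl.pull`, `Spl.congr`, `mt_eq`; `q` is not constant on `Q`). -/
def S_PRG : Prop := ∀ (c : ℚ → ℕ) (σ : Sig) (𝔅 : Str σ (Word c)), IV 𝔅 → KP 𝔅 →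
  Princ 𝔅

/-- Pairs are separated by members of `S` with first split `q` on `Q`. -/
def PairsP {c : ℚ → ℕ} {σ : Sig} (𝔅 : Str σ (Word c)) : Prop :=
  ∀ (X : Type) [Finite X] (S : (X → Word c) → Prop) (I Q : Set X) (q : X → ℕ) (k : ℕ), PP 𝔅 S →
  MV S I Q q k → (∃ w, S w ∧ Spl Q w q) → ∀ i ∈ I, ∀ j ∈ I, (∃ w, S w ∧ w i ≠ w j) →
  ∃ w, S w ∧ Spl Q w q ∧ w i ≠ w j

/-- Pairs. Suppose that `w i = w j` for all `w ∈ S` with `Spl Q w q`. Use the principle for
`L u w := (u j = w i ∧ Cc (w j) (u i) (u i))` (so `u i ≠ w j`; PP by S_PPB (5), (3), (2) and the hypothesis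
for `CC`). `Conf S I Q q L`: `w := w₀ ∈ S` with `Spl Q w₀ q`, `w' := w₁ ∈ S` with `w₁ i ≠ w₁ j`, `Z` one point,
`e := w₁ i`, `a := j`; so `g i = w₀ j`, `g j ≠ g i = w₀ j = w₀ i`. For the other one `e := w₁ j`, `a := i`:
`L g w₀` says `g j = w₀ i` and `g i ≠ w₀ j`. (`first_diff`: `Cc y x x` iff `y ≠ x`.) So there are `u`, `w` with
`Spl Q · q` and `u i = u j = w i = w j` and `u i ≠ w j`, contradiction. -/
def S_PAW : Prop := ∀ (c : ℚ → ℕ) (σ : Sig) (𝔅 : Str σ (Word c)),
  PP 𝔅 (CC (c := c)) → Princ 𝔅 → PairsP 𝔅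

/-- The moving property for a first split `p` of `Y`, for coordinates in the class `p = k`. Let `w₀`,
`w₁`, `e`, `a` be given; `p (a z) = k`; there is `j₀ ∈ Y` with `p j₀ ≠ k`. Let `f` be a far word (S_FAW) for the
words `w₁ x` (all `x`) and `e z`. The words `e z`, `f` have the same splits as `w₀ (a z)`, `w₀ j₀`:
`Cc f (e z) (e z')` and `Cc (w₀ j₀) (w₀ (a z)) (w₀ (a z'))` (`Spl.cc`). By S_AMW (the tuple `w₁`, `e`, `f` on
`(X ⊕ Z) ⊕ Unit`) there is `g` with `Same (w₁, e, f) (g, w₀ ∘ a, w₀ j₀)`. Let `q₀` be the place of the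
first split of `w₀` on `Y` and `z₀ : Z`: `Cc (w₀ j₀) (g y) (w₀ (a z₀))` says that `g y` agrees with
`w₀ (a z₀)` up to and including `q₀` (`cc_place`), for all `y`. So `q₀` is the place of the first split of
both copies together, and the class of `g y` is that of `k`. -/
def S_MHW : Prop := ∀ (c : ℚ → ℕ) (X : Type) [Finite X]
  (S : (X → Word c) → Prop) (Y : Set X) (p : X → ℕ) (k : ℕ),
  MV S {x | x ∈ Y ∧ p x = k} Y p k

/-- The moving property for a first split `q'` of the class `J = {p = k₁}` of `Y`, for coordinates in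
another class `I = {p = k₀}`, if all the members of `S` have the first split `p` on `Y`. Let `j₁ ∈ J` with
`q' j₁ = k₂` and `j₀ ∈ J` with `q' j₀ ≠ k₂` (`q'` is not constant on `J`). Let `q₁` be the place of the first
split of `w₁` on `Y`. Every `e z` agrees with the words `w₁ i`, `i ∈ I`, up to and including `q₁`: there are
`i, j ∈ I` with `w₁ i ≠ w₁ j` and `¬ Cc (e z) (w₁ i) (w₁ j)`; they differ first at a place `d > q₁`, and
`e z` agrees with them below `d` (otherwise it splits off first). By S_NEW for `F` the set of the words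
`w₁ x`, `e z` (and `w₁ j₁`), the word `w := w₁ j₁` and the place `q₁` there is a word `e₁` which agrees with
`w₁ j₁` below some `r' > q₁` and has a new letter there, and all the words `w₁ j`, `j ∈ J`, agree on
`(q₁, r']`, so up to and including `r'`: `Cc e₁ (w₁ j) (w₁ j')` for `j, j' ∈ J`. The words `e z`, `e₁`, `w₁ j₁` have the
same splits as `w₀ (a z)`, `w₀ j₀`, `w₀ j₁`: in both tuples the first split is `Z | two different words`
(at `q₁`, and at the first split of `w₀` on `Y`), and `Same e (w₀ ∘ a)` is given. By S_AMW there is `g` with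
`Same (w₁, e, e₁) (g, w₀ ∘ a, w₀ j₀)` and `g j₁ = w₀ j₁`. Let `q₂` be the place of the first split of
`w₀` on `J`: `Cc (w₀ j₀) (g j) (w₀ j₁)`, `j ∈ J`, says that `g j` agrees with `w₀ j₁` up to and including `q₂`
(`cc_place`). So `q₂` is the place of the first split of both copies of `J` together and the class of
`g j` is that of `j₁`. -/
def S_MAW : Prop := ∀ (c : ℚ → ℕ) (X : Type) [Finite X]
  (S : (X → Word c) → Prop) (Y : Set X) (p q' : X → ℕ) (k₀ k₁ k₂ : ℕ), k₀ ≠ k₁ →
  (∀ w, S w → Spl Y w p) → (∃ j ∈ Y, p j = k₁ ∧ q' j = k₂) →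
  MV S {x | x ∈ Y ∧ p x = k₀} {x | x ∈ Y ∧ p x = k₁} q' k₂

/-- The data of the case in which all the patterns of `T` on `Y` which are coarser than `π` are
constant: a minimal set `E` of pairs inside the classes of `π` such that only constant patterns do
not separate the pairs in `E`, a pair `(p, p')` in `E`, `E'` the rest, and a pattern `t₀` which shows that
`E'` is not enough. -/
structure TD {c : ℚ → ℕ} {X : Type} (T : (X → Word c) → Prop) (Y : Set X) (π : X → ℕ)
    (E E' : Set (X × X)) (p p' z : X) (t₀ : X → ℕ) (xx : X × X → X) : Prop where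
  sub : ∀ e ∈ E, e.1 ∈ Y ∧ e.2 ∈ Y ∧ π e.1 = π e.2
  mem : (p, p') ∈ E
  spl : ∀ e ∈ E, e = (p, p') ∨ e ∈ E'
  sub' : E' ⊆ E
  hz : z ∈ Y ∧ π z ≠ π p
  all : ∀ t, Pat T Y t → (∀ e ∈ E, t e.1 = t e.2) → ∀ x ∈ Y, ∀ y ∈ Y, t x = t y
  pat : ∃ v, T v ∧ Spl Y v t₀
  eq' : ∀ e ∈ E', t₀ e.1 = t₀ e.2
  ne : t₀ p ≠ t₀ p'
  hxx : ∀ e ∈ E', (xx e = p ∨ xx e = p') ∧ t₀ (xx e) ≠ t₀ e.1

/-- Existence of the data. Let `E` be a set of pairs `(x, y)`, `x, y ∈ Y`, `π x = π y`, such that every
pattern of `T` on `Y` which does not separate the pairs in `E` is constant on `Y` (the set of all these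
pairs is one) with `E.ncard` minimal. It is not empty, as there is a pattern which is not constant. Let
`(p, p') ∈ E`, `E' = E \ {(p, p')}`: by minimality there is a pattern `t₀` which does not separate the
pairs in `E'` and is not constant on `Y` (so it is the first split of a member of `T`), so it separates
`(p, p')`. `z`: `π` is not constant on `Y`. `xx e`: one of `t₀ p`, `t₀ p'` is different from `t₀ e.1`. -/
def S_TRE : Prop := ∀ (c : ℚ → ℕ) (X : Type) [Finite X] (T : (X → Word c) → Prop) (Y : Set X)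
  (π : X → ℕ), (∃ w h, T w ∧ Spl Y w h) → (∃ x ∈ Y, ∃ y ∈ Y, π x ≠ π y) →
  (∀ t, Pat T Y t → (∀ x ∈ Y, ∀ y ∈ Y, π x = π y → t x = t y) → ∀ x ∈ Y, ∀ y ∈ Y, t x = t y) →
  ∃ E E' p p' z t₀ xx, TD T Y π E E' p p' z t₀ xx

/-- The link between two tuples for these data. -/
def LK {c : ℚ → ℕ} {X : Type} (E E' : Set (X × X)) (p p' z : X) (xx : X × X → X)
    (u w : X → Word c) : Prop :=
  w p = u p ∧ w p' = u z ∧ (∀ e ∈ E, Cc (w z) (u e.1) (u e.2)) ∧
    ∀ e ∈ E', Cc (w (xx e)) (w e.1) (w e.2)

/-- No two members of `T` are linked. All the words `u y`, `w y`, `y ∈ Y`, are not all equal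
(`w z ≠ u p`: the pair `(p, p') ∈ E`, `cc_ne`); let `h` be their first split (S_FSW for the tuple on
`Bool × X` and the set `{b | b.2 ∈ Y}`), `a y = h (false, y)`, `b y = h (true, y)`. Both are patterns
of `T` on `Y`: constant or (`Spl.pull`) the first split of `u`, `w`. Conditions `Cc z x y` between the
words give equal values at `x`, `y` (`Spl.eq_of_cc`), equal words have equal values. So `a` does not
separate the pairs in `E`, and `b` does not separate those in `E'`. By `TD.all` `a` is constant on `Y`. So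
`b p = a p = a z = b p'`; so `b` does not separate the pairs in `E`, and `b` is constant on `Y`, too, and it
has the value `b p = a p`: the first split is constant, contradiction. -/
def S_TRX : Prop := ∀ (c : ℚ → ℕ) (X : Type) [Finite X] (T : (X → Word c) → Prop)
  (Y : Set X) (π : X → ℕ) (E E' : Set (X × X)) (p p' z : X) (t₀ : X → ℕ) (xx : X × X → X),
  TD T Y π E E' p p' z t₀ xx → ∀ u w, T u → T w → ¬ LK E E' p p' z xx u w

/-- The first configuration: `w₂ ∈ T` on the copy `true`, a moved member `ν₁` of `S` with first split `π`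
on the copy `false`. (a) There is `w₂ ∈ T` with `Spl Y w₂ t₀`, `w₂ z ≠ w₂ p` and `w₂ z ≠ w₂ p'`: by `TD.pat` there
is one with `Spl Y w₂ t₀`; if `t₀ z` is different from `t₀ p` and `t₀ p'` take it. If `t₀ z = t₀ p` (so
`t₀ z ≠ t₀ p'`) use `PairsP` for `T`, the class `I' = {x ∈ Y : t₀ x = t₀ p}`, `Q := Y`, `q := t₀`,
`k := t₀ p` (MV by S_MHW; `z, p ∈ I'`, `z ≠ p` as `π z ≠ π p`; some member of `T` separates them by `PairsP` for `S` and
some member of `S` separates them by hypothesis). The case `t₀ z = t₀ p'` is the same with `p'`. (b) Let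
`ν₁ ∈ S`, `Spl Y ν₁ π`, `r` the place of its first split on `Y`; `ν₁ p`, `ν₁ z` have different letters at `r`.
As the first split of `w₂` on `Y` separates `p` and `p'`, `¬ Cc (w₂ z) (w₂ p) (w₂ p')` (`Spl.eq_of_cc`). By
`cc_cases` there are three cases. `Cc (w₂ p') (w₂ p) (w₂ z)`: let `e` be given by S_NEW for `F` = all
words `ν₁ x`, the word `ν₁ p` and the place `r`: it agrees with `ν₁ p` below some `r' > r` and has a new
letter there. `Cc (w₂ p) (w₂ p') (w₂ z)`: the same with the word `ν₁ z`. Star: `e` is `ν₁ p` with a letter at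
`r` which is not the letter of any `ν₁ x`. In all the cases `e` agrees with the words `ν₁ y`, `y ∈ Y`,
below `r`, `Cc e (ν₁ y) (ν₁ y')` for all `y, y' ∈ Y` with `π y = π y'` (the words `ν₁ y`, `ν₁ y'` agree up to
and including `r`, and even up to `r'` in the first two cases), and the triples `(ν₁ p, ν₁ z, e)` and
`(w₂ p, w₂ p', w₂ z)` have the same splits. (c) Configuration: `w := w₂`, `w' := ν₁`, `Z := Fin 3`, the
auxiliary words `ν₁ p`, `ν₁ z`, `e`, `a := ![p, p', z]`; `¬ Cc (aux) (ν₁ p) (ν₁ z)` as all agree below `r` and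
`ν₁ p`, `ν₁ z` differ at `r`. For `g` with `Same (ν₁, aux) (g, w₂ ∘ a)`: `g p = w₂ p`, `g z = w₂ p'`,
`Cc (w₂ z) (g y) (g y')` for `(y, y') ∈ E`. The last condition of `LK`: `Spl.cc` for `t₀` and `TD.hxx`. -/
def S_TRA : Prop := ∀ (c : ℚ → ℕ) (σ : Sig)
  (𝔅 : Str σ (Word c)), PairsP 𝔅 → ∀ (X : Type) [Finite X] (S : (X → Word c) → Prop)
  (I Q : Set X) (q : X → ℕ) (k : ℕ), PP 𝔅 S → PP 𝔅 (fun w => S w ∧ Spl Q w q) → MV S I Q q k →
  (∃ w, S w ∧ Spl Q w q) → (∀ x ∈ I, ∀ y ∈ I, x ≠ y → ∃ w, S w ∧ w x ≠ w y) → ∀ Y ⊆ I,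
  ∀ π : X → ℕ, (∃ w, S w ∧ Spl Y w π) → ∀ (E E' : Set (X × X)) (p p' z : X) (t₀ : X → ℕ)
  (xx : X × X → X), TD (fun w => S w ∧ Spl Q w q) Y π E E' p p' z t₀ xx →
  Conf S I Q q (fun w g => LK E E' p p' z xx g w)

/-- The second configuration: `w ∈ T` on the copy `false`, a moved member `ν₂` of `S` on the copy `true`.
(a) `w ∈ T` with `w p ≠ w z` (`PairsP`; `p ≠ z`). (b) `ν₂ ∈ S` with `Spl Y ν₂ π` and `Spl Π ν₂ t₀` for
the class `Π = {x ∈ Y : π x = π p}`: `Uni` for `S`, `I := Π`, `Q := Y`, `q := π`, `k := π p` (MV by S_MHW),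
`Y' := Π`, which has at most `N` elements as `z ∉ Π`; the pattern `t₀` on `Π` occurs in `S` by `TD.pat` and
`Spl.mono` (`p, p' ∈ Π` by `TD.sub`). (c) Auxiliary words `e y`, `y ∈ Y` (`Z` is the subtype `Y`) with
`Same e (w restricted to Y)`, `e p = ν₂ p`, `e z = ν₂ p'`, and `Cc (ν₂ z) (e y) (e y')` for all `y, y' ∈ Y`:
let `f` be a far word for the `w y` (S_FAW). The triples `(w p, w z, f)`, `(ν₂ p, ν₂ p', ν₂ z)` have the same
splits: `w p ≠ w z`, `ν₂ p ≠ ν₂ p'` (`t₀` separates them), and the third word splits off first. By S_AMW the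
tuple `(w y)_y, f` can be moved such that `w p ↦ ν₂ p`, `w z ↦ ν₂ p'`, `f ↦ ν₂ z`. (d) Configuration: `w`,
`w' := ν₂`, `Z := Y`, `e`, `a y := y`; `¬ Cc (e y) (ν₂ z) (ν₂ p)` because `Cc (ν₂ z) (e y) (ν₂ p)`
(`cc_not`), and `ν₂ z ≠ ν₂ p`. For `g` with `Same (ν₂, e) (g, w)`: `g p = w p` as `ν₂ p = e p`, `g p' = w z`,
`Cc (g z) (w y) (w y')` for `y, y' ∈ Y`; and `Cc (g (xx e)) (g e.1) (g e.2)` for `e ∈ E'`: this holds for
`ν₂`: if `π e.1 = π p` then `Spl.cc` for `t₀` on `Π` and `TD.hxx`, otherwise `Spl.cc` for `π` on `Y`. -/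
def S_TRB : Prop := ∀ (c : ℚ → ℕ) (σ : Sig) (𝔅 : Str σ (Word c)),
  PairsP 𝔅 → ∀ N : ℕ, Uni 𝔅 N → ∀ (X : Type) [Finite X] (S : (X → Word c) → Prop)
  (I Q : Set X) (q : X → ℕ) (k : ℕ), PP 𝔅 S → MV S I Q q k →
  (∃ w, S w ∧ Spl Q w q) → (∀ x ∈ I, ∀ y ∈ I, x ≠ y → ∃ w, S w ∧ w x ≠ w y) → ∀ Y ⊆ I,
  Y.ncard ≤ N + 1 → ∀ π : X → ℕ, (∃ w, S w ∧ Spl Y w π) → ∀ (E E' : Set (X × X)) (p p' z : X)
  (t₀ : X → ℕ) (xx : X × X → X), TD (fun w => S w ∧ Spl Q w q) Y π E E' p p' z t₀ xx →
  Conf S I Q q (LK E E' p p' z xx)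

/-- Case 0 is impossible: some pattern of `T` on `Y` which is coarser than `π` is not constant. -/
def TR0C {c : ℚ → ℕ} {σ : Sig} (𝔅 : Str σ (Word c)) : Prop :=
  ∀ N : ℕ, Uni 𝔅 N → ∀ (X : Type) [Finite X] (S : (X → Word c) → Prop)
  (I Q : Set X) (q : X → ℕ) (k : ℕ), PP 𝔅 S → MV S I Q q k →
  (∃ w, S w ∧ Spl Q w q) → (∀ x ∈ I, ∀ y ∈ I, x ≠ y → ∃ w, S w ∧ w x ≠ w y) → ∀ Y ⊆ I,
  Y.ncard ≤ N + 1 → ∀ π : X → ℕ, (∃ w, S w ∧ Spl Y w π) →
  ¬ ∀ t, Pat (fun w => S w ∧ Spl Q w q) Y t → (∀ x ∈ Y, ∀ y ∈ Y, π x = π y → t x = t y) →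
    ∀ x ∈ Y, ∀ y ∈ Y, t x = t y

/-- Case 0 is impossible: `T w := S w ∧ Spl Q w q` is PP (S_PQW (3)); `PairsP` gives a member of `T` which
is not constant on `Y` (two points of `Y` with different `π` are different points of `I`), S_FSW its
first split. S_TRE gives the data, `LK` is PP on `Bool × X` (S_PQW (1), S_PPB (5), (2): equalities and
splits), `Princ` with S_TRB and S_TRA gives linked members of `T`, contradiction to S_TRX. -/
def S_TR0 : Prop := ∀ (c : ℚ → ℕ) (σ : Sig) (𝔅 : Str σ (Word c)), NLang 𝔅 → Princ 𝔅 →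
  PairsP 𝔅 → TR0C 𝔅

/-- The link for case 1: `f₁`, `g₁` are shared, `f₂` is not; in both copies the first split is between
`π` and `ρ`. -/
def LR1 {c : ℚ → ℕ} {X : Type} (Y : Set X) (π ρ : X → ℕ) (f₁ f₂ g₁ : X) (u w : X → Word c) :
    Prop :=
  w f₁ = u f₁ ∧ w g₁ = u g₁ ∧ Star (u f₂) (u g₁) (w f₂) ∧
  ∀ v : X → Word c, v = u ∨ v = w →
    (∀ x ∈ Y, ∀ y ∈ Y, ∀ z ∈ Y, π x = π y → ρ z ≠ ρ x → Cc (v z) (v x) (v y)) ∧
    ∀ x ∈ Y, ∀ y ∈ Y, ∀ z ∈ Y, ρ x ≠ ρ y → ρ y ≠ ρ z → ρ x ≠ ρ z → Star (v x) (v y) (v z)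

/-- Case 1 is impossible. -/
def TR1C {c : ℚ → ℕ} {σ : Sig} (𝔅 : Str σ (Word c)) : Prop :=
  ∀ (X : Type) [Finite X] (S : (X → Word c) → Prop) (I Q : Set X) (q : X → ℕ) (k : ℕ), PP 𝔅 S →
  MV S I Q q k → (∃ w, S w ∧ Spl Q w q) → ∀ Y ⊆ I, ∀ π : X → ℕ, (∃ w, S w ∧ Spl Y w π) →
  ¬ Pat (fun w => S w ∧ Spl Q w q) Y π →
  ¬ ∃ t, Pat (fun w => S w ∧ Spl Q w q) Y t ∧ (∀ x ∈ Y, ∀ y ∈ Y, π x = π y → t x = t y) ∧
    ∃ x ∈ Y, ∃ y ∈ Y, t x ≠ t y

/-- Case 1: some non-constant pattern of `T w := S w ∧ Spl Q w q` on `Y` is coarser than `π`, and `π` is not a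
pattern of `T`. Let `ρ` be the finest pattern of `T` on `Y` which is coarser than `π` (S_BLW (2)); it is
not constant on `Y`, and `π` does not have the kernel of `ρ` on `Y` (`Pat.congr`), so there are
`f₁, f₂ ∈ Y` with `ρ f₁ = ρ f₂`, `π f₁ ≠ π f₂`, and `g₁ ∈ Y` with `ρ g₁ ≠ ρ f₁`. Principle for
`L := LR1 Y π ρ f₁ f₂ g₁` (PP by S_PQW (1), (2), S_PPB (5), (2)).
`Conf S I Q q L`: `w := w₀ ∈ T` with `Spl Y w₀ ρ`, `w' := ν₁ ∈ S` with `Spl Y ν₁ π`, `Z := Bool` (or `Fin 2`), auxiliary
words `ν₁ f₁`, `ν₁ g₁`, `a`: `f₁`, `g₁` (in both tuples they are different; `¬ Cc (aux) (ν₁ f₁) (ν₁ g₁)` as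
`aux` is one of them: `cc_ne`). For `g` with `Same (ν₁, aux) (g, w₀ ∘ a)`: `g f₁ = w₀ f₁`, `g g₁ = w₀ g₁`.
`Star (ν₁ f₁) (ν₁ g₁) (ν₁ f₂)` (`Spl.star` for `π`), so `Star (g f₁) (g g₁) (g f₂)`, i.e.
`Star (w₀ f₁) (w₀ g₁) (g f₂)`, and `Cc (w₀ g₁) (w₀ f₁) (w₀ f₂)` (`Spl.cc` for `ρ`), so `Star.move` gives
`Star (w₀ f₂) (w₀ g₁) (g f₂)`. The other conditions hold for `w₀` (first split `ρ`) and for `g` (first split
`π`) by `Spl.iff`. The other configuration `Conf S I Q q (fun w g => L g w)` has the same `w₀`, `ν₁`: now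
`Star (g f₂) (g g₁) (w₀ f₂)` is needed, which is the same up to the order of the words.
So there are `u, w ∈ T` with `L u w`. Claim: `Spl Y u ρ` and `Spl Y w ρ`. `u` is not constant on `Y`
(`u g₁ ≠ u f₁`: `Cc (u g₁) (u f₁) (u f₁)`); let `h` be its first split (S_FSW), a pattern of `T`. For
`x, y ∈ Y` with `π x = π y` take `z ∈ Y` with `ρ z ≠ ρ x`; `Cc (u z) (u x) (u y)` gives `h x = h y`
(`Spl.eq_of_cc`): `h` is coarser than `π`, so coarser than `ρ`. Conversely if `h x = h y`, `ρ x ≠ ρ y`, take `z ∈ Y`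
with `h z ≠ h x` (`h` is not constant): then `ρ z ≠ ρ x`, `ρ z ≠ ρ y`, so `Star (u x) (u y) (u z)`, but
`Cc (u z) (u x) (u y)` by `Spl.cc`. So `h` has the kernel of `ρ` (`Spl.congr`). The same for `w`. Now
`Cc (u g₁) (u f₁) (u f₂)` and `Cc (w g₁) (w f₁) (w f₂)`, `w f₁ = u f₁`, `w g₁ = u g₁`: at the first place
where `u g₁`, `u f₁` differ the words `u f₂`, `w f₂` have the letter of `u f₁` and agree with it before
(`cc_place`): `Cc (u g₁) (u f₂) (w f₂)`, contradiction to `Star (u f₂) (u g₁) (w f₂)`. -/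
def S_TR1 : Prop := ∀ (c : ℚ → ℕ) (σ : Sig) (𝔅 : Str σ (Word c)), NLang 𝔅 → KP 𝔅 →
  Princ 𝔅 → TR1C 𝔅

/-- All subsets: induction on `N`. `N = 0` (and sets with at most one element): there is no
non-constant `h` on `Y'`. For `N + 1`: if `Y'.ncard ≤ N` this is the induction hypothesis. Otherwise
suppose that no member of `T` has the first split `h` on `Y'`; so `h` is not in `Pat T Y'` (it is not
constant on `Y'`). By `TR0C` some pattern of `T` on `Y'` which is coarser than `h` is not constant on
`Y'`, contradiction to `TR1C`. -/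
def S_UNW : Prop := ∀ (c : ℚ → ℕ) (σ : Sig) (𝔅 : Str σ (Word c)), TR0C 𝔅 → TR1C 𝔅 →
  ∀ N : ℕ, Uni 𝔅 N

/-- The induction step. Let `Y.ncard = n`, `Loc S Y v`. If `Y` has at most one element any `w ∈ S`
does it. Otherwise `v` is injective on `Y` (`Loc.ne`); let `p` be its first split on `Y` (S_FSW).
`Sp w := S w ∧ Spl Y w p` is PP (S_PQW (3)) and not empty (`Loc` for `Y`, `Spl.unique`, `Spl.congr`).
(H) `Uni` with S_MHW: all first splits of members of `S` on subsets of a class `{x ∈ Y : p x = k}` are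
first splits of members of `Sp`. (The pairs are separated by `Loc.ne`.) If all the classes of `p` have
at most one element, any `w ∈ Sp` does it (S_GLW). Otherwise let `J = {x ∈ Y : p x = k₁}` be a class with
two elements, `q'` the first split of `v` on `J`; `T w := Sp w ∧ Spl J w q'` is PP and not empty (`Loc` for `J`,
and (H)). (A) `Uni` for `Sp` with S_MAW (for `k₀ ≠ k₁` and `k₂ = q' j`, `j ∈ J`): the first splits of `Sp` on
subsets of another class `{p = k₀}` are first splits of `T`. (H') `Uni` for `Sp`, `J`, `q'` with S_MHW: the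
first splits of `Sp` on subsets of a class of `q'` on `J` are first splits of `T`. Let `D` be a class of
`q'` on `J` (not empty, `J \ D` is not empty). `Loc T D v` by (H), (H'); `GG` for `D.ncard < n` gives
`w ∈ T` with `SameOn D v w`; so `T' w := T w ∧ SameOn D v w` is not empty, and PP by S_PQW (4).
Claim: `Loc T' (Y \ D) v`. Let `Y'' ⊆ Y \ D` have two elements. If it meets two classes of `p` the first
split of `v` on `Y''` is `p` (`Spl.mono`), and every `w ∈ T'` does it. If `Y''` is contained in a class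
`B = {p = k₀}`, `k₀ ≠ k₁`: `Loc T (B ∪ D) v` (on sets which meet both the first split is `p`; inside `B` by
(H), (A); inside `D` by (H), (H')); `B ∪ D` has less than `n` elements, so `GG` gives `w ∈ T` with
`SameOn (B ∪ D) v w`; so `w ∈ T'`, and `Spl.transfer` on `Y''`. If `Y'' ⊆ J \ D`: if it meets two classes of
`q'` the first split of `v` on `Y''` is `q'` and every `w ∈ T'` does it. If it is contained in a class
`D'` of `q'`: `Loc T (D' ∪ D) v` (on sets which meet both the first split is `q'`; inside `D'`, `D` by (H),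
(H')), `D' ∪ D ⊆ J` has less than `n` elements (`p` is not constant on `Y`), so `GG` gives `w ∈ T` with
`SameOn (D' ∪ D) v w`, as before. By the claim and `GG` for `Y \ D` there is `w ∈ T'` with
`SameOn (Y \ D) v w`. S_GLW for `q'` on `J` (the class `D`: `w ∈ T'`; the other classes are subsets of
`Y \ D`) and then for `p` on `Y` gives `SameOn Y v w`. -/
def S_GNW : Prop := ∀ (c : ℚ → ℕ) (σ : Sig) (𝔅 : Str σ (Word c)), NLang 𝔅 → (∀ N, Uni 𝔅 N) →
  ∀ n : ℕ, (∀ m < n, GG 𝔅 m) → GG 𝔅 n

/-- The Horn form. Take all the clauses which hold in `R`. Let `t` satisfy all of them,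
`θ = {(i, j) : t i = t j}`. Some `w ∈ R` has `w i = w j` for all `(i, j) ∈ θ` (clause `θ → false`).
Let `S w := R w ∧ ∀ (i, j) ∈ θ, w i = w j` (PP: S_PPB (2), (5), (7)), `Y` a set of representatives of `θ`
(for example the `i` which are minimal in their class). `Loc S Y t`: for `Y' ⊆ Y` with two elements let `h`
be the first split of `t` on `Y'` (S_FSW). If it is not the first split on `Y'` of a member of `S` then
by S_BLW (3) there are `i, j ∈ Y'` with `h i ≠ h j` and `g i = g j` for all the patterns `g` of `S` on `Y'` which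
are coarser than `h`: the clause with the premise `θ` and the conclusion `(i, j, Y', E)`,
`E = {(x, y) : x, y ∈ Y', h x = h y}`, holds in `R` (`insert i (insert j Y') = Y'`), so it holds for `t`,
contradiction (`h` itself). So by `GG` there is `w ∈ S` with the splits of `t` on `Y`, so everywhere, as `t`
and `w` satisfy the equalities in `θ`. `R t` by IV. -/
def S_HRW : Prop := ∀ (c : ℚ → ℕ) (σ : Sig) (𝔅 : Str σ (Word c)),
  IV 𝔅 → KP 𝔅 → (∀ n, GG 𝔅 n) → ∀ (n : ℕ) (R : (Fin n → Word c) → Prop), PP 𝔅 R → HornR R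

/-! ### Part B: no threefold branching -/

/-- If threefold branching is not primitive positive definable then every nonempty primitive
positive definable set has a member with binary splits only. Take `w ∈ S` with the largest number of
triples `(x, y, z)` with `Cc (w z) (w x) (w y)`. `S' u := S u ∧ ∀ x y z, Cc (w z) (w x) (w y) →
Cc (u z) (u x) (u y)` is PP (intersection of pullbacks of `CC`, S_PPB), and every `u ∈ S'` has exactly the
same triples, by the choice of `w`; in particular `u x ≠ u y` iff `w x ≠ w y` (`Cc (w y) (w x) (w x)` iff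
`w x ≠ w y`: `first_diff`), so `Same w u`. If `w` is not `BinOn univ` there are `x, y, z` with
`Star (w x) (w y) (w z)` (if two of the three words are equal and the third is different one of the
`Cc` holds). The projection of `S'` to `(x, y, z)` (S_PPB (4)) is `N3`: its members have the splits of
`(w x, w y, w z)`, so they are stars; conversely every star has the same splits as `(w x, w y, w z)`, so it is
in the projection by IV. Contradiction. -/
def S_BNW : Prop := ∀ (c : ℚ → ℕ) (σ : Sig) (𝔅 : Str σ (Word c)), IV 𝔅 →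
  PP 𝔅 (CC (c := c)) → ¬ PP 𝔅 (N3 (c := c)) → ∀ (X : Type) [Finite X]
  (S : (X → Word c) → Prop), PP 𝔅 S → (∃ w, S w) → ∃ w, S w ∧ Bra.BinOn Set.univ w

/-! ### Part H: homogeneity and finite boundedness -/

/-- Words which differ from `c` in finitely many places are given by finitely supported functions
(`ℚ` and `ℕ` are countable; for example inject `Word c` into `Finset (ℚ × ℕ)`). See `Tree/I_CTB.lean`. -/
def S_CTW : Prop := ∀ c : ℚ → ℕ, Countable (Word c)

/-- The structure with the split relation only. -/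
def Cst (c : ℚ → ℕ) : Str (Phy.sg 3) (Word c) where
  rel _ t := Cc (t (0 : Fin 3)) (t (1 : Fin 3)) (t (2 : Fin 3))

/-- `𝔅` together with the split relation. -/
def Bc {c : ℚ → ℕ} {σ : Sig} (𝔅 : Str σ (Word c)) : Str (Phy.ssum σ (Phy.sg 3)) (Word c) :=
  Phy.both 𝔅 (Cst c)

/-- Homogeneity: back and forth with S_OPW (also for the inverse) on the countable set `Word c`
(S_CTW). The isomorphism preserves `Cc` in both directions, so it preserves the relations of `𝔅` by
`InvU`. See `Phy/I_HMC.lean` (proved, for two letters). -/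
def S_HMW : Prop := ∀ (c : ℚ → ℕ) (σ : Sig) (𝔅 : Str σ (Word c)), InvU 𝔅 →
  Tree.Homog (Bc 𝔅)

/-- Sets which depend only on the splits are those which are preserved by all automorphisms of
the split relation. (→) `v` and `g ∘ v` have the same splits. (←) Let `v`, `w` have the same splits; S_HMW
for a signature without symbols (or the back and forth argument) gives an automorphism of `Cc` which
maps `v x` to `w x`. See `Phy/I_AUT.lean` (proved, for two letters). -/
def S_AUW : Prop := ∀ (c : ℚ → ℕ) (X : Type) [Finite X]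
  (S : (X → Word c) → Prop), (∀ v w, Same v w → S v → S w) ↔
    ∀ g : Word c ≃ Word c, (∀ x y z, Cc x y z ↔ Cc (g x) (g y) (g z)) →
      ∀ v, S v → S (fun x => g (v x))

/-- Finite boundedness. Let `n = 5 + ∑ R, ar R` (all symbols of `σ`) and let `F` be the set of the
structures on `Fin m`, `m ≤ n`, which do not embed into `Bc 𝔅` (finitely many). One direction is
clear. Let `𝔄` be a finite structure into which no member of `F` embeds: all the substructures with
at most `n` elements embed. Claim by induction on `|W|`: for all `W ⊆ A` there is `e : A → Word c`,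
injective on `W`, with `C(z; x, y)` in `𝔄` iff `Cc (e z) (e x) (e y)` for `x, y, z ∈ W`. For
`|W| ≤ 1` clear (one-element substructures embed). Otherwise fix `x ∈ W` and `y ∈ W \ {x}` such that
`C(y'; x, y)` holds for no `y' ∈ W \ {x}` (possible: for an embedding `g` it says
`δ(g x, g y') < δ(g x, g y)`, so it is a strict weak order on `W \ {x}` by the embeddings of four
elements). For every embedding `g` of `{x, y, z, w, u}`, `z, w, u ∈ W`: all five words agree below
`q* = δ(g x, g y)` (the first place where `g x`, `g y` differ). Put `z ~ w` iff `C(x; z, w)` or `C(y; z, w)`; in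
every embedding of `{x, y, z, w}` this says that `g z`, `g w` have the same letter at `q*` (if they do, one
of `g x`, `g y` has another letter there); so `~` is an equivalence relation on `W`, and `x`, `y` are not
equivalent. Let `h : A → ℕ` number the classes; take `e_k` for the class `k` in `W` (smaller than `W`), and
join them along `h` (S_JOW). For `z, w, u` in one class the relation is that of `e_k`, otherwise it is
read off at the new place and in the embedding `g` at `q*`. The relations of `𝔅`: for a tuple `t` of `A`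
take an embedding `g` of its entries: `e ∘ t` and `g ∘ t` have the same splits, so `InvU`.
See `Phy/I_FBC.lean` (proved, for two letters; there `h` has only two classes). -/
def S_FBW : Prop := ∀ (c : ℚ → ℕ) (σ : Sig) (𝔅 : Str σ (Word c)), InvU 𝔅 →
  Tree.FinBdd (Bc 𝔅)

end Pool.Agent.Work.MP_8dbde4_lc.Om
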