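import Pool.Agent.Work.MP_8dbde4_lc.Om.Stmts

/-!
Statements of the block Om of MP_8dbde4_lc, second part: the engine (FPC implies KP). Every
docstring contains the proof.

A predicate `P` on the maps `p : Fin n → ℕ` is a set of patterns; only the kernels matter. The power
`Fin m ^ I` of the finite set `Fin m` of letters is mapped to `ℕ` by homomorphisms (`HomN`).
-/

set_option autoImplicit false
open Classical

namespace Pool.Agent.Work.MP_8dbde4_lc.Om

open Pool.Agent.Work.MP_8dbde4_lc.TS
open Pool.Agent.Work.MP_8dbde4_lc.Tree (Word Agr Cc Gad Den row BFSys)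
open Pool.Agent.Work.MP_8dbde4_lc.Phy (PP Hom TI)
open Pool.Agent.Work.MP_8dbde4_lc.Bra (Same InvU CC)

/-- Homomorphisms from the power `(Fin m)^I` to `ℕ`, for the relation `P`. -/
def HomN {n : ℕ} (P : (Fin n → ℕ) → Prop) {m : ℕ} {I : Type} (f : (I → Fin m) → ℕ) : Prop :=
  ∀ t : Fin n → I → Fin m, (∀ i, P (fun j => (t j i).val)) → P (fun j => f (t j))

/-- Sets of patterns: only the kernel matters, constants are patterns. -/
structure PS {n : ℕ} (P : (Fin n → ℕ) → Prop) : Prop where
  ker : ∀ p p' : Fin n → ℕ, (∀ x y, p x = p y ↔ p' x = p' y) → P p → P p'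
  const : ∀ a : ℕ, P (fun _ => a)

/-- Three coordinates at which the patterns are constant or injective; for all different letters
there is a pattern with these letters there and the first letter elsewhere. -/
def NCond {n : ℕ} (P : (Fin n → ℕ) → Prop) : Prop :=
  ∃ a b d : Fin n, a ≠ b ∧ b ≠ d ∧ a ≠ d ∧
    (∀ p, P p → (p a = p b ∧ p b = p d) ∨ (p a ≠ p b ∧ p b ≠ p d ∧ p a ≠ p d)) ∧
    ∀ s₁ s₂ s₃ : ℕ, s₁ ≠ s₂ → s₂ ≠ s₃ → s₁ ≠ s₃ →
      P (fun j => if j = b then s₂ else if j = d then s₃ else s₁)

/-- Not closed under common refinement. -/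
def SCond {n : ℕ} (P : (Fin n → ℕ) → Prop) : Prop := ∃ p p', P p ∧ P p' ∧ ¬ P (mt p p')

/-- `f` depends on the coordinate `i`. -/
def DepN {m : ℕ} {I : Type} (f : (I → Fin m) → ℕ) (i : I) : Prop :=
  ∃ (x : I → Fin m) (a b : Fin m), f (Function.update x i a) ≠ f (Function.update x i b)

/-- On lines homomorphisms are injective or constant. For different `s₁, s₂, s₃ : Fin m` the tuple
`t j = update x i (if j = b then s₂ else if j = d then s₃ else s₁)` (`a, b, d` from `NCond`): at the
coordinate `i` it is the pattern of `NCond`, at the others it is constant. So the values of `f` at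
`update x i s_k` are all equal or all different. If two values on the line are equal then all the others
are equal to them. -/
def S_LIW : Prop := ∀ (n m : ℕ) (P : (Fin n → ℕ) → Prop), PS P → NCond P → ∀ (I : Type)
  (f : (I → Fin m) → ℕ), HomN P f → ∀ (i : I) (x : I → Fin m),
  Function.Injective (fun a => f (Function.update x i a)) ∨
    ∃ e, ∀ a, f (Function.update x i a) = e

/-- Dependence on two coordinates gives a binary homomorphism which depends on both. Let the line
in the direction `i` through `x` be injective (not constant), the line in the direction `j` through `y`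
injective. Change the coordinates of `x` to those of `y` one at a time. If at some step the line in the
direction `i` changes from injective to constant, when the coordinate `l ≠ i` is changed from `x' l` to
`y l`, then `g a b = f (update (update x' i a) l b)`: the line `a ↦ g a (x' l)` is injective, the line
`a ↦ g a (y l)` is constant, so (`m ≥ 2`, see below) for some `a` the value `g a (x' l)` is different from
`g a (y l)`, and the line `b ↦ g a b` is injective. Otherwise the line in the direction `i` through `y` is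
injective, take `g a b = f (update (update y i a) j b)`, `i ≠ j`. (`m ≥ 2` because `f` depends on
something.) -/
def S_BDW : Prop := ∀ (n m : ℕ) (P : (Fin n → ℕ) → Prop), PS P → NCond P → ∀ (I : Type) [Finite I]
  (f : (I → Fin m) → ℕ), HomN P f → ∀ i j : I, i ≠ j → DepN f i → DepN f j →
  ∃ g : Fin m → Fin m → ℕ,
    (∀ t t' : Fin n → Fin m, P (fun j => (t j).val) → P (fun j => (t' j).val) →
      P (fun j => g (t j) (t' j))) ∧
    (∀ a, Function.Injective (g a) ∨ ∃ e, ∀ b, g a b = e) ∧
    (∀ b, Function.Injective (fun a => g a b) ∨ ∃ e, ∀ a, g a b = e) ∧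
    (∃ a, Function.Injective (g a)) ∧ ∃ b, Function.Injective (fun a => g a b)

/-- Many injective rows and columns. `p₁`, `p₂` have at most `n` values each. Choose an injective map `α` from
the values of `p₁` to the set `{a : g a is injective}`. Choose the images `β y` of the values `y` of `p₂` one
after the other in the set `{b : the column of b is injective}` such that `β y` is different from the
`β y'` chosen before, and `g (α x) (β y) ≠ g (α x') (β y')` for all values `x ≠ x'` of `p₁` and all `y'` chosen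
before: for each `(x, x', y')` at most one `b` is forbidden as the row of `α x` is injective; at most
`n + n ^ 3` forbidden ones. Then `g (α x) (β y)` determines `(x, y)`: if `y = y'` use the injective column, if
`x = x'` the injective row, otherwise the choice. So `j ↦ g (α (p₁ j)) (β (p₂ j))` has the kernel of
`mt p₁ p₂`; it is a pattern by the hypothesis for `t j = α (p₁ j)`, `t' j = β (p₂ j)`, which have the
kernels of `p₁`, `p₂` (`PS.ker`). -/
def S_SQA : Prop := ∀ (n m : ℕ) (P : (Fin n → ℕ) → Prop), PS P → ∀ g : Fin m → Fin m → ℕ,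
  (∀ t t' : Fin n → Fin m, P (fun j => (t j).val) → P (fun j => (t' j).val) →
    P (fun j => g (t j) (t' j))) →
  n ≤ {a | Function.Injective (g a)}.ncard →
  n ^ 3 + n + 1 ≤ {b | Function.Injective (fun a => g a b)}.ncard →
  ∀ p₁ p₂, P p₁ → P p₂ → P (mt p₁ p₂)

/-- Many constant rows. Let `C` be the set of the `a` with `g a` constant, `a₀` a row which is injective.
As there are two elements in `C` and some column is injective, the constants `r a`, `a ∈ C`, are different
(in an injective column), so no column is constant, so all the columns are injective, though this is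
needed only for `a ∈ C`. Claim: if `p` is a pattern and `x` one of its values then there is a pattern `p'` with
`p' i = p' j` iff `p i = p j` and (if `p i = x` then `p₂ i = p₂ j`): let `β` be an injective map from the values
of `p₂` to `Fin m` (there are at most `n ≤ m`), `α x = a₀`, and `α` injective on the other values of `p`, with
values in the set of the `a ∈ C` with `r a ≠ g a₀ (β y)` for all values `y` of `p₂` (at most `n` elements of `C`
are forbidden, and `2 n + 2 ≤ C.ncard`); `p' j = g (α (p j)) (β (p₂ j))`. Apply the claim successively, to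
all the values of `p₁` (in the form: for every finite set `F` of values of `p₁` there is a pattern `p'` with
`p' i = p' j` iff `p₁ i = p₁ j` and (if `p₁ i ∈ F` then `p₂ i = p₂ j`); in the induction step for
`x ∉ F` the class `p₁ = x` is a class of `p'`). -/
def S_SQB : Prop := ∀ (n m : ℕ) (P : (Fin n → ℕ) → Prop), PS P → ∀ g : Fin m → Fin m → ℕ,
  (∀ t t' : Fin n → Fin m, P (fun j => (t j).val) → P (fun j => (t' j).val) →
    P (fun j => g (t j) (t' j))) →
  2 * n + 2 ≤ {a | ∃ e, ∀ b, g a b = e}.ncard → (∃ a, Function.Injective (g a)) →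
  (∃ b, Function.Injective (fun a => g a b)) → ∀ p₁ p₂, P p₁ → P p₂ → P (mt p₁ p₂)

/-- No binary homomorphism depends on both coordinates. Let `g` be as in S_BDW; then `P` is closed
under `mt`: let `R`, `C` be the sets of the `a` with injective row, of the `b` with injective column. If
there are two constant rows then all the columns are injective (some column is injective, so the
two constants are different, so no column is constant): `C.ncard = m`; if `n ≤ R.ncard` use S_SQA,
otherwise at least `m - n ≥ 2 n + 2` rows are constant, use S_SQB. If there is at most one constant row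
then `R.ncard ≥ m - 1 ≥ n ^ 3 + n + 1`; exchange the coordinates (`mt p₂ p₁` has the kernel of
`mt p₁ p₂`): if `n ≤ C.ncard` use S_SQA, otherwise S_SQB. -/
def S_SQW : Prop := ∀ (n m : ℕ) (P : (Fin n → ℕ) → Prop), PS P → NCond P → SCond P →
  n ^ 3 + 3 * n + 5 ≤ m → ∀ (I : Type) [Finite I] (f : (I → Fin m) → ℕ), HomN P f →
  ∀ i j : I, DepN f i → DepN f j → i = j

/-- The shape of the homomorphisms: by S_SQW they depend on at most one coordinate. If `f` depends on no
coordinate it is constant (change the coordinates one at a time, `XGU.agree` in `Tree/I_GU.lean` has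
a similar proof), otherwise `f t = k (t i)` with `k a = f (update x i a)`, and `k` is injective by S_LIW, for
it is not constant. -/
def S_UAW : Prop := ∀ (n m : ℕ) (P : (Fin n → ℕ) → Prop), PS P → NCond P → SCond P →
  n ^ 3 + 3 * n + 5 ≤ m → ∀ (I : Type) [Finite I] (f : (I → Fin m) → ℕ), HomN P f →
  (∃ e, ∀ t, f t = e) ∨ ∃ (i : I) (k : Fin m → ℕ), Function.Injective k ∧ ∀ t, f t = k (t i)

/-- The properties of a gadget (compare `Gad.OK`). -/
structure GOK {n : ℕ} (P : (Fin n → ℕ) → Prop) {m p : ℕ} {I : Type} (D : Gad (Fin m) p I) :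
    Prop where
  inj : D.io 0 ≠ D.io 1
  sol : ∀ α β : ZMod p, ∃ f : (I → Fin m) → Fin m, HomN P (fun t => (f t).val) ∧
    ∀ s, f (D.u s) = D.io s ∧ f (D.x s) = D.io (s + α) ∧ f (D.y s) = D.io (s + β) ∧
      f (D.z s) = D.io (s + α + β)
  uns : ∀ (G : Type) [Group G] [Finite G] (g h : G), IsPGroup p G →
    ∀ (H : G → ZMod p → ℕ) (f : G → ZMod p → ZMod p → (I → Fin m) → ℕ),
    (∀ v α β, HomN P (f v α β)) →
    (∀ v α β s, f v α β (D.u s) = H 1 s ∧ f v α β (D.x s) = H v (s + α) ∧
      f v α β (D.y s) = H (v * g) (s + β) ∧ f v α β (D.z s) = H (v * h) (s + α + β - 1)) →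
    ∃ c, (∀ v s, H v s = c) ∧ ∀ v α β t, f v α β t = c

/-- The gadget: the proof of S_GU in `Tree/I_GU.lean` with the shape of the homomorphisms given by
the hypothesis (`I = ZMod 2 × ZMod 2`, `io` injective, `u s = const (io s)`, `x s (α, β) = io (s + α)`,
`y s (α, β) = io (s + β)`, `z s (α, β) = io (s + α + β)`; `io 0 = 0`, `io 1 = 1` in `Fin m`). -/
def S_GDW : Prop := Tree.S_INJ → ∀ (n m : ℕ) (P : (Fin n → ℕ) → Prop), 2 ≤ m →
  (∀ (I : Type) [Finite I] (f : (I → Fin m) → ℕ), HomN P f →
    (∃ e, ∀ t, f t = e) ∨ ∃ (i : I) (k : Fin m → ℕ), Function.Injective k ∧ ∀ t, f t = k (t i)) →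
  ∃ D : Gad (Fin m) 2 (ZMod 2 × ZMod 2), GOK P D

/-- The constant patterns and the first splits of the members of `S`. -/
def PSN {c : ℚ → ℕ} {n : ℕ} (S : (Fin n → Word c) → Prop) (p : Fin n → ℕ) : Prop :=
  (∀ i j, p i = p j) ∨ ∃ v, S v ∧ Spl Set.univ v p

/-- The product with threefold branching. `S' v`: the first `n` entries form a member of `S`, the last
three ones a member of `N3` (`Fin.castAdd 3`, `Fin.natAdd n`); PP by S_PPB (2), (3). Coordinates
`a, b, d`: the last three ones. If `p` is the first split of `v ∈ S'` and not constant on the last three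
coordinates then it is injective there (`Spl.eq_of_cc` and the definition of `Star`). The pattern
of `NCond` for `s₁, s₂, s₃`: let `(u₀, u₁, u₂)` be words which are `c` with the letters `0`, `1`, `2` at the place
`0`, so `N3`. Let `w ∈ S`, `f` a far word for it (S_FAW; `n ≠ 0` because `h` is not constant), `x₀ : Fin n`; by
S_AMW there is `g` with the splits of `w` (so in `S`, by IV), `g x₀ = u₀` and `Cc u₁ (g x) (g y)` for all `x, y`
(`f ↦ u₁`): all `g x` agree with `u₀` up to and including the place `0` (`cc_place`). So `(g, u)` has the first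
split `s₁` on the first part and at `a`, `s₂` at `b`, `s₃` at `d`. `SCond`: the patterns `p` = (`h` on the
first part, `h x₀` on the last three) and `p'` (the same with `h'`): let `v ∈ S` have the first split `h`, at the
place `r`; S_NEW for `F` = all words `v x`, the word `v x₀` and the place `r` gives `e₁` and `r₁ > r`; let `e₀` be
`v x₀` and `e₂` the word `v x₀` with another new letter at the place `r₁`: these three words agree with
`v x₀` up to and including `r` and have three different letters at `r₁`: `N3`. So `(v, e₀, e₁, e₂) ∈ S'` has the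
first split `p`. If `mt p p'` were a pattern of `S'`, it is not constant (`h` is not constant), so it is
the first split of some `v ∈ S'`, and `mt h h'` is the first split of the first part (`Spl.pull`),
contradiction. -/
def S_PDW : Prop := ∀ (c : ℚ → ℕ) (σ : Sig) (𝔅 : Str σ (Word c)), PP 𝔅 (N3 (c := c)) → IV 𝔅 →
  ∀ (n : ℕ) (S : (Fin n → Word c) → Prop), PP 𝔅 S → ∀ h h' : Fin n → ℕ,
  (∃ v, S v ∧ Spl Set.univ v h) → (∃ v, S v ∧ Spl Set.univ v h') →
  (¬ ∃ v, S v ∧ Spl Set.univ v (mt h h')) →
  ∃ S' : (Fin (n + 3) → Word c) → Prop, PP 𝔅 S' ∧ (∃ v, S' v) ∧ NCond (PSN S') ∧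
    SCond (PSN S')

/-! ### The instances (helper28 adapts the proofs of the block Phy) -/

/-- The constraints of the powers. -/
def CT {c : ℚ → ℕ} {n : ℕ} (S : (Fin n → Word c) → Prop) (m : ℕ) (I : Type) : Type :=
  {t : Fin n → I → Fin m // ∀ i, PSN S (fun j => (t j i).val)}

/-- The elements of the instances: main elements; copies of the power; for each constraint of a copy
a copy of `D`; for each tie a copy of `DC`. -/
inductive EE (M G : Type) (p : ℕ) (I T : Type) (n : ℕ) (D DC : Type) : Type
  | main (v : G) (s : ZMod p)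
  | site (v : G) (α β : ZMod p) (t : I → M)
  | fr (v : G) (α β : ZMod p) (t : T) (d : D)
  | tf (τ : TI G p T n) (d : DC)

section
variable {M G : Type} [Group G] {p : ℕ} {I T : Type} {n : ℕ} {D DC : Type} {σ : Sig}

/-- The first element of a tie. -/
def lo (Δ : Gad M p I) (m : Fin n → D) : TI G p T n → EE M G p I T n D DC
  | .f v α β t j => .fr v α β t (m j)
  | .u v α β s => .site v α β (Δ.u s)
  | .x v α β s => .site v α β (Δ.x s)
  | .y v α β s => .site v α β (Δ.y s)
  | .z v α β s => .site v α β (Δ.z s)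

/-- The second element of a tie. -/
def hi (tt : T → Fin n → I → M) (g h : G) (b : ZMod p) : TI G p T n → EE M G p I T n D DC
  | .f v α β t j => .site v α β (tt t j)
  | .u _ _ _ s => .main 1 s
  | .x v α _ s => .main v (s + α)
  | .y v _ β s => .main (v * g) (s + β)
  | .z v α β s => .main (v * h) (s + α + β - b)

/-- The anchor. -/
noncomputable def anc (w : EE M G p I T n D DC) : EE M G p I T n D DC :=
  if w = .main 1 0 then .main 1 1 else .main 1 0

/-- The copy of `DC` for a tie: the marked elements are the anchor and the two elements. -/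
noncomputable def psi (Δ : Gad M p I) (m : Fin n → D) (tt : T → Fin n → I → M) (g h : G)
    (b : ZMod p) (mC : Fin 3 → DC) (τ : TI G p T n) (d : DC) : EE M G p I T n D DC :=
  if d = mC 0 then anc (hi tt g h b τ) else if d = mC 1 then lo Δ m τ
  else if d = mC 2 then hi tt g h b τ else .tf τ d

/-- The instances. -/
noncomputable def JP (𝔇 : Str σ D) (m : Fin n → D) (ℭ : Str σ DC) (mC : Fin 3 → DC)
    (Δ : Gad M p I) (tt : T → Fin n → I → M) (g h : G) (b : ZMod p) :
    Str σ (EE M G p I T n D DC) where
  rel R e := (∃ (v : G) (α β : ZMod p) (t : T) (d : Fin (σ.ar R) → D), 𝔇.rel R d ∧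
      e = fun j => EE.fr v α β t (d j)) ∨
    ∃ (τ : TI G p T n) (d : Fin (σ.ar R) → DC), ℭ.rel R d ∧
      e = fun j => psi Δ m tt g h b mC τ (d j)

/-- The value of the anchor of a main element. -/
noncomputable def av {c : ℚ → ℕ} (M : G → ZMod p → Word c) (v : G) (s : ZMod p) : Word c :=
  if v = 1 ∧ s = 0 then M 1 1 else M 1 0

/-- The conditions which the instance expresses. -/
structure Sat {c : ℚ → ℕ} (S : (Fin n → Word c) → Prop) (Δ : Gad M p I)
    (tt : T → Fin n → I → M) (g h : G) (b : ZMod p) (W : G → ZMod p → Word c)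
    (A : G → ZMod p → ZMod p → (I → M) → Word c)
    (Fr : G → ZMod p → ZMod p → T → Fin n → Word c) : Prop where
  cop : ∀ v α β t, S (Fr v α β t)
  f : ∀ v α β t j, Cc (W 1 0) (Fr v α β t j) (A v α β (tt t j))
  u : ∀ v α β s, Cc (av W 1 s) (A v α β (Δ.u s)) (W 1 s)
  x : ∀ v α β s, Cc (av W v (s + α)) (A v α β (Δ.x s)) (W v (s + α))
  y : ∀ v α β s, Cc (av W (v * g) (s + β)) (A v α β (Δ.y s)) (W (v * g) (s + β))
  z : ∀ v α β s, Cc (av W (v * h) (s + α + β - b)) (A v α β (Δ.z s))
    (W (v * h) (s + α + β - b))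

end

/-- The instances express these conditions (`Phy/I_SAT.lean`). -/
def S_STW : Prop := ∀ (c : ℚ → ℕ) (σ : Sig) (𝔅 : Str σ (Word c)) (n : ℕ)
  (S : (Fin n → Word c) → Prop) (D : Type) (𝔇 : Str σ D) (m : Fin n → D),
  (∀ v, S v ↔ ∃ f : D → Word c, Hom 𝔇 𝔅 f ∧ ∀ x, v x = f (m x)) →
  ∀ (DC : Type) (ℭ : Str σ DC) (mC : Fin 3 → DC),
  (∀ v : Fin 3 → Word c, CC v ↔ ∃ f : DC → Word c, Hom ℭ 𝔅 f ∧ ∀ x, v x = f (mC x)) →
  ∀ (M G : Type) [Group G] (g h : G) (p : ℕ) (I T : Type) (Δ : Gad M p I)
  (tt : T → Fin n → I → M) (b : ZMod p),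
  CSP 𝔅 _ (JP 𝔇 m ℭ mC Δ tt g h b) ↔ ∃ W A Fr, Sat S Δ tt g h b W A Fr

/-- Realization of patterns (`Phy/I_RLZ.lean`). -/
def S_RZW : Prop := ∀ (c : ℚ → ℕ) (n : ℕ) (S : (Fin n → Word c) → Prop),
  (∀ v w, Same v w → S v → S w) → (∃ v, S v) →
  ∀ p : Fin n → ℕ, PSN S p → ∀ q₀ q₁ : ℚ, q₀ < q₁ → ∃ V, S V ∧
    ∀ x, (∀ q' < q₁, q' ≠ q₀ → (V x).1 q' = c q') ∧ (V x).1 q₀ = p x ∧ (V x).1 q₁ = 0

/-- `J_0` is solvable (`Phy/I_SA0.lean`). -/
def S_S0W : Prop := ∀ (c : ℚ → ℕ) (n : ℕ) (S : (Fin n → Word c) → Prop),
  (∀ v w, Same v w → S v → S w) → (∃ v, S v) →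
  ∀ (G : Type) [Group G] (g h : G) (m p : ℕ) (I : Type) (Δ : Gad (Fin m) p I), GOK (PSN S) Δ →
  ∃ W A Fr, Sat S Δ (fun t : CT S m I => t.1) g h 0 W A Fr

/-- `J_1` is not solvable (`Phy/I_UN1.lean`). -/
def S_U1W : Prop := ∀ (c : ℚ → ℕ) (n : ℕ) (S : (Fin n → Word c) → Prop) (G : Type) [Group G]
  [Finite G] (g h : G) (m p : ℕ) (I : Type) [Finite I] (Δ : Gad (Fin m) p I), p.Prime →
  IsPGroup p G → GOK (PSN S) Δ → ¬ ∃ W A Fr, Sat S Δ (fun t : CT S m I => t.1) g h 1 W A Fr

/-- The two instances are equivalent for `k` pebbles (`Phy/I_BFP.lean`). -/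
def S_BFW : Prop := ∀ (σ : Sig) (M G : Type) [Group G] [Finite G] (g h : G) (p n : ℕ)
  (I T D DC : Type) (𝔇 : Str σ D) (m : Fin n → D) (ℭ : Str σ DC) (mC : Fin 3 → DC)
  (Δ : Gad M p I) (tt : T → Fin n → I → M) (k : ℕ), p.Prime →
  (∀ v : G, (row g h v).card = 3) → Den (row g h) (3 * k + 5) →
  ∃ Z : (Fin k → EE M G p I T n D DC) → (Fin k → EE M G p I T n D DC) → Prop,
    BFSys (JP 𝔇 m ℭ mC Δ tt g h 0) (JP 𝔇 m ℭ mC Δ tt g h 1) k Z ∧ ∃ v w, Z v w

end Pool.Agent.Work.MP_8dbde4_lc.Om
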