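import Pool.Agent.Work.MP_8dbde4_lc.Om.Stmts
import Pool.Agent.Work.MP_8dbde4_lc.TS.Closure

/-!
Statements of the block Om of MP_8dbde4_lc, third part: the positive part (HornR implies FP). Every
docstring contains the proof.
-/

set_option autoImplicit false
open Classical

namespace Pool.Agent.Work.MP_8dbde4_lc.Om

open Pool.Agent.Work.MP_8dbde4_lc.TS
open Pool.Agent.Work.MP_8dbde4_lc.Tree (Word Agr Cc Lang IsStep)
open Pool.Agent.Work.MP_8dbde4_lc.Phy (PP Hom ssum both)

/-- The data of a condition on patterns of arity `k ≤ N`: a set `E` of pairs and a pair `(i, j)`. -/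
abbrev SyR (N : ℕ) : Type :=
  Σ k : Fin (N + 1), Set (Fin k.val × Fin k.val) × Fin k.val × Fin k.val

/-- The signature: a symbol for each condition, and a binary symbol. -/
noncomputable def sR (N : ℕ) : Sig where
  S := SyR N ⊕ Unit
  fin := Fintype.ofFinite _
  ar := Sum.elim (fun s => s.1.val) (fun _ => 2)

/-- `inl (k, E, i, j)`: if the first split does not separate the pairs in `E` then it does not
separate `i` and `j`; `inr ()`: disequality. -/
def LR (N : ℕ) : Lang (sR N) ℕ where
  P
    | .inl s => fun p => (∀ e ∈ s.2.1, p e.1 = p e.2) → p s.2.2.1 = p s.2.2.2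
    | .inr _ => fun _ => True
  strict
    | .inl _ => False
    | .inr _ => True
  const
    | .inl _ => fun _ _ => rfl
    | .inr _ => fun _ => trivial

/-- The closure: the pairs which no step on `W` separates. -/
inductive Clo {A : Type} {N : ℕ} (𝔄 : Str (sR N) A) (W : Set A) : A → A → Prop
  | refl (x : A) : Clo 𝔄 W x x
  | symm {x y : A} : Clo 𝔄 W x y → Clo 𝔄 W y x
  | trans {x y z : A} : Clo 𝔄 W x y → Clo 𝔄 W y z → Clo 𝔄 W x z
  | step (s : SyR N) (t : Fin s.1.val → A) : 𝔄.rel (Sum.inl s) t → (∀ l, t l ∈ W) →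
      (∀ e ∈ s.2.1, Clo 𝔄 W (t e.1) (t e.2)) → Clo 𝔄 W (t s.2.2.1) (t s.2.2.2)

/-- The finest step. `Clo 𝔄 W` is an equivalence relation on the finite set `A`; let `h : A → ℕ` number its
classes; it is a step by the constructor `step`. The second part: induction on `Clo`. -/
def S_CLW : Prop := ∀ (N : ℕ) (A : Type) [Finite A] (𝔄 : Str (sR N) A) (W : Set A),
  (∃ h : A → ℕ, IsStep (LR N) 𝔄 W h ∧ ∀ x y, h x = h y ↔ Clo 𝔄 W x y) ∧
  ∀ h : A → ℕ, IsStep (LR N) 𝔄 W h → ∀ x y, Clo 𝔄 W x y → h x = h y

/-- The stages: separate the elements of a class which are not in the same class of the closure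
inside the class. -/
def Sep {A : Type} {N : ℕ} (𝔄 : Str (sR N) A) : ℕ → A → A → Prop
  | 0 => fun _ _ => False
  | n + 1 => fun x y => Sep 𝔄 n x y ∨ ¬ Clo 𝔄 {z | ¬ Sep 𝔄 n x z} x y

/-- All pairs with a disequality constraint are separated. -/
def Acc {A : Type} {N : ℕ} (𝔄 : Str (sR N) A) : Prop :=
  ∀ t : Fin 2 → A, 𝔄.rel (Sum.inr ()) t → ∃ n, Sep 𝔄 n (t 0) (t 1)

/-- Correctness of the refinement. All the relations `¬ Sep n` are equivalence relations (induction:
the set `{z | ¬ Sep n x z}` is the class of `x`, the same for all its members; `¬ Sep (n + 1) x y` iff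
`¬ Sep n x y` and `Clo` (in this class) `x y`). (→) The stages are stable from some `n` on (`A` is finite).
Suppose that the disequality constraint `t` is never separated; let `W` be the class of `t 0` at the
stable stage `n`; `t` is a strict constraint inside `W`, so `Res` gives a step `h` on `W` and `a, b ∈ W` with
`h a ≠ h b`, so not `Clo 𝔄 W a b` (S_CLW): `Sep (n + 1) a b`, but not `Sep n a b`, contradiction. (←) Let the
strict constraint `t` (a disequality) be inside `W`. Take the least `n` such that two elements `a, b` of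
`W` satisfy `Sep (n + 1) a b`. So `W ⊆ W' = {z | ¬ Sep n a z}` and not `Clo 𝔄 W' a b`; the step `h` on `W'` of
S_CLW is a step on `W` and `h a ≠ h b`. See `Tree/I_REF.lean`. -/
def S_RFW : Prop := ∀ (N : ℕ) (A : Type) [Finite A] (𝔄 : Str (sR N) A),
  Tree.Res (LR N) 𝔄 ↔ Acc 𝔄

/-- The formula (helper28 proves this one, with `HP/Logic.lean`). -/
def S_FMW : Prop := ∀ N : ℕ, InFP (fun (A : Type) (𝔄 : Str (sR N) A) => Acc 𝔄)

/-- The expansion of `𝔅` by the relations of `LR N`. -/
noncomputable def Bp {c : ℚ → ℕ} {σ : Sig} (𝔅 : Str σ (Word c)) (N : ℕ) : Str (ssum σ (sR N)) (Word c) :=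
  both 𝔅 ((LR N).tree c)

/-- The symbols `inl s` of `LR N`. -/
noncomputable def Pgc (σ : Sig) (N : ℕ) : Set (ssum σ (sR N)).S := {R | ∃ s : SyR N, R = Sum.inr (Sum.inl s)}

/-- The disequality symbol. -/
noncomputable def nes (σ : Sig) (N : ℕ) : (ssum σ (sR N)).S := Sum.inr (Sum.inr ())

/-- First-split languages whose patterns depend only on the kernel are preserved by an injective
binary operation: let `ψ₁`, `ψ₂` be increasing maps from `ℚ` to the negative and the positive rationals;
`g(x, y)` has at the place `ψ₁ q'` the letter `Equiv.swap (c q') (c (ψ₁ q')) (x q')`, at `ψ₂ q'` the letter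
`Equiv.swap (c q') (c (ψ₂ q')) (y q')`, and the letter of `c` elsewhere: it differs from `c` in finitely many
places. At `ψ₁ q'` the letters of `g(x, y)`, `g(x', y')` are equal iff those of `x`, `x'` at `q'` are; the same for
`ψ₂`, `y`, `y'`. So `g` is injective, and if the first tuple is not constant its first split at `q'` gives
the first split of the image at `ψ₁ q'`, with a pattern with the same kernel; otherwise the same for
the second tuple; if both are constant so is the image. See `Phy/I_LEX.lean` (proved, for two letters). -/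
def S_LXW : Prop := ∀ c : ℚ → ℕ, ∃ g : (Fin 2 → Word c) → Word c, Function.Injective g ∧
  ∀ (σ : Sig) (L : Lang σ ℕ),
  (∀ R p p', (∀ x y, p x = p y ↔ p' x = p' y) → L.P R p → L.P R p') →
  ∀ (R : σ.S) (t : Fin 2 → Fin (σ.ar R) → Word c), (∀ i, (L.tree c).rel R (t i)) →
    (L.tree c).rel R (fun j => g (fun i => t i j))

/-- Horn clauses over first splits are Horn clauses over the relations `inl s` of `LR N`, where `N` is the
sum of all arities: for a clause with the conclusion `some (i, j, Y, E)` of a relation of arity `n` let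
`B = insert i (insert j Y)`; use the symbol `(n, {e ∈ E : e.1, e.2 ∈ B}, i, j)` with the tuple
`l ↦ (if l ∈ B then l else i)`: `((LR N).tree c).rel` of it says the same as the conclusion (the first split
of the tuple on `Fin n` is that of `v` on `B`). Premises: list the pairs. The set `cs` is finite (`Cl n` is a
finite type). The symbols `inl s` themselves: the clause without premises; the disequality: the
clause `v 0 = v 1 → false`. See `Phy/I_HDF.lean` (proved, for two letters). -/
def S_HDW : Prop := ∀ (c : ℚ → ℕ) (σ : Sig) (𝔅 : Str σ (Word c)), (∀ R, HornR (𝔅.rel R)) →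
  ∃ N : ℕ, HornDefinable (Bp 𝔅 N) (Pgc σ N)

/-- Renaming and forgetting symbols: adapt `Phy/I_TRA.lean` (`Phy.trA`, `Phy.TRA_pf` are for arbitrary
signatures). -/
def S_TRW : Prop := ∀ (c : ℚ → ℕ) (σ : Sig) (𝔅 : Str σ (Word c)) (N : ℕ),
  (InFP (CSP ((LR N).tree c)) → InFP (CSP ((Bp 𝔅 N).sub (insert (nes σ N) (Pgc σ N))))) ∧
  (InFP (CSP (Bp 𝔅 N)) → InFP (CSP 𝔅))

/-- The positive part. By `Tree.S_RES` (`CSP ((LR N).tree c)` is `Res`), S_RFW, S_FMW the language `LR N` is in
FP. `inFP_closure` (TS/Closure.lean, proved) for `Bp 𝔅 N`, `m = 1`, `P 0 = Pgc σ N`, `ne = nes σ N`: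
`HasInjOn` from S_LXW, `Glues` from `glues_one`, `IsNe` directly, S_HDW, S_TRW. See `Phy/I_POP.lean`. -/
def S_PPW : Prop := ∀ (c : ℚ → ℕ) (σ : Sig) (𝔅 : Str σ (Word c)), (∀ R, HornR (𝔅.rel R)) →
  InFP (CSP 𝔅)

end Pool.Agent.Work.MP_8dbde4_lc.Om
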